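import Mathlib

/-!
# The Dyer-Lashof operations on the `MU`-dual Steenrod algebra: definitions

`F` is a commutative formal group law over `L` (for `π_* MU`: the universal one, over the Lazard ring),
`e` is a formal variable, `Tate F p = L((e)) / ([p]_F(e))` is the ring `π_* MU^{tC_p}`.
-/

set_option autoImplicit false

namespace Pool.Agent.MUDL

open MvPowerSeries

noncomputable section

/-- The pair `(L, F)` is universal: `F` is commutative, and every commutative formal group law over a
commutative ring `S` is `F.map f` for a unique ring homomorphism `f : L → S`. -/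
def IsUniversal {L : Type} [CommRing L] (F : FormalGroup L) : Prop :=
  F.IsComm ∧ ∀ (S : Type) [CommRing S] (G : FormalGroup S), G.IsComm → ∃! f : L →+* S, F.map f = G

variable {L : Type} [CommRing L] (F : FormalGroup L) (p : ℕ)

/-- The coefficient `a_{ij}` of `X^i Y^j` in `F(X, Y)`. -/
def cf (i j : ℕ) : L :=
  F.toPowerSeries.coeff (Finsupp.single 0 i + Finsupp.single 1 j)

/-- The multiple `[n]_F(y) = y +_F ⋯ +_F y`. -/
def mulN {σ : Type} (y : MvPowerSeries σ L) : ℕ → MvPowerSeries σ L
  | 0 => 0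
  | n + 1 => F.toPowerSeries.subst ![mulN y n, y]

/-- The series `[n]_F(e)` in `L[[e]]`. -/
def mulE (n : ℕ) : PowerSeries L := mulN F (PowerSeries.X : PowerSeries L) n

/-- The ring `L((e)) / ([p]_F(e))`. -/
abbrev Tate : Type := LaurentSeries L ⧸ Ideal.span {HahnSeries.ofPowerSeries ℤ L (mulE F p)}

/-- The class in `L((e)) / ([p]_F(e))` of a power series in `e`. -/
def evE : PowerSeries L →+* Tate F p :=
  (Ideal.Quotient.mk _).comp (HahnSeries.ofPowerSeries ℤ L)

/-- The class of a constant. -/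
def cst : L →+* Tate F p := (evE F p).comp PowerSeries.C

/-- A series `G(t, e)` in `L[[t, e]]`, `t = X 0`, `e = X 1`, as a series in `t` over
`L((e)) / ([p]_F(e))`. -/
def fib (G : MvPowerSeries (Fin 2) L) : PowerSeries (Tate F p) :=
  PowerSeries.mk fun k => evE F p
    (PowerSeries.mk fun j => G.coeff (Finsupp.single 0 k + Finsupp.single 1 j))

/-- The series `t +_F [i]_F(e)` in `L[[t, e]]`, `t = X 0`, `e = X 1`. -/
def trans (i : ℕ) : MvPowerSeries (Fin 2) L :=
  F.toPowerSeries.subst ![X 0, mulN F (X 1) i]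

/-- The product of the `[i]_F(e)`, `0 < i < p`; it is a unit. -/
def eul : Tate F p := ∏ i ∈ Finset.Ico 1 p, evE F p (mulE F i)

/-- The coordinate `Φ(t) = ∏_{0 ≤ i < p} (t +_F [i]_F(e)) / ∏_{0 < i < p} [i]_F(e)` of the quotient of
`F` by the subgroup generated by `e`. -/
def Phi : PowerSeries (Tate F p) :=
  PowerSeries.C (Ring.inverse (eul F p)) * ∏ i ∈ Finset.range p, fib F p (trans F i)

/-- `φ` is the Tate-valued Frobenius of `MU` on coefficients: it carries `F` to the quotient of `F` by
the subgroup generated by `e`, that is `(φ F)(Φ(X), Φ(Y)) = Φ(F(X, Y))`. -/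
def IsFrob (φ : L →+* Tate F p) : Prop :=
  (F.map φ).toPowerSeries.subst
      ![PowerSeries.subst (X 0 : MvPowerSeries (Fin 2) (Tate F p)) (Phi F p),
        PowerSeries.subst (X 1 : MvPowerSeries (Fin 2) (Tate F p)) (Phi F p)] =
    PowerSeries.subst (F.map (cst F p)).toPowerSeries (Phi F p)

/-- The ideal generated by the coefficients of `F` other than those of `X` and `Y`. -/
def augI : Ideal L := Ideal.span {a | ∃ i j, 2 ≤ i + j ∧ a = cf F i j}

/-- The ideal `I` generated by `p` and the coefficients of `F` other than those of `X` and `Y`: the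
kernel of `π_* MU → F_p`. -/
def bigI : Ideal L := Ideal.span {(p : L)} ⊔ augI F

theorem augI_le : augI F ≤ bigI F p := le_sup_right

/-- `z ≡ w` modulo `I²`: the difference is the class of a Laurent series with coefficients in `I²`. -/
def Cong (z w : Tate F p) : Prop :=
  ∃ g : LaurentSeries L, (∀ k, g.coeff k ∈ bigI F p ^ 2) ∧ z - w = Ideal.Quotient.mk _ g

/-- The class of `∑ c_k e^k`. -/
def ser (c : ℕ → L) : Tate F p := evE F p (PowerSeries.mk c)

/-- `N` is a power of `p`. -/
def IsPP (p N : ℕ) : Prop := ∃ k, N = p ^ k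

open Classical in
/-- The coefficient of `X^i Y^j` in `((X + Y)^N - X^N - Y^N) / d`, `N = i + j`, `d = p` if `N` is a
power of `p` and `d = 1` otherwise. -/
def cpN (p i j : ℕ) : ℕ := (i + j).choose i / (if IsPP p (i + j) then p else 1)

/-- Lazard generators at `p`: `x_0 = p`, and `F(X, Y) ≡ X + Y + ∑_{n ≥ 1} x_n C_{n+1}(X, Y)` modulo
`I²`, where `C_N(X, Y) = ((X + Y)^N - X^N - Y^N) / d`, `d = p` if `N` is a power of `p` and `d = 1`
otherwise. -/
structure IsGen (x : ℕ → L) : Prop where
  zero : x 0 = p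
  mem : ∀ n, 1 ≤ n → x n ∈ augI F
  coef : ∀ i j, 1 ≤ i → 1 ≤ j → cf F i j - cpN p i j • x (i + j - 1) ∈ bigI F p ^ 2

theorem IsGen.mem_bigI {F : FormalGroup L} {p : ℕ} {x : ℕ → L} (h : IsGen F p x) (n : ℕ) :
    x n ∈ bigI F p := by
  rcases Nat.eq_zero_or_pos n with rfl | hn
  · rw [h.zero]
    exact Ideal.mem_sup_left (Ideal.subset_span rfl)
  · exact augI_le F p (h.mem n hn)

open Classical in
/-- The coefficient of `x_{n + s(p-1)} e^{s(p-1)}` in `φ(x_n)`. -/
def mu (p n s : ℕ) : ZMod p :=
  if s ≤ n then 0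
  else if IsPP p (n + s * (p - 1) + 1) then
    (if n = 0 then 1
     else if IsPP p (n + 1) then -1
     else if (Nat.digits p (n + 1)).sum = p then
       ((((Nat.digits p (n + 1)).map Nat.factorial).prod : ℕ) : ZMod p)⁻¹
     else 0)
  else if IsPP p (n + 1) then 0
  else (-1) ^ (n + 1) * ((s - 1).choose n : ZMod p)

/-- The coefficient of `σ x_{n + s(p-1)}` in `Q^s σ x_n` (in `Q^{2s} σ x_n` if `p = 2`). -/
def dl (p n s : ℕ) : ZMod p := (-1) ^ s * mu p n s

/-- The exterior algebra of the `F_p`-vector space `I / I²`: the ring `π_* (HF_p ∧_{MU} HF_p)`. -/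
abbrev DA : Type := ExteriorAlgebra (L ⧸ bigI F p) (bigI F p).Cotangent

/-- The class `σ y` of an element `y` of `I`. -/
def sig (y : L) (hy : y ∈ bigI F p) : DA F p :=
  ExteriorAlgebra.ι (L ⧸ bigI F p) ((bigI F p).toCotangent ⟨y, hy⟩)

/-- All the operations on `A = π_* (HF_p ∧_{MU} HF_p)`: for every integer `s`, `Q s` is `Q^s` (`Q^{2s}` if
`p = 2`) and `B s` is `β Q^s` (`Q^{2s-1}` if `p = 2`). They are additive and vanish for `s < 0`, the Cartan
formulas hold (`involute` is `a ↦ (-1)^{|a|} a`), and, for `y` in `I`, `Q^s σ y = (-1)^s σ c_{s(p-1)}` and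
`β Q^s σ y = 0` if `φ(y) ≡ ∑ c_k e^k` modulo `I²`, where `c_k` is in the ideal generated by the coefficients of `F`
other than those of `X` and `Y`.

Why the last two clauses hold in topology. `σ y` is the loop formed by the two null-homotopies of `y` in
`R = HF_p ∧_{MU} HF_p`, through the left and the right factor. The Tate-valued Frobenius of `R` is compatible
with `φ` and with the Frobenius of each factor. It sends the null-homotopy of `y` in `HF_p` to a null-homotopy of
`φ(y)` in `HF_p^{tC_p}`, which differs from the one given by those of the `c_k` (these are unique since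
`π_j HF_p = 0` for `j > 0`) by some `δ = a u e^{-n-1}`, `|y| = 2n`, `a` in `F_p`. So it sends `σ y` to
`∑ σ(c_k) e^k + a (u_R - u_L) e^{-n-1}`, and `u_R - u_L` is `σ(p)` plus terms divisible by `e`. The left side has
no term `σ(p) e^{-n-1}`, as `Q^t σ y = 0` for `2t < 2n + 1`. So `a = 0`, and `Q^s`, `β Q^s` are read off from the
coefficients, with the usual sign `(-1)^s`. -/
structure IsDL (φ : L →+* Tate F p) (Q B : ℤ → DA F p →+ DA F p) : Prop where
  neg : ∀ s, s < 0 → Q s = 0
  bneg : ∀ s, s < 0 → B s = 0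
  one : ∀ s, Q s 1 = if s = 0 then 1 else 0
  bone : ∀ s, B s 1 = 0
  cartan : ∀ s a b, Q s (a * b) = ∑ i ∈ Finset.Icc 0 s, Q i a * Q (s - i) b +
    if p = 2 then ∑ i ∈ Finset.Icc 0 (s + 1), B i a * B (s + 1 - i) b else 0
  bcartan : ∀ s a b, B s (a * b) = ∑ i ∈ Finset.Icc 0 s,
    (B i a * Q (s - i) b + CliffordAlgebra.involute (Q i a) * B (s - i) b)
  gen : ∀ (y : L) (hy : y ∈ bigI F p) (c : ℕ → L) (hc : ∀ k, c k ∈ augI F),
    Cong F p (φ y) (ser F p c) → ∀ s : ℕ,
      Q s (sig F p y hy) = (-1) ^ s * sig F p (c (s * (p - 1))) (augI_le F p (hc _))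
  bgen : ∀ (s : ℤ) (y : L) (hy : y ∈ bigI F p), B s (sig F p y hy) = 0

end

end Pool.Agent.MUDL
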