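import Mathlib
import Pool.Agent.Lib.MP_eb0266_gt.Defs

/-! Combinatorial quantities over `F_p`. -/

set_option autoImplicit false

namespace Pool.Agent.MUDL

open Finset

noncomputable section

/-- The coefficient of `x_m e^{m-n}` in `φ(x_n)`. -/
def lam (p n m : ℕ) : ZMod p :=
  if (p - 1) ∣ (m - n) then mu p n ((m - n) / (p - 1)) else 0

open Classical in
/-- `i^{m+1} - i` if `m + 1` is not a power of `p`, and `0` otherwise -/
def edp (p i m : ℕ) : ZMod p := if IsPP p (m + 1) then 0 else (i : ZMod p) ^ (m + 1) - i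

/-- `C_{m+1}(T, i) + edp p i m` -/
def Ep (p m i : ℕ) : Polynomial (ZMod p) :=
  ∑ k ∈ Ico 1 (m + 1),
    Polynomial.C ((cpN p k (m + 1 - k) : ZMod p) * (i : ZMod p) ^ (m + 1 - k)) * Polynomial.X ^ k +
  Polynomial.C (edp p i m)

/-- `∑_i Ep_i ∏_{k ≠ i} (T + k)` -/
def Vp (p m : ℕ) : Polynomial (ZMod p) :=
  ∑ i ∈ range p, Ep p m i *
    ∏ k ∈ (range p).erase i, (Polynomial.X + Polynomial.C (k : ZMod p))

/-- `∑_{0 < i < p} edp_i ∏_{k ≠ i} k` -/
def vp (p m : ℕ) : ZMod p :=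
  ∑ i ∈ Ico 1 p, edp p i m * ∏ k ∈ (Ico 1 p).erase i, (k : ZMod p)

/-- the part of `Φ` with coefficients in `I` -/
def Up (p m : ℕ) : Polynomial (ZMod p) :=
  Vp p m + Polynomial.C (vp p m) * (Polynomial.X ^ p - Polynomial.X)

/-- `C_N(u, v) = ∑_{0 < k < N} c_{k, N-k} u^k v^{N-k}` in any commutative ring -/
def CC {A : Type} [CommRing A] (p N : ℕ) (u v : A) : A :=
  ∑ k ∈ Ico 1 N, (cpN p k (N - k) : A) * u ^ k * v ^ (N - k)

/-- the coefficient of `X^i Y^j` in `C_{n+1}(X - X^p, Y - Y^p)` -/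
def bb (p n i j : ℕ) : ZMod p :=
  ∑ k ∈ Ico 1 (n + 1), (cpN p k (n + 1 - k) : ZMod p) *
    ((Polynomial.X - Polynomial.X ^ p : Polynomial (ZMod p)) ^ k).coeff i *
    ((Polynomial.X - Polynomial.X ^ p : Polynomial (ZMod p)) ^ (n + 1 - k)).coeff j

end

end Pool.Agent.MUDL
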