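import Mathlib
import Pool.Agent.Lib.MP_eb0266_gt.Comb

/-!
Row S. Substitution of congruent series into a series with coefficients in an ideal.
Proof: `MvPowerSeries.coeff_subst` gives both sides as a `finsum` over `d` of
`coeff d f * coeff e (∏ a_s ^ d_s)`; the differences of the second factors are in `𝔟` (map to `R ⧸ 𝔟`).
-/

set_option autoImplicit false

namespace Pool.Agent.MUDL

open MvPowerSeries

theorem mudlS_prod_congr {R : Type} [CommRing R] {σ τ : Type} (𝔟 : Ideal R)
    (a b : σ → MvPowerSeries τ R)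
    (hab : ∀ s e, (a s).coeff e - (b s).coeff e ∈ 𝔟) (d : σ →₀ ℕ) (e : τ →₀ ℕ) :
    coeff e (d.prod fun s k => (a s) ^ k) - coeff e (d.prod fun s k => (b s) ^ k) ∈ 𝔟 := by
  have h1 : ∀ s, MvPowerSeries.map (σ := τ) (Ideal.Quotient.mk 𝔟) (a s) =
      MvPowerSeries.map (σ := τ) (Ideal.Quotient.mk 𝔟) (b s) := by
    intro s
    ext n
    rw [coeff_map, coeff_map]
    exact (Ideal.Quotient.eq).mpr (hab s n)
  have h2 : MvPowerSeries.map (σ := τ) (Ideal.Quotient.mk 𝔟) (d.prod fun s k => (a s) ^ k) =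
      MvPowerSeries.map (σ := τ) (Ideal.Quotient.mk 𝔟) (d.prod fun s k => (b s) ^ k) := by
    rw [map_finsuppProd, map_finsuppProd]
    simp only [map_pow, h1]
  rw [← Ideal.Quotient.eq, ← coeff_map, ← coeff_map, h2]

theorem mudlS_finsum_mem {R ι : Type} [CommRing R] (I : Ideal R) (f : ι → R)
    (hf : ∀ i, f i ∈ I) : (∑ᶠ i, f i) ∈ I :=
  finsum_induction (fun x => x ∈ I) I.zero_mem (fun _ _ hx hy => I.add_mem hx hy) hf

theorem subst_congr {R : Type} [CommRing R] {σ τ : Type} [Finite σ] (𝔞 𝔟 : Ideal R)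
    (f : MvPowerSeries σ R) (hf : ∀ d, f.coeff d ∈ 𝔞) (a b : σ → MvPowerSeries τ R)
    (ha : HasSubst a) (hb : HasSubst b) (hab : ∀ s e, (a s).coeff e - (b s).coeff e ∈ 𝔟) :
    ∀ e, (f.subst a).coeff e - (f.subst b).coeff e ∈ 𝔞 * 𝔟 := by
  intro e
  rw [coeff_subst ha, coeff_subst hb,
    ← finsum_sub_distrib (coeff_subst_finite ha f e) (coeff_subst_finite hb f e)]
  refine mudlS_finsum_mem _ _ fun d => ?_
  rw [smul_eq_mul, smul_eq_mul, ← mul_sub]
  exact Ideal.mul_mem_mul (hf d) (mudlS_prod_congr 𝔟 a b hab d e)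

/-- coefficients of `f(a)` are in `𝔞` if those of `f` are -/
theorem subst_mem {R : Type} [CommRing R] {σ τ : Type} [Finite σ] (𝔞 : Ideal R)
    (f : MvPowerSeries σ R) (hf : ∀ d, f.coeff d ∈ 𝔞) (a : σ → MvPowerSeries τ R)
    (ha : HasSubst a) : ∀ e, (f.subst a).coeff e ∈ 𝔞 := by
  intro e
  rw [coeff_subst ha]
  refine mudlS_finsum_mem _ _ fun d => ?_
  rw [smul_eq_mul]
  exact 𝔞.mul_mem_right _ (hf d)

theorem mudlS_coeff_mul {R : Type} [CommRing R] (f g : PowerSeries R) (i j : ℕ) :
    (PowerSeries.subst (X 0 : MvPowerSeries (Fin 2) R) f *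
        PowerSeries.subst (X 1 : MvPowerSeries (Fin 2) R) g).coeff
        (Finsupp.single 0 i + Finsupp.single 1 j) =
      PowerSeries.coeff i f * PowerSeries.coeff j g := by
  classical
  rw [MvPowerSeries.coeff_mul,
    Finset.sum_eq_single (Finsupp.single 0 i, Finsupp.single 1 j) ?_ ?_]
  · rw [PowerSeries.coeff_subst_single, PowerSeries.coeff_subst_single]
    simp
  · intro b hb hb'
    rw [PowerSeries.coeff_subst_single, PowerSeries.coeff_subst_single]
    by_contra hne
    rcases ne_zero_and_ne_zero_of_mul hne with ⟨h0, h1⟩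
    have e0 : b.1 = Finsupp.single 0 (b.1 0) := by
      by_contra h
      rw [if_neg h] at h0
      exact h0 rfl
    have e1 : b.2 = Finsupp.single 1 (b.2 1) := by
      by_contra h
      rw [if_neg h] at h1
      exact h1 rfl
    have hsum := Finset.HasAntidiagonal.mem_antidiagonal.mp hb
    have k0 : b.1 0 = i := by
      have := DFunLike.congr_fun hsum 0
      have z : b.2 0 = 0 := by rw [e1]; simp
      simpa [z] using this
    have k1 : b.2 1 = j := by
      have := DFunLike.congr_fun hsum 1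
      have z : b.1 1 = 0 := by rw [e0]; simp
      simpa [z] using this
    apply hb'
    rw [Prod.ext_iff]
    exact ⟨by rw [e0, k0], by rw [e1, k1]⟩
  · intro h
    exact absurd (by simp) h

theorem mudlS_coeff_pow_zero {R : Type} [CommRing R] (u : PowerSeries R)
    (hu : PowerSeries.constantCoeff u = 0) (k i : ℕ) (h : i < k) :
    PowerSeries.coeff i (u ^ k) = 0 := by
  have h1 : (PowerSeries.X : PowerSeries R) ∣ u := PowerSeries.X_dvd_iff.mpr hu
  exact PowerSeries.X_pow_dvd_iff.mp (pow_dvd_pow_of_dvd h1 k) i h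

/-- coefficient of `X^i Y^j` in `G(u(X), v(Y))`, where `u`, `v` have zero constant coefficient -/
theorem coeff_subst_two {R : Type} [CommRing R] (G : MvPowerSeries (Fin 2) R) (u v : PowerSeries R)
    (hu : PowerSeries.constantCoeff u = 0) (hv : PowerSeries.constantCoeff v = 0) (i j : ℕ) :
    (G.subst ![PowerSeries.subst (X 0 : MvPowerSeries (Fin 2) R) u,
        PowerSeries.subst (X 1 : MvPowerSeries (Fin 2) R) v]).coeff
        (Finsupp.single 0 i + Finsupp.single 1 j) =
      ∑ k ∈ Finset.range (i + 1), ∑ l ∈ Finset.range (j + 1),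
        G.coeff (Finsupp.single 0 k + Finsupp.single 1 l) *
          PowerSeries.coeff i (u ^ k) * PowerSeries.coeff j (v ^ l) := by
  classical
  have hs : HasSubst ![PowerSeries.subst (X 0 : MvPowerSeries (Fin 2) R) u,
      PowerSeries.subst (X 1 : MvPowerSeries (Fin 2) R) v] := by
    refine hasSubst_of_constantCoeff_zero fun s => ?_
    fin_cases s
    · exact PowerSeries.constantCoeff_subst_eq_zero (by simp) u hu
    · exact PowerSeries.constantCoeff_subst_eq_zero (by simp) v hv
  have hterm : ∀ d : Fin 2 →₀ ℕ, coeff d G • coeff (Finsupp.single 0 i + Finsupp.single 1 j)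
      (d.prod fun s k => (![PowerSeries.subst (X 0 : MvPowerSeries (Fin 2) R) u,
        PowerSeries.subst (X 1 : MvPowerSeries (Fin 2) R) v] s) ^ k) =
      coeff d G * (PowerSeries.coeff i (u ^ d 0) * PowerSeries.coeff j (v ^ d 1)) := by
    intro d
    rw [smul_eq_mul, Finsupp.prod_fintype _ _ (fun _ => pow_zero _), Fin.prod_univ_two]
    simp only [Matrix.cons_val_zero, Matrix.cons_val_one]
    rw [← PowerSeries.subst_pow (PowerSeries.HasSubst.X 0),
      ← PowerSeries.subst_pow (PowerSeries.HasSubst.X 1), mudlS_coeff_mul]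
  rw [coeff_subst hs, finsum_congr hterm]
  have hinj : Function.Injective
      (fun kl : ℕ × ℕ => (Finsupp.single 0 kl.1 + Finsupp.single 1 kl.2 : Fin 2 →₀ ℕ)) := by
    intro p q hpq
    have h0 := DFunLike.congr_fun hpq 0
    have h1 := DFunLike.congr_fun hpq 1
    simp at h0 h1
    exact Prod.ext h0 h1
  rw [finsum_eq_sum_of_support_subset (s := ((Finset.range (i + 1)) ×ˢ (Finset.range (j + 1))).image
      (fun kl : ℕ × ℕ => (Finsupp.single 0 kl.1 + Finsupp.single 1 kl.2 : Fin 2 →₀ ℕ))),
    Finset.sum_image (fun p _ q _ h => hinj h), Finset.sum_product]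
  · refine Finset.sum_congr rfl fun k _ => Finset.sum_congr rfl fun l _ => ?_
    simp [mul_assoc]
  · intro d hd
    rw [Function.mem_support] at hd
    have h0 : d 0 ≤ i := by
      by_contra h
      rw [mudlS_coeff_pow_zero u hu (d 0) i (by omega)] at hd
      simp at hd
    have h1 : d 1 ≤ j := by
      by_contra h
      rw [mudlS_coeff_pow_zero v hv (d 1) j (by omega)] at hd
      simp at hd
    rw [Finset.coe_image]
    refine ⟨(d 0, d 1), ?_, ?_⟩
    · simp only [Finset.coe_product, Set.mem_prod, Finset.mem_coe, Finset.mem_range]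
      omega
    · ext s
      fin_cases s <;> simp

/-- coefficient of `X^i Y^j` in `f(X + Y)` -/
theorem coeff_subst_add {R : Type} [CommRing R] (f : PowerSeries R) (i j : ℕ) :
    (PowerSeries.subst (X 0 + X 1 : MvPowerSeries (Fin 2) R) f).coeff
        (Finsupp.single 0 i + Finsupp.single 1 j) =
      ((i + j).choose i : R) * PowerSeries.coeff (i + j) f := by
  have h := PowerSeries.coeff_subst_X_zero_add_X_one f (Finsupp.single 0 i + Finsupp.single 1 j)
  simpa using h

end Pool.Agent.MUDL
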