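import Mathlib
import Pool.Agent.Lib.MP_eb0266_gt.Sub

set_option autoImplicit false

namespace Pool.Agent.MUDL

open MvPowerSeries

theorem AA_exp (d : Fin 2 →₀ ℕ) : d = Finsupp.single 0 (d 0) + Finsupp.single 1 (d 1) := by
  ext s
  fin_cases s <;> simp

theorem AA_coeff_X0 {R : Type} [CommRing R] (f : PowerSeries R) (k j : ℕ) :
    (PowerSeries.subst (X 0 : MvPowerSeries (Fin 2) R) f).coeff
      (Finsupp.single 0 k + Finsupp.single 1 j) = if j = 0 then PowerSeries.coeff k f else 0 := by
  classical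
  have ha : PowerSeries.HasSubst (X 0 : MvPowerSeries (Fin 2) R) :=
    PowerSeries.HasSubst.of_constantCoeff_zero (by simp)
  rw [PowerSeries.coeff_subst ha]
  have h1 : ∀ d : ℕ, MvPowerSeries.coeff (Finsupp.single 0 k + Finsupp.single 1 j)
      ((X 0 : MvPowerSeries (Fin 2) R) ^ d) = if j = 0 ∧ k = d then 1 else 0 := by
    intro d
    rw [X_pow_eq, coeff_monomial]
    congr 1
    rw [eq_iff_iff]
    constructor
    · intro h
      have h0 := DFunLike.congr_fun h 0
      have h1 := DFunLike.congr_fun h 1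
      simp at h0 h1
      exact ⟨h1, h0⟩
    · rintro ⟨rfl, rfl⟩
      simp
  simp only [h1]
  by_cases hk : j = 0
  · rw [if_pos hk, finsum_eq_single _ k]
    · simp [hk]
    · intro d hd
      rw [if_neg (by rintro ⟨-, h⟩; exact hd h.symm), smul_zero]
  · simp [hk]

theorem AA_coeff_X1 {R : Type} [CommRing R] (f : PowerSeries R) (k j : ℕ) :
    (PowerSeries.subst (X 1 : MvPowerSeries (Fin 2) R) f).coeff
      (Finsupp.single 0 k + Finsupp.single 1 j) = if k = 0 then PowerSeries.coeff j f else 0 := by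
  classical
  have ha : PowerSeries.HasSubst (X 1 : MvPowerSeries (Fin 2) R) :=
    PowerSeries.HasSubst.of_constantCoeff_zero (by simp)
  rw [PowerSeries.coeff_subst ha]
  have h1 : ∀ d : ℕ, MvPowerSeries.coeff (Finsupp.single 0 k + Finsupp.single 1 j)
      ((X 1 : MvPowerSeries (Fin 2) R) ^ d) = if k = 0 ∧ j = d then 1 else 0 := by
    intro d
    rw [X_pow_eq, coeff_monomial]
    congr 1
    rw [eq_iff_iff]
    constructor
    · intro h
      have h0 := DFunLike.congr_fun h 0
      have h1 := DFunLike.congr_fun h 1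
      simp at h0 h1
      exact ⟨h0, h1⟩
    · rintro ⟨rfl, rfl⟩
      simp
  simp only [h1]
  by_cases hk : k = 0
  · rw [if_pos hk, finsum_eq_single _ j]
    · simp [hk]
    · intro d hd
      rw [if_neg (by rintro ⟨-, h⟩; exact hd h.symm), smul_zero]
  · simp [hk]

theorem AA_sqz {K : Type} [CommRing K] (J : Ideal K) (hJ : ∀ a ∈ J, ∀ b ∈ J, a * b = 0) :
    J * J = ⊥ := by
  rw [eq_bot_iff, Ideal.mul_le]
  intro a ha b hb
  rw [hJ a ha b hb]
  exact Submodule.zero_mem _

/-- `(s + G)^p = s^p` if the coefficients of `G` are in `J` -/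
theorem AA_pow {K σ : Type} [CommRing K] (p : ℕ) (J : Ideal K)
    (hJ : ∀ a ∈ J, ∀ b ∈ J, a * b = 0) (hpJ : (p : K) ∈ J) (s G : MvPowerSeries σ K)
    (hG : ∀ d, coeff d G ∈ J) : (s + G) ^ p = s ^ p := by
  classical
  obtain ⟨k, hk⟩ := Polynomial.powAddExpansion s G p
  have h1 : (p : MvPowerSeries σ K) * G = 0 := by
    ext d
    rw [← nsmul_eq_mul, map_nsmul, nsmul_eq_mul, hJ _ hpJ _ (hG d), map_zero]
  have h2 : G ^ 2 = 0 := by
    ext d
    rw [pow_two, coeff_mul, map_zero]
    exact Finset.sum_eq_zero fun x _ => hJ _ (hG _) _ (hG _)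
  rw [hk, h2, mul_zero, add_zero]
  linear_combination s ^ (p - 1) * h1

/-- `(Φ^i)_i = Φ_1^i` -/
theorem AA_diag {K : Type} [CommRing K] (Φ : PowerSeries K) (h0 : PowerSeries.coeff 0 Φ = 0) (i : ℕ) :
    PowerSeries.coeff i (Φ ^ i) = PowerSeries.coeff 1 Φ ^ i := by
  obtain ⟨Ψ, rfl⟩ := PowerSeries.X_dvd_iff.mpr (by simpa using h0)
  rw [mul_pow, PowerSeries.coeff_X_pow_mul', if_pos le_rfl, Nat.sub_self]
  rw [show (1 : ℕ) = 0 + 1 from rfl, PowerSeries.coeff_succ_X_mul]
  simp

/-- coefficients of `Φ(Fι)` -/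
theorem AA_right {K : Type} [CommRing K] (p : ℕ) [hp : Fact p.Prime] (J : Ideal K)
    (hJ : ∀ a ∈ J, ∀ b ∈ J, a * b = 0) (hpJ : (p : K) ∈ J) (δ : K) (Φ : PowerSeries K)
    (hΦ1 : ∀ k, PowerSeries.coeff k Φ -
      PowerSeries.coeff k (PowerSeries.X - PowerSeries.C δ * PowerSeries.X ^ p) ∈ J)
    (Fι : MvPowerSeries (Fin 2) K) (hι0 : constantCoeff Fι = 0)
    (hι : ∀ d, coeff d (Fι - X 0 - X 1) ∈ J) (i j : ℕ) :
    (PowerSeries.subst Fι Φ).coeff (Finsupp.single 0 i + Finsupp.single 1 j) =
      (Fι - X 0 - X 1).coeff (Finsupp.single 0 i + Finsupp.single 1 j) +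
        ((i + j).choose i : K) * PowerSeries.coeff (i + j) Φ := by
  have hF : PowerSeries.HasSubst Fι := PowerSeries.HasSubst.of_constantCoeff_zero hι0
  have hS : PowerSeries.HasSubst (X 0 + X 1 : MvPowerSeries (Fin 2) K) :=
    PowerSeries.HasSubst.of_constantCoeff_zero (by simp)
  set w : PowerSeries K := PowerSeries.X - PowerSeries.C δ * PowerSeries.X ^ p with hw
  set G : MvPowerSeries (Fin 2) K := Fι - X 0 - X 1 with hG
  have h1 : Φ = w + (Φ - w) := by ring
  have hsub : ∀ a : MvPowerSeries (Fin 2) K, PowerSeries.HasSubst a →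
      PowerSeries.subst a w = a - C δ * a ^ p := by
    intro a ha
    rw [hw, PowerSeries.subst_sub ha, PowerSeries.subst_mul ha, PowerSeries.subst_pow ha,
      PowerSeries.subst_X ha, PowerSeries.subst_C]
  have h2 : PowerSeries.subst Fι w = PowerSeries.subst (X 0 + X 1 : MvPowerSeries (Fin 2) K) w + G := by
    rw [hsub _ hF, hsub _ hS]
    have h3 : Fι = (X 0 + X 1) + G := by rw [hG]; ring
    have h4 : Fι ^ p = (X 0 + X 1) ^ p := by
      rw [h3]
      exact AA_pow p J hJ hpJ _ _ hι
    rw [h4, hG]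
    ring
  have h5 : (PowerSeries.subst Fι (Φ - w)).coeff (Finsupp.single 0 i + Finsupp.single 1 j) =
      (PowerSeries.subst (X 0 + X 1 : MvPowerSeries (Fin 2) K) (Φ - w)).coeff
        (Finsupp.single 0 i + Finsupp.single 1 j) := by
    have h6 := subst_congr J J (Φ - w) (fun d => by
        have := hΦ1 (d ())
        rw [← map_sub] at this
        have hd : d = Finsupp.single () (d ()) := by ext; simp
        rw [hd]
        exact this) (fun _ : Unit => Fι) (fun _ => X 0 + X 1)
      hF.const hS.const (fun _ e => by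
        have := hι e
        rw [← map_sub]
        have h7 : Fι - (X 0 + X 1) = Fι - X 0 - X 1 := by ring
        rw [h7]
        exact this) (Finsupp.single 0 i + Finsupp.single 1 j)
    rw [AA_sqz J hJ, Submodule.mem_bot, sub_eq_zero] at h6
    exact h6
  conv_lhs => rw [h1]
  rw [PowerSeries.subst_add hF, map_add, h5, h2, map_add, coeff_subst_add, coeff_subst_add,
    map_sub (PowerSeries.coeff (i + j)) Φ w]
  ring

/-- coefficients of `(Fφ - X - Y)(Φ(X), Φ(Y))` -/
theorem AA_left {K : Type} [CommRing K] (Φ : PowerSeries K)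
    (hΦ : PowerSeries.coeff 0 Φ = 0) (Fφ : MvPowerSeries (Fin 2) K) (i j : ℕ) :
    ((Fφ - X 0 - X 1).subst ![PowerSeries.subst (X 0 : MvPowerSeries (Fin 2) K) Φ,
        PowerSeries.subst (X 1 : MvPowerSeries (Fin 2) K) Φ]).coeff
        (Finsupp.single 0 i + Finsupp.single 1 j) =
    (Fφ.subst ![PowerSeries.subst (X 0 : MvPowerSeries (Fin 2) K) Φ,
        PowerSeries.subst (X 1 : MvPowerSeries (Fin 2) K) Φ]).coeff
        (Finsupp.single 0 i + Finsupp.single 1 j) -
      (if j = 0 then PowerSeries.coeff i Φ else 0) - (if i = 0 then PowerSeries.coeff j Φ else 0) := by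
  have hc : PowerSeries.constantCoeff Φ = 0 := by simpa using hΦ
  have hs : HasSubst ![PowerSeries.subst (X 0 : MvPowerSeries (Fin 2) K) Φ,
        PowerSeries.subst (X 1 : MvPowerSeries (Fin 2) K) Φ] := by
    apply hasSubst_of_constantCoeff_zero
    intro s
    fin_cases s
    · exact PowerSeries.constantCoeff_subst_eq_zero (by simp) _ hc
    · exact PowerSeries.constantCoeff_subst_eq_zero (by simp) _ hc
  rw [subst_sub hs, subst_sub hs, subst_X hs, subst_X hs, map_sub, map_sub]
  simp only [Matrix.cons_val_zero, Matrix.cons_val_one, Matrix.cons_val_fin_one]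
  rw [AA_coeff_X0, AA_coeff_X1]

theorem absA {K : Type} [CommRing K] (p : ℕ) [Fact p.Prime] (J : Ideal K)
    (hJ : ∀ a ∈ J, ∀ b ∈ J, a * b = 0) (hpJ : (p : K) ∈ J) (δ : K) (Φ : PowerSeries K)
    (hΦ : PowerSeries.coeff 0 Φ = 0)
    (hΦ1 : ∀ k, PowerSeries.coeff k Φ -
      PowerSeries.coeff k (PowerSeries.X - PowerSeries.C δ * PowerSeries.X ^ p) ∈ J)
    (Fι Fφ : MvPowerSeries (Fin 2) K) (hι0 : constantCoeff Fι = 0)
    (hι : ∀ d, coeff d (Fι - X 0 - X 1) ∈ J)
    (h : Fφ.subst ![PowerSeries.subst (X 0 : MvPowerSeries (Fin 2) K) Φ,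
        PowerSeries.subst (X 1 : MvPowerSeries (Fin 2) K) Φ] = PowerSeries.subst Fι Φ) :
    (∀ d, coeff d (Fφ - X 0 - X 1) ∈ J) ∧
    ∀ i j, 1 ≤ i → 1 ≤ j →
      ∑ k ∈ Finset.range (i + 1), ∑ l ∈ Finset.range (j + 1),
        (Fφ - X 0 - X 1).coeff (Finsupp.single 0 k + Finsupp.single 1 l) *
          PowerSeries.coeff i ((PowerSeries.X - PowerSeries.C δ * PowerSeries.X ^ p) ^ k) *
          PowerSeries.coeff j ((PowerSeries.X - PowerSeries.C δ * PowerSeries.X ^ p) ^ l) =
      (Fι - X 0 - X 1).coeff (Finsupp.single 0 i + Finsupp.single 1 j) +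
        ((i + j).choose i : K) * PowerSeries.coeff (i + j) Φ := by
  classical
  have hp : p.Prime := Fact.out
  have hc : PowerSeries.constantCoeff Φ = 0 := by simpa using hΦ
  set w : PowerSeries K := PowerSeries.X - PowerSeries.C δ * PowerSeries.X ^ p with hw
  have hwc : PowerSeries.constantCoeff w = 0 := by
    rw [hw]
    simp [hp.ne_zero]
  have hwk : ∀ k, 2 ≤ k → PowerSeries.coeff k w = if k = p then -δ else 0 := by
    intro k hk
    rw [hw, map_sub, PowerSeries.coeff_X, if_neg (by omega), PowerSeries.coeff_C_mul,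
      PowerSeries.coeff_X_pow]
    split_ifs <;> simp
  have hw1 : PowerSeries.coeff 1 w = 1 := by
    have := hp.one_lt
    rw [hw, map_sub, PowerSeries.coeff_X, if_pos rfl, PowerSeries.coeff_C_mul,
      PowerSeries.coeff_X_pow, if_neg (by omega)]
    simp
  have hR := AA_right p J hJ hpJ δ Φ hΦ1 Fι hι0 hι
  have hL : ∀ i j, ((Fφ - X 0 - X 1).subst ![PowerSeries.subst (X 0 : MvPowerSeries (Fin 2) K) Φ,
        PowerSeries.subst (X 1 : MvPowerSeries (Fin 2) K) Φ]).coeff
        (Finsupp.single 0 i + Finsupp.single 1 j) =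
      (Fι - X 0 - X 1).coeff (Finsupp.single 0 i + Finsupp.single 1 j) +
        ((i + j).choose i : K) * PowerSeries.coeff (i + j) Φ -
      (if j = 0 then PowerSeries.coeff i Φ else 0) - (if i = 0 then PowerSeries.coeff j Φ else 0) := by
    intro i j
    rw [AA_left Φ hΦ Fφ i j, h, hR i j]
  -- the coefficients are in `J`
  have hmem : ∀ i j, ((Fφ - X 0 - X 1).subst ![PowerSeries.subst (X 0 : MvPowerSeries (Fin 2) K) Φ,
        PowerSeries.subst (X 1 : MvPowerSeries (Fin 2) K) Φ]).coeff
        (Finsupp.single 0 i + Finsupp.single 1 j) ∈ J := by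
    intro i j
    rw [hL]
    rcases Nat.eq_zero_or_pos i with rfl | hi
    · rcases Nat.eq_zero_or_pos j with rfl | hj
      · have := hι (Finsupp.single 0 0 + Finsupp.single 1 0)
        simp only [hΦ, if_true, add_zero, mul_zero, sub_zero]
        exact this
      · rw [if_neg hj.ne', if_pos rfl, zero_add, Nat.choose_zero_right, Nat.cast_one, one_mul, sub_zero,
          add_sub_cancel_right]
        exact hι _
    · rcases Nat.eq_zero_or_pos j with rfl | hj
      · rw [if_pos rfl, if_neg hi.ne', add_zero, Nat.choose_self, Nat.cast_one, one_mul, sub_zero,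
          add_sub_cancel_right]
        exact hι _
      · rw [if_neg hj.ne', if_neg hi.ne', sub_zero, sub_zero]
        refine J.add_mem (hι _) ?_
        have h3 : PowerSeries.coeff (i + j) Φ = (PowerSeries.coeff (i + j) Φ -
          PowerSeries.coeff (i + j) w) + PowerSeries.coeff (i + j) w := by ring
        rw [h3, mul_add]
        refine J.add_mem (J.mul_mem_left _ (hΦ1 _)) ?_
        rw [hwk _ (by omega)]
        split_ifs with h4
        · rw [h4]
          obtain ⟨c, hc⟩ := hp.dvd_choose_self (k := i) (by omega) (by omega)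
          rw [hc, Nat.cast_mul, mul_assoc]
          exact J.mul_mem_right _ hpJ
        · rw [mul_zero]
          exact J.zero_mem
  have hone : ∀ i : ℕ, PowerSeries.coeff 1 Φ ^ i - 1 ∈ J := by
    intro i
    have h1 := hΦ1 1
    rw [hw1] at h1
    have h2 := sub_dvd_pow_sub_pow (PowerSeries.coeff 1 Φ) 1 i
    rw [one_pow] at h2
    exact J.mem_of_dvd h2 h1
  have hcoef : ∀ n i j, i + j = n →
      (Fφ - X 0 - X 1).coeff (Finsupp.single 0 i + Finsupp.single 1 j) ∈ J := by
    intro n
    induction n using Nat.strong_induction_on with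
    | _ n ih =>
      intro i j hij
      have h1 := hmem i j
      rw [coeff_subst_two _ Φ Φ hc hc i j, Finset.sum_range_succ] at h1
      have h2 : ∑ k ∈ Finset.range i, ∑ l ∈ Finset.range (j + 1),
          (Fφ - X 0 - X 1).coeff (Finsupp.single 0 k + Finsupp.single 1 l) *
            PowerSeries.coeff i (Φ ^ k) * PowerSeries.coeff j (Φ ^ l) ∈ J := by
        refine Ideal.sum_mem _ fun k hk => Ideal.sum_mem _ fun l hl => ?_
        rw [Finset.mem_range] at hk hl
        exact J.mul_mem_right _ (J.mul_mem_right _ (ih (k + l) (by omega) k l rfl))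
      have h3 := (Submodule.add_mem_iff_right J h2).mp h1
      rw [Finset.sum_range_succ] at h3
      have h4 : ∑ l ∈ Finset.range j,
          (Fφ - X 0 - X 1).coeff (Finsupp.single 0 i + Finsupp.single 1 l) *
            PowerSeries.coeff i (Φ ^ i) * PowerSeries.coeff j (Φ ^ l) ∈ J := by
        refine Ideal.sum_mem _ fun l hl => ?_
        rw [Finset.mem_range] at hl
        exact J.mul_mem_right _ (J.mul_mem_right _ (ih (i + l) (by omega) i l rfl))
      have h5 := (Submodule.add_mem_iff_right J h4).mp h3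
      rw [AA_diag Φ hΦ, AA_diag Φ hΦ, mul_assoc, ← pow_add] at h5
      have h6 := J.sub_mem h5 (J.mul_mem_left
        ((Fφ - X 0 - X 1).coeff (Finsupp.single 0 i + Finsupp.single 1 j)) (hone (i + j)))
      have h7 : ∀ a b : K, a * b - a * (b - 1) = a := fun a b => by ring
      rw [h7] at h6
      exact h6
  have hall : ∀ d, coeff d (Fφ - X 0 - X 1) ∈ J := by
    intro d
    rw [AA_exp d]
    exact hcoef _ _ _ rfl
  refine ⟨hall, ?_⟩
  intro i j hi hj
  rw [← coeff_subst_two (Fφ - X 0 - X 1) w w hwc hwc i j]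
  have h8 := hL i j
  rw [if_neg (by omega), if_neg (by omega), sub_zero, sub_zero] at h8
  rw [← h8]
  have hsu : ∀ (u : PowerSeries K), PowerSeries.constantCoeff u = 0 →
      HasSubst ![PowerSeries.subst (X 0 : MvPowerSeries (Fin 2) K) u,
        PowerSeries.subst (X 1 : MvPowerSeries (Fin 2) K) u] := by
    intro u hu
    apply hasSubst_of_constantCoeff_zero
    intro s
    fin_cases s
    · exact PowerSeries.constantCoeff_subst_eq_zero (by simp) _ hu
    · exact PowerSeries.constantCoeff_subst_eq_zero (by simp) _ hu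
  have h9 := subst_congr J J (Fφ - X 0 - X 1) hall _ _ (hsu w hwc) (hsu Φ hc) (fun s e => by
    rw [AA_exp e]
    fin_cases s
    · show (PowerSeries.subst (X 0 : MvPowerSeries (Fin 2) K) w).coeff _ -
        (PowerSeries.subst (X 0 : MvPowerSeries (Fin 2) K) Φ).coeff _ ∈ J
      rw [AA_coeff_X0, AA_coeff_X0]
      split_ifs
      · rw [← neg_sub]
        exact J.neg_mem (hΦ1 _)
      · rw [sub_zero]
        exact J.zero_mem
    · show (PowerSeries.subst (X 1 : MvPowerSeries (Fin 2) K) w).coeff _ -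
        (PowerSeries.subst (X 1 : MvPowerSeries (Fin 2) K) Φ).coeff _ ∈ J
      rw [AA_coeff_X1, AA_coeff_X1]
      split_ifs
      · rw [← neg_sub]
        exact J.neg_mem (hΦ1 _)
      · rw [sub_zero]
        exact J.zero_mem) (Finsupp.single 0 i + Finsupp.single 1 j)
  rw [AA_sqz J hJ, Submodule.mem_bot, sub_eq_zero] at h9
  exact h9

end Pool.Agent.MUDL
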