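import Mathlib
import Pool.Agent.Lib.MP_eb0266_gt.Sub

set_option autoImplicit false

namespace Pool.Agent.MUDL

open MvPowerSeries

open Classical in
/-- `d C_N(u, v) + u^N + v^N = (u + v)^N` (row B1, copy with another name) -/
theorem D3f_mul {A : Type} [CommRing A] (p : ℕ) [Fact p.Prime] (N : ℕ) (hN : 1 ≤ N) (u v : A) :
    ((if IsPP p N then p else 1 : ℕ) : A) * CC p N u v + u ^ N + v ^ N = (u + v) ^ N := by
  have hp : p.Prime := Fact.out
  have h1 : ∀ k ∈ Finset.Ico 1 N, (if IsPP p N then p else 1 : ℕ) * cpN p k (N - k) = N.choose k := by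
    intro k hk
    rw [Finset.mem_Ico] at hk
    unfold cpN
    rw [Nat.add_sub_cancel' hk.2.le]
    split_ifs with h
    · obtain ⟨e, rfl⟩ := h
      exact Nat.mul_div_cancel' (hp.dvd_choose_pow (by omega) (by omega))
    · rw [Nat.div_one, one_mul]
  rw [add_pow, Finset.sum_range_succ, ← Nat.sub_add_cancel hN, Finset.sum_range_succ']
  rw [Nat.sub_add_cancel hN]
  simp only [pow_zero, Nat.sub_zero, Nat.choose_zero_right, Nat.cast_one, mul_one, one_mul, Nat.sub_self,
    Nat.choose_self]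
  unfold CC
  rw [Finset.mul_sum, Finset.sum_Ico_eq_sum_range]
  have h2 : ∑ k ∈ Finset.range (N - 1), ((if IsPP p N then p else 1 : ℕ) : A) *
      (((cpN p (1 + k) (N - (1 + k)) : ℕ) : A) * u ^ (1 + k) * v ^ (N - (1 + k))) =
      ∑ k ∈ Finset.range (N - 1), u ^ (k + 1) * v ^ (N - (k + 1)) * (N.choose (k + 1) : A) := by
    refine Finset.sum_congr rfl fun k hk => ?_
    rw [Finset.mem_range] at hk
    rw [← h1 (k + 1) (Finset.mem_Ico.mpr ⟨by omega, by omega⟩), add_comm 1 k]
    push_cast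
    ring
  rw [h2]
  ring

theorem D3f_map {A B : Type} [CommRing A] [CommRing B] (f : A →+* B) (p N : ℕ) (u v : A) :
    f (CC p N u v) = CC p N (f u) (f v) := by
  unfold CC
  rw [map_sum]
  refine Finset.sum_congr rfl fun k _ => ?_
  rw [map_mul, map_mul, map_pow, map_pow, map_natCast]

theorem D3f_cocycle {A : Type} [CommRing A] (p : ℕ) [hp : Fact p.Prime] (N : ℕ) (hN : 1 ≤ N) (u v w : A) :
    CC p N u v + CC p N (u + v) w = CC p N v w + CC p N u (v + w) := by
  classical
  have h : CC p N (MvPolynomial.X 0 : MvPolynomial (Fin 3) ℤ) (MvPolynomial.X 1) +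
      CC p N (MvPolynomial.X 0 + MvPolynomial.X 1) (MvPolynomial.X 2) =
      CC p N (MvPolynomial.X 1) (MvPolynomial.X 2) +
      CC p N (MvPolynomial.X 0) (MvPolynomial.X 1 + MvPolynomial.X 2) := by
    have h0 : (((if IsPP p N then p else 1 : ℕ) : ℕ) : MvPolynomial (Fin 3) ℤ) ≠ 0 := by
      have : (if IsPP p N then p else 1 : ℕ) ≠ 0 := by
        split_ifs
        · exact hp.out.ne_zero
        · exact one_ne_zero
      exact_mod_cast this
    apply mul_left_cancel₀ h0
    have e1 := D3f_mul p N hN (MvPolynomial.X 0 : MvPolynomial (Fin 3) ℤ) (MvPolynomial.X 1)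
    have e2 := D3f_mul p N hN (MvPolynomial.X 0 + MvPolynomial.X 1 : MvPolynomial (Fin 3) ℤ)
      (MvPolynomial.X 2)
    have e3 := D3f_mul p N hN (MvPolynomial.X 1 : MvPolynomial (Fin 3) ℤ) (MvPolynomial.X 2)
    have e4 := D3f_mul p N hN (MvPolynomial.X 0 : MvPolynomial (Fin 3) ℤ)
      (MvPolynomial.X 1 + MvPolynomial.X 2)
    rw [← add_assoc] at e4
    linear_combination e1 + e2 - e3 - e4
  have h1 := congrArg (MvPolynomial.eval₂Hom (Int.castRingHom A) ![u, v, w]) h
  simpa only [D3f_map, map_add, MvPolynomial.coe_eval₂Hom, MvPolynomial.eval₂_X,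
    Matrix.cons_val_zero, Matrix.cons_val_one, Matrix.cons_val] using h1

theorem D3f_symm {A : Type} [CommRing A] (p : ℕ) [hp : Fact p.Prime] (N : ℕ) (hN : 1 ≤ N) (u v : A) :
    CC p N u v = CC p N v u := by
  classical
  have h : CC p N (MvPolynomial.X 0 : MvPolynomial (Fin 2) ℤ) (MvPolynomial.X 1) =
      CC p N (MvPolynomial.X 1) (MvPolynomial.X 0) := by
    have h0 : (((if IsPP p N then p else 1 : ℕ) : ℕ) : MvPolynomial (Fin 2) ℤ) ≠ 0 := by
      have : (if IsPP p N then p else 1 : ℕ) ≠ 0 := by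
        split_ifs
        · exact hp.out.ne_zero
        · exact one_ne_zero
      exact_mod_cast this
    apply mul_left_cancel₀ h0
    have e1 := D3f_mul p N hN (MvPolynomial.X 0 : MvPolynomial (Fin 2) ℤ) (MvPolynomial.X 1)
    have e2 := D3f_mul p N hN (MvPolynomial.X 1 : MvPolynomial (Fin 2) ℤ) (MvPolynomial.X 0)
    rw [add_comm (MvPolynomial.X 1 : MvPolynomial (Fin 2) ℤ)] at e2
    linear_combination e1 - e2
  have h1 := congrArg (MvPolynomial.eval₂Hom (Int.castRingHom A) ![u, v]) h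
  simpa only [D3f_map, map_add, MvPolynomial.coe_eval₂Hom, MvPolynomial.eval₂_X,
    Matrix.cons_val_zero, Matrix.cons_val_one, Matrix.cons_val] using h1

theorem D3f_nil {A : Type} [CommRing A] (a U V : A) (ha : a * a = 0) (k : ℕ) :
    a * (U + a * V) ^ k = a * U ^ k := by
  induction k with
  | zero => rw [pow_zero, pow_zero]
  | succ k ih =>
    rw [pow_succ, ← mul_assoc, ih, pow_succ]
    linear_combination (U ^ k * V) * ha

theorem D3f_nil1 {A : Type} [CommRing A] (a U V W : A) (ha : a * a = 0) (p N : ℕ) :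
    a * CC p N (U + a * V) W = a * CC p N U W := by
  unfold CC
  rw [Finset.mul_sum, Finset.mul_sum]
  refine Finset.sum_congr rfl fun k _ => ?_
  linear_combination ((cpN p k (N - k) : A) * W ^ (N - k)) * D3f_nil a U V ha k

theorem D3f_nil2 {A : Type} [CommRing A] (a U V W : A) (ha : a * a = 0) (p N : ℕ) :
    a * CC p N W (U + a * V) = a * CC p N W U := by
  unfold CC
  rw [Finset.mul_sum, Finset.mul_sum]
  refine Finset.sum_congr rfl fun k _ => ?_
  linear_combination ((cpN p k (N - k) : A) * W ^ k) * D3f_nil a U V ha (N - k)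

theorem D3f_coeff {S : Type} [CommRing S] (p N i j : ℕ) :
    (CC p N (X 0 : MvPowerSeries (Fin 2) S) (X 1)).coeff (Finsupp.single 0 i + Finsupp.single 1 j) =
      if i + j = N ∧ 1 ≤ i ∧ 1 ≤ j then (cpN p i j : S) else 0 := by
  classical
  unfold CC
  rw [map_sum]
  have h1 : ∀ k l : ℕ, ∀ n : ℕ, ((n : MvPowerSeries (Fin 2) S) * X 0 ^ k * X 1 ^ l).coeff
      (Finsupp.single 0 i + Finsupp.single 1 j) = if i = k ∧ j = l then (n : S) else 0 := by
    intro k l n
    rw [mul_assoc, ← nsmul_eq_mul, map_nsmul, X_pow_eq, X_pow_eq, monomial_mul_monomial, mul_one,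
      coeff_monomial]
    have h2 : (Finsupp.single 0 i + Finsupp.single 1 j : Fin 2 →₀ ℕ) =
        Finsupp.single 0 k + Finsupp.single 1 l ↔ i = k ∧ j = l := by
      constructor
      · intro h
        have h5 := DFunLike.congr_fun h 0
        have h6 := DFunLike.congr_fun h 1
        simp at h5 h6
        exact ⟨h5, h6⟩
      · rintro ⟨rfl, rfl⟩
        rfl
    by_cases h3 : i = k ∧ j = l
    · rw [if_pos (h2.mpr h3), if_pos h3, nsmul_eq_mul, mul_one]
    · rw [if_neg (fun h => h3 (h2.mp h)), if_neg h3, smul_zero]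
  simp only [h1]
  split_ifs with h
  · obtain ⟨rfl, h3, h4⟩ := h
    rw [Finset.sum_eq_single_of_mem i (Finset.mem_Ico.mpr ⟨h3, by omega⟩)]
    · rw [if_pos ⟨rfl, by omega⟩, Nat.add_sub_cancel_left]
    · intro k _ hk
      rw [if_neg (fun h => hk h.1.symm)]
  · refine Finset.sum_eq_zero fun k hk => ?_
    rw [Finset.mem_Ico] at hk
    rw [if_neg]
    rintro ⟨rfl, rfl⟩
    exact h ⟨by omega, hk.1, by omega⟩

theorem D3f_X {S : Type} [CommRing S] (i j : ℕ) :
    (X 0 + X 1 : MvPowerSeries (Fin 2) S).coeff (Finsupp.single 0 i + Finsupp.single 1 j) =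
      if i + j = 1 then 1 else 0 := by
  classical
  rw [map_add, coeff_X, coeff_X]
  rcases Nat.lt_or_ge (i + j) 2 with hij | hij
  · have h3 : (i = 0 ∧ j = 0) ∨ (i = 1 ∧ j = 0) ∨ (i = 0 ∧ j = 1) := by omega
    rcases h3 with ⟨rfl, rfl⟩ | ⟨rfl, rfl⟩ | ⟨rfl, rfl⟩
    · simp [Finsupp.single_eq_zero, eq_comm]
    · simp only [Finsupp.single_zero, add_zero]
      rw [if_pos trivial, if_neg, add_zero]
      intro h
      have := DFunLike.congr_fun h 0
      simp at this
    · simp only [Finsupp.single_zero, zero_add]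
      rw [if_pos trivial, if_neg, zero_add]
      intro h
      have := DFunLike.congr_fun h 0
      simp at this
  · rw [if_neg, if_neg, if_neg (by omega), add_zero]
    · intro h
      have h5 := DFunLike.congr_fun h 0
      have h6 := DFunLike.congr_fun h 1
      simp at h5 h6
      omega
    · intro h
      have h5 := DFunLike.congr_fun h 0
      have h6 := DFunLike.congr_fun h 1
      simp at h5 h6
      omega

/-- the series `X + Y + a C_N(X, Y)` -/
noncomputable def D3f_P {S : Type} [CommRing S] (p N : ℕ) (a : S) : MvPowerSeries (Fin 2) S :=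
  X 0 + X 1 + C a * CC p N (X 0) (X 1)

theorem D3f_coeffP {S : Type} [CommRing S] (p N : ℕ) (a : S) (i j : ℕ) :
    (D3f_P p N a).coeff (Finsupp.single 0 i + Finsupp.single 1 j) =
      (if i + j = 1 then 1 else 0) + (if i + j = N ∧ 1 ≤ i ∧ 1 ≤ j then cpN p i j • a else 0) := by
  unfold D3f_P
  rw [map_add, D3f_X, coeff_C_mul, D3f_coeff]
  congr 1
  split_ifs
  · rw [nsmul_eq_mul, mul_comm]
  · rw [mul_zero]

theorem D3f_sub {S : Type} [CommRing S] {τ : Type} (p N : ℕ) (a : S)
    (g : Fin 2 → MvPowerSeries τ S) (hg : HasSubst g) :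
    (D3f_P p N a).subst g = g 0 + g 1 + C a * CC p N (g 0) (g 1) := by
  have h1 := D3f_map (substAlgHom (R := S) hg).toRingHom p N (X 0) (X 1)
  have h2 : ∀ f : MvPowerSeries (Fin 2) S, (substAlgHom (R := S) hg).toRingHom f = f.subst g := by
    intro f
    show (substAlgHom (R := S) hg) f = _
    rw [coe_substAlgHom hg]
  rw [h2, h2, h2, subst_X hg, subst_X hg] at h1
  unfold D3f_P
  rw [subst_add hg, subst_add hg, subst_X hg, subst_X hg, ← smul_eq_C_mul, subst_smul hg, h1,
    smul_eq_C_mul]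

/-- The formal group law `X + Y + a C_N(X, Y)`, `N ≥ 2`, `a² = 0`, `p a = 0`. -/
theorem exists_fgl (p : ℕ) [Fact p.Prime] {S : Type} [CommRing S] (a : S) (ha : a * a = 0)
    (hpa : (p : S) * a = 0) (N : ℕ) (hN : 2 ≤ N) :
    ∃ G : FormalGroup S, G.IsComm ∧ ∀ i j, 2 ≤ i + j →
      cf G i j = if i + j = N ∧ 1 ≤ i ∧ 1 ≤ j then cpN p i j • a else 0 := by
  have hz : (D3f_P p N a).constantCoeff = 0 := by
    have h := D3f_coeffP p N a 0 0
    simpa using h
  have haC : ∀ {τ : Type}, (C a : MvPowerSeries τ S) * C a = 0 := by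
    intro τ
    rw [← map_mul, ha, map_zero]
  refine ⟨⟨D3f_P p N a, hz, ?_, ?_, ?_⟩, ⟨?_⟩, ?_⟩
  · have h := D3f_coeffP p N a 1 0
    simpa using h
  · have h := D3f_coeffP p N a 0 1
    simpa using h
  · rw [D3f_sub p N a _ (HasSubst.cons_subst_zero_left (0 : Fin 3) 1 2 hz),
      D3f_sub p N a _ (HasSubst.cons_subst_zero_right (0 : Fin 3) 1 2 hz)]
    simp only [Matrix.cons_val_zero, Matrix.cons_val_one, Matrix.cons_val_fin_one]
    rw [D3f_sub p N a _ HasSubst.X_X, D3f_sub p N a _ HasSubst.X_X]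
    simp only [Matrix.cons_val_zero, Matrix.cons_val_one, Matrix.cons_val_fin_one]
    rw [D3f_nil1 _ _ _ _ haC, D3f_nil2 _ _ _ _ haC]
    linear_combination C a * D3f_cocycle p N (by omega) (X 0 : MvPowerSeries (Fin 3) S) (X 1) (X 2)
  · show D3f_P p N a = subst _ (D3f_P p N a)
    rw [D3f_sub p N a _ HasSubst.X_X]
    simp only [Matrix.cons_val_zero, Matrix.cons_val_one, Matrix.cons_val_fin_one]
    rw [D3f_symm p N (by omega) (X 1)]
    unfold D3f_P
    ring
  · intro i j hij
    unfold cf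
    show (D3f_P p N a).coeff _ = _
    rw [D3f_coeffP, if_neg (by omega), zero_add]

end Pool.Agent.MUDL
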