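import Mathlib
import Pool.Agent.Lib.MP_eb0266_gt.Sub

set_option autoImplicit false

namespace Pool.Agent.MUDL

open MvPowerSeries

variable {L : Type} [CommRing L] (F : FormalGroup L) (p : ℕ)

theorem D3_exp (d : Fin 2 →₀ ℕ) : d = Finsupp.single 0 (d 0) + Finsupp.single 1 (d 1) := by
  ext i
  fin_cases i <;> simp

theorem D3_add {S : Type} [CommRing S] (G : FormalGroup S)
    (h : ∀ i j, 2 ≤ i + j → cf G i j = 0) : G = FormalGroup.𝔾ₐ := by
  apply FormalGroup.ext
  rw [FormalGroup.𝔾ₐ_toPowerSeries]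
  ext d
  rw [D3_exp d]
  generalize d 0 = i
  generalize d 1 = j
  rw [map_add, coeff_X, coeff_X]
  rcases Nat.lt_or_ge (i + j) 2 with hij | hij
  · have h3 : (i = 0 ∧ j = 0) ∨ (i = 1 ∧ j = 0) ∨ (i = 0 ∧ j = 1) := by omega
    rcases h3 with ⟨rfl, rfl⟩ | ⟨rfl, rfl⟩ | ⟨rfl, rfl⟩
    · have h0 := G.zero_constantCoeff
      rw [← coeff_zero_eq_constantCoeff_apply] at h0
      simp [h0, Finsupp.single_eq_zero, eq_comm]
    · have h0 := G.lin_coeff_X
      simp only [Finsupp.single_zero, add_zero]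
      rw [h0, if_pos trivial, if_neg, add_zero]
      intro h
      have := DFunLike.congr_fun h 0
      simp at this
    · have h0 := G.lin_coeff_Y
      simp only [Finsupp.single_zero, zero_add]
      rw [h0, if_pos trivial, if_neg, zero_add]
      intro h
      have := DFunLike.congr_fun h 0
      simp at this
  · have h4 := h i j hij
    unfold cf at h4
    rw [h4, if_neg, if_neg, add_zero]
    · intro h
      have h5 := DFunLike.congr_fun h 0
      have h6 := DFunLike.congr_fun h 1
      simp at h5 h6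
      omega
    · intro h
      have h5 := DFunLike.congr_fun h 0
      have h6 := DFunLike.congr_fun h 1
      simp at h5 h6
      omega

theorem D3_cf {S : Type} [CommRing S] (i j : ℕ) (hij : 2 ≤ i + j) :
    cf (FormalGroup.𝔾ₐ : FormalGroup S) i j = 0 := by
  unfold cf
  rw [FormalGroup.𝔾ₐ_toPowerSeries, map_add, coeff_X, coeff_X, if_neg, if_neg, add_zero]
  · intro h
    have h5 := DFunLike.congr_fun h 0
    have h6 := DFunLike.congr_fun h 1
    simp at h5 h6
    omega
  · intro h
    have h5 := DFunLike.congr_fun h 0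
    have h6 := DFunLike.congr_fun h 1
    simp at h5 h6
    omega

theorem D3_map {S : Type} [CommRing S] (f : L →+* S) (i j : ℕ) :
    cf (F.map f) i j = f (cf F i j) := by
  unfold cf
  rw [FormalGroup.map_toPowerSeries, coeff_map]

/-- `L → ℤ` classifies the additive group and kills `augI` -/
theorem exists_aug (hF : IsUniversal F) : ∃ f : L →+* ℤ, ∀ y ∈ augI F, f y = 0 := by
  obtain ⟨f, hf, -⟩ := hF.2 ℤ FormalGroup.𝔾ₐ inferInstance
  refine ⟨f, ?_⟩
  have h : augI F ≤ RingHom.ker f := by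
    unfold augI
    rw [Ideal.span_le]
    rintro a ⟨i, j, hij, rfl⟩
    show f (cf F i j) = 0
    rw [← D3_map, hf, D3_cf i j hij]
  intro y hy
  exact h hy

theorem exists_int (hF : IsUniversal F) (y : L) : ∃ k : ℤ, y - k ∈ augI F := by
  obtain ⟨f, hf, -⟩ := hF.2 ℤ FormalGroup.𝔾ₐ inferInstance
  have h1 : F.map (Ideal.Quotient.mk (augI F)) = FormalGroup.𝔾ₐ := by
    apply D3_add
    intro i j hij
    rw [D3_map, Ideal.Quotient.eq_zero_iff_mem]
    exact Ideal.subset_span ⟨i, j, hij, rfl⟩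
  have h2 : F.map ((Int.castRingHom (L ⧸ augI F)).comp f) = FormalGroup.𝔾ₐ := by
    apply D3_add
    intro i j hij
    rw [D3_map, RingHom.comp_apply, ← D3_map, hf, D3_cf i j hij, map_zero]
  have h3 := (hF.2 (L ⧸ augI F) FormalGroup.𝔾ₐ inferInstance).unique h1 h2
  refine ⟨f y, ?_⟩
  rw [← Ideal.Quotient.eq_zero_iff_mem, map_sub, h3, RingHom.comp_apply, map_intCast]
  simp

end Pool.Agent.MUDL
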