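import Mathlib
import Pool.Agent.Lib.MP_eb0266_gt.Comb

/-!
Evaluation data: a ring homomorphism `ev : L[[e]] → K` that kills the series with coefficients in `I²` and
`[p]_F(e)`, and an inverse `ε'` of `ε = ev e`. `Xi g` is the value of `∑ g(m) x_m e^m`.
-/

set_option autoImplicit false

namespace Pool.Agent.MUDL

open MvPowerSeries

noncomputable section

variable {L : Type} [CommRing L] {F : FormalGroup L} {p : ℕ} {K : Type} [CommRing K]

structure EvData (F : FormalGroup L) (p : ℕ) (ev : PowerSeries L →+* K) (ε' : K) : Prop where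
  small : ∀ f : PowerSeries L, (∀ k, PowerSeries.coeff k f ∈ bigI F p ^ 2) → ev f = 0
  rel : ev (mulE F p) = 0
  inv : ev PowerSeries.X * ε' = 1

/-- `∑ g(m) x_m ε^m` -/
def Xi (x : ℕ → L) (ev : PowerSeries L →+* K) (g : ℕ → ZMod p) : K :=
  ev (PowerSeries.mk fun m => (g m).val • x m)

end

end Pool.Agent.MUDL
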