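import Mathlib
import Pool.Agent.Lib.MP_eb0266_gt.Ev

/-!
Row X. Basic properties of `Xi`. Everything follows from `EvData.small`: `p x_m ∈ I²`, `x_m x_k ∈ I²`.
`ev_series`: a series `∑ c_m x_m e^m` with integers (natural numbers) `c_m`.
-/

set_option autoImplicit false

namespace Pool.Agent.MUDL

variable {L : Type} [CommRing L] {F : FormalGroup L} {p : ℕ} [Fact p.Prime] {K : Type} [CommRing K]
  {ev : PowerSeries L →+* K} {ε' : K} {x : ℕ → L}

omit [Fact p.Prime] in
theorem X_ev_congr (hE : EvData F p ev ε') (f g : PowerSeries L)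
    (h : ∀ k, PowerSeries.coeff k f - PowerSeries.coeff k g ∈ bigI F p ^ 2) : ev f = ev g := by
  rw [← sub_eq_zero, ← map_sub]
  apply hE.small
  intro k
  rw [map_sub]
  exact h k

omit [Fact p.Prime] in
theorem X_p_mem (F : FormalGroup L) : (p : L) ∈ bigI F p :=
  Ideal.mem_sup_left (Ideal.subset_span rfl)

omit [Fact p.Prime] in
theorem X_mul_mem (a b : L) (ha : a ∈ bigI F p) (hb : b ∈ bigI F p) : a * b ∈ bigI F p ^ 2 := by
  rw [pow_two]
  exact Ideal.mul_mem_mul ha hb

/-- `Xi` depends only on the class mod `p` of integer multiples -/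
theorem Xi_nat (hE : EvData F p ev ε') (hx : IsGen F p x) (c : ℕ → ℕ) :
    ev (PowerSeries.mk fun m => c m • x m) = Xi x ev (fun m => ((c m : ℕ) : ZMod p)) := by
  unfold Xi
  apply X_ev_congr hE
  intro k
  rw [PowerSeries.coeff_mk, PowerSeries.coeff_mk, ZMod.val_natCast]
  have h1 : c k • x k - (c k % p) • x k = (p : L) * (((c k / p : ℕ) : L) * x k) := by
    conv_lhs => rw [← Nat.div_add_mod (c k) p]
    rw [Nat.mul_add_mod, Nat.mod_mod]
    simp only [nsmul_eq_mul]
    push_cast
    ring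
  rw [h1]
  exact X_mul_mem _ _ (X_p_mem F) (Ideal.mul_mem_left _ _ (hx.mem_bigI k))

theorem Xi_add (hE : EvData F p ev ε') (hx : IsGen F p x) (g h : ℕ → ZMod p) :
    Xi x ev (g + h) = Xi x ev g + Xi x ev h := by
  have h1 : Xi x ev g + Xi x ev h = ev (PowerSeries.mk fun m => ((g m).val + (h m).val) • x m) := by
    unfold Xi
    rw [← map_add]
    congr 1
    ext k
    simp [add_mul]
  rw [h1, Xi_nat hE hx]
  congr 1
  funext m
  simp

theorem Xi_zero (hE : EvData F p ev ε') (hx : IsGen F p x) : Xi x ev (0 : ℕ → ZMod p) = 0 := by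
  unfold Xi
  have h : (PowerSeries.mk fun m => ((0 : ℕ → ZMod p) m).val • x m) = 0 := by
    ext k
    simp
  rw [h, map_zero]

theorem Xi_mul (hE : EvData F p ev ε') (hx : IsGen F p x) (g h : ℕ → ZMod p) :
    Xi x ev g * Xi x ev h = 0 := by
  unfold Xi
  rw [← map_mul]
  apply hE.small
  intro k
  rw [PowerSeries.coeff_mul]
  apply Ideal.sum_mem
  intro a _
  rw [PowerSeries.coeff_mk, PowerSeries.coeff_mk]
  apply X_mul_mem
  · exact nsmul_mem (hx.mem_bigI _) _
  · exact nsmul_mem (hx.mem_bigI _) _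

theorem Xi_nat_mul (hE : EvData F p ev ε') (hx : IsGen F p x) (n : ℕ) (g : ℕ → ZMod p) :
    (n : K) * Xi x ev g = Xi x ev (fun m => (n : ZMod p) * g m) := by
  have h1 : (n : K) * Xi x ev g = ev (PowerSeries.mk fun m => (n * (g m).val) • x m) := by
    unfold Xi
    rw [← map_natCast ev n, ← map_mul]
    congr 1
    ext k
    have h2 : (n : PowerSeries L) = PowerSeries.C (n : L) := by simp
    rw [h2, PowerSeries.coeff_C_mul, PowerSeries.coeff_mk, PowerSeries.coeff_mk]
    simp only [nsmul_eq_mul]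
    push_cast
    ring
  rw [h1, Xi_nat hE hx]
  congr 1
  funext m
  simp

theorem p_mul_Xi (hE : EvData F p ev ε') (hx : IsGen F p x) (g : ℕ → ZMod p) :
    (p : K) * Xi x ev g = 0 := by
  rw [Xi_nat_mul hE hx]
  have h : (fun m => (p : ZMod p) * g m) = 0 := by
    funext m
    simp
  rw [h]
  exact Xi_zero hE hx

theorem p_sq (hE : EvData F p ev ε') : (p : K) * p = 0 := by
  rw [← map_natCast ev p, ← map_mul]
  apply hE.small
  intro k
  have h2 : (p : PowerSeries L) * p = PowerSeries.C ((p : L) * p) := by simp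
  rw [h2, PowerSeries.coeff_C]
  split_ifs
  · exact X_mul_mem _ _ (X_p_mem F) (X_p_mem F)
  · exact Ideal.zero_mem _

/-- `x_m ε^m` -/
theorem ev_single (hE : EvData F p ev ε') (hx : IsGen F p x) (m : ℕ) :
    ev (PowerSeries.C (x m)) * ev PowerSeries.X ^ m = Xi x ev (Pi.single m (1 : ZMod p)) := by
  haveI : Fact (1 < p) := ⟨(Fact.out : p.Prime).one_lt⟩
  unfold Xi
  rw [← map_pow, ← map_mul]
  congr 1
  ext k
  rw [PowerSeries.coeff_C_mul, PowerSeries.coeff_X_pow, PowerSeries.coeff_mk]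
  by_cases h : k = m
  · subst h
    simp [ZMod.val_one]
  · simp [h]

end Pool.Agent.MUDL
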