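import Mathlib
import Pool.Agent.Lib.MP_eb0266_gt.XiBasic
import Pool.Agent.Lib.MP_eb0266_gt.Sub

/-!
Row N1. `[i](e)` and `t +_F [i](e)` modulo `I²`.

`mulE_coeff`: modulo `I²`, `[i](e) = i e + ∑_{m ≥ 1} ed_{i,m} x_m e^{m+1}`, where `ed_{0,m} = 0`,
`ed_{i+1,m} = ed_{i,m} + ∑_{k=1}^{m} c_{k,m+1-k} i^k` (induction on `i`: `[i+1](e) = F([i](e), e)
= [i](e) + e + Γ([i](e), e)`, `Γ = F - X - Y` has coefficients in `I`, so `Γ([i](e), e) = Γ(i e, e)`
modulo `I²`, by `subst_congr`; the coefficients of `Γ` are `c_{kl} x_{k+l-1}` modulo `I²`, those with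
`k = 0` or `l = 0` vanish (`FormalGroup.Xzero_eq_X`)). With `d = p` if `m + 1` is a power of `p` and
`d = 1` otherwise, `d · ed_{i,m} = i^{m+1} - i`.
-/

set_option autoImplicit false

namespace Pool.Agent.MUDL

open MvPowerSeries

section gen

variable {R : Type} [CommRing R]

theorem N1_exp (d : Fin 2 →₀ ℕ) : d = Finsupp.single 0 (d 0) + Finsupp.single 1 (d 1) := by
  ext s
  fin_cases s <;> simp

theorem N1_hasSubst_cX (c : R) :
    HasSubst (![c • PowerSeries.X, PowerSeries.X] : Fin 2 → MvPowerSeries Unit R) := by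
  apply hasSubst_of_constantCoeff_zero
  intro s
  fin_cases s
  · simp [PowerSeries.X]
  · simp [PowerSeries.X]

/-- coefficient of `X^k` in `G(c X, X)` -/
theorem N1_coeff_cX (G : MvPowerSeries (Fin 2) R) (c : R) (k : ℕ) :
    PowerSeries.coeff k (G.subst (![c • PowerSeries.X, PowerSeries.X] :
      Fin 2 → MvPowerSeries Unit R)) =
      ∑ a ∈ Finset.range (k + 1), G.coeff (Finsupp.single 0 a + Finsupp.single 1 (k - a)) * c ^ a := by
  classical
  rw [PowerSeries.coeff, coeff_subst (N1_hasSubst_cX c)]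
  have h1 : ∀ d : Fin 2 →₀ ℕ, MvPowerSeries.coeff (Finsupp.single () k)
      (d.prod fun s e => (![c • PowerSeries.X, PowerSeries.X] : Fin 2 → MvPowerSeries Unit R) s ^ e) =
      if k = d 0 + d 1 then c ^ (d 0) else 0 := by
    intro d
    rw [Finsupp.prod_fintype _ _ (by simp), Fin.prod_univ_two]
    simp only [Matrix.cons_val_zero, Matrix.cons_val_one]
    have h2 : (c • PowerSeries.X : PowerSeries R) ^ d 0 * (PowerSeries.X : PowerSeries R) ^ d 1 =
        c ^ d 0 • (PowerSeries.X : PowerSeries R) ^ (d 0 + d 1) := by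
      rw [smul_pow, smul_mul_assoc, ← pow_add]
    have h3 : PowerSeries.coeff k ((c • PowerSeries.X : PowerSeries R) ^ d 0 *
        (PowerSeries.X : PowerSeries R) ^ d 1) = if k = d 0 + d 1 then c ^ (d 0) else 0 := by
      rw [h2, map_smul, PowerSeries.coeff_X_pow, smul_eq_mul]
      split_ifs <;> simp
    exact h3
  simp only [h1]
  let f : ℕ → (Fin 2 →₀ ℕ) := fun a => Finsupp.single 0 a + Finsupp.single 1 (k - a)
  have hf0 : ∀ a, f a 0 = a := by intro a; simp [f]
  have hf1 : ∀ a, f a 1 = k - a := by intro a; simp [f]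
  have hinj : Set.InjOn f (Finset.range (k + 1)) := by
    intro a _ b _ h
    rw [← hf0 a, h, hf0]
  rw [finsum_eq_sum_of_support_subset (s := (Finset.range (k + 1)).image f), Finset.sum_image hinj]
  · refine Finset.sum_congr rfl fun a ha => ?_
    rw [Finset.mem_range] at ha
    rw [hf0, hf1, if_pos (by omega), smul_eq_mul]
  · intro d hd
    rw [Function.mem_support] at hd
    have h4 : k = d 0 + d 1 := by
      by_contra h5
      rw [if_neg h5, smul_zero] at hd
      exact hd rfl
    rw [Finset.coe_image, Set.mem_image]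
    refine ⟨d 0, by simp; omega, ?_⟩
    have h5 : k - d 0 = d 1 := by omega
    simp only [f, h5]
    exact (N1_exp d).symm

/-- coefficient of `X^k` in `G(0, X)` -/
theorem N1_coeff_zeroX (G : MvPowerSeries (Fin 2) R) (k : ℕ) :
    PowerSeries.coeff k (G.subst (![0, PowerSeries.X] : Fin 2 → MvPowerSeries Unit R)) =
      G.coeff (Finsupp.single 0 0 + Finsupp.single 1 k) := by
  have h1 : (![0, PowerSeries.X] : Fin 2 → MvPowerSeries Unit R) =
      ![(0 : R) • PowerSeries.X, PowerSeries.X] := by rw [zero_smul]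
  rw [h1, N1_coeff_cX, Finset.sum_eq_single 0]
  · simp
  · intro b _ hb
    simp [hb]
  · simp

/-- coefficient of `X^k` in `G(X, 0)` -/
theorem N1_coeff_Xzero (G : MvPowerSeries (Fin 2) R) (k : ℕ) :
    PowerSeries.coeff k (G.subst (![PowerSeries.X, 0] : Fin 2 → MvPowerSeries Unit R)) =
      G.coeff (Finsupp.single 0 k + Finsupp.single 1 0) := by
  classical
  have h0 : HasSubst (![PowerSeries.X, 0] : Fin 2 → MvPowerSeries Unit R) := by
    apply hasSubst_of_constantCoeff_zero
    intro s
    fin_cases s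
    · simp [PowerSeries.X]
    · simp
  rw [PowerSeries.coeff, coeff_subst h0]
  have h1 : ∀ d : Fin 2 →₀ ℕ, MvPowerSeries.coeff (Finsupp.single () k)
      (d.prod fun s e => (![PowerSeries.X, 0] : Fin 2 → MvPowerSeries Unit R) s ^ e) =
      if k = d 0 ∧ d 1 = 0 then 1 else 0 := by
    intro d
    rw [Finsupp.prod_fintype _ _ (by simp), Fin.prod_univ_two]
    simp only [Matrix.cons_val_zero, Matrix.cons_val_one]
    by_cases hd : d 1 = 0
    · rw [hd, pow_zero, mul_one]
      have h3 : PowerSeries.coeff k ((PowerSeries.X : PowerSeries R) ^ d 0) =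
          if k = d 0 then 1 else 0 := PowerSeries.coeff_X_pow _ _
      simp only [and_true]
      exact h3
    · rw [zero_pow hd, mul_zero, if_neg (fun h => hd h.2), map_zero]
  simp only [h1]
  rw [finsum_eq_single _ (Finsupp.single 0 k + Finsupp.single 1 0)]
  · simp
  · intro d hd
    rw [if_neg, smul_zero]
    rintro ⟨h2, h3⟩
    apply hd
    rw [h2, ← h3]
    exact N1_exp d

/-- coefficient of `X^k Y^j` in `G(X, c Y)` -/
theorem N1_coeff_cY (G : MvPowerSeries (Fin 2) R) (c : R) (k j : ℕ) :
    (G.subst (![X 0, c • X 1] : Fin 2 → MvPowerSeries (Fin 2) R)).coeff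
      (Finsupp.single 0 k + Finsupp.single 1 j) =
      G.coeff (Finsupp.single 0 k + Finsupp.single 1 j) * c ^ j := by
  have h1 : (![X 0, c • X 1] : Fin 2 → MvPowerSeries (Fin 2) R) =
      (![1, c] : Fin 2 → R) • (X : Fin 2 → MvPowerSeries (Fin 2) R) := by
    funext s
    fin_cases s <;> simp [Pi.smul_apply']
  rw [h1, ← rescale_eq_subst, coeff_rescale, mul_comm]
  congr 1
  rw [Finsupp.prod_fintype _ _ (by simp), Fin.prod_univ_two]
  simp

theorem N1_hasSubst_cY (c : R) :
    HasSubst (![X 0, c • X 1] : Fin 2 → MvPowerSeries (Fin 2) R) := by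
  apply hasSubst_of_constantCoeff_zero
  intro s
  fin_cases s <;> simp

/-- coefficient of `X^k Y^j` in `f(Y)` -/
theorem N1_coeff_subst_Y (f : PowerSeries R) (k j : ℕ) :
    (PowerSeries.subst (X 1 : MvPowerSeries (Fin 2) R) f).coeff
      (Finsupp.single 0 k + Finsupp.single 1 j) = if k = 0 then PowerSeries.coeff j f else 0 := by
  classical
  have ha : PowerSeries.HasSubst (X 1 : MvPowerSeries (Fin 2) R) :=
    PowerSeries.HasSubst.of_constantCoeff_zero (by simp)
  rw [PowerSeries.coeff_subst ha]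
  have h1 : ∀ d : ℕ, MvPowerSeries.coeff (Finsupp.single 0 k + Finsupp.single 1 j)
      ((X 1 : MvPowerSeries (Fin 2) R) ^ d) = if k = 0 ∧ j = d then 1 else 0 := by
    intro d
    rw [X_pow_eq, coeff_monomial]
    congr 1
    rw [eq_iff_iff]
    constructor
    · intro h
      have h0 := DFunLike.congr_fun h 0
      have h1 := DFunLike.congr_fun h 1
      simp at h0 h1
      exact ⟨h0, h1⟩
    · rintro ⟨rfl, rfl⟩
      simp
  simp only [h1]
  by_cases hk : k = 0
  · rw [if_pos hk, finsum_eq_single _ j]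
    · simp [hk]
    · intro d hd
      rw [if_neg (by rintro ⟨-, h⟩; exact hd h.symm), smul_zero]
  · simp [hk]

end gen

section fg

variable {L : Type} [CommRing L]

theorem N1_hasSubst_pair {σ : Type} {y z : MvPowerSeries σ L} (hy : y.constantCoeff = 0)
    (hz : z.constantCoeff = 0) : HasSubst ![y, z] := by
  apply hasSubst_of_constantCoeff_zero
  intro s
  fin_cases s
  · exact hy
  · exact hz

theorem N1_mulN_const (F : FormalGroup L) {σ : Type} {y : MvPowerSeries σ L}
    (hy : y.constantCoeff = 0) (n : ℕ) : (mulN F y n).constantCoeff = 0 := by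
  induction n with
  | zero => simp [mulN]
  | succ n ih =>
    rw [mulN]
    apply constantCoeff_subst_eq_zero (N1_hasSubst_pair ih hy) _ F.zero_constantCoeff
    intro s
    fin_cases s
    · exact ih
    · exact hy

/-- `mulN` commutes with substitution -/
theorem N1_mulN_subst (F : FormalGroup L) {σ τ : Type} {y : MvPowerSeries σ L}
    (hy : y.constantCoeff = 0) {a : σ → MvPowerSeries τ L} (ha : HasSubst a) (n : ℕ) :
    (mulN F y n).subst a = mulN F (y.subst a) n := by
  induction n with
  | zero =>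
    rw [mulN, mulN, ← coe_substAlgHom ha, map_zero]
  | succ n ih =>
    rw [mulN, mulN, subst_comp_subst_apply (N1_hasSubst_pair (N1_mulN_const F hy n) hy) ha, ← ih]
    congr 1
    funext s
    fin_cases s <;> rfl

theorem cf_zero_left (F : FormalGroup L) (j : ℕ) : cf F 0 j = if j = 1 then 1 else 0 := by
  rw [cf, ← N1_coeff_zeroX, ← PowerSeries.coeff_X]
  exact congrArg (PowerSeries.coeff j) F.zeroX_eq_X

theorem cf_zero_right (F : FormalGroup L) (i : ℕ) : cf F i 0 = if i = 1 then 1 else 0 := by
  rw [cf, ← N1_coeff_Xzero, ← PowerSeries.coeff_X]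
  exact congrArg (PowerSeries.coeff i) F.Xzero_eq_X

/-- the coefficient of `t^0` in `t +_F [i](e)` is `[i](e)` -/
theorem trans_coeff_zero (F : FormalGroup L) (i j : ℕ) :
    (trans F i).coeff (Finsupp.single 0 0 + Finsupp.single 1 j) =
      PowerSeries.coeff j (mulE F i) := by
  have h0 : (X 1 : MvPowerSeries (Fin 2) L).constantCoeff = 0 := by simp
  have h1 : HasSubst (![0, PowerSeries.X] : Fin 2 → MvPowerSeries Unit L) := by
    apply N1_hasSubst_pair
    · simp
    · simp [PowerSeries.X]
  have h2 : HasSubst (![X 0, mulN F (X 1) i] : Fin 2 → MvPowerSeries (Fin 2) L) :=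
    N1_hasSubst_pair (by simp) (N1_mulN_const F h0 i)
  rw [← N1_coeff_zeroX, trans, subst_comp_subst_apply h2 h1]
  congr 1
  have h3 : (fun s => ((![X 0, mulN F (X 1) i] : Fin 2 → MvPowerSeries (Fin 2) L) s).subst
      (![0, PowerSeries.X] : Fin 2 → MvPowerSeries Unit L)) = ![0, mulE F i] := by
    funext s
    fin_cases s
    · simp [subst_X h1]
    · simp only [Fin.mk_one, Matrix.cons_val_one, Matrix.cons_val_fin_one]
      rw [N1_mulN_subst F h0 h1, subst_X h1]
      rfl
  rw [h3]
  apply FormalGroup.zero_add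
  exact PowerSeries.HasSubst.of_constantCoeff_zero (N1_mulN_const F (by simp [PowerSeries.X]) i)

end fg

set_option linter.unusedSectionVars false

variable {L : Type} [CommRing L] {F : FormalGroup L} {p : ℕ} [Fact p.Prime] {K : Type} [CommRing K]
  {ev : PowerSeries L →+* K} {ε' : K} {x : ℕ → L}

/-- `ed_{i,m} = (i^{m+1} - i) / d` -/
noncomputable def edN (p : ℕ) (i m : ℕ) : ℕ := ∑ a ∈ Finset.range i, ∑ k ∈ Finset.Ico 1 (m + 1), cpN p k (m + 1 - k) * a ^ k

open Classical in
theorem N1_mul_cpN (m k : ℕ) (hk : 1 ≤ k) (hkm : k < m + 1) :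
    (if IsPP p (m + 1) then p else 1) * cpN p k (m + 1 - k) = (m + 1).choose k := by
  have h1 : k + (m + 1 - k) = m + 1 := by omega
  rw [cpN, h1]
  split_ifs with h
  · apply Nat.mul_div_cancel'
    obtain ⟨j, hj⟩ := h
    rw [hj]
    exact Nat.Prime.dvd_choose_pow Fact.out (by omega) (by omega)
  · simp

open Classical in
theorem edN_mul (i m : ℕ) :
    (if IsPP p (m + 1) then p else 1) * edN p i m + i = i ^ (m + 1) := by
  induction i with
  | zero => simp [edN]
  | succ i ih =>
    have h1 : edN p (i + 1) m = edN p i m +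
        ∑ k ∈ Finset.Ico 1 (m + 1), cpN p k (m + 1 - k) * i ^ k := by
      rw [edN, Finset.sum_range_succ]
      rfl
    have h2 : (if IsPP p (m + 1) then p else 1) *
        ∑ k ∈ Finset.Ico 1 (m + 1), cpN p k (m + 1 - k) * i ^ k =
        ∑ k ∈ Finset.Ico 1 (m + 1), (m + 1).choose k * i ^ k := by
      rw [Finset.mul_sum]
      refine Finset.sum_congr rfl fun k hk => ?_
      rw [Finset.mem_Ico] at hk
      rw [← mul_assoc, N1_mul_cpN m k hk.1 hk.2]
    have h3 : (i + 1) ^ (m + 1) = 1 +
        (∑ k ∈ Finset.Ico 1 (m + 1), (m + 1).choose k * i ^ k) + i ^ (m + 1) := by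
      rw [add_pow, Finset.sum_range_succ, Finset.range_eq_Ico,
        Finset.sum_eq_sum_Ico_succ_bot (by omega)]
      simp only [one_pow, mul_one, pow_zero, Nat.choose_zero_right, Nat.cast_one, zero_add,
        Nat.choose_self, Nat.cast_id]
      congr 2
      refine Finset.sum_congr rfl fun k _ => ?_
      rw [mul_comm]
    rw [h1, mul_add, h2, h3]
    omega

/-- the part of `F` in degree at least two in both variables, modulo `I²` -/
noncomputable def N1_gam (p : ℕ) (x : ℕ → L) : MvPowerSeries (Fin 2) L :=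
  fun d => if 1 ≤ d 0 ∧ 1 ≤ d 1 then cpN p (d 0) (d 1) • x (d 0 + d 1 - 1) else 0

theorem N1_coeff_gam (x : ℕ → L) (k j : ℕ) :
    (N1_gam p x).coeff (Finsupp.single 0 k + Finsupp.single 1 j) =
      if 1 ≤ k ∧ 1 ≤ j then cpN p k j • x (k + j - 1) else 0 := by
  have h0 : ((Finsupp.single 0 k + Finsupp.single 1 j : Fin 2 →₀ ℕ)) 0 = k := by simp
  have h1 : ((Finsupp.single 0 k + Finsupp.single 1 j : Fin 2 →₀ ℕ)) 1 = j := by simp
  change (if 1 ≤ ((Finsupp.single 0 k + Finsupp.single 1 j : Fin 2 →₀ ℕ)) 0 ∧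
    1 ≤ ((Finsupp.single 0 k + Finsupp.single 1 j : Fin 2 →₀ ℕ)) 1 then _ else _) = _
  rw [h0, h1]

theorem N1_gam_mem (hx : IsGen F p x) (d : Fin 2 →₀ ℕ) : (N1_gam p x).coeff d ∈ bigI F p := by
  rw [N1_exp d, N1_coeff_gam]
  split_ifs
  · rw [nsmul_eq_mul]
    exact Ideal.mul_mem_left _ _ (hx.mem_bigI _)
  · exact Ideal.zero_mem _

theorem N1_del_mem (hx : IsGen F p x) (d : Fin 2 →₀ ℕ) :
    (F.toPowerSeries - X 0 - X 1 - N1_gam p x).coeff d ∈ bigI F p ^ 2 := by
  classical
  rw [N1_exp d, map_sub, map_sub, map_sub, N1_coeff_gam, coeff_X, coeff_X]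
  have e0 : (Finsupp.single 0 (d 0) + Finsupp.single 1 (d 1) = (Finsupp.single 0 1 : Fin 2 →₀ ℕ)) ↔
      d 0 = 1 ∧ d 1 = 0 := by
    constructor
    · intro h
      have h0 := DFunLike.congr_fun h 0
      have h1 := DFunLike.congr_fun h 1
      simp at h0 h1
      exact ⟨h0, h1⟩
    · rintro ⟨h0, h1⟩
      rw [h0, h1]
      simp
  have e1 : (Finsupp.single 0 (d 0) + Finsupp.single 1 (d 1) = (Finsupp.single 1 1 : Fin 2 →₀ ℕ)) ↔
      d 0 = 0 ∧ d 1 = 1 := by
    constructor
    · intro h
      have h0 := DFunLike.congr_fun h 0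
      have h1 := DFunLike.congr_fun h 1
      simp at h0 h1
      exact ⟨h0, h1⟩
    · rintro ⟨h0, h1⟩
      rw [h0, h1]
      simp
  have hcf : F.toPowerSeries.coeff (Finsupp.single 0 (d 0) + Finsupp.single 1 (d 1)) =
    cf F (d 0) (d 1) := rfl
  rw [hcf]
  simp only [e0, e1]
  rcases Nat.eq_zero_or_pos (d 0) with h0 | h0
  · rw [h0, cf_zero_left]
    simp
  · rcases Nat.eq_zero_or_pos (d 1) with h1 | h1
    · rw [h1, cf_zero_right]
      simp
    · have := hx.coef (d 0) (d 1) h0 h1
      rw [if_neg (by omega), if_neg (by omega), if_pos ⟨h0, h1⟩, sub_zero, sub_zero]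
      exact this

/-- `F(a)` modulo `I²` -/
theorem N1_main (hx : IsGen F p x) {τ : Type} {a b : Fin 2 → MvPowerSeries τ L} (ha : HasSubst a)
    (hb : HasSubst b) (hab : ∀ s e, (a s).coeff e - (b s).coeff e ∈ bigI F p) (e : τ →₀ ℕ) :
    (F.toPowerSeries.subst a).coeff e -
      ((a 0).coeff e + (a 1).coeff e + ((N1_gam p x).subst b).coeff e) ∈ bigI F p ^ 2 := by
  have h1 := subst_congr (bigI F p) (bigI F p) (N1_gam p x) (N1_gam_mem hx) a b ha hb hab e
  rw [← pow_two] at h1
  have h2 := subst_mem (bigI F p ^ 2) (F.toPowerSeries - X 0 - X 1 - N1_gam p x) (N1_del_mem hx)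
    a ha e
  have h3 : (F.toPowerSeries - X 0 - X 1 - N1_gam p x).subst a =
      F.toPowerSeries.subst a - a 0 - a 1 - (N1_gam p x).subst a := by
    rw [subst_sub ha, subst_sub ha, subst_sub ha, subst_X ha, subst_X ha]
  rw [h3, map_sub, map_sub, map_sub] at h2
  have h4 := Ideal.add_mem _ h1 h2
  convert h4 using 1
  ring

/-- `[i](e)` modulo `I²` -/
theorem mulE_coeff (hx : IsGen F p x) (i k : ℕ) :
    PowerSeries.coeff k (mulE F i) -
      (if k = 0 then 0 else if k = 1 then (i : L) else edN p i (k - 1) • x (k - 1))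
      ∈ bigI F p ^ 2 := by
  induction i generalizing k with
  | zero =>
    have h1 : mulE F 0 = 0 := rfl
    rw [h1]
    simp [edN]
  | succ i ih =>
    have hE : (mulE F i).constantCoeff = 0 := N1_mulN_const F (by simp [PowerSeries.X]) i
    have ha : HasSubst (![mulE F i, PowerSeries.X] : Fin 2 → MvPowerSeries Unit L) :=
      N1_hasSubst_pair hE (by simp [PowerSeries.X])
    have hab : ∀ s e, ((![mulE F i, PowerSeries.X] : Fin 2 → MvPowerSeries Unit L) s).coeff e -
        ((![(i : L) • PowerSeries.X, PowerSeries.X] : Fin 2 → MvPowerSeries Unit L) s).coeff e ∈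
          bigI F p := by
      intro s e
      fin_cases s
      · simp only [Fin.zero_eta, Matrix.cons_val_zero]
        have h1 : e = Finsupp.single () (e ()) := by
          ext; simp
        rw [h1]
        change PowerSeries.coeff (e ()) (mulE F i) -
          PowerSeries.coeff (e ()) ((i : L) • PowerSeries.X : PowerSeries L) ∈ bigI F p
        have h2 := Ideal.pow_le_self two_ne_zero (ih (e ()))
        rw [PowerSeries.coeff_smul, PowerSeries.coeff_X, smul_eq_mul]
        rcases Nat.eq_zero_or_pos (e ()) with h3 | h3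
        · rw [h3] at h2 ⊢
          simpa using h2
        · by_cases h4 : e () = 1
          · rw [h4] at h2 ⊢
            simpa using h2
          · rw [if_neg (by omega), if_neg h4] at h2
            rw [if_neg h4, mul_zero, sub_zero]
            have h5 : edN p i (e () - 1) • x (e () - 1) ∈ bigI F p := by
              rw [nsmul_eq_mul]
              exact Ideal.mul_mem_left _ _ (hx.mem_bigI _)
            have h6 := Ideal.add_mem _ h2 h5
            rwa [sub_add_cancel] at h6
      · simp only [Fin.mk_one, Matrix.cons_val_one, Matrix.cons_val_fin_one, sub_self]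
        exact Ideal.zero_mem _
    have h1 := N1_main hx ha (N1_hasSubst_cX (i : L)) hab (Finsupp.single () k)
    have h2 : ((N1_gam p x).subst (![(i : L) • PowerSeries.X, PowerSeries.X] :
        Fin 2 → MvPowerSeries Unit L)).coeff (Finsupp.single () k) =
        (∑ a ∈ Finset.Ico 1 k, cpN p a (k - a) * i ^ a) • x (k - 1) := by
      have h3 := N1_coeff_cX (N1_gam p x) (i : L) k
      rw [PowerSeries.coeff] at h3
      rw [h3, Finset.sum_smul]
      have h4 : Finset.Ico 1 k ⊆ Finset.range (k + 1) := by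
        intro a ha
        rw [Finset.mem_Ico] at ha
        rw [Finset.mem_range]
        omega
      rw [← Finset.sum_subset h4]
      · refine Finset.sum_congr rfl fun a ha => ?_
        rw [Finset.mem_Ico] at ha
        rw [N1_coeff_gam, if_pos (by omega)]
        have h5 : a + (k - a) - 1 = k - 1 := by omega
        rw [h5, nsmul_eq_mul, nsmul_eq_mul]
        push_cast
        ring
      · intro a ha1 ha2
        rw [Finset.mem_range] at ha1
        rw [Finset.mem_Ico] at ha2
        rw [N1_coeff_gam, if_neg (by omega), zero_mul]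
    rw [h2] at h1
    simp only [Matrix.cons_val_zero, Matrix.cons_val_one, Matrix.cons_val_fin_one] at h1
    change PowerSeries.coeff k (mulE F (i + 1)) - (PowerSeries.coeff k (mulE F i) +
      PowerSeries.coeff k (PowerSeries.X : PowerSeries L) + _) ∈ bigI F p ^ 2 at h1
    have h3 := Ideal.add_mem _ h1 (ih k)
    convert h3 using 1
    rw [PowerSeries.coeff_X]
    rcases Nat.eq_zero_or_pos k with h4 | h4
    · rw [h4]
      simp
    · by_cases h5 : k = 1
      · rw [h5]
        simp
        ring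
      · obtain ⟨m, rfl⟩ : ∃ m, k = m + 1 := ⟨k - 1, by omega⟩
        have h6 : edN p (i + 1) m = edN p i m +
            ∑ k ∈ Finset.Ico 1 (m + 1), cpN p k (m + 1 - k) * i ^ k := by
          rw [edN, Finset.sum_range_succ]
          rfl
        rw [if_neg (by omega), if_neg h5, if_neg h5, if_neg (by omega), if_neg h5,
          Nat.add_sub_cancel, h6, add_smul]
        ring

/-- `t +_F [i](e)` modulo `I²`: the coefficient of `t^k`, `k ≥ 1`, is
`[k = 1] + ∑_{m ≥ k} c_{k, m+1-k} i^{m+1-k} x_m e^{m+1-k}` -/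
theorem trans_coeff (hx : IsGen F p x) (i k j : ℕ) (hk : 1 ≤ k) :
    (trans F i).coeff (Finsupp.single 0 k + Finsupp.single 1 j) -
      (if j = 0 then (if k = 1 then 1 else 0)
        else (cpN p k j * i ^ j) • x (k + j - 1)) ∈ bigI F p ^ 2 := by
  classical
  have h0 : (X 1 : MvPowerSeries (Fin 2) L).constantCoeff = 0 := by simp
  have hY : PowerSeries.HasSubst (X 1 : MvPowerSeries (Fin 2) L) :=
    PowerSeries.HasSubst.of_constantCoeff_zero (by simp)
  -- `[i](e)` in two variables
  have hmul : mulN F (X 1 : MvPowerSeries (Fin 2) L) i =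
      PowerSeries.subst (X 1 : MvPowerSeries (Fin 2) L) (mulE F i) := by
    have h1 := N1_mulN_subst F (y := (PowerSeries.X : PowerSeries L)) (by simp [PowerSeries.X])
      hY.const i
    have h3 : MvPowerSeries.subst (fun _ : Unit => (X 1 : MvPowerSeries (Fin 2) L))
      (PowerSeries.X : PowerSeries L) = X 1 := PowerSeries.subst_X hY
    rw [h3] at h1
    exact h1.symm
  have ha : HasSubst (![X 0, mulN F (X 1) i] : Fin 2 → MvPowerSeries (Fin 2) L) :=
    N1_hasSubst_pair (by simp) (N1_mulN_const F h0 i)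
  have hcy : ∀ k j, (mulN F (X 1 : MvPowerSeries (Fin 2) L) i).coeff
      (Finsupp.single 0 k + Finsupp.single 1 j) =
      if k = 0 then PowerSeries.coeff j (mulE F i) else 0 := by
    intro k j
    rw [hmul, N1_coeff_subst_Y]
  have hab : ∀ s e, ((![X 0, mulN F (X 1) i] : Fin 2 → MvPowerSeries (Fin 2) L) s).coeff e -
      ((![X 0, (i : L) • X 1] : Fin 2 → MvPowerSeries (Fin 2) L) s).coeff e ∈ bigI F p := by
    intro s e
    fin_cases s
    · simp only [Fin.zero_eta, Matrix.cons_val_zero, sub_self]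
      exact Ideal.zero_mem _
    · simp only [Fin.mk_one, Matrix.cons_val_one, Matrix.cons_val_fin_one]
      have h4 : ((i : L) • (X 1 : MvPowerSeries (Fin 2) L)).coeff
          (Finsupp.single 0 (e 0) + Finsupp.single 1 (e 1)) =
          if e 0 = 0 ∧ e 1 = 1 then (i : L) else 0 := by
        rw [map_smul, coeff_X, smul_eq_mul]
        have e1 : (Finsupp.single 0 (e 0) + Finsupp.single 1 (e 1) =
            (Finsupp.single 1 1 : Fin 2 →₀ ℕ)) ↔ e 0 = 0 ∧ e 1 = 1 := by
          constructor
          · intro h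
            have h0 := DFunLike.congr_fun h 0
            have h1 := DFunLike.congr_fun h 1
            simp at h0 h1
            exact ⟨h0, h1⟩
          · rintro ⟨h0, h1⟩
            rw [h0, h1]
            simp
        simp only [e1]
        split_ifs <;> simp
      rw [N1_exp e, hcy, h4]
      by_cases h5 : e 0 = 0
      · have h6 := Ideal.pow_le_self two_ne_zero (mulE_coeff hx i (e 1))
        rw [if_pos h5]
        rcases Nat.eq_zero_or_pos (e 1) with h7 | h7
        · rw [h7] at h6 ⊢
          simpa using h6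
        · by_cases h8 : e 1 = 1
          · rw [h8] at h6 ⊢
            simpa [h5] using h6
          · rw [if_neg (by omega), if_neg h8] at h6
            rw [if_neg (fun h => h8 h.2), sub_zero]
            have h9 : edN p i (e 1 - 1) • x (e 1 - 1) ∈ bigI F p := by
              rw [nsmul_eq_mul]
              exact Ideal.mul_mem_left _ _ (hx.mem_bigI _)
            have h10 := Ideal.add_mem _ h6 h9
            rwa [sub_add_cancel] at h10
      · rw [if_neg h5, if_neg (fun h => h5 h.1), sub_zero]
        exact Ideal.zero_mem _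
  have h1 := N1_main hx ha (N1_hasSubst_cY (i : L)) hab (Finsupp.single 0 k + Finsupp.single 1 j)
  rw [N1_coeff_cY, N1_coeff_gam] at h1
  simp only [Matrix.cons_val_zero, Matrix.cons_val_one, Matrix.cons_val_fin_one] at h1
  rw [hcy, if_neg (by omega : ¬ k = 0), coeff_X] at h1
  have e0 : (Finsupp.single 0 k + Finsupp.single 1 j = (Finsupp.single 0 1 : Fin 2 →₀ ℕ)) ↔
      k = 1 ∧ j = 0 := by
    constructor
    · intro h
      have h0 := DFunLike.congr_fun h 0
      have h1 := DFunLike.congr_fun h 1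
      simp at h0 h1
      exact ⟨h0, h1⟩
    · rintro ⟨h0, h1⟩
      rw [h0, h1]
      simp
  simp only [e0] at h1
  change (trans F i).coeff (Finsupp.single 0 k + Finsupp.single 1 j) - _ ∈ _ at h1
  convert h1 using 2
  rcases Nat.eq_zero_or_pos j with hj | hj
  · rw [hj]
    simp
  · rw [if_neg (by omega), if_neg (by omega), if_pos ⟨hk, hj⟩, nsmul_eq_mul, nsmul_eq_mul]
    push_cast
    ring

end Pool.Agent.MUDL
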