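import Mathlib
import Pool.Agent.Lib.MP_eb0266_gt.Basis
import Pool.Agent.Lib.MP_eb0266_gt.Nmul

set_option autoImplicit false

namespace Pool.Agent.MUDL

open MvPowerSeries

theorem D4_choose (p : ℕ) [Fact p.Prime] (a u : ℕ) :
    (((p ^ a * u).choose (p ^ a) : ℕ) : ZMod p) = u := by
  have hp : 0 < p := (Fact.out : p.Prime).pos
  induction a with
  | zero => simp
  | succ a ih =>
    have h := Choose.choose_modEq_choose_mod_mul_choose_div_nat (n := p ^ (a + 1) * u)
      (k := p ^ (a + 1)) (p := p)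
    have e1 : p ^ (a + 1) * u = p * (p ^ a * u) := by ring
    have e2 : p ^ (a + 1) = p * p ^ a := by ring
    rw [← ZMod.natCast_eq_natCast_iff] at h
    rw [h, e1, e2, Nat.mul_mod_right, Nat.mul_mod_right, Nat.mul_div_cancel_left _ hp,
      Nat.mul_div_cancel_left _ hp]
    simpa using ih

theorem D4_unit (p : ℕ) [Fact p.Prime] (N : ℕ) (hN : 2 ≤ N) :
    ∃ i, 1 ≤ i ∧ i < N ∧ ((cpN p i (N - i) : ℕ) : ZMod p) ≠ 0 := by
  classical
  have hp : p.Prime := Fact.out
  by_cases h : IsPP p N
  · obtain ⟨k, rfl⟩ := h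
    have hk : k ≠ 0 := by rintro rfl; simp at hN
    obtain ⟨k, rfl⟩ := Nat.exists_eq_succ_of_ne_zero hk
    have hlt : p ^ k < p ^ (k + 1) := Nat.pow_lt_pow_right hp.one_lt (by omega)
    refine ⟨p ^ k, Nat.one_le_pow _ _ hp.pos, hlt, ?_⟩
    have hsum : p ^ k + (p ^ (k + 1) - p ^ k) = p ^ (k + 1) := by omega
    unfold cpN
    rw [hsum, if_pos ⟨k + 1, rfl⟩]
    have hf := Nat.factorization_choose_prime_pow (n := k + 1) (k := p ^ k) hp hlt.le
      (pow_ne_zero _ hp.ne_zero)
    rw [hp.factorization_pow, Finsupp.single_eq_same, Nat.add_sub_cancel_left] at hf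
    intro h0
    rw [ZMod.natCast_eq_zero_iff] at h0
    have hdvd : p ∣ (p ^ (k + 1)).choose (p ^ k) := by
      apply Nat.dvd_of_factorization_pos
      rw [hf]; exact one_ne_zero
    have hd2 : p ^ 2 ∣ (p ^ (k + 1)).choose (p ^ k) := by
      obtain ⟨c, hc⟩ := hdvd
      rw [hc, Nat.mul_div_cancel_left _ hp.pos] at h0
      rw [hc, pow_two]
      exact mul_dvd_mul_left p h0
    have hne : (p ^ (k + 1)).choose (p ^ k) ≠ 0 := (Nat.choose_pos hlt.le).ne'
    have := (hp.pow_dvd_iff_le_factorization hne).1 hd2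
    omega
  · have hN0 : N ≠ 0 := by omega
    obtain ⟨a, u, hu, rfl⟩ := Nat.exists_eq_pow_mul_and_not_dvd hN0 p hp.ne_one
    have hu1 : u ≠ 1 := by
      rintro rfl
      exact h ⟨a, by simp⟩
    have hu0 : u ≠ 0 := by rintro rfl; simp at hu
    have hlt : p ^ a < p ^ a * u := by
      have : 0 < p ^ a := pow_pos hp.pos _
      nlinarith [Nat.lt_of_le_of_ne (Nat.one_le_iff_ne_zero.2 hu0) (Ne.symm hu1)]
    refine ⟨p ^ a, Nat.one_le_pow _ _ hp.pos, hlt, ?_⟩
    have hsum : p ^ a + (p ^ a * u - p ^ a) = p ^ a * u := by omega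
    unfold cpN
    rw [hsum, if_neg h, Nat.div_one, D4_choose]
    intro h0
    rw [ZMod.natCast_eq_zero_iff] at h0
    exact hu h0

variable {L : Type} [CommRing L] (F : FormalGroup L) (p : ℕ)

theorem D4_sq {S : Type} [CommRing S] (f : L →+* S) (a : S) (ha : a * a = 0) (I : Ideal L)
    (hI : ∀ y ∈ I, f y ∈ Ideal.span {a}) : ∀ y ∈ I ^ 2, f y = 0 := by
  intro y hy
  have h1 : I ≤ Ideal.comap f (Ideal.span {a}) := hI
  have h2 : y ∈ Ideal.comap f (Ideal.span {a} ^ 2) :=
    Ideal.le_comap_pow f 2 (Ideal.pow_right_mono h1 2 hy)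
  rw [Ideal.mem_comap, Ideal.span_singleton_pow, pow_two, ha] at h2
  simpa using h2

theorem D4_snd (q : ℕ) (y : DualNumber (ZMod q)) :
    TrivSqZeroExt.snd (y * DualNumber.eps) = TrivSqZeroExt.fst y := by
  rw [TrivSqZeroExt.snd_mul, DualNumber.snd_eps, DualNumber.fst_eps]
  simp

theorem D4_fst (q : ℕ) (y : DualNumber (ZMod q)) :
    TrivSqZeroExt.fst (y * DualNumber.eps) = 0 := by
  rw [TrivSqZeroExt.fst_mul, DualNumber.fst_eps, mul_zero]

theorem D4_int (q : ℕ) (k : ℤ) :
    TrivSqZeroExt.fst ((k : ℤ) : DualNumber (ZMod q)) = (k : ZMod q) :=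
  map_intCast (TrivSqZeroExt.fstHom ℤ (ZMod q) (ZMod q)) k

/-- the key step: if `∑ c_i x_i ∈ I²` then all `c_i ∈ I` -/
theorem D4_indep [Fact p.Prime] (hF : IsUniversal F) (x : ℕ → L) (hx : IsGen F p x)
    (s : Finset ℕ) (c : ℕ → L) (h : ∑ i ∈ s, c i * x i ∈ bigI F p ^ 2) (j : ℕ) (hj : j ∈ s) :
    c j ∈ bigI F p := by
  have hp : p.Prime := Fact.out
  obtain ⟨k, hk⟩ := exists_int F hF (c j)
  have hkI : (p : ℤ) ∣ k → c j ∈ bigI F p := by
    rintro ⟨t, rfl⟩
    have h1 : c j - ((p * t : ℤ) : L) ∈ bigI F p := augI_le F p hk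
    have h2 : ((p * t : ℤ) : L) ∈ bigI F p := by
      push_cast
      exact Ideal.mul_mem_right _ _ (Ideal.mem_sup_left (Ideal.subset_span rfl))
    simpa using Ideal.add_mem _ h1 h2
  apply hkI
  rcases Nat.eq_zero_or_pos j with rfl | hjpos
  · obtain ⟨f, hf⟩ := exists_aug F hF
    let g : L →+* ZMod (p ^ 2) := (Int.castRingHom (ZMod (p ^ 2))).comp f
    have hg : ∀ y ∈ augI F, g y = 0 := fun y hy => by
      change ((f y : ℤ) : ZMod (p ^ 2)) = 0
      rw [hf y hy]; simp
    have hgI : ∀ y ∈ bigI F p, g y ∈ Ideal.span {(p : ZMod (p ^ 2))} := by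
      intro y hy
      obtain ⟨u, hu, v, hv, rfl⟩ := Submodule.mem_sup.1 hy
      obtain ⟨w, rfl⟩ := Ideal.mem_span_singleton'.1 hu
      rw [map_add, hg v hv, add_zero, map_mul, map_natCast]
      exact Ideal.mul_mem_left _ _ (Ideal.subset_span rfl)
    have hpp : (p : ZMod (p ^ 2)) * p = 0 := by
      rw [← pow_two]
      exact_mod_cast ZMod.natCast_self (p ^ 2)
    have h0 := D4_sq g (p : ZMod (p ^ 2)) hpp _ hgI _ h
    rw [map_sum] at h0
    rw [Finset.sum_eq_single_of_mem 0 hj] at h0
    · rw [map_mul, hx.zero, map_natCast] at h0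
      have hgc : g (c 0) = (k : ZMod (p ^ 2)) := by
        have := hg _ hk
        rw [map_sub, map_intCast, sub_eq_zero] at this
        exact this
      rw [hgc] at h0
      have h1 : ((k * p : ℤ) : ZMod (p ^ 2)) = 0 := by push_cast; exact h0
      rw [ZMod.intCast_zmod_eq_zero_iff_dvd] at h1
      push_cast at h1
      rw [pow_two] at h1
      exact Int.dvd_of_mul_dvd_mul_right (by exact_mod_cast hp.ne_zero) h1
    · intro i _ hi
      rw [map_mul, hg _ (hx.mem i (Nat.one_le_iff_ne_zero.2 hi)), mul_zero]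
  · let S := DualNumber (ZMod p)
    let a : S := DualNumber.eps
    have ha : a * a = 0 := DualNumber.eps_mul_eps
    have hpS : (p : S) = 0 := by
      have := map_natCast (algebraMap (ZMod p) S) p
      rw [ZMod.natCast_self, map_zero] at this
      exact this.symm
    obtain ⟨G, hGc, hG⟩ := exists_fgl p a ha (by rw [hpS, zero_mul]) (j + 1) (by omega)
    obtain ⟨f, hfG, -⟩ := hF.2 S G hGc
    have hcf : ∀ i k, f (cf F i k) = cf G i k := by
      intro i k
      rw [← hfG]
      simp [cf]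
    have haug : ∀ y ∈ augI F, f y ∈ Ideal.span {a} := by
      intro y hy
      have : augI F ≤ Ideal.comap f (Ideal.span {a}) := by
        apply Ideal.span_le.2
        rintro _ ⟨i, l, hil, rfl⟩
        rw [SetLike.mem_coe, Ideal.mem_comap, hcf, hG i l hil]
        split_ifs
        · rw [nsmul_eq_mul]
          exact Ideal.mul_mem_left _ _ (Ideal.subset_span rfl)
        · exact Ideal.zero_mem _
      exact this hy
    have hfI : ∀ y ∈ bigI F p, f y ∈ Ideal.span {a} := by
      intro y hy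
      obtain ⟨u, hu, v, hv, rfl⟩ := Submodule.mem_sup.1 hy
      obtain ⟨w, rfl⟩ := Ideal.mem_span_singleton'.1 hu
      rw [map_add, map_mul, map_natCast, hpS, mul_zero, zero_add]
      exact haug v hv
    have hsq := D4_sq f a ha _ hfI
    have hsm : ∀ (n : ℕ) (y : S), ((n : ℕ) : ZMod p) ≠ 0 → n • y = 0 → y = 0 := by
      intro n y hn hy
      rw [← Nat.cast_smul_eq_nsmul (ZMod p)] at hy
      exact (smul_eq_zero.1 hy).resolve_left hn
    have hrel : ∀ m, 1 ≤ m → ∀ i, 1 ≤ i → i < m + 1 →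
        cf G i (m + 1 - i) = cpN p i (m + 1 - i) • f (x m) := by
      intro m hm i hi him
      have h1 := hx.coef i (m + 1 - i) hi (by omega)
      have h2 := hsq _ h1
      rw [map_sub, map_nsmul, hcf, sub_eq_zero] at h2
      have e : i + (m + 1 - i) - 1 = m := by omega
      rw [e] at h2
      exact h2
    have hxm : ∀ m, m ≠ j → f (x m) = 0 := by
      intro m hm
      rcases Nat.eq_zero_or_pos m with rfl | hmpos
      · rw [hx.zero, map_natCast, hpS]
      · obtain ⟨i, hi1, hi2, hi3⟩ := D4_unit p (m + 1) (by omega)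
        have := hrel m hmpos i hi1 hi2
        rw [hG i (m + 1 - i) (by omega), if_neg (by omega)] at this
        exact hsm _ _ hi3 this.symm
    have hxj : f (x j) = a := by
      obtain ⟨i, hi1, hi2, hi3⟩ := D4_unit p (j + 1) (by omega)
      have := hrel j hjpos i hi1 hi2
      rw [hG i (j + 1 - i) (by omega), if_pos ⟨by omega, by omega, by omega⟩] at this
      have h3 : cpN p i (j + 1 - i) • (f (x j) - a) = 0 := by
        rw [smul_sub, this, sub_self]
      exact sub_eq_zero.1 (hsm _ _ hi3 h3)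
    have h0 := hsq _ h
    rw [map_sum, Finset.sum_eq_single_of_mem j hj] at h0
    · rw [map_mul, hxj] at h0
      have h1 : (f (c j)).fst = 0 := by
        have := congrArg TrivSqZeroExt.snd h0
        rw [D4_snd] at this
        exact this
      have h2 := haug _ hk
      obtain ⟨w, hw⟩ := Ideal.mem_span_singleton'.1 h2
      have h3 := congrArg TrivSqZeroExt.fst hw
      rw [map_sub, map_intCast, TrivSqZeroExt.fst_sub, h1, D4_fst, D4_int] at h3
      have h4 : ((k : ℤ) : ZMod p) = 0 := by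
        simpa using h3
      exact (ZMod.intCast_zmod_eq_zero_iff_dvd _ _).1 h4
    · intro i _ hi
      rw [map_mul, hxm i hi, mul_zero]

theorem gen_basis [Fact p.Prime] (hF : IsUniversal F) (x : ℕ → L) (hx : IsGen F p x) :
    LinearIndependent (L ⧸ bigI F p)
      (fun n => (bigI F p).toCotangent ⟨x n, hx.mem_bigI n⟩) ∧
    Submodule.span (L ⧸ bigI F p)
      (Set.range fun n => (bigI F p).toCotangent ⟨x n, hx.mem_bigI n⟩) = ⊤ := by
  constructor
  · rw [linearIndependent_iff']
    intro s g hg j hj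
    choose c hc using fun i => Ideal.Quotient.mk_surjective (g i)
    rw [← hc j, Ideal.Quotient.eq_zero_iff_mem]
    apply D4_indep F p hF x hx s c _ j hj
    have h1 : (bigI F p).toCotangent (∑ i ∈ s, c i • (⟨x i, hx.mem_bigI i⟩ : bigI F p)) = 0 := by
      rw [map_sum, ← hg]
      apply Finset.sum_congr rfl
      intro i _
      rw [map_smul, ← hc i, ← Ideal.Quotient.algebraMap_eq, algebraMap_smul]
    rw [Ideal.toCotangent_eq_zero] at h1
    simpa using h1
  · set v : ℕ → (bigI F p).Cotangent :=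
      fun n => (bigI F p).toCotangent ⟨x n, hx.mem_bigI n⟩ with hv
    set T := Submodule.span (L ⧸ bigI F p) (Set.range v) with hT
    have hvT : ∀ n, v n ∈ T := fun n => Submodule.subset_span ⟨n, rfl⟩
    let T' : Submodule L (bigI F p) :=
      Submodule.comap (bigI F p).toCotangent (T.restrictScalars L)
    have hle : bigI F p ≤ Submodule.map (Submodule.subtype (bigI F p)) T' := by
      apply sup_le
      · rw [Ideal.span_singleton_le_iff_mem]
        refine ⟨⟨x 0, hx.mem_bigI 0⟩, hvT 0, ?_⟩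
        exact hx.zero
      · apply Ideal.span_le.2
        rintro _ ⟨i, l, hil, rfl⟩
        have hmem : cf F i l ∈ bigI F p := augI_le F p (Ideal.subset_span ⟨i, l, hil, rfl⟩)
        refine ⟨⟨cf F i l, hmem⟩, ?_, rfl⟩
        change (bigI F p).toCotangent ⟨cf F i l, hmem⟩ ∈ T
        rcases Nat.eq_zero_or_pos i with rfl | hi
        · have h0 : cf F 0 l = 0 := by rw [cf_zero_left, if_neg (by omega)]
          have : (⟨cf F 0 l, hmem⟩ : bigI F p) = 0 := Subtype.ext h0
          rw [this, map_zero]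
          exact T.zero_mem
        rcases Nat.eq_zero_or_pos l with rfl | hl
        · have h0 : cf F i 0 = 0 := by rw [cf_zero_right, if_neg (by omega)]
          have : (⟨cf F i 0, hmem⟩ : bigI F p) = 0 := Subtype.ext h0
          rw [this, map_zero]
          exact T.zero_mem
        have h1 := hx.coef i l hi hl
        have h2 : (bigI F p).toCotangent ((⟨cf F i l, hmem⟩ : bigI F p) -
            cpN p i l • ⟨x (i + l - 1), hx.mem_bigI _⟩) = 0 := by
          rw [Ideal.toCotangent_eq_zero]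
          simpa using h1
        rw [map_sub, map_nsmul, sub_eq_zero] at h2
        rw [h2]
        exact T.toAddSubmonoid.nsmul_mem (hvT _) _
    rw [eq_top_iff]
    rintro w -
    obtain ⟨y, rfl⟩ := (bigI F p).toCotangent_surjective w
    obtain ⟨z, hz, hzy⟩ := hle y.2
    have : z = y := Subtype.ext hzy
    rw [← this]
    exact hz

end Pool.Agent.MUDL
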