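import Mathlib
import Pool.Agent.Lib.MP_eb0266_gt.Comb

/-!
Row E. Existence and uniqueness of the operations on the exterior algebra, given normal forms.
-/

set_option autoImplicit false

namespace Pool.Agent.MUDL

noncomputable section

/-- the linear map `m ↦ ∑_s ι(q s m) t^s` -/
def extGen {R : Type} [CommRing R] {M : Type} [AddCommGroup M] [Module R M]
    (hR : ∀ r : R, ∃ k : ℤ, r = k) (q : ℕ → M →+ M) :
    M →ₗ[R] PowerSeries (ExteriorAlgebra R M) where
  toFun m := PowerSeries.mk fun s => ExteriorAlgebra.ι R (q s m)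
  map_add' x y := by
    ext s
    simp
  map_smul' r x := by
    ext s
    obtain ⟨k, rfl⟩ := hR r
    simp only [RingHom.id_apply]
    rw [PowerSeries.coeff_mk, Int.cast_smul_eq_zsmul, Int.cast_smul_eq_zsmul, map_zsmul, map_zsmul,
      map_zsmul, PowerSeries.coeff_mk]

theorem extGen_sq {R : Type} [CommRing R] {M : Type} [AddCommGroup M] [Module R M]
    (hR : ∀ r : R, ∃ k : ℤ, r = k) (q : ℕ → M →+ M) (m : M) :
    extGen hR q m * extGen hR q m = 0 := by
  ext n
  rw [PowerSeries.coeff_mul, map_zero]
  simp only [extGen, LinearMap.coe_mk, AddHom.coe_mk, PowerSeries.coeff_mk]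
  refine Finset.sum_involution (fun a _ => a.swap) ?_ ?_ ?_ ?_
  · intro a _
    exact ExteriorAlgebra.ι_add_mul_swap _ _
  · intro a _ h1 h2
    apply h1
    have h3 : a.1 = a.2 := by
      have := congrArg Prod.snd h2
      simpa using this
    rw [h3]
    exact ExteriorAlgebra.ι_sq_zero _
  · intro a ha
    simpa [add_comm] using ha
  · intro a _
    simp

/-- A family of additive maps `q s : M → M` (`M` a vector space over `R`, every element of `R` an integer),
finitely many... extends uniquely to operations `Q s` on the exterior algebra that satisfy the Cartan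
formula. Existence: `m ↦ ∑_s ι(q s m) t^s` has square zero in `A[[t]]`, and gives a ring homomorphism
`A → A[[t]]`; `Q s a` is the coefficient of `t^s`. Uniqueness: induction on the exterior algebra. -/
theorem ext_ops {R : Type} [CommRing R] {M : Type} [AddCommGroup M] [Module R M]
    (hR : ∀ r : R, ∃ k : ℤ, r = k) (q : ℕ → M →+ M) :
    ∃ Q : ℕ → ExteriorAlgebra R M →+ ExteriorAlgebra R M,
      ((∀ s, Q s 1 = if s = 0 then 1 else 0) ∧
        (∀ s a b, Q s (a * b) = ∑ i ∈ Finset.range (s + 1), Q i a * Q (s - i) b) ∧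
        ∀ s m, Q s (ExteriorAlgebra.ι R m) = ExteriorAlgebra.ι R (q s m)) ∧
      ∀ Q' : ℕ → ExteriorAlgebra R M →+ ExteriorAlgebra R M,
      ((∀ s, Q' s 1 = if s = 0 then 1 else 0) ∧
        (∀ s a b, Q' s (a * b) = ∑ i ∈ Finset.range (s + 1), Q' i a * Q' (s - i) b) ∧
        ∀ s m, Q' s (ExteriorAlgebra.ι R m) = ExteriorAlgebra.ι R (q s m)) → Q' = Q := by
  set Φ : ExteriorAlgebra R M →ₐ[R] PowerSeries (ExteriorAlgebra R M) :=
    ExteriorAlgebra.lift R ⟨extGen hR q, extGen_sq hR q⟩ with hΦ
  refine ⟨fun s => (PowerSeries.coeff s).toAddMonoidHom.comp Φ.toRingHom.toAddMonoidHom,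
    ⟨?_, ?_, ?_⟩, ?_⟩
  · intro s
    show PowerSeries.coeff s (Φ 1) = _
    rw [map_one, PowerSeries.coeff_one]
  · intro s a b
    show PowerSeries.coeff s (Φ (a * b)) =
      ∑ i ∈ Finset.range (s + 1), PowerSeries.coeff i (Φ a) * PowerSeries.coeff (s - i) (Φ b)
    rw [map_mul, PowerSeries.coeff_mul]
    exact Finset.Nat.sum_antidiagonal_eq_sum_range_succ
      (fun i j => PowerSeries.coeff i (Φ a) * PowerSeries.coeff j (Φ b)) s
  · intro s m
    show PowerSeries.coeff s (Φ (ExteriorAlgebra.ι R m)) = _
    rw [hΦ, ExteriorAlgebra.lift_ι_apply]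
    show PowerSeries.coeff s (PowerSeries.mk fun s => ExteriorAlgebra.ι R (q s m)) = _
    rw [PowerSeries.coeff_mk]
  · rintro Q' ⟨h1, h2, h3⟩
    have key : ∀ a : ExteriorAlgebra R M, ∀ s, Q' s a = PowerSeries.coeff s (Φ a) := by
      intro a
      induction a using ExteriorAlgebra.induction with
      | algebraMap r =>
        intro s
        obtain ⟨k, rfl⟩ := hR r
        have e1 : (algebraMap R (ExteriorAlgebra R M)) ((k : ℤ) : R) = k • (1 : ExteriorAlgebra R M) := by
          rw [map_intCast, zsmul_eq_mul, mul_one]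
        rw [e1, map_zsmul, map_zsmul, map_zsmul, h1, map_one, PowerSeries.coeff_one]
      | ι x =>
        intro s
        rw [h3, hΦ, ExteriorAlgebra.lift_ι_apply]
        show _ = PowerSeries.coeff s (PowerSeries.mk fun s => ExteriorAlgebra.ι R (q s x))
        rw [PowerSeries.coeff_mk]
      | mul a b ha hb =>
        intro s
        rw [h2, map_mul, PowerSeries.coeff_mul,
          Finset.Nat.sum_antidiagonal_eq_sum_range_succ
            (fun i j => PowerSeries.coeff i (Φ a) * PowerSeries.coeff j (Φ b)) s]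
        exact Finset.sum_congr rfl fun i _ => by rw [ha, hb]
      | add a b ha hb =>
        intro s
        rw [map_add, map_add, map_add, ha, hb]
    funext s
    ext a
    exact key a s

/-- the operations `β Q^s` vanish if they vanish on the generators -/
theorem ext_b {R : Type} [CommRing R] {M : Type} [AddCommGroup M] [Module R M]
    (hR : ∀ r : R, ∃ k : ℤ, r = k) (Q B : ℕ → ExteriorAlgebra R M →+ ExteriorAlgebra R M)
    (h1 : ∀ s, B s 1 = 0)
    (h2 : ∀ s a b, B s (a * b) = ∑ i ∈ Finset.range (s + 1),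
      (B i a * Q (s - i) b + CliffordAlgebra.involute (Q i a) * B (s - i) b))
    (h3 : ∀ s m, B s (ExteriorAlgebra.ι R m) = 0) : B = 0 := by
  have key : ∀ a : ExteriorAlgebra R M, ∀ s, B s a = 0 := by
    intro a
    induction a using ExteriorAlgebra.induction with
    | algebraMap r =>
      intro s
      obtain ⟨k, rfl⟩ := hR r
      have e1 : (algebraMap R (ExteriorAlgebra R M)) ((k : ℤ) : R) = k • (1 : ExteriorAlgebra R M) := by
        rw [map_intCast, zsmul_eq_mul, mul_one]
      rw [e1, map_zsmul, h1, smul_zero]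
    | ι x =>
      intro s
      rw [h3]
    | mul a b ha hb =>
      intro s
      rw [h2]
      exact Finset.sum_eq_zero fun i _ => by rw [ha, hb, zero_mul, mul_zero, add_zero]
    | add a b ha hb =>
      intro s
      rw [map_add, ha, hb, add_zero]
  funext s
  ext a
  exact key a s

end

end Pool.Agent.MUDL
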