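import Mathlib

set_option autoImplicit false

namespace Pool.Agent.MUDL

open Polynomial in
theorem PM_core (p : ℕ) [Fact p.Prime] (hodd : p ≠ 2) :
    ∏ i ∈ Finset.Ico 1 p, (X + C ((i : ZMod (p ^ 2)) ^ p)) = (X : (ZMod (p ^ 2))[X]) ^ (p - 1) - 1 := by
  have hp : p.Prime := Fact.out
  have hp2 : 2 ≤ p := hp.two_le
  have : Fact (1 < p ^ 2) := ⟨by nlinarith⟩
  have hrw : ∀ i : ℕ, (X + C ((i : ZMod (p ^ 2)) ^ p)) = X - C (-((i : ZMod (p ^ 2)) ^ p)) := by
    intro i; rw [C_neg, sub_neg_eq_add]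
  have hm : (∏ i ∈ Finset.Ico 1 p, (X - C (-((i : ZMod (p ^ 2)) ^ p)))).Monic :=
    monic_prod_of_monic _ _ fun i _ => monic_X_sub_C _
  have hm2 : ((X : (ZMod (p ^ 2))[X]) ^ (p - 1) - 1).Monic := by
    have := monic_X_pow_sub_C (1 : ZMod (p ^ 2)) (n := p - 1) (by omega)
    simpa using this
  have hd2 : ((X : (ZMod (p ^ 2))[X]) ^ (p - 1) - 1).natDegree = p - 1 := by
    have := natDegree_X_pow_sub_C (R := ZMod (p ^ 2)) (n := p - 1) (r := 1)
    simpa using this
  have hdvd : (∏ i ∈ Finset.Ico 1 p, (X - C (-((i : ZMod (p ^ 2)) ^ p)))) ∣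
      ((X : (ZMod (p ^ 2))[X]) ^ (p - 1) - 1) := by
    apply Finset.prod_dvd_of_coprime
    · intro i hi j hj hij
      apply isCoprime_X_sub_C_of_isUnit_sub
      have hi' := Finset.mem_Ico.1 hi
      have hj' := Finset.mem_Ico.1 hj
      have e : -((i : ZMod (p ^ 2)) ^ p) - -((j : ZMod (p ^ 2)) ^ p) =
          (((j : ℤ) ^ p - (i : ℤ) ^ p : ℤ) : ZMod (p ^ 2)) := by push_cast; ring
      rw [e, ZMod.coe_int_isUnit_iff_isCoprime]
      have hc : IsCoprime (p : ℤ) ((j : ℤ) ^ p - (i : ℤ) ^ p) := by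
        rw [Prime.coprime_iff_not_dvd (Nat.prime_iff_prime_int.1 hp)]
        intro hdv
        have h0 : (((j : ℤ) ^ p - (i : ℤ) ^ p : ℤ) : ZMod p) = 0 :=
          (ZMod.intCast_zmod_eq_zero_iff_dvd _ _).2 hdv
        push_cast at h0
        rw [ZMod.pow_card, ZMod.pow_card, sub_eq_zero] at h0
        have h1 : ((j : ℕ) : ZMod p) = ((i : ℕ) : ZMod p) := h0
        rw [ZMod.natCast_eq_natCast_iff'] at h1
        rw [Nat.mod_eq_of_lt hi'.2, Nat.mod_eq_of_lt hj'.2] at h1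
        exact hij h1.symm
      push_cast
      exact hc.pow_left
    · intro i hi
      have hi' := Finset.mem_Ico.1 hi
      rw [dvd_iff_isRoot, IsRoot.def]
      simp only [eval_sub, eval_pow, eval_X, eval_one]
      have hu : IsUnit ((i : ℕ) : ZMod (p ^ 2)) := by
        rw [ZMod.isUnit_iff_coprime]
        apply Nat.Coprime.pow_right
        exact ((Nat.Prime.coprime_iff_not_dvd hp).2 fun hd => absurd (Nat.le_of_dvd hi'.1 hd) (not_le.2 hi'.2)).symm
      obtain ⟨u, hu⟩ := hu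
      have hev : Even (p - 1) := by
        rcases hp.even_sub_one hodd with h
        exact h
      rw [Even.neg_pow hev, ← pow_mul, sub_eq_zero, ← hu, ← Units.val_pow_eq_pow_val]
      have : p * (p - 1) = Nat.totient (p ^ 2) := by
        rw [Nat.totient_prime_pow hp (by norm_num)]; simp
      rw [this, ZMod.pow_totient]; rfl
  have hdeg : ((X : (ZMod (p ^ 2))[X]) ^ (p - 1) - 1).natDegree ≤
      (∏ i ∈ Finset.Ico 1 p, (X - C (-((i : ZMod (p ^ 2)) ^ p)))).natDegree := by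
    rw [hd2, natDegree_prod_of_monic _ _ fun i _ => monic_X_sub_C _,
      Finset.sum_congr rfl fun i _ => natDegree_X_sub_C _]
    simp
  rw [Finset.prod_congr rfl fun i _ => hrw i]
  exact (eq_of_monic_of_dvd_of_natDegree_le hm hm2 hdvd hdeg).symm

theorem prod_mod (p : ℕ) [Fact p.Prime] :
    ∏ i ∈ Finset.range p, (Polynomial.X + Polynomial.C ((i : ZMod (p ^ 2)) ^ p)) =
      Polynomial.X ^ p + (-1) ^ p * Polynomial.X := by
  have hp : p.Prime := Fact.out
  rw [Finset.range_eq_Ico, Finset.prod_eq_prod_Ico_succ_bot hp.pos]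
  by_cases h2 : p = 2
  · subst h2
    rw [show Finset.Ico (0 + 1) 2 = {1} from rfl, Finset.prod_singleton]
    simp
    ring
  · rw [show (0 + 1 : ℕ) = 1 from rfl, PM_core p h2]
    have hodd : Odd p := hp.odd_of_ne_two h2
    rw [hodd.neg_one_pow]
    have h0 : ((0 : ℕ) : ZMod (p ^ 2)) ^ p = 0 := by
      rw [Nat.cast_zero, zero_pow hp.ne_zero]
    rw [h0, Polynomial.C_0, add_zero, mul_sub, mul_one, ← pow_succ',
      Nat.sub_add_cancel hp.one_le]
    ring

end Pool.Agent.MUDL
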