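import Mathlib
import Pool.Agent.Lib.MP_eb0266_gt.Nmul
import Pool.Agent.Lib.MP_eb0266_gt.NormPM

set_option autoImplicit false
set_option linter.unusedSectionVars false

namespace Pool.Agent.MUDL

open MvPowerSeries

variable {L : Type} [CommRing L] {F : FormalGroup L} {p : ℕ} [Fact p.Prime] {K : Type} [CommRing K]
  {ev : PowerSeries L →+* K} {ε' : K} {x : ℕ → L}

theorem N2_Xi_neg (hE : EvData F p ev ε') (hx : IsGen F p x) (g : ℕ → ZMod p) :
    Xi x ev (-g) = - Xi x ev g := by
  have h := Xi_add hE hx g (-g)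
  rw [add_neg_cancel, Xi_zero hE hx] at h
  exact (neg_eq_of_add_eq_zero_right h.symm).symm

/-- two series with coefficients congruent modulo `I²` have the same value -/
theorem N2_ev_congr (hE : EvData F p ev ε') {f g : PowerSeries L}
    (h : ∀ k, PowerSeries.coeff k f - PowerSeries.coeff k g ∈ bigI F p ^ 2) : ev f = ev g := by
  have h1 := hE.small (f - g) (fun k => by rw [map_sub]; exact h k)
  rw [map_sub, sub_eq_zero] at h1
  exact h1

/-- `ev [i](e) = ε (i + Xi(ed_i))` -/
theorem N2_ev_mulE (hE : EvData F p ev ε') (hx : IsGen F p x) (i : ℕ) :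
    ev (mulE F i) = ev PowerSeries.X * ((i : K) +
      Xi x ev (fun m => ((if m = 0 then 0 else edN p i m : ℕ) : ZMod p))) := by
  rw [← Xi_nat hE hx]
  have h1 : (i : K) = ev (PowerSeries.C (i : L)) := by
    rw [map_natCast, map_natCast]
  rw [h1, ← map_add, ← map_mul]
  apply N2_ev_congr hE
  intro k
  have h2 := mulE_coeff hx i k
  convert h2 using 2
  rcases k with _ | k
  · simp
  · rw [PowerSeries.coeff_succ_X_mul, map_add, PowerSeries.coeff_C, PowerSeries.coeff_mk]
    rcases k with _ | k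
    · simp
    · simp

open Classical in
theorem N2_edN_p (m : ℕ) (hm : 1 ≤ m) :
    ((edN p p m : ℕ) : ZMod p) = - (if 1 ≤ m ∧ IsPP p (m + 1) then (1 : ZMod p) else 0) := by
  have hp := (Fact.out : p.Prime).pos
  have h := edN_mul (p := p) p m
  split_ifs at h with h1
  · rw [if_pos ⟨hm, h1⟩]
    have h2 : p * (edN p p m + 1) = p * p ^ m := by
      rw [mul_add, mul_one, h, pow_succ, mul_comm]
    have h3 := Nat.eq_of_mul_eq_mul_left hp h2
    have h4 : ((edN p p m + 1 : ℕ) : ZMod p) = 0 := by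
      rw [h3]
      push_cast
      rw [ZMod.natCast_self, zero_pow (by omega)]
    push_cast at h4
    exact eq_neg_of_add_eq_zero_left h4
  · rw [if_neg (fun h2 => h1 h2.2), neg_zero]
    have h2 : ((1 * edN p p m + p : ℕ) : ZMod p) = ((p ^ (m + 1) : ℕ) : ZMod p) := by rw [h]
    push_cast at h2
    rw [ZMod.natCast_self, zero_pow (by omega), one_mul, add_zero] at h2
    exact h2

open Classical in
/-- `p = ∑_{j ≥ 1} x_{p^j - 1} ε^{p^j - 1}` -/
theorem p_eq_Xi (hE : EvData F p ev ε') (hx : IsGen F p x) :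
    (p : K) = Xi x ev (fun m => if 1 ≤ m ∧ IsPP p (m + 1) then (1 : ZMod p) else 0) := by
  have h1 := N2_ev_mulE hE hx p
  rw [hE.rel] at h1
  have h2 : (p : K) + Xi x ev (fun m => ((if m = 0 then 0 else edN p p m : ℕ) : ZMod p)) = 0 := by
    have h3 := congrArg (fun z => ε' * z) h1
    simp only [mul_zero] at h3
    rw [← mul_assoc, mul_comm ε', hE.inv, one_mul] at h3
    exact h3.symm
  have h4 : (fun m => ((if m = 0 then 0 else edN p p m : ℕ) : ZMod p)) =
      -(fun m => if 1 ≤ m ∧ IsPP p (m + 1) then (1 : ZMod p) else 0) := by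
    funext m
    rw [Pi.neg_apply]
    rcases Nat.eq_zero_or_pos m with hm | hm
    · subst hm
      simp
    · rw [if_neg (by omega), N2_edN_p m hm]
  rw [h4, N2_Xi_neg hE hx] at h2
  exact (sub_eq_zero.1 (by rw [sub_eq_add_neg]; exact h2))

theorem N2_pow_congr (i j : ℕ) :
    ((p : ℤ) ^ 2) ∣ (i : ℤ) ^ p ^ (j + 1) - (i : ℤ) ^ p := by
  have h1 : (p : ℤ) ∣ (i : ℤ) ^ p ^ j - (i : ℤ) := by
    rw [← ZMod.intCast_zmod_eq_zero_iff_dvd]
    push_cast
    rw [ZMod.pow_card_pow, sub_self]
  have h2 := dvd_sub_pow_of_dvd_sub h1 1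
  rw [pow_one, ← pow_mul, ← pow_succ] at h2
  exact h2

open Classical in
theorem N2_edN (i m : ℕ) : ((if m = 0 then 0 else edN p i m : ℕ) : ZMod p) =
    (edN p i (p - 1) : ZMod p) * (if 1 ≤ m ∧ IsPP p (m + 1) then (1 : ZMod p) else 0) +
      edp p i m := by
  have hp := (Fact.out : p.Prime).pos
  rcases Nat.eq_zero_or_pos m with hm | hm
  · subst hm
    have h1 : IsPP p (0 + 1) := ⟨0, by simp⟩
    have h2 : edp p i 0 = 0 := by
      unfold edp
      exact if_pos h1
    rw [h2]
    simp
  · rw [if_neg (by omega)]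
    have h := edN_mul (p := p) i m
    by_cases h1 : IsPP p (m + 1)
    · rw [edp, if_pos h1, if_pos ⟨hm, h1⟩, mul_one, add_zero]
      rw [if_pos h1] at h
      obtain ⟨j, hj⟩ := h1
      obtain ⟨j, rfl⟩ : ∃ l, j = l + 1 := by
        rcases j with _ | j
        · simp at hj
          omega
        · exact ⟨j, rfl⟩
      have h2 := edN_mul (p := p) i (p - 1)
      rw [Nat.sub_add_cancel hp, if_pos ⟨1, by simp⟩] at h2
      rw [hj] at h
      have h3 := N2_pow_congr (p := p) i j
      have h4 : (i : ℤ) ^ p ^ (j + 1) - (i : ℤ) ^ p =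
          (p : ℤ) * ((edN p i m : ℤ) - (edN p i (p - 1) : ℤ)) := by
        have h5 : ((i ^ p ^ (j + 1) : ℕ) : ℤ) = ((p * edN p i m + i : ℕ) : ℤ) := by rw [h]
        have h6 : ((i ^ p : ℕ) : ℤ) = ((p * edN p i (p - 1) + i : ℕ) : ℤ) := by rw [h2]
        push_cast at h5 h6
        rw [h5, h6]
        ring
      rw [h4, pow_two] at h3
      have h7 : (p : ℤ) ∣ (edN p i m : ℤ) - (edN p i (p - 1) : ℤ) :=
        Int.dvd_of_mul_dvd_mul_left (by exact_mod_cast hp.ne') h3
      rw [← ZMod.intCast_zmod_eq_zero_iff_dvd] at h7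
      push_cast at h7
      exact sub_eq_zero.1 h7
    · rw [edp, if_neg h1, if_neg (fun h2 => h1 h2.2), mul_zero, zero_add]
      rw [if_neg h1, one_mul] at h
      have h2 : ((edN p i m + i : ℕ) : ZMod p) = ((i ^ (m + 1) : ℕ) : ZMod p) := by rw [h]
      push_cast at h2
      exact eq_sub_of_add_eq h2

theorem ev_mulE (hE : EvData F p ev ε') (hx : IsGen F p x) (i : ℕ) :
    ev (mulE F i) = ev PowerSeries.X * ((i : K) ^ p + Xi x ev (fun m => edp p i m)) := by
  classical
  rw [N2_ev_mulE hE hx]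
  congr 1
  have hp := (Fact.out : p.Prime).pos
  have h2 := edN_mul (p := p) i (p - 1)
  rw [Nat.sub_add_cancel hp, if_pos ⟨1, by simp⟩] at h2
  have h3 : (i : K) ^ p = (edN p i (p - 1) : K) * (p : K) + i := by
    have h4 : ((i ^ p : ℕ) : K) = ((p * edN p i (p - 1) + i : ℕ) : K) := by rw [h2]
    push_cast at h4
    rw [h4]
    ring
  have h5 : (edN p i (p - 1) : K) * (p : K) = Xi x ev (fun m => (edN p i (p - 1) : ZMod p) *
      (if 1 ≤ m ∧ IsPP p (m + 1) then (1 : ZMod p) else 0)) := by
    conv_lhs => rw [p_eq_Xi hE hx]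
    rw [Xi_nat_mul hE hx]
  rw [h3, h5]
  have h6 : (fun m => ((if m = 0 then 0 else edN p i m : ℕ) : ZMod p)) =
      (fun m => (edN p i (p - 1) : ZMod p) *
        (if 1 ≤ m ∧ IsPP p (m + 1) then (1 : ZMod p) else 0)) + (fun m => edp p i m) := by
    funext m
    rw [Pi.add_apply]
    exact N2_edN i m
  rw [h6, Xi_add hE hx]
  ring

theorem N2_Ep_coeff (m i k : ℕ) : (Ep p m i).coeff k =
    if k = 0 then edp p i m
    else if k ≤ m then ((cpN p k (m + 1 - k) * i ^ (m + 1 - k) : ℕ) : ZMod p) else 0 := by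
  classical
  rw [Ep, Polynomial.coeff_add, Polynomial.finsetSum_coeff, Polynomial.coeff_C]
  have h1 : ∀ a ∈ Finset.Ico 1 (m + 1), (Polynomial.C ((cpN p a (m + 1 - a) : ZMod p) *
      (i : ZMod p) ^ (m + 1 - a)) * Polynomial.X ^ a).coeff k =
      if k = a then (cpN p k (m + 1 - k) : ZMod p) * (i : ZMod p) ^ (m + 1 - k) else 0 := by
    intro a _
    rw [Polynomial.coeff_C_mul, Polynomial.coeff_X_pow]
    split_ifs with h
    · rw [h, mul_one]
    · rw [mul_zero]
  rw [Finset.sum_congr rfl h1, Finset.sum_ite_eq]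
  rcases Nat.eq_zero_or_pos k with hk | hk
  · subst hk
    simp
  · rw [if_neg (by omega : ¬ k = 0), if_neg (by omega : ¬ k = 0), add_zero]
    by_cases h : k ≤ m
    · rw [if_pos (by rw [Finset.mem_Ico]; omega), if_pos h]
      push_cast
      rfl
    · rw [if_neg (by rw [Finset.mem_Ico]; omega), if_neg h]

theorem ev_trans (hE : EvData F p ev ε') (hx : IsGen F p x) (i k : ℕ) :
    ev (PowerSeries.mk fun j => (trans F i).coeff (Finsupp.single 0 k + Finsupp.single 1 j)) =
      ev PowerSeries.X * (ε' ^ k * ((if k = 0 then (i : K) ^ p else 0) + (if k = 1 then 1 else 0) +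
        Xi x ev (fun m => (Ep p m i).coeff k))) := by
  classical
  rcases Nat.eq_zero_or_pos k with hk | hk
  · subst hk
    have h1 : (PowerSeries.mk fun j => (trans F i).coeff
        (Finsupp.single 0 0 + Finsupp.single 1 j)) = mulE F i := by
      ext j
      rw [PowerSeries.coeff_mk, trans_coeff_zero]
    rw [h1, ev_mulE hE hx]
    have h2 : (fun m => (Ep p m i).coeff 0) = (fun m => edp p i m) := by
      funext m
      rw [N2_Ep_coeff, if_pos rfl]
    rw [h2]
    simp
  · obtain ⟨l, rfl⟩ : ∃ l, k = l + 1 := ⟨k - 1, by omega⟩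
    -- the value of the tail
    have h2 : (fun m => (Ep p m i).coeff (l + 1)) = (fun m => (((if l + 1 ≤ m then
        cpN p (l + 1) (m + 1 - (l + 1)) * i ^ (m + 1 - (l + 1)) else 0 : ℕ)) : ZMod p)) := by
      funext m
      rw [N2_Ep_coeff, if_neg (by omega)]
      split_ifs <;> simp
    have h3 : ev (PowerSeries.mk fun j => if j = 0 then 0 else
        (cpN p (l + 1) j * i ^ j) • x (l + 1 + j - 1)) =
        ε' ^ l * Xi x ev (fun m => (Ep p m i).coeff (l + 1)) := by
      rw [h2, ← Xi_nat hE hx]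
      have h4 : (PowerSeries.mk fun m => (if l + 1 ≤ m then
          cpN p (l + 1) (m + 1 - (l + 1)) * i ^ (m + 1 - (l + 1)) else 0 : ℕ) • x m) =
          PowerSeries.X ^ l * (PowerSeries.mk fun j => if j = 0 then 0 else
            (cpN p (l + 1) j * i ^ j) • x (l + 1 + j - 1)) := by
        ext m
        rw [PowerSeries.coeff_X_pow_mul', PowerSeries.coeff_mk, PowerSeries.coeff_mk]
        by_cases hm : l + 1 ≤ m
        · have e1 : m + 1 - (l + 1) = m - l := by omega
          have e2 : l + 1 + (m - l) - 1 = m := by omega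
          rw [if_pos hm, if_pos (by omega), if_neg (by omega), e1, e2]
        · rw [if_neg hm, zero_smul]
          split_ifs with h5 h6
          · rfl
          · omega
          · rfl
      rw [h4, map_mul, map_pow, ← mul_assoc, ← mul_pow, mul_comm ε', hE.inv, one_pow, one_mul]
    have h5 : ev (PowerSeries.mk fun j => (trans F i).coeff
        (Finsupp.single 0 (l + 1) + Finsupp.single 1 j)) =
        (if l + 1 = 1 then 1 else 0) + ev (PowerSeries.mk fun j => if j = 0 then 0 else
        (cpN p (l + 1) j * i ^ j) • x (l + 1 + j - 1)) := by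
      have h6 : (if l + 1 = 1 then (1 : K) else 0) = ev (if l + 1 = 1 then 1 else 0) := by
        split_ifs <;> simp
      rw [h6, ← map_add]
      apply N2_ev_congr hE
      intro j
      have h7 := trans_coeff hx i (l + 1) j (by omega)
      rw [PowerSeries.coeff_mk]
      convert h7 using 2
      rw [map_add, PowerSeries.coeff_mk]
      by_cases hj : j = 0
      · subst hj
        rw [if_pos rfl, if_pos rfl, add_zero]
        split_ifs <;> simp
      · rw [if_neg hj, if_neg hj]
        have h8 : PowerSeries.coeff j (if l + 1 = 1 then (1 : PowerSeries L) else 0) = 0 := by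
          split_ifs
          · rw [PowerSeries.coeff_one, if_neg hj]
          · simp
        rw [h8, zero_add]
    rw [h5, h3, if_neg (by omega : ¬ l + 1 = 0)]
    have h9 : ev PowerSeries.X * ε' ^ (l + 1) = ε' ^ l := by
      rw [pow_succ', ← mul_assoc, hE.inv, one_mul]
    rw [← mul_assoc, h9, zero_add, mul_add]
    congr 1
    by_cases hl : l + 1 = 1
    · have hl0 : l = 0 := by omega
      subst hl0
      simp
    · rw [if_neg hl]
      simp

end Pool.Agent.MUDL
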