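import Mathlib
import Pool.Agent.Lib.MP_eb0266_gt.Nmul
import Pool.Agent.Lib.MP_eb0266_gt.NormEv

/-!
Row N2. The norm coordinate `Φ` modulo `I²`.

`ev_mulE`: with `ε = ev e`, `ev [i](e) = ε (i + ∑_m ed_{i,m} x_m ε^m)`. For `m + 1 = p^j` (`j ≥ 1`)
`ed_{i,m} = (i^{p^j} - i)/p ≡ (i^p - i)/p =: q_i` mod `p`; and `p = ∑_{j ≥ 1} x_{p^j - 1} ε^{p^j - 1}` in `K` by
`EvData.rel` (`p_eq_Xi`; case `i = p`: `ed_{p,m} ≡ -[m + 1 power of p]`). So
`i + Xi(ed_i) = i + q_i p + Xi(edp_i) = i^p + Xi(edp_i)`.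

`norm_coeff`: let `T = ε' t`. For all `i`, the `i`-th factor is `ε (T + i^p + ∑_k Xi(m ↦ coeff_k Ep_{m,i}) T^k)`
(`ev_mulE`, `trans_coeff`). Elements `P(T) + ∑_k Xi(m ↦ coeff_k (E m)) T^k` with `P` in `ℤ[T]`,
`E : ℕ → F_p[T]` multiply by `P(T) · Ξ(E) = Ξ(P E)`, `Ξ(E) Ξ(E') = 0`. So the product is
`ε^p (∏ (T + i^p) + Ξ(Vp))`, and `∏_{i<p} (T + i^p) ≡ T^p + (-1)^p T` mod `p²` (`prod_mod`), `p² = 0` in `K`. In
the same way `∏_{0<i<p} ev [i](e) = ε^{p-1} ((-1)^p + Xi(vp))`, with inverse `ε'^{p-1} ((-1)^p - Xi(vp))`.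
Hence `Φ = ε (T + (-1)^p T^p - Ξ(Up))` since `(-1)^p = -1` in `F_p`.
-/

set_option autoImplicit false

namespace Pool.Agent.MUDL

open MvPowerSeries

variable {L : Type} [CommRing L] {F : FormalGroup L} {p : ℕ} [Fact p.Prime] {K : Type} [CommRing K]
  {ev : PowerSeries L →+* K} {ε' : K} {x : ℕ → L}

/-- `Ξ(E) = ∑_k Xi(m ↦ coeff_k (E m)) T^k` -/
noncomputable def N3_Xs (x : ℕ → L) (ev : PowerSeries L →+* K) (E : ℕ → Polynomial (ZMod p)) : PowerSeries K :=
  PowerSeries.mk fun k => Xi x ev (fun m => (E m).coeff k)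

theorem N3_Xs_coeff (x : ℕ → L) (ev : PowerSeries L →+* K) (E : ℕ → Polynomial (ZMod p)) (k : ℕ) :
    PowerSeries.coeff k (N3_Xs x ev E) = Xi x ev (fun m => (E m).coeff k) := by
  simp [N3_Xs]

theorem N3_Xi_neg (hE : EvData F p ev ε') (hx : IsGen F p x) (g : ℕ → ZMod p) :
    Xi x ev (-g) = - Xi x ev g := by
  have h := Xi_add hE hx g (-g)
  rw [add_neg_cancel, Xi_zero hE hx] at h
  exact (neg_eq_of_add_eq_zero_right h.symm).symm

theorem N3_Xs_add (hE : EvData F p ev ε') (hx : IsGen F p x) (E E' : ℕ → Polynomial (ZMod p)) :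
    N3_Xs x ev (E + E') = N3_Xs x ev E + N3_Xs x ev E' := by
  ext k
  rw [map_add, N3_Xs_coeff, N3_Xs_coeff, N3_Xs_coeff, ← Xi_add hE hx]
  congr 1

theorem N3_Xs_neg (hE : EvData F p ev ε') (hx : IsGen F p x) (E : ℕ → Polynomial (ZMod p)) :
    N3_Xs x ev (-E) = - N3_Xs x ev E := by
  ext k
  rw [map_neg, N3_Xs_coeff, N3_Xs_coeff, ← N3_Xi_neg hE hx]
  congr 1

theorem N3_Xs_zero (hE : EvData F p ev ε') (hx : IsGen F p x) :
    N3_Xs x ev (0 : ℕ → Polynomial (ZMod p)) = 0 := by
  ext k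
  rw [N3_Xs_coeff, map_zero]
  exact Xi_zero hE hx

theorem N3_Xs_sum (hE : EvData F p ev ε') (hx : IsGen F p x) {ι : Type} (s : Finset ι)
    (E : ι → ℕ → Polynomial (ZMod p)) :
    N3_Xs x ev (∑ i ∈ s, E i) = ∑ i ∈ s, N3_Xs x ev (E i) := by
  classical
  induction s using Finset.induction_on with
  | empty => simpa using N3_Xs_zero hE hx
  | insert a s ha ih => rw [Finset.sum_insert ha, Finset.sum_insert ha, N3_Xs_add hE hx, ih]

theorem N3_Xs_mul (hE : EvData F p ev ε') (hx : IsGen F p x) (E E' : ℕ → Polynomial (ZMod p)) :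
    N3_Xs x ev E * N3_Xs x ev E' = 0 := by
  ext k
  rw [PowerSeries.coeff_mul, map_zero]
  apply Finset.sum_eq_zero
  intro a _
  rw [N3_Xs_coeff, N3_Xs_coeff, Xi_mul hE hx]

theorem N3_Xi_int_mul (hE : EvData F p ev ε') (hx : IsGen F p x) (n : ℤ) (g : ℕ → ZMod p) :
    (n : K) * Xi x ev g = Xi x ev (fun m => (n : ZMod p) * g m) := by
  obtain ⟨a, rfl | rfl⟩ := n.eq_nat_or_neg
  · rw [Int.cast_natCast, Int.cast_natCast]
    exact Xi_nat_mul hE hx a g
  · rw [Int.cast_neg, Int.cast_neg, Int.cast_natCast, Int.cast_natCast, neg_mul, Xi_nat_mul hE hx,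
      ← N3_Xi_neg hE hx]
    congr 1
    funext m
    simp

/-- coefficients of a product with a constant -/
theorem N3_C_mul_Xs (hE : EvData F p ev ε') (hx : IsGen F p x) (n : ℤ) (E : ℕ → Polynomial (ZMod p)) :
    PowerSeries.C (n : K) * N3_Xs x ev E =
      N3_Xs x ev (fun m => Polynomial.C (n : ZMod p) * E m) := by
  ext k
  rw [PowerSeries.coeff_C_mul, N3_Xs_coeff, N3_Xs_coeff, N3_Xi_int_mul hE hx]
  congr 1
  funext m
  simp

theorem N3_X_mul_Xs (hE : EvData F p ev ε') (hx : IsGen F p x) (E : ℕ → Polynomial (ZMod p)) :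
    PowerSeries.X * N3_Xs x ev E = N3_Xs x ev (fun m => Polynomial.X * E m) := by
  ext k
  cases k with
  | zero =>
    rw [PowerSeries.coeff_zero_X_mul, N3_Xs_coeff]
    have h := Xi_zero hE hx
    have h2 : (fun m => (Polynomial.X * E m).coeff 0) = (0 : ℕ → ZMod p) := by
      funext m
      simp
    rw [h2, h]
  | succ k =>
    rw [PowerSeries.coeff_succ_X_mul, N3_Xs_coeff, N3_Xs_coeff]
    congr 1
    funext m
    simp

/-- `P(T) Ξ(E) = Ξ(P E)` for an integer polynomial `P`. -/
theorem N3_poly_mul_Xs (hE : EvData F p ev ε') (hx : IsGen F p x) (P : Polynomial ℤ)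
    (E : ℕ → Polynomial (ZMod p)) :
    ((P.map (Int.castRingHom K) : Polynomial K) : PowerSeries K) * N3_Xs x ev E =
      N3_Xs x ev (fun m => P.map (Int.castRingHom (ZMod p)) * E m) := by
  induction P using Polynomial.induction_on' generalizing E with
  | add P Q hP hQ =>
    rw [Polynomial.map_add, Polynomial.coe_add, add_mul, hP, hQ, ← N3_Xs_add hE hx]
    congr 1
    funext m
    simp [add_mul]
  | monomial n a =>
    induction n generalizing E with
    | zero =>
      have h := N3_C_mul_Xs hE hx a E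
      rw [Polynomial.monomial_zero_left, Polynomial.map_C, Polynomial.coe_C, Polynomial.map_C]
      simpa only [eq_intCast] using h
    | succ n ih =>
      have h1 : Polynomial.monomial (n + 1) a = Polynomial.X * Polynomial.monomial n a := by
        rw [Polynomial.X_mul_monomial]
      rw [h1, Polynomial.map_mul, Polynomial.coe_mul, Polynomial.map_X, Polynomial.coe_X, mul_assoc, ih,
        N3_X_mul_Xs hE hx]
      congr 1
      funext m
      rw [Polynomial.map_mul, Polynomial.map_X, mul_assoc]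

/-- products of first order expansions -/
theorem N3_prod_expand {R ι : Type} [CommRing R] [DecidableEq ι] (s : Finset ι) (a b : ι → R)
    (h : ∀ i j, a i * a j = 0) :
    ∏ i ∈ s, (b i + a i) = ∏ i ∈ s, b i + ∑ i ∈ s, (∏ k ∈ s.erase i, b k) * a i := by
  induction s using Finset.induction_on with
  | empty => simp
  | insert c s hc ih =>
    rw [Finset.prod_insert hc, ih, Finset.prod_insert hc, Finset.sum_insert hc, Finset.erase_insert hc]
    have h1 : ∑ i ∈ s, (∏ k ∈ (insert c s).erase i, b k) * a i =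
        b c * ∑ i ∈ s, (∏ k ∈ s.erase i, b k) * a i := by
      rw [Finset.mul_sum]
      apply Finset.sum_congr rfl
      intro i hi
      have hic : i ≠ c := fun h => hc (h ▸ hi)
      rw [Finset.erase_insert_of_ne hic.symm, Finset.prod_insert (by simp [hc]), mul_assoc]
    have h2 : a c * ∑ i ∈ s, (∏ k ∈ s.erase i, b k) * a i = 0 := by
      rw [Finset.mul_sum]
      apply Finset.sum_eq_zero
      intro i _
      rw [mul_left_comm, h, mul_zero]
    rw [h1]
    linear_combination h2


/-- `∏_{i < p} (T + i^p) = T^p + (-1)^p T` over `K` -/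
theorem N3_prod_K (hE : EvData F p ev ε') :
    ∏ i ∈ Finset.range p, (Polynomial.X + Polynomial.C ((i : K) ^ p)) =
      Polynomial.X ^ p + (-1) ^ p * Polynomial.X := by
  have hp2 : ((p ^ 2 : ℕ) : K) = 0 := by
    push_cast
    rw [pow_two]
    exact p_sq hE
  have h := congrArg (Polynomial.map (ZMod.castHom (ringChar.dvd hp2) K)) (prod_mod p)
  simpa [Polynomial.map_prod] using h

theorem N3_prod_Ico (hE : EvData F p ev ε') :
    ∏ i ∈ Finset.Ico 1 p, ((i : K) ^ p) = (-1) ^ p := by
  have hp : 0 < p := (Fact.out : p.Prime).pos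
  have hp1 : 1 < p := (Fact.out : p.Prime).one_lt
  have h := N3_prod_K hE
  rw [Finset.prod_range_eq_mul_Ico _ hp] at h
  have h2 := congrArg (fun Q => Polynomial.coeff Q 1) h
  simp only [Nat.cast_zero, zero_pow hp.ne', map_zero, add_zero] at h2
  rw [Polynomial.coeff_X_mul, Polynomial.coeff_zero_eq_eval_zero, Polynomial.eval_prod,
    Polynomial.coeff_add, Polynomial.coeff_X_pow] at h2
  have h3 : ((-1 : Polynomial K) ^ p * Polynomial.X).coeff 1 = (-1) ^ p := by
    rw [Polynomial.coeff_mul_X]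
    rw [Polynomial.coeff_zero_eq_eval_zero]
    simp
  rw [h3] at h2
  simpa [hp1.ne] using h2

theorem N3_Xi_sum (hE : EvData F p ev ε') (hx : IsGen F p x) {ι : Type} (s : Finset ι)
    (g : ι → ℕ → ZMod p) :
    Xi x ev (fun m => ∑ i ∈ s, g i m) = ∑ i ∈ s, Xi x ev (g i) := by
  classical
  induction s using Finset.induction_on with
  | empty =>
    simp only [Finset.sum_empty]
    exact Xi_zero hE hx
  | insert a s ha ih =>
    simp only [Finset.sum_insert ha]
    rw [← ih]
    exact Xi_add hE hx _ _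

/-- the Euler class -/
theorem N3_eul (hE : EvData F p ev ε') (hx : IsGen F p x) :
    ∏ i ∈ Finset.Ico 1 p, ev (mulE F i) =
      ev PowerSeries.X ^ (p - 1) * ((-1) ^ p + Xi x ev (fun m => vp p m)) := by
  classical
  have h1 : ∀ i ∈ Finset.Ico 1 p, ev (mulE F i) =
      ev PowerSeries.X * ((i : K) ^ p + Xi x ev (fun m => edp p i m)) := fun i _ => ev_mulE hE hx i
  rw [Finset.prod_congr rfl h1, Finset.prod_mul_distrib, Finset.prod_const, Nat.card_Ico,
    N3_prod_expand _ _ _ (fun i j => Xi_mul hE hx _ _), N3_prod_Ico hE]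
  congr 2
  have h2 : ∀ i ∈ Finset.Ico 1 p, (∏ k ∈ (Finset.Ico 1 p).erase i, ((k : K) ^ p)) *
      Xi x ev (fun m => edp p i m) =
      Xi x ev (fun m => edp p i m * ∏ k ∈ (Finset.Ico 1 p).erase i, (k : ZMod p)) := by
    intro i _
    have h3 : (∏ k ∈ (Finset.Ico 1 p).erase i, ((k : K) ^ p)) =
        ((∏ k ∈ (Finset.Ico 1 p).erase i, (k ^ p) : ℕ) : K) := by
      push_cast
      rfl
    rw [h3, Xi_nat_mul hE hx]
    congr 1
    funext m
    rw [mul_comm]
    congr 1
    push_cast
    apply Finset.prod_congr rfl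
    intro k _
    rw [ZMod.pow_card]
  rw [Finset.sum_congr rfl h2, ← N3_Xi_sum hE hx]
  rfl

theorem N3_coe_prod {ι : Type} (s : Finset ι) (f : ι → Polynomial K) :
    ((∏ i ∈ s, f i : Polynomial K) : PowerSeries K) = ∏ i ∈ s, (f i : PowerSeries K) :=
  map_prod (Polynomial.coeToPowerSeries.ringHom (R := K)) f s

/-- the numerator -/
theorem N3_num (hE : EvData F p ev ε') (hx : IsGen F p x) :
    (∏ i ∈ Finset.range p, PowerSeries.mk fun k =>
        ev (PowerSeries.mk fun j => (trans F i).coeff (Finsupp.single 0 k + Finsupp.single 1 j))) =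
      PowerSeries.C (ev PowerSeries.X ^ p) * PowerSeries.rescale ε'
        (((Polynomial.X ^ p + (-1) ^ p * Polynomial.X : Polynomial K) : PowerSeries K) +
          N3_Xs x ev (fun m => Vp p m)) := by
  classical
  have h1 : ∀ i ∈ Finset.range p, (PowerSeries.mk fun k =>
        ev (PowerSeries.mk fun j => (trans F i).coeff (Finsupp.single 0 k + Finsupp.single 1 j))) =
      PowerSeries.C (ev PowerSeries.X) * PowerSeries.rescale ε'
        ((((Polynomial.X + Polynomial.C ((i : ℤ) ^ p) : Polynomial ℤ).map (Int.castRingHom K) :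
          Polynomial K) : PowerSeries K) + N3_Xs x ev (fun m => Ep p m i)) := by
    intro i _
    ext k
    rw [PowerSeries.coeff_mk, ev_trans hE hx, PowerSeries.coeff_C_mul, PowerSeries.coeff_rescale,
      map_add, N3_Xs_coeff]
    have h2 : PowerSeries.coeff k (((Polynomial.X + Polynomial.C ((i : ℤ) ^ p) :
        Polynomial ℤ).map (Int.castRingHom K) : Polynomial K) : PowerSeries K) =
        (if k = 0 then (i : K) ^ p else 0) + (if k = 1 then 1 else 0) := by
      rw [Polynomial.coeff_coe, Polynomial.map_add, Polynomial.map_X, Polynomial.map_C,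
        Polynomial.coeff_add, Polynomial.coeff_X, Polynomial.coeff_C]
      by_cases hk0 : k = 0
      · subst hk0; simp
      · by_cases hk1 : k = 1
        · subst hk1; simp
        · simp [hk0, hk1, Ne.symm hk1]
    rw [h2]
  rw [Finset.prod_congr rfl h1, Finset.prod_mul_distrib, Finset.prod_const, Finset.card_range,
    ← map_prod, ← map_pow, N3_prod_expand _ _ _ (fun i j => N3_Xs_mul hE hx _ _)]
  congr 3
  · have h3 := congrArg (fun Q : Polynomial K => (Q : PowerSeries K)) (N3_prod_K hE)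
    rw [← h3]
    rw [← N3_coe_prod]
    congr 1
    apply Finset.prod_congr rfl
    intro i _
    simp
  · have h4 : ∀ i ∈ Finset.range p,
        (∏ k ∈ (Finset.range p).erase i, (((Polynomial.X + Polynomial.C ((k : ℤ) ^ p) :
          Polynomial ℤ).map (Int.castRingHom K) : Polynomial K) : PowerSeries K)) *
          N3_Xs x ev (fun m => Ep p m i) =
        N3_Xs x ev (fun m => Ep p m i *
          ∏ k ∈ (Finset.range p).erase i, (Polynomial.X + Polynomial.C (k : ZMod p))) := by
      intro i _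
      rw [← N3_coe_prod, ← Polynomial.map_prod, N3_poly_mul_Xs hE hx]
      congr 1
      funext m
      rw [mul_comm]
      congr 1
      rw [Polynomial.map_prod]
      apply Finset.prod_congr rfl
      intro k _
      have h10 : (Int.castRingHom (ZMod p)) ((k : ℤ) ^ p) = (k : ZMod p) := by
        rw [map_pow, ZMod.pow_card]
        simp
      rw [Polynomial.map_add, Polynomial.map_X, Polynomial.map_C, h10]
    rw [Finset.sum_congr rfl h4, ← N3_Xs_sum hE hx]
    congr 1
    funext m
    rw [Finset.sum_apply]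
    rfl

/-- the norm coordinate -/
theorem norm_coeff (hE : EvData F p ev ε') (hx : IsGen F p x) (Φ : PowerSeries K)
    (hΦ : PowerSeries.C (∏ i ∈ Finset.Ico 1 p, ev (mulE F i)) * Φ =
      ∏ i ∈ Finset.range p, PowerSeries.mk fun k =>
        ev (PowerSeries.mk fun j => (trans F i).coeff (Finsupp.single 0 k + Finsupp.single 1 j))) :
    ∀ k, PowerSeries.coeff k Φ = ev PowerSeries.X * (ε' ^ k * ((if k = 1 then 1 else 0) +
      (if k = p then (-1) ^ p else 0) - Xi x ev (fun m => (Up p m).coeff k))) := by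
  intro k
  have hp1 : 1 < p := (Fact.out : p.Prime).one_lt
  have hε : ev PowerSeries.X * ε' = 1 := hE.inv
  set ε := ev PowerSeries.X with hεdef
  set a := Xi x ev (fun m => vp p m) with ha
  set b := Xi x ev (fun m => (Vp p m).coeff k) with hb
  have haa : a * a = 0 := Xi_mul hE hx _ _
  have hab : a * b = 0 := Xi_mul hE hx _ _
  have hneg : ∀ g : ℕ → ZMod p, (-1 : K) ^ p * Xi x ev g = - Xi x ev g := by
    intro g
    have h := N3_Xi_int_mul hE hx ((-1) ^ p) g
    push_cast at h
    rw [h, ← N3_Xi_neg hE hx]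
    congr 1
    funext m
    have h2 : (-1 : ZMod p) ^ p = -1 := ZMod.pow_card (-1)
    rw [h2]
    simp
  have hs2 : ((-1 : K) ^ p) * (-1) ^ p = 1 := by
    rw [← mul_pow]
    simp
  have hsa : (-1 : K) ^ p * a = -a := hneg _
  have hsb : (-1 : K) ^ p * b = -b := hneg _
  have hpow : ε' ^ (p - 1) * ε ^ (p - 1) = 1 := by
    rw [← mul_pow, mul_comm ε' ε, hε, one_pow]
  have hpow2 : ε' ^ (p - 1) * ε ^ p = ε := by
    have h : ε ^ p = ε ^ (p - 1) * ε := by
      rw [← pow_succ]
      congr 1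
      omega
    rw [h, ← mul_assoc, hpow, one_mul]
  rw [N3_num hE hx, N3_eul hE hx] at hΦ
  have h5 := congrArg (fun G => PowerSeries.coeff k (PowerSeries.C (ε' ^ (p - 1) * ((-1) ^ p - a)) * G)) hΦ
  simp only [← mul_assoc, ← map_mul] at h5
  rw [PowerSeries.coeff_C_mul, PowerSeries.coeff_C_mul, PowerSeries.coeff_rescale, map_add,
    N3_Xs_coeff, Polynomial.coeff_coe] at h5
  have h6 : (ε' ^ (p - 1) * ((-1) ^ p - a) * (ε ^ (p - 1)) * ((-1) ^ p + a)) = 1 := by
    have : (ε' ^ (p - 1) * ((-1) ^ p - a) * (ε ^ (p - 1)) * ((-1) ^ p + a)) =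
        (ε' ^ (p - 1) * ε ^ (p - 1)) * ((-1) ^ p * (-1) ^ p - a * a) := by ring
    rw [this, hpow, hs2, haa]
    ring
  have h7 : (Polynomial.X ^ p + (-1) ^ p * Polynomial.X : Polynomial K).coeff k =
      (if k = p then 1 else 0) + (-1) ^ p * (if k = 1 then 1 else 0) := by
    have h8 : ((-1 : Polynomial K) ^ p) = Polynomial.C ((-1) ^ p) := by simp
    rw [h8, Polynomial.coeff_add, Polynomial.coeff_X_pow, Polynomial.coeff_C_mul, Polynomial.coeff_X]
    by_cases hk : k = 1
    · subst hk; simp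
    · simp [hk, Ne.symm hk]
  have h9 : Xi x ev (fun m => (Up p m).coeff k) =
      b + (((if k = p then 1 else 0) - (if k = 1 then 1 else 0) : ℤ) : K) * a := by
    rw [ha, N3_Xi_int_mul hE hx, hb, ← Xi_add hE hx]
    congr 1
    funext m
    simp only [Up, Polynomial.coeff_add, Polynomial.coeff_C_mul, Polynomial.coeff_sub,
      Polynomial.coeff_X_pow, Polynomial.coeff_X, Pi.add_apply]
    by_cases hk : k = 1
    · subst hk
      simp [hp1.ne]
      
    · by_cases hk2 : k = p
      · subst hk2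
        simp [hk, Ne.symm hk]
      · simp [hk, hk2, Ne.symm hk]
  rw [h9]
  rw [h7, h6, one_mul, ← hb, ← hεdef] at h5
  rw [h5]
  have h10 : ε' ^ (p - 1) * ((-1) ^ p - a) * ε ^ p = ε * ((-1) ^ p - a) := by
    rw [mul_right_comm, hpow2]
  rw [h10]
  by_cases hk : k = 1
  · have hkp : k ≠ p := by
      rw [hk]
      exact hp1.ne
    simp only [hk, hp1.ne, if_true, if_false]
    push_cast
    linear_combination ε * ε' ^ 1 * (hs2 + hsb - hsa - hab)
  · by_cases hk2 : k = p
    · simp only [hk2, hp1.ne', if_true, if_false]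
      push_cast
      linear_combination ε * ε' ^ p * (hsb - hab)
    · simp only [hk, hk2, if_false]
      push_cast
      linear_combination ε * ε' ^ k * (hsb - hab)

end Pool.Agent.MUDL
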