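import Mathlib
import Pool.Agent.Lib.MP_eb0266_gt.Comb

/-! Row B1 of the polynomial identity over `F_p`. -/

set_option autoImplicit false

namespace Pool.Agent.MUDL

open Polynomial Finset

/-! ### `CC_mul` -/

open Classical in
theorem mudlB1_cpN_mul (p : ℕ) [Fact p.Prime] {i j : ℕ} (hi : 1 ≤ i) (hj : 1 ≤ j) :
    (if IsPP p (i + j) then p else 1) * cpN p i j = (i + j).choose i := by
  rw [cpN]
  by_cases h : IsPP p (i + j)
  · rw [if_pos h]
    obtain ⟨k, hk⟩ := h
    apply Nat.mul_div_cancel'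
    rw [hk]
    exact (Fact.out : p.Prime).dvd_choose_pow (by omega) (by omega)
  · rw [if_neg h, Nat.div_one, one_mul]

open Classical in
/-- `d C_N(u, v) + u^N + v^N = (u + v)^N` -/
theorem CC_mul {A : Type} [CommRing A] (p : ℕ) [Fact p.Prime] (N : ℕ) (hN : 1 ≤ N) (u v : A) :
    ((if IsPP p N then p else 1 : ℕ) : A) * CC p N u v + u ^ N + v ^ N = (u + v) ^ N := by
  have h1 : ((if IsPP p N then p else 1 : ℕ) : A) * CC p N u v =
      ∑ k ∈ Ico 1 N, u ^ k * v ^ (N - k) * (N.choose k : A) := by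
    rw [CC, mul_sum]
    apply sum_congr rfl
    intro k hk
    rw [mem_Ico] at hk
    have h2 := mudlB1_cpN_mul p (i := k) (j := N - k) hk.1 (by omega)
    rw [show k + (N - k) = N by omega] at h2
    rw [← h2]
    push_cast
    ring
  rw [h1, add_pow, sum_range_succ, range_eq_Ico, sum_eq_sum_Ico_succ_bot (show 0 < N by omega)]
  simp
  ring

/-! ### products and sums over `range p` -/

theorem mudlB1_sum_range (p : ℕ) [Fact p.Prime] {M : Type} [AddCommMonoid M] (f : ZMod p → M) :
    ∑ i ∈ range p, f (i : ZMod p) = ∑ a : ZMod p, f a := by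
  apply sum_nbij' (fun i : ℕ => (i : ZMod p)) ZMod.val
  · intro i _
    exact mem_univ _
  · intro a _
    exact mem_range.2 (ZMod.val_lt a)
  · intro i hi
    exact ZMod.val_natCast_of_lt (mem_range.1 hi)
  · intro a _
    exact ZMod.natCast_zmod_val a
  · intro i _
    rfl

theorem mudlB1_prod_range (p : ℕ) [Fact p.Prime] {M : Type} [CommMonoid M] (f : ZMod p → M) :
    ∏ i ∈ range p, f (i : ZMod p) = ∏ a : ZMod p, f a := by
  apply prod_nbij' (fun i : ℕ => (i : ZMod p)) ZMod.val
  · intro i _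
    exact mem_univ _
  · intro a _
    exact mem_range.2 (ZMod.val_lt a)
  · intro i hi
    exact ZMod.val_natCast_of_lt (mem_range.1 hi)
  · intro a _
    exact ZMod.natCast_zmod_val a
  · intro i _
    rfl

/-- `∏_{i < p} (X + i) = X^p - X` over `F_p` -/
theorem prod_X_add (p : ℕ) [Fact p.Prime] :
    ∏ i ∈ range p, (X + C (i : ZMod p)) = X ^ p - X := by
  have hp1 : 1 < p := (Fact.out : p.Prime).one_lt
  rw [mudlB1_prod_range p (fun a => (X + C a : (ZMod p)[X]))]
  have h1 : ∏ a : ZMod p, (X + C a : (ZMod p)[X]) = ∏ a : ZMod p, (X - C a) := by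
    rw [← Equiv.prod_comp (Equiv.neg (ZMod p))]
    apply prod_congr rfl
    intro a _
    rw [Equiv.neg_apply, C_neg]
    ring
  rw [h1]
  have hm : (X ^ p - X : (ZMod p)[X]).Monic := by
    apply monic_X_pow_sub
    rw [degree_X]
    exact_mod_cast hp1
  have hr : (X ^ p - X : (ZMod p)[X]).roots = (univ : Finset (ZMod p)).val := by
    have := FiniteField.roots_X_pow_card_sub_X (ZMod p)
    rwa [ZMod.card] at this
  have hc : Multiset.card (X ^ p - X : (ZMod p)[X]).roots = (X ^ p - X : (ZMod p)[X]).natDegree := by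
    rw [hr, FiniteField.X_pow_card_sub_X_natDegree_eq _ hp1]
    change (univ : Finset (ZMod p)).card = p
    rw [card_univ, ZMod.card]
  have := prod_multiset_X_sub_C_of_monic_of_roots_card_eq hm hc
  rw [hr] at this
  exact this

/-! ### power sums -/

theorem mudlB1_sum_pow_lt (p : ℕ) [Fact p.Prime] {j : ℕ} (hj : j < p) :
    ∑ a : ZMod p, a ^ j = if j = p - 1 then -1 else 0 := by
  have hp1 : 1 < p := (Fact.out : p.Prime).one_lt
  split_ifs with h
  · rw [h]
    have h1 : ∀ a : ZMod p, a ^ (p - 1) = 1 - (if a = 0 then 1 else 0) := by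
      intro a
      split_ifs with ha
      · rw [ha, zero_pow (by omega), sub_self]
      · rw [ZMod.pow_card_sub_one_eq_one ha, sub_zero]
    simp_rw [h1]
    rw [sum_sub_distrib, sum_ite_eq' univ (0 : ZMod p) (fun _ => (1 : ZMod p))]
    simp
  · apply FiniteField.sum_pow_lt_card_sub_one
    rw [ZMod.card]
    omega

/-- the coefficient of `w ^ n` in the power sum -/
noncomputable def mudlB1_c (p n m : ℕ) : ZMod p :=
  if (p - 1) ∣ (m - n) ∧ n < m then
        ((-1) ^ (n + 1) * (((m - n) / (p - 1) - 1).choose n : ZMod p)) else 0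

theorem mudlB1_c_zero {p n m : ℕ} (h : m ≤ n) : mudlB1_c p n m = 0 := by
  rw [mudlB1_c, if_neg]
  omega

theorem mudlB1_c_eq {p n s : ℕ} (hp : 1 < p) (hs : 1 ≤ s) :
    mudlB1_c p n (n + (p - 1) * s) = (-1) ^ (n + 1) * ((s - 1).choose n : ZMod p) := by
  have h0 : 0 < (p - 1) * s := Nat.mul_pos (by omega) hs
  rw [mudlB1_c, if_pos, show n + (p - 1) * s - n = (p - 1) * s by omega,
    Nat.mul_div_cancel_left _ (by omega)]
  exact ⟨by rw [show n + (p - 1) * s - n = (p - 1) * s by omega]; exact dvd_mul_right _ _, by omega⟩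

theorem mudlB1_c_ne {p n m : ℕ} (h : ¬ ∃ s, 1 ≤ s ∧ m = n + (p - 1) * s) :
    mudlB1_c p n m = 0 := by
  rw [mudlB1_c, if_neg]
  rintro ⟨⟨s, hs⟩, h2⟩
  apply h
  refine ⟨s, ?_, by omega⟩
  rcases Nat.eq_zero_or_pos s with rfl | h3
  · rw [mul_zero] at hs
    omega
  · exact h3

/-- the recursion of the coefficients -/
theorem mudlB1_c_rec {p : ℕ} (hp : 1 < p) (n m : ℕ) :
    mudlB1_c p n (m + p) = mudlB1_c p n (m + 1) -
      (if n = 0 then 0 else mudlB1_c p (n - 1) m) := by
  by_cases h : ∃ s, 1 ≤ s ∧ m + p = n + (p - 1) * s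
  · obtain ⟨s, hs, hm⟩ := h
    rcases Nat.eq_or_lt_of_le hs with h1 | h1
    · -- `s = 1`
      rw [← h1, mul_one] at hm
      have hn : n = m + 1 := by omega
      rw [← h1] at hs
      have e1 : mudlB1_c p n (m + p) = 0 := by
        rw [show m + p = n + (p - 1) * 1 by omega, mudlB1_c_eq hp le_rfl, hn]
        simp
      rw [e1, mudlB1_c_zero (by omega), if_neg (by omega), mudlB1_c_zero (by omega), sub_zero]
    · obtain ⟨t, rfl⟩ : ∃ t, s = t + 2 := ⟨s - 2, by omega⟩
      have hmul : (p - 1) * (t + 2) = (p - 1) * (t + 1) + (p - 1) := by ring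
      rw [hm, mudlB1_c_eq hp hs]
      have hm1 : m + 1 = n + (p - 1) * (t + 1) := by omega
      rw [hm1, mudlB1_c_eq hp (by omega)]
      rcases Nat.eq_zero_or_pos n with rfl | hn
      · simp
      · obtain ⟨k, rfl⟩ : ∃ k, n = k + 1 := ⟨n - 1, by omega⟩
        rw [if_neg (by omega)]
        have hm0 : m = (k + 1 - 1) + (p - 1) * (t + 1) := by omega
        rw [hm0, mudlB1_c_eq hp (by omega)]
        simp only [Nat.add_sub_cancel, show t + 2 - 1 = t + 1 by omega]
        rw [Nat.choose_succ_succ]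
        push_cast
        ring
  · rw [mudlB1_c_ne h, mudlB1_c_ne]
    · split_ifs with hn
      · simp
      · rw [mudlB1_c_ne]
        · simp
        · rintro ⟨s, hs, hm⟩
          apply h
          refine ⟨s + 1, by omega, ?_⟩
          have : (p - 1) * (s + 1) = (p - 1) * s + (p - 1) := by ring
          omega
    · rintro ⟨s, hs, hm⟩
      apply h
      refine ⟨s + 1, by omega, ?_⟩
      have : (p - 1) * (s + 1) = (p - 1) * s + (p - 1) := by ring
      omega

theorem mudlB1_sum_ext {p m M : ℕ} (h : m ≤ M) (w : (ZMod p)[X]) :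
    ∑ n ∈ range (m + 1), C (mudlB1_c p n m) * w ^ n = ∑ n ∈ range (M + 1), C (mudlB1_c p n m) * w ^ n := by
  apply sum_subset
  · intro n hn
    rw [mem_range] at hn ⊢
    omega
  · intro n _ hn
    rw [mem_range] at hn
    rw [mudlB1_c_zero (by omega), C_0, zero_mul]

theorem mudlB1_power_sum (p : ℕ) [Fact p.Prime] (m : ℕ) :
    ∑ i ∈ range p, (X + C (i : ZMod p)) ^ m =
      ∑ n ∈ range (m + 1), C (mudlB1_c p n m) * (X - X ^ p) ^ n := by
  have hp1 : 1 < p := (Fact.out : p.Prime).one_lt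
  induction m using Nat.strong_induction_on with
  | _ m ih =>
    rcases Nat.lt_or_ge m p with hm | hm
    · -- small exponents
      rw [mudlB1_sum_range p (fun a => (X + C a : (ZMod p)[X]) ^ m)]
      have h1 : ∑ a : ZMod p, (X + C a : (ZMod p)[X]) ^ m =
          ∑ k ∈ range (m + 1), X ^ k * (m.choose k : (ZMod p)[X]) *
            C (∑ a : ZMod p, a ^ (m - k)) := by
        simp_rw [add_pow]
        rw [sum_comm]
        apply sum_congr rfl
        intro k _
        rw [map_sum, mul_sum]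
        apply sum_congr rfl
        intro a _
        rw [C_pow]
        ring
      rw [h1]
      rw [sum_eq_single_of_mem (0 : ℕ) (mem_range.2 (Nat.succ_pos m)),
        sum_eq_single_of_mem (0 : ℕ) (mem_range.2 (Nat.succ_pos m))]
      · rw [Nat.sub_zero, mudlB1_sum_pow_lt p hm]
        simp only [pow_zero, Nat.choose_zero_right, Nat.cast_one, one_mul, mul_one]
        congr 1
        split_ifs with h
        · rw [show m = 0 + (p - 1) * 1 by omega, mudlB1_c_eq hp1 le_rfl]
          simp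
        · rw [mudlB1_c_ne]
          rintro ⟨s, hs, hms⟩
          apply h
          rcases Nat.eq_or_lt_of_le hs with h1 | h1
          · rw [← h1] at hms
            omega
          · exfalso
            have : (p - 1) * 2 ≤ (p - 1) * s := Nat.mul_le_mul_left _ h1
            omega
      · intro n hn hn0
        rw [mudlB1_c_ne, C_0, zero_mul]
        rintro ⟨s, hs, hms⟩
        have : (p - 1) * 1 ≤ (p - 1) * s := Nat.mul_le_mul_left _ hs
        omega
      · intro k hk hk0
        rw [mem_range] at hk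
        rw [mudlB1_sum_pow_lt p (by omega), if_neg (by omega), C_0, mul_zero]
    · obtain ⟨k, rfl⟩ : ∃ k, m = k + p := ⟨m - p, by omega⟩
      have h1 : ∑ i ∈ range p, (X + C (i : ZMod p)) ^ (k + p) =
          ∑ i ∈ range p, (X + C (i : ZMod p)) ^ (k + 1) -
            (X - X ^ p) * ∑ i ∈ range p, (X + C (i : ZMod p)) ^ k := by
        rw [mul_sum, ← sum_sub_distrib]
        apply sum_congr rfl
        intro i _
        have h2 : (X + C (i : ZMod p)) ^ p = (X + C (i : ZMod p)) - (X - X ^ p) := by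
          rw [add_pow_char, ← C_pow, ZMod.pow_card]
          ring
        rw [pow_add, h2, pow_succ]
        ring
      rw [h1, ih (k + 1) (by omega), ih k (by omega), mudlB1_sum_ext (M := k + p) (by omega),
        mudlB1_sum_ext (m := k) (M := k + p - 1) (by omega), mul_sum,
        show k + p - 1 + 1 = k + p by omega]
      rw [sum_range_succ' _ (k + p), sum_range_succ' _ (k + p)]
      have h3 : mudlB1_c p 0 (k + p) = mudlB1_c p 0 (k + 1) := by
        rw [mudlB1_c_rec hp1, if_pos rfl, sub_zero]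
      rw [h3, add_sub_right_comm, ← sum_sub_distrib]
      congr 1
      apply sum_congr rfl
      intro n _
      rw [mudlB1_c_rec hp1 (n + 1) k, if_neg (by omega), Nat.add_sub_cancel, C_sub]
      ring

theorem power_sum (p : ℕ) [Fact p.Prime] (m : ℕ) :
    ∑ i ∈ range p, (X + C (i : ZMod p)) ^ m =
      ∑ n ∈ range (m + 1), C (if (p - 1) ∣ (m - n) ∧ n < m then
        ((-1) ^ (n + 1) * (((m - n) / (p - 1) - 1).choose n : ZMod p)) else 0) * (X - X ^ p) ^ n :=
  mudlB1_power_sum p m

/-! ### the polynomial `Vp` -/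

theorem mudlB1_Ep (p : ℕ) [Fact p.Prime] (m : ℕ) (hp : ¬ IsPP p (m + 1)) (i : ℕ) :
    Ep p m i = (X + C (i : ZMod p)) ^ (m + 1) - X ^ (m + 1) - C (i : ZMod p) := by
  classical
  have h1 := CC_mul p (m + 1) (by omega) (X : (ZMod p)[X]) (C (i : ZMod p))
  rw [if_neg hp, Nat.cast_one, one_mul] at h1
  rw [← h1, Ep, edp, if_neg hp, CC]
  have h2 : ∑ k ∈ Ico 1 (m + 1), C ((cpN p k (m + 1 - k) : ZMod p) * (i : ZMod p) ^ (m + 1 - k)) *
      X ^ k = ∑ k ∈ Ico 1 (m + 1), (cpN p k (m + 1 - k) : (ZMod p)[X]) * X ^ k *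
        C (i : ZMod p) ^ (m + 1 - k) := by
    apply sum_congr rfl
    intro k _
    rw [C_mul, C_pow]
    simp only [map_natCast]
    ring
  rw [h2, C_sub, C_pow]
  ring

theorem mudlB1_sum_R (p : ℕ) [Fact p.Prime] :
    ∑ i ∈ range p, ∏ k ∈ (range p).erase i, (X + C (k : ZMod p)) = -1 := by
  have h1 := congrArg derivative (prod_X_add p)
  rw [derivative_prod_finset] at h1
  simp only [derivative_add, derivative_X, derivative_C, add_zero, mul_one, derivative_sub,
    derivative_X_pow] at h1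
  rw [h1]
  simp

theorem mudlB1_mul_R (p : ℕ) [Fact p.Prime] {i : ℕ} (hi : i ∈ range p) :
    (X + C (i : ZMod p)) * ∏ k ∈ (range p).erase i, (X + C (k : ZMod p)) = X ^ p - X := by
  rw [mul_prod_erase _ (fun k : ℕ => (X + C (k : ZMod p) : (ZMod p)[X])) hi, prod_X_add]

theorem mudlB1_Vp (p : ℕ) [Fact p.Prime] (m : ℕ) (hp : ¬ IsPP p (m + 1)) :
    Vp p m = (X ^ p - X) * ∑ i ∈ range p, (X + C (i : ZMod p)) ^ m + X ^ (m + 1) - X := by
  have h1 : Vp p m = (X ^ p - X) * ∑ i ∈ range p, (X + C (i : ZMod p)) ^ m -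
      X ^ (m + 1) * ∑ i ∈ range p, ∏ k ∈ (range p).erase i, (X + C (k : ZMod p)) -
      (∑ i ∈ range p, (X ^ p - X : (ZMod p)[X]) -
        X * ∑ i ∈ range p, ∏ k ∈ (range p).erase i, (X + C (k : ZMod p))) := by
    rw [Vp, mul_sum, mul_sum, mul_sum, ← sum_sub_distrib, ← sum_sub_distrib, ← sum_sub_distrib]
    apply sum_congr rfl
    intro i hi
    rw [mudlB1_Ep p m hp, ← mudlB1_mul_R p hi]
    ring
  rw [h1, mudlB1_sum_R, sum_const, card_range, nsmul_eq_mul]
  have h2 : ((p : ℕ) : (ZMod p)[X]) = 0 := CharP.cast_eq_zero _ p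
  rw [h2]
  ring

/-! ### `rowB1` -/

theorem mudlB1_coef (p : ℕ) [Fact p.Prime] {m n : ℕ} (hp : ¬ IsPP p (m + 1)) (hn : n < m + 1)
    (hpn : ¬ IsPP p (n + 1)) : lam p n m = mudlB1_c p n m := by
  have hp1 : 1 < p := (Fact.out : p.Prime).one_lt
  rw [lam]
  by_cases hd : (p - 1) ∣ (m - n)
  · rw [if_pos hd]
    obtain ⟨s, hs⟩ := hd
    rw [hs, Nat.mul_div_cancel_left _ (by omega), mu]
    have hm : m = n + (p - 1) * s := by omega
    rcases Nat.eq_zero_or_pos s with h0 | h0
    · rw [if_pos (by omega), mudlB1_c_zero]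
      rw [hm, h0, mul_zero, add_zero]
    · rw [hm, mudlB1_c_eq hp1 h0]
      by_cases h1 : s ≤ n
      · rw [if_pos h1, Nat.choose_eq_zero_of_lt (by omega), Nat.cast_zero, mul_zero]
      · rw [if_neg h1, if_neg, if_neg hpn]
        rw [show n + s * (p - 1) + 1 = m + 1 by rw [hm]; ring]
        exact hp
  · rw [if_neg hd, mudlB1_c, if_neg]
    rintro ⟨h1, -⟩
    exact hd h1

/-- Case `m + 1` not a power of `p`. -/
theorem rowB1 (p : ℕ) [Fact p.Prime] (m : ℕ) (hm : 1 ≤ m) (hp : ¬ IsPP p (m + 1))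
    {A : Type} [CommRing A] [Algebra (ZMod p) A] (u v : A) :
    CC p (m + 1) u v - (aeval (u + v) (Vp p m) - aeval u (Vp p m) - aeval v (Vp p m)) =
      ∑ n ∈ Ico 1 (m + 1), lam p n m • CC p (n + 1) (u - u ^ p) (v - v ^ p) := by
  classical
  have hpA : (p : A) = 0 := by
    have h1 : algebraMap (ZMod p) A ((p : ℕ) : ZMod p) = 0 := by
      rw [ZMod.natCast_self, map_zero]
    rwa [map_natCast] at h1
  have hCC := CC_mul p (m + 1) (by omega) u v
  rw [if_neg hp, Nat.cast_one, one_mul] at hCC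
  have hV : Vp p m = X ^ (m + 1) - X -
      ∑ n ∈ range (m + 1), C (mudlB1_c p n m) * (X - X ^ p) ^ (n + 1) := by
    rw [mudlB1_Vp p m hp, mudlB1_power_sum]
    have : ∑ n ∈ range (m + 1), C (mudlB1_c p n m) * (X - X ^ p) ^ (n + 1) =
        (X - X ^ p) * ∑ n ∈ range (m + 1), C (mudlB1_c p n m) * (X - X ^ p) ^ n := by
      rw [mul_sum]
      apply sum_congr rfl
      intro n _
      ring
    rw [this]
    ring
  have haev : ∀ z : A, aeval z (Vp p m) = z ^ (m + 1) - z -
      ∑ n ∈ range (m + 1), mudlB1_c p n m • (z - z ^ p) ^ (n + 1) := by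
    intro z
    rw [hV]
    simp only [map_sub, map_sum, map_mul, map_pow, aeval_X, aeval_C, Algebra.smul_def]
  have hw : (u + v) - (u + v) ^ p = (u - u ^ p) + (v - v ^ p) := by
    have : CharP A p ∨ Subsingleton A := by
      rcases subsingleton_or_nontrivial A with h | h
      · exact Or.inr h
      · exact Or.inl (charP_of_injective_algebraMap (algebraMap (ZMod p) A).injective p)
    rcases this with h | h
    · rw [add_pow_char]
      ring
    · exact Subsingleton.elim _ _
  rw [haev, haev, haev, hw]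
  set a := u - u ^ p with ha
  set b := v - v ^ p with hb
  have hsum : ∑ n ∈ range (m + 1), mudlB1_c p n m • (a + b) ^ (n + 1) -
      ∑ n ∈ range (m + 1), mudlB1_c p n m • a ^ (n + 1) -
      ∑ n ∈ range (m + 1), mudlB1_c p n m • b ^ (n + 1) =
      ∑ n ∈ Ico 1 (m + 1), lam p n m • CC p (n + 1) a b := by
    rw [← sum_sub_distrib, ← sum_sub_distrib]
    rw [range_eq_Ico, sum_eq_sum_Ico_succ_bot (by omega)]
    have h0 : mudlB1_c p 0 m • (a + b) ^ (0 + 1) - mudlB1_c p 0 m • a ^ (0 + 1) -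
        mudlB1_c p 0 m • b ^ (0 + 1) = 0 := by
      rw [← smul_sub, ← smul_sub]
      simp
    rw [h0, zero_add]
    apply sum_congr rfl
    intro n hn
    rw [mem_Ico] at hn
    rw [← smul_sub, ← smul_sub]
    have h1 := CC_mul p (n + 1) (by omega) a b
    by_cases hpn : IsPP p (n + 1)
    · rw [if_pos hpn, hpA, zero_mul, zero_add] at h1
      rw [← h1]
      have h2 : lam p n m = 0 := by
        rw [lam]
        split_ifs with hd
        · obtain ⟨s, hs⟩ := hd
          have hp1 : 1 < p := (Fact.out : p.Prime).one_lt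
          rw [hs, Nat.mul_div_cancel_left _ (by omega), mu]
          by_cases h3 : s ≤ n
          · rw [if_pos h3]
          · rw [if_neg h3, if_neg, if_pos hpn]
            rw [show n + s * (p - 1) + 1 = m + 1 by rw [mul_comm s, ← hs]; omega]
            exact hp
        · rfl
      rw [h2, zero_smul]
      rw [show a ^ (n + 1) + b ^ (n + 1) - a ^ (n + 1) - b ^ (n + 1) = 0 by ring, smul_zero]
    · rw [if_neg hpn, Nat.cast_one, one_mul] at h1
      rw [mudlB1_coef p hp hn.2 hpn, ← h1]
      congr 1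
      ring
  rw [← hsum, ← hCC]
  ring

end Pool.Agent.MUDL
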