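import Mathlib
import Pool.Agent.Lib.MP_eb0266_gt.Comb

/-!
Row mudl-B2: `CC_pow`, `Vp_pow`, `witt_id` (with their helper lemmas, prefix `mudlB2_`).
Imports only `Comb`; uses no sorried statement.
-/

set_option autoImplicit false

namespace Pool.Agent.MUDL

open Polynomial Finset

theorem mudlB2_isPP_pow (p j : ℕ) : IsPP p (p ^ j) := ⟨j, rfl⟩

/-- `p * cpN = choose` at powers of `p`. -/
theorem mudlB2_cpN (p : ℕ) [Fact p.Prime] (j k : ℕ) (hk : 1 ≤ k) (hk2 : k < p ^ (j + 1)) :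
    p * cpN p k (p ^ (j + 1) - k) = (p ^ (j + 1)).choose k := by
  have hkk : k + (p ^ (j + 1) - k) = p ^ (j + 1) := by omega
  unfold cpN
  rw [hkk, if_pos (mudlB2_isPP_pow p (j + 1))]
  exact Nat.mul_div_cancel' ((Fact.out : p.Prime).dvd_choose_pow (by omega) (by omega))

/-- `p C_N(u, v) + u^N + v^N = (u + v)^N` for `N = p^{j+1}`. -/
theorem mudlB2_CC_mul {A : Type} [CommRing A] (p : ℕ) [Fact p.Prime] (j : ℕ) (u v : A) :
    (p : A) * CC p (p ^ (j + 1)) u v + u ^ (p ^ (j + 1)) + v ^ (p ^ (j + 1)) =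
      (u + v) ^ (p ^ (j + 1)) := by
  have hN : 0 < p ^ (j + 1) := Nat.pow_pos (Fact.out : p.Prime).pos
  rw [add_pow, CC, Finset.mul_sum, Finset.sum_range_succ, Finset.range_eq_Ico,
    Finset.sum_eq_sum_Ico_succ_bot hN]
  simp only [pow_zero, Nat.sub_zero, Nat.choose_zero_right, Nat.cast_one, mul_one, one_mul,
    Nat.sub_self, Nat.choose_self, zero_add]
  have hs : ∑ i ∈ Ico 1 (p ^ (j + 1)),
        (p : A) * ((cpN p i (p ^ (j + 1) - i) : A) * u ^ i * v ^ (p ^ (j + 1) - i)) =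
      ∑ k ∈ Ico 1 (p ^ (j + 1)), u ^ k * v ^ (p ^ (j + 1) - k) * ((p ^ (j + 1)).choose k : A) := by
    refine Finset.sum_congr rfl fun k hk => ?_
    rw [Finset.mem_Ico] at hk
    rw [← mudlB2_cpN p j k hk.1 hk.2]
    push_cast
    ring
  rw [hs]
  ring

theorem mudlB2_CC_mul_p {A : Type} [CommRing A] (p : ℕ) [Fact p.Prime] (u v : A) :
    (p : A) * CC p p u v = (u + v) ^ p - u ^ p - v ^ p := by
  have h := mudlB2_CC_mul (A := A) p 0 u v
  simp only [zero_add, pow_one] at h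
  rw [← h]
  ring

theorem mudlB2_CC_map {A B : Type} [CommRing A] [CommRing B] (f : A →+* B) (p N : ℕ) (u v : A) :
    f (CC p N u v) = CC p N (f u) (f v) := by
  simp [CC, map_sum, map_mul, map_pow, map_natCast]

/-- If `p` divides `a - b` then `p²` divides `a^p - b^p`. -/
theorem mudlB2_dvd {R : Type} [CommRing R] (p : ℕ) (a b : R) (h : (p : R) ∣ a - b) :
    (p : R) ^ 2 ∣ a ^ p - b ^ p := by
  have h2 := dvd_sub_pow_of_dvd_sub h 1
  simpa using h2

/-- `p` divides `(x + y)^{p^j} - (x^{p^j} + y^{p^j})`. -/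
theorem mudlB2_dvd_frob {R : Type} [CommRing R] (p : ℕ) [Fact p.Prime] (x y : R) (j : ℕ) :
    (p : R) ∣ (x + y) ^ p ^ j - (x ^ p ^ j + y ^ p ^ j) := by
  obtain ⟨r, hr⟩ := exists_add_pow_prime_pow_eq (Fact.out : p.Prime) x y j
  refine ⟨x * y * r, ?_⟩
  rw [hr]
  ring

/-- Cancel `p` in `ℤ[X, Y]` and map to `A`. -/
theorem mudlB2_cancel (p : ℕ) [Fact p.Prime] {A : Type} [CommRing A] (hA : (p : A) = 0)
    (f : MvPolynomial (Fin 2) ℤ →+* A) (a : MvPolynomial (Fin 2) ℤ)
    (h : (p : MvPolynomial (Fin 2) ℤ) ^ 2 ∣ (p : MvPolynomial (Fin 2) ℤ) * a) : f a = 0 := by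
  have hp0 : (p : MvPolynomial (Fin 2) ℤ) ≠ 0 := by
    exact_mod_cast (Fact.out : p.Prime).ne_zero
  obtain ⟨d, hd⟩ := h
  have h2 : a = (p : MvPolynomial (Fin 2) ℤ) * d := by
    apply mul_left_cancel₀ hp0
    rw [hd]
    ring
  rw [h2, map_mul, map_natCast, hA, zero_mul]

/-- `C_{p^{j+1}}(u, v) = C_p(u^{p^j}, v^{p^j})` in characteristic `p`: over `ℤ[X, Y]` multiply by `p`; then
`(X + Y)^{p^{j+1}} ≡ (X^{p^j} + Y^{p^j})^p` mod `p²`. -/
theorem CC_pow (p : ℕ) [Fact p.Prime] (j : ℕ) {A : Type} [CommRing A] (hA : (p : A) = 0) (u v : A) :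
    CC p (p ^ (j + 1)) u v = CC p p (u ^ p ^ j) (v ^ p ^ j) := by
  set f : MvPolynomial (Fin 2) ℤ →+* A := MvPolynomial.eval₂Hom (Int.castRingHom A) ![u, v] with hf
  have h0 : f (MvPolynomial.X 0) = u := by simp [hf]
  have h1 : f (MvPolynomial.X 1) = v := by simp [hf]
  have key := mudlB2_cancel p hA f
    (CC p (p ^ (j + 1)) (MvPolynomial.X 0) (MvPolynomial.X 1) -
      CC p p ((MvPolynomial.X 0) ^ p ^ j) ((MvPolynomial.X 1) ^ p ^ j)) (by
      have e : (p : MvPolynomial (Fin 2) ℤ) *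
          (CC p (p ^ (j + 1)) (MvPolynomial.X 0) (MvPolynomial.X 1) -
            CC p p ((MvPolynomial.X 0) ^ p ^ j) ((MvPolynomial.X 1) ^ p ^ j)) =
          ((MvPolynomial.X 0 + MvPolynomial.X 1) ^ p ^ j) ^ p -
            ((MvPolynomial.X 0) ^ p ^ j + (MvPolynomial.X 1) ^ p ^ j) ^ p := by
        rw [mul_sub, mudlB2_CC_mul_p]
        have h := mudlB2_CC_mul (A := MvPolynomial (Fin 2) ℤ) p j (MvPolynomial.X 0) (MvPolynomial.X 1)
        have h' : (p : MvPolynomial (Fin 2) ℤ) *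
            CC p (p ^ (j + 1)) (MvPolynomial.X 0) (MvPolynomial.X 1) =
            (MvPolynomial.X 0 + MvPolynomial.X 1) ^ (p ^ (j + 1)) -
              (MvPolynomial.X 0) ^ (p ^ (j + 1)) - (MvPolynomial.X 1) ^ (p ^ (j + 1)) := by
          rw [← h]
          ring
        rw [h', pow_succ, pow_mul, pow_mul, pow_mul]
        ring
      rw [e]
      exact mudlB2_dvd p _ _ (mudlB2_dvd_frob p _ _ j))
  rw [map_sub, mudlB2_CC_map, mudlB2_CC_map, map_pow, map_pow, h0, h1, sub_eq_zero] at key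
  exact key

/-- `C_p(u^q, v^q) - C_p(u, v) + W(u + v) - W(u) - W(v) = C_p(u^q - u, v^q - v)`, `W(t) = C_p(t^q, -t)`,
`q = p^j`, in characteristic `p`. Over `ℤ[X, Y]` multiply by `p` and use `(X + Y)^q ≡ X^q + Y^q` mod `p`, so the
`p`-th powers are congruent mod `p²`. -/
theorem witt_id (p : ℕ) [Fact p.Prime] (j : ℕ) {A : Type} [CommRing A] (hA : (p : A) = 0) (u v : A) :
    CC p p (u ^ p ^ j) (v ^ p ^ j) - CC p p u v +
      (CC p p ((u + v) ^ p ^ j) (-(u + v)) - CC p p (u ^ p ^ j) (-u) - CC p p (v ^ p ^ j) (-v)) =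
      CC p p (u ^ p ^ j - u) (v ^ p ^ j - v) := by
  set f : MvPolynomial (Fin 2) ℤ →+* A := MvPolynomial.eval₂Hom (Int.castRingHom A) ![u, v] with hf
  have h0 : f (MvPolynomial.X 0) = u := by simp [hf]
  have h1 : f (MvPolynomial.X 1) = v := by simp [hf]
  have gen : ∀ x y : MvPolynomial (Fin 2) ℤ, (p : MvPolynomial (Fin 2) ℤ) ^ 2 ∣
      (p : MvPolynomial (Fin 2) ℤ) *
      (CC p p (x ^ p ^ j) (y ^ p ^ j) - CC p p x y +
      (CC p p ((x + y) ^ p ^ j) (-(x + y)) - CC p p (x ^ p ^ j) (-x) - CC p p (y ^ p ^ j) (-y)) -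
      CC p p (x ^ p ^ j - x) (y ^ p ^ j - y)) := by
    intro x y
    have e : (p : MvPolynomial (Fin 2) ℤ) *
      (CC p p (x ^ p ^ j) (y ^ p ^ j) - CC p p x y +
      (CC p p ((x + y) ^ p ^ j) (-(x + y)) - CC p p (x ^ p ^ j) (-x) - CC p p (y ^ p ^ j) (-y)) -
      CC p p (x ^ p ^ j - x) (y ^ p ^ j - y)) =
        (((x + y) ^ p ^ j - (x + y)) ^ p - ((x ^ p ^ j + y ^ p ^ j) - (x + y)) ^ p) -
        (((x + y) ^ p ^ j) ^ p - (x ^ p ^ j + y ^ p ^ j) ^ p) +
        (x ^ p + (-x) ^ p + (y ^ p + (-y) ^ p) - ((x + y) ^ p + (-(x + y)) ^ p)) := by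
      have a1 := mudlB2_CC_mul_p p (x ^ p ^ j) (y ^ p ^ j)
      have a2 := mudlB2_CC_mul_p p x y
      have a3 := mudlB2_CC_mul_p p ((x + y) ^ p ^ j) (-(x + y))
      have a4 := mudlB2_CC_mul_p p (x ^ p ^ j) (-x)
      have a5 := mudlB2_CC_mul_p p (y ^ p ^ j) (-y)
      have a6 := mudlB2_CC_mul_p p (x ^ p ^ j - x) (y ^ p ^ j - y)
      rw [← sub_eq_add_neg] at a3 a4 a5
      have e6 : x ^ p ^ j - x + (y ^ p ^ j - y) = (x ^ p ^ j + y ^ p ^ j) - (x + y) := by ring
      rw [e6] at a6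
      simp only [mul_add, mul_sub]
      rw [a1, a2, a3, a4, a5, a6]
      ring
    rw [e]
    have b1 : (p : MvPolynomial (Fin 2) ℤ) ^ 2 ∣
        ((x + y) ^ p ^ j - (x + y)) ^ p - ((x ^ p ^ j + y ^ p ^ j) - (x + y)) ^ p := by
      apply mudlB2_dvd
      have h := mudlB2_dvd_frob p x y j
      convert h using 1
      ring
    have b2 : (p : MvPolynomial (Fin 2) ℤ) ^ 2 ∣
        ((x + y) ^ p ^ j) ^ p - (x ^ p ^ j + y ^ p ^ j) ^ p :=
      mudlB2_dvd p _ _ (mudlB2_dvd_frob p x y j)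
    have b3 : (p : MvPolynomial (Fin 2) ℤ) ^ 2 ∣
        x ^ p + (-x) ^ p + (y ^ p + (-y) ^ p) - ((x + y) ^ p + (-(x + y)) ^ p) := by
      rcases (Fact.out : p.Prime).eq_two_or_odd' with h2 | h2
      · subst h2
        refine ⟨-(x * y), ?_⟩
        push_cast
        ring
      · rw [h2.neg_pow, h2.neg_pow, h2.neg_pow]
        simp
    exact dvd_add (dvd_sub b1 b2) b3
  have key := mudlB2_cancel p hA f _ (gen (MvPolynomial.X 0) (MvPolynomial.X 1))
  simp only [map_sub, map_add, mudlB2_CC_map, map_pow, map_neg, h0, h1] at key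
  rw [sub_eq_zero] at key
  exact key

/-- `R_i(-i) = (p-1)! = -1`. -/
theorem mudlB2_wilson (p : ℕ) [Fact p.Prime] (i : ℕ) (hi : i ∈ range p) :
    ∏ k ∈ (range p).erase i, (-(i : ZMod p) + (k : ZMod p)) = -1 := by
  rw [← ZMod.prod_Ico_one_prime p]
  have hinj : ∀ k ∈ range p, ∀ l ∈ range p, (k : ZMod p) = (l : ZMod p) → k = l := by
    intro k hk l hl h
    rw [ZMod.natCast_eq_natCast_iff'] at h
    rw [Finset.mem_range] at hk hl
    rwa [Nat.mod_eq_of_lt hk, Nat.mod_eq_of_lt hl] at h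
  refine Finset.prod_bij (fun k _ => (-(i : ZMod p) + (k : ZMod p)).val) ?_ ?_ ?_ ?_
  · intro k hk
    rw [Finset.mem_erase] at hk
    rw [Finset.mem_Ico]
    refine ⟨?_, ZMod.val_lt _⟩
    rw [Nat.one_le_iff_ne_zero]
    intro h
    rw [ZMod.val_eq_zero] at h
    apply hk.1
    apply hinj k hk.2 i hi
    linear_combination h
  · intro k hk l hl h
    have h2 := ZMod.val_injective p h
    apply hinj k (Finset.mem_of_mem_erase hk) l (Finset.mem_of_mem_erase hl)
    linear_combination h2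
  · intro b hb
    rw [Finset.mem_Ico] at hb
    refine ⟨((b : ZMod p) + i).val, ?_, ?_⟩
    · rw [Finset.mem_erase]
      refine ⟨?_, Finset.mem_range.mpr (ZMod.val_lt _)⟩
      intro h
      have h2 : ((((b : ZMod p) + i).val : ℕ) : ZMod p) = (i : ZMod p) := by rw [h]
      rw [ZMod.natCast_zmod_val] at h2
      have h3 : (b : ZMod p) = 0 := by linear_combination h2
      rw [ZMod.natCast_eq_zero_iff] at h3
      exact absurd (Nat.le_of_dvd (by omega) h3) (by omega)
    · rw [ZMod.natCast_zmod_val]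
      have : -(i : ZMod p) + ((b : ZMod p) + i) = (b : ZMod p) := by ring
      rw [this, ZMod.val_natCast, Nat.mod_eq_of_lt hb.2]
  · intro k hk
    rw [ZMod.natCast_zmod_val]

/-- Lagrange interpolation of `T^e` at the points `-i`. -/
theorem mudlB2_interp (p : ℕ) [Fact p.Prime] (e : ℕ) (he : e < p) :
    ∑ i ∈ range p, (C (i : ZMod p)) ^ e * ∏ k ∈ (range p).erase i, (X + C (k : ZMod p)) =
      - (-X : (ZMod p)[X]) ^ e := by
  have hz : (-X : (ZMod p)[X]) ^ e +
      ∑ i ∈ range p, (C (i : ZMod p)) ^ e * ∏ k ∈ (range p).erase i, (X + C (k : ZMod p)) = 0 := by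
    apply Polynomial.eq_zero_of_degree_lt_of_eval_finset_eq_zero (Finset.univ : Finset (ZMod p))
    · rw [Finset.card_univ, ZMod.card]
      apply lt_of_le_of_lt (Polynomial.degree_add_le _ _)
      rw [max_lt_iff]
      constructor
      · refine lt_of_le_of_lt (Polynomial.degree_pow_le _ _) ?_
        rw [Polynomial.degree_neg, Polynomial.degree_X]
        simp only [nsmul_eq_mul, mul_one]
        exact_mod_cast he
      · refine lt_of_le_of_lt (Polynomial.degree_sum_le _ _) ?_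
        rw [Finset.sup_lt_iff (by exact WithBot.bot_lt_coe p)]
        intro i hi
        have hd : ((C (i : ZMod p)) ^ e *
            ∏ k ∈ (range p).erase i, (X + C (k : ZMod p))).natDegree < p := by
          rw [← C_pow]
          refine lt_of_le_of_lt (Polynomial.natDegree_C_mul_le _ _) ?_
          refine lt_of_le_of_lt (Polynomial.natDegree_prod_le _ _) ?_
          have hb : ∑ k ∈ (range p).erase i, (X + C (k : ZMod p)).natDegree ≤
              ∑ k ∈ (range p).erase i, 1 :=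
            Finset.sum_le_sum fun k _ => by rw [Polynomial.natDegree_X_add_C]
          refine lt_of_le_of_lt hb ?_
          rw [Finset.sum_const, smul_eq_mul, mul_one, Finset.card_erase_of_mem hi,
            Finset.card_range]
          have := (Fact.out : p.Prime).pos
          omega
        exact lt_of_le_of_lt Polynomial.degree_le_natDegree (by exact_mod_cast hd)
    · intro t _
      have ht : (-t).val ∈ range p := Finset.mem_range.mpr (ZMod.val_lt _)
      rw [eval_add, eval_finsetSum, Finset.sum_eq_single_of_mem _ ht]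
      · rw [eval_mul, eval_prod, eval_pow, eval_neg, eval_X, eval_pow, eval_C,
          ZMod.natCast_zmod_val]
        simp only [eval_add, eval_X, eval_C]
        have hw := mudlB2_wilson p _ ht
        rw [ZMod.natCast_zmod_val, neg_neg] at hw
        rw [hw]
        ring
      · intro i hi hne
        rw [eval_mul, eval_prod]
        have hzero : ∏ k ∈ (range p).erase i, eval t (X + C (k : ZMod p)) = 0 := by
          apply Finset.prod_eq_zero (Finset.mem_erase.mpr ⟨hne.symm, ht⟩)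
          rw [eval_add, eval_X, eval_C, ZMod.natCast_zmod_val]
          ring
        rw [hzero, mul_zero]
  rw [eq_neg_iff_add_eq_zero, add_comm]
  exact hz

/-- Case `m + 1 = p^{j+1}`, value of `Vp`: `Ep p m i = C_p(X^q, i)`, `q = p^j`, and Lagrange interpolation
in `T` at the points `-i`: `C_p(Z, -T) = -∑_i C_p(Z, i) R_i(T)`, `R_i(-i) = (p-1)! = -1`. -/
theorem Vp_pow (p : ℕ) [Fact p.Prime] (j : ℕ) :
    Vp p (p ^ (j + 1) - 1) = - CC p p ((X : (ZMod p)[X]) ^ p ^ j) (-X) := by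
  have hN : 1 ≤ p ^ (j + 1) := Nat.one_le_pow _ _ (Fact.out : p.Prime).pos
  have hm : p ^ (j + 1) - 1 + 1 = p ^ (j + 1) := by omega
  have hchar : (p : (ZMod p)[X]) = 0 := by
    rw [← map_natCast (C : ZMod p →+* (ZMod p)[X]), CharP.cast_eq_zero, map_zero]
  have hE : ∀ i ∈ range p, Ep p (p ^ (j + 1) - 1) i =
      CC p p ((X : (ZMod p)[X]) ^ p ^ j) (C (i : ZMod p)) := by
    intro i _
    have hi : (C (i : ZMod p)) = (C (i : ZMod p)) ^ p ^ j := by
      rw [← C_pow, ZMod.pow_card_pow]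
    rw [hi, ← CC_pow p j hchar]
    unfold Ep CC edp
    rw [hm, if_pos (mudlB2_isPP_pow p (j + 1)), map_zero, add_zero]
    refine Finset.sum_congr rfl fun k _ => ?_
    rw [map_mul, map_natCast, C_pow]
    ring
  unfold Vp
  rw [Finset.sum_congr rfl fun i hi => by rw [hE i hi]]
  unfold CC
  simp only [Finset.sum_mul]
  rw [Finset.sum_comm, ← Finset.sum_neg_distrib]
  refine Finset.sum_congr rfl fun k hk => ?_
  rw [Finset.mem_Ico] at hk
  have h := mudlB2_interp p (p - k) (by omega)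
  have : ∑ i ∈ range p, (cpN p k (p - k) : (ZMod p)[X]) * (X ^ p ^ j) ^ k * C (i : ZMod p) ^ (p - k) *
      ∏ k ∈ (range p).erase i, (X + C (k : ZMod p)) =
      (cpN p k (p - k) : (ZMod p)[X]) * (X ^ p ^ j) ^ k *
      ∑ i ∈ range p, (C (i : ZMod p)) ^ (p - k) * ∏ k ∈ (range p).erase i, (X + C (k : ZMod p)) := by
    rw [Finset.mul_sum]
    exact Finset.sum_congr rfl fun i _ => by ring
  rw [this, h]
  ring

end Pool.Agent.MUDL
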