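import Mathlib
import Pool.Agent.Lib.MP_eb0266_gt.PolyB1

/-!
Row B3 of MP_eb0266_gt (helper74). `rowB3` with its helpers `B3_*`. `CC_mul` (row B1) is used as sorried:
in the merge, keep the proved `CC_mul` before these lemmas and drop the copy here.
-/

set_option autoImplicit false

namespace Pool.Agent.MUDL

open Polynomial Finset

theorem B3_sum_eq (p : ℕ) (hp : 1 < p) (j : ℕ) : ∀ N : ℕ, N < p ^ j →
    (Nat.digits p N).sum = ∑ i ∈ range j, N / p ^ i % p := by
  induction j with
  | zero => 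
    intro N hN
    have : N = 0 := by simpa using hN
    subst this
    simp
  | succ j ih =>
    intro N hN
    rcases Nat.eq_zero_or_pos N with rfl | hN0
    · simp
    · rw [Nat.digits_def' hp hN0, List.sum_cons, sum_range_succ', ih (N / p)
        (Nat.div_lt_of_lt_mul (by rwa [pow_succ'] at hN))]
      simp only [pow_zero, Nat.div_one]
      rw [add_comm]
      congr 1
      refine sum_congr rfl fun i _ => ?_
      rw [Nat.div_div_eq_div_mul, pow_succ']

theorem B3_prod_eq (p : ℕ) (hp : 1 < p) (j : ℕ) : ∀ N : ℕ, N < p ^ j →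
    ((Nat.digits p N).map Nat.factorial).prod = ∏ i ∈ range j, (N / p ^ i % p).factorial := by
  induction j with
  | zero => 
    intro N hN
    have : N = 0 := by simpa using hN
    subst this
    simp
  | succ j ih =>
    intro N hN
    rcases Nat.eq_zero_or_pos N with rfl | hN0
    · simp
    · rw [Nat.digits_def' hp hN0, List.map_cons, List.prod_cons, prod_range_succ', ih (N / p)
        (Nat.div_lt_of_lt_mul (by rwa [pow_succ'] at hN))]
      simp only [pow_zero, Nat.div_one]
      rw [mul_comm]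
      congr 1
      refine prod_congr rfl fun i _ => ?_
      rw [Nat.div_div_eq_div_mul, pow_succ']

theorem B3_val_eq (p : ℕ) (j : ℕ) : ∀ N : ℕ, N < p ^ j →
    ∑ i ∈ range j, (N / p ^ i % p) * p ^ i = N := by
  induction j with
  | zero => 
    intro N hN
    have : N = 0 := by simpa using hN
    subst this
    simp
  | succ j ih =>
    intro N hN
    have h := ih (N / p) (Nat.div_lt_of_lt_mul (by rwa [pow_succ'] at hN))
    rw [sum_range_succ']
    simp only [pow_zero, Nat.div_one, mul_one]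
    conv_rhs => rw [← Nat.div_add_mod N p, ← h]
    rw [mul_sum]
    congr 1
    refine sum_congr rfl fun i _ => ?_
    rw [Nat.div_div_eq_div_mul, pow_succ']
    ring

theorem B3_lt (p : ℕ) (j : ℕ) (k : ℕ → ℕ) (hk : ∀ i, k i < p) :
    ∑ i ∈ range j, k i * p ^ i < p ^ j := by
  induction j with
  | zero => simp
  | succ j ih =>
    rw [sum_range_succ, pow_succ]
    have h : k j + 1 ≤ p := hk j
    nlinarith [Nat.mul_le_mul_right (p ^ j) h]

theorem B3_dig (p : ℕ) (j : ℕ) : ∀ (k : ℕ → ℕ), (∀ i, k i < p) → ∀ l < j,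
    (∑ i ∈ range j, k i * p ^ i) / p ^ l % p = k l := by
  induction j with
  | zero => intro k _ l hl; omega
  | succ j ih =>
    intro k hk l hl
    have hp0 : 0 < p := lt_of_le_of_lt (Nat.zero_le _) (hk 0)
    have h1 : ∑ i ∈ range (j + 1), k i * p ^ i =
        p * (∑ i ∈ range j, k (i + 1) * p ^ i) + k 0 := by
      rw [sum_range_succ', mul_sum]
      simp only [pow_zero, mul_one]
      congr 1
      refine sum_congr rfl fun i _ => ?_
      rw [pow_succ]
      ring
    rw [h1]
    rcases l with _ | l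
    · rw [pow_zero, Nat.div_one, Nat.mul_add_mod, Nat.mod_eq_of_lt (hk 0)]
    · rw [pow_succ', ← Nat.div_div_eq_div_mul, Nat.mul_add_div hp0, Nat.div_eq_of_lt (hk 0), add_zero]
      exact ih (fun i => k (i + 1)) (fun i => hk _) l (by omega)


/-- `(p-1)! / ∏ α_i!` -/
def B3_m (p N : ℕ) : ℕ := (p - 1).factorial / ((Nat.digits p N).map Nat.factorial).prod

theorem B3_cop (p : ℕ) [hp : Fact p.Prime] (N : ℕ) :
    ¬ p ∣ ((Nat.digits p N).map Nat.factorial).prod := by
  intro h
  rw [Prime.dvd_prod_iff hp.out.prime] at h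
  obtain ⟨a, ha, h⟩ := h
  rw [List.mem_map] at ha
  obtain ⟨b, hb, rfl⟩ := ha
  rw [hp.out.dvd_factorial] at h
  exact absurd (Nat.digits_lt_base hp.out.one_lt hb) (by omega)

theorem B3_mul (p : ℕ) [hp : Fact p.Prime] (j N : ℕ) (hN : N < p ^ j)
    (hs : (Nat.digits p N).sum = p) :
    Nat.multinomial (range j) (fun i => N / p ^ i % p) = p * B3_m p N ∧
    B3_m p N * ((Nat.digits p N).map Nat.factorial).prod = (p - 1).factorial := by
  have h1 := Nat.multinomial_spec (range j) (fun i => N / p ^ i % p)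
  rw [← B3_sum_eq p hp.out.one_lt j N hN, hs, ← B3_prod_eq p hp.out.one_lt j N hN] at h1
  have hQ : 0 < ((Nat.digits p N).map Nat.factorial).prod :=
    Nat.pos_of_ne_zero fun h0 => B3_cop p N (h0 ▸ dvd_zero p)
  have hc : Nat.Coprime ((Nat.digits p N).map Nat.factorial).prod p :=
    ((hp.out.coprime_iff_not_dvd).mpr (B3_cop p N)).symm
  have h2 : p.factorial = p * (p - 1).factorial := (Nat.mul_factorial_pred hp.out.ne_zero).symm
  have hd : ((Nat.digits p N).map Nat.factorial).prod ∣ (p - 1).factorial := by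
    apply hc.dvd_of_dvd_mul_left
    rw [← h2, ← h1]
    exact dvd_mul_right _ _
  have h3 : B3_m p N * ((Nat.digits p N).map Nat.factorial).prod = (p - 1).factorial :=
    Nat.div_mul_cancel hd
  refine ⟨?_, h3⟩
  apply Nat.eq_of_mul_eq_mul_left hQ
  rw [h1, h2, ← h3]
  ring

/-- `P(z)^p = P(z^p) + p ∑ m_N z^N` -/
theorem B3_pow (p : ℕ) [hp : Fact p.Prime] (j : ℕ) {R : Type} [CommRing R] (z : R) :
    (∑ i ∈ range j, z ^ p ^ i) ^ p = ∑ i ∈ range j, z ^ p ^ (i + 1) +
      (p : R) * ∑ N ∈ (range (p ^ j)).filter (fun N => (Nat.digits p N).sum = p),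
        (B3_m p N : R) * z ^ N := by
  classical
  have hp0 : 0 < p := hp.out.pos
  rw [sum_pow_eq_sum_piAntidiag]
  rw [← sum_filter_add_sum_filter_not (piAntidiag (range j) p) (fun k => ∃ i, k i = p)]
  congr 1
  · symm
    refine sum_bij (fun i _ => Pi.single i p) ?_ ?_ ?_ ?_
    · intro i hi
      rw [mem_filter, mem_piAntidiag]
      refine ⟨⟨?_, ?_⟩, i, by simp⟩
      · rw [show (range j).sum (Pi.single i p : ℕ → ℕ) = ∑ l ∈ range j, (Pi.single i p : ℕ → ℕ) l from rfl,
          sum_eq_single_of_mem i hi, Pi.single_eq_same]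
        intro l _ hl
        rw [Pi.single_apply, if_neg hl]
      · intro l hl
        by_contra hcon
        apply hl
        rw [Pi.single_apply, if_neg]
        rintro rfl
        exact hcon hi
    · intro i hi l hl h
      by_contra hne
      have := congrFun h i
      rw [Pi.single_eq_same, Pi.single_apply, if_neg hne] at this
      omega
    · intro k hk
      rw [mem_filter, mem_piAntidiag] at hk
      obtain ⟨⟨h1, h2⟩, i, hi⟩ := hk
      have him : i ∈ range j := h2 i (by omega)
      refine ⟨i, him, ?_⟩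
      funext l
      rcases eq_or_ne l i with rfl | hli
      · rw [Pi.single_eq_same, hi]
      · rw [Pi.single_apply, if_neg hli]
        by_contra hne
        have hlm : l ∈ range j := h2 l (fun h => hne h.symm)
        have h3 : k i + k l ≤ (range j).sum k := by
          rw [← sum_pair hli.symm]
          exact sum_le_sum_of_subset (by
            intro x hx
            rw [mem_insert, mem_singleton] at hx
            rcases hx with rfl | rfl <;> assumption)
        omega
    · intro i hi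
      have h1 : Nat.multinomial (range j) (Pi.single i p) = 1 := by
        have h := Nat.multinomial_spec (range j) (Pi.single i p : ℕ → ℕ)
        have h0 : ∑ l ∈ range j, (Pi.single i p : ℕ → ℕ) l = p := by
          rw [sum_eq_single_of_mem i hi, Pi.single_eq_same]
          intro l _ hl
          rw [Pi.single_apply, if_neg hl]
        rw [h0] at h
        have h2 : ∏ l ∈ range j, ((Pi.single i p : ℕ → ℕ) l).factorial = p.factorial := by
          rw [prod_eq_single_of_mem i hi]
          · rw [Pi.single_eq_same]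
          · intro l _ hl
            rw [Pi.single_apply, if_neg hl, Nat.factorial_zero]
        rw [h2] at h
        exact Nat.eq_of_mul_eq_mul_left (Nat.factorial_pos p) (by rw [h, mul_one])
      rw [h1, Nat.cast_one, one_mul, prod_eq_single_of_mem i hi]
      · rw [Pi.single_eq_same, ← pow_mul, pow_succ]
      · intro l _ hl
        rw [Pi.single_apply, if_neg hl, pow_zero]
  · rw [mul_sum]
    have hlt : ∀ k ∈ (piAntidiag (range j) p).filter (fun k => ¬ ∃ i, k i = p), ∀ i, k i < p := by
      intro k hk i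
      rw [mem_filter, mem_piAntidiag] at hk
      obtain ⟨⟨h1, h2⟩, h3⟩ := hk
      by_contra hcon
      have hne : k i ≠ p := fun h => h3 ⟨i, h⟩
      have him : i ∈ range j := h2 i (by omega)
      have h4 : k i ≤ (range j).sum k := single_le_sum (f := k) (fun _ _ => Nat.zero_le _) him
      omega
    have hout : ∀ k ∈ (piAntidiag (range j) p).filter (fun k => ¬ ∃ i, k i = p), ∀ i, ¬ i < j → k i = 0 := by
      intro k hk i hi
      rw [mem_filter, mem_piAntidiag] at hk
      obtain ⟨⟨h1, h2⟩, h3⟩ := hk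
      by_contra hne
      exact hi (mem_range.mp (h2 i hne))
    have hsum : ∀ k ∈ (piAntidiag (range j) p).filter (fun k => ¬ ∃ i, k i = p),
        ∑ i ∈ range j, k i = p := by
      intro k hk
      rw [mem_filter, mem_piAntidiag] at hk
      exact hk.1.1
    have hE : ∀ k ∈ (piAntidiag (range j) p).filter (fun k => ¬ ∃ i, k i = p),
        (Nat.digits p (∑ i ∈ range j, k i * p ^ i)).sum = p := by
      intro k hk
      rw [B3_sum_eq p hp.out.one_lt j _ (B3_lt p j k (hlt k hk))]
      conv_rhs => rw [← hsum k hk]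
      refine sum_congr rfl fun i hi => B3_dig p j k (hlt k hk) i (mem_range.mp hi)
    refine sum_bij' (fun k _ => ∑ i ∈ range j, k i * p ^ i)
      (fun N _ => fun i => if i < j then N / p ^ i % p else 0) ?_ ?_ ?_ ?_ ?_
    · intro k hk
      rw [mem_filter, mem_range]
      exact ⟨B3_lt p j k (hlt k hk), hE k hk⟩
    · intro N hN
      rw [mem_filter, mem_range] at hN
      rw [mem_filter, mem_piAntidiag]
      refine ⟨⟨?_, ?_⟩, ?_⟩
      · conv_rhs => rw [← hN.2, B3_sum_eq p hp.out.one_lt j N hN.1]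
        refine sum_congr rfl fun i hi => ?_
        rw [if_pos (mem_range.mp hi)]
      · intro i hi
        rw [mem_range]
        by_contra hcon
        rw [if_neg hcon] at hi
        exact hi rfl
      · rintro ⟨i, hi⟩
        simp only at hi
        by_cases hij : i < j
        · rw [if_pos hij] at hi
          have := Nat.mod_lt (N / p ^ i) hp0
          omega
        · rw [if_neg hij] at hi
          omega
    · intro k hk
      funext i
      by_cases hij : i < j
      · simp only [if_pos hij]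
        exact B3_dig p j k (hlt k hk) i hij
      · simp only [if_neg hij]
        exact (hout k hk i hij).symm
    · intro N hN
      rw [mem_filter, mem_range] at hN
      simp only
      conv_rhs => rw [← B3_val_eq p j N hN.1]
      refine sum_congr rfl fun i hi => ?_
      rw [if_pos (mem_range.mp hi)]
    · intro k hk
      have h1 := (B3_mul p j _ (B3_lt p j k (hlt k hk)) (hE k hk)).1
      have h2 : Nat.multinomial (range j) (fun i => (∑ i ∈ range j, k i * p ^ i) / p ^ i % p) =
          Nat.multinomial (range j) k :=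
        Nat.multinomial_congr fun i hi => B3_dig p j k (hlt k hk) i (mem_range.mp hi)
      rw [← h2, h1, Nat.cast_mul, mul_assoc]
      congr 2
      rw [← prod_pow_eq_pow_sum]
      refine prod_congr rfl fun i _ => ?_
      rw [← pow_mul, mul_comm]



theorem B3_map {A B : Type} [CommRing A] [CommRing B] (f : A →+* B) (p N : ℕ) (u v : A) :
    f (CC p N u v) = CC p N (f u) (f v) := by
  unfold CC
  rw [map_sum]
  refine sum_congr rfl fun k _ => ?_
  rw [map_mul, map_mul, map_pow, map_pow, map_natCast]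

theorem B3_pp {A : Type} [CommRing A] (p : ℕ) [hp : Fact p.Prime] (i : ℕ) (u v : A) :
    (p : A) * CC p (p ^ i) u v + u ^ p ^ i + v ^ p ^ i = (u + v) ^ p ^ i := by
  have h := CC_mul p (p ^ i) (Nat.pos_of_ne_zero (pow_ne_zero i hp.out.ne_zero)) u v
  rwa [if_pos ⟨i, rfl⟩] at h

theorem B3_not_pp (p : ℕ) [hp : Fact p.Prime] (N : ℕ) (h : (Nat.digits p N).sum = p) :
    ¬ IsPP p N := by
  rintro ⟨k, rfl⟩
  have h1 : (Nat.digits p (p ^ k)).sum = 1 := by
    rw [B3_sum_eq p hp.out.one_lt (k + 1) _ (Nat.pow_lt_pow_right hp.out.one_lt (Nat.lt_succ_self k)),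
      sum_range_succ, Nat.div_self (pow_pos hp.out.pos k), Nat.mod_eq_of_lt hp.out.one_lt,
      sum_eq_zero]
    intro i hi
    have hik : i < k := mem_range.mp hi
    obtain ⟨l, rfl⟩ : ∃ l, k = i + (l + 1) := ⟨k - i - 1, by omega⟩
    rw [pow_add, Nat.mul_div_cancel_left _ (pow_pos hp.out.pos i), pow_succ]
    exact Nat.mul_mod_left _ _
  have := hp.out.one_lt
  omega

theorem B3_pos (p : ℕ) [hp : Fact p.Prime] (N : ℕ) (h : (Nat.digits p N).sum = p) : 2 ≤ N := by
  have h1 := B3_not_pp p N h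
  rcases N with _ | _ | N
  · simp at h
    exact absurd h.symm hp.out.ne_zero
  · exact absurd ⟨0, by simp⟩ h1
  · omega

theorem B3_id (p : ℕ) [hp : Fact p.Prime] (j : ℕ) {R : Type} [CommRing R]
    (hR : ∀ a b : R, (p : R) * a = p * b → a = b) (x y : R) :
    ∃ W : R, CC p p (∑ i ∈ range j, x ^ p ^ i) (∑ i ∈ range j, y ^ p ^ i) =
      ∑ i ∈ range j, CC p (p ^ (i + 1)) x y +
      ∑ N ∈ (range (p ^ j)).filter (fun N => (Nat.digits p N).sum = p),
        (B3_m p N : R) * CC p N x y + p * W := by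
  have h2 : ∑ i ∈ range j, (x + y) ^ p ^ i =
      ∑ i ∈ range j, x ^ p ^ i + ∑ i ∈ range j, y ^ p ^ i + p * ∑ i ∈ range j, CC p (p ^ i) x y := by
    rw [mul_sum, ← sum_add_distrib, ← sum_add_distrib]
    refine sum_congr rfl fun i _ => ?_
    rw [← B3_pp p i x y]
    ring
  have h3 : (p : R) ∣ (∑ i ∈ range j, x ^ p ^ i + ∑ i ∈ range j, y ^ p ^ i) -
      ∑ i ∈ range j, (x + y) ^ p ^ i := by
    rw [h2]
    exact ⟨-∑ i ∈ range j, CC p (p ^ i) x y, by ring⟩
  obtain ⟨W, hW⟩ := dvd_sub_pow_of_dvd_sub h3 1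
  rw [pow_one] at hW
  have h5 := B3_pp p 1 (∑ i ∈ range j, x ^ p ^ i) (∑ i ∈ range j, y ^ p ^ i)
  rw [pow_one] at h5
  have h6 := B3_pow p j x
  have h7 := B3_pow p j y
  have h8 := B3_pow p j (x + y)
  have h9 : ∑ N ∈ (range (p ^ j)).filter (fun N => (Nat.digits p N).sum = p),
      (B3_m p N : R) * (x + y) ^ N =
      ∑ N ∈ (range (p ^ j)).filter (fun N => (Nat.digits p N).sum = p), (B3_m p N : R) * CC p N x y +
      ∑ N ∈ (range (p ^ j)).filter (fun N => (Nat.digits p N).sum = p), (B3_m p N : R) * x ^ N +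
      ∑ N ∈ (range (p ^ j)).filter (fun N => (Nat.digits p N).sum = p), (B3_m p N : R) * y ^ N := by
    rw [← sum_add_distrib, ← sum_add_distrib]
    refine sum_congr rfl fun N hN => ?_
    rw [mem_filter] at hN
    have h := CC_mul p N (by have := B3_pos p N hN.2; omega) x y
    rw [if_neg (B3_not_pp p N hN.2), Nat.cast_one, one_mul] at h
    rw [← h]
    ring
  have h10 : ∑ i ∈ range j, (x + y) ^ p ^ (i + 1) =
      p * ∑ i ∈ range j, CC p (p ^ (i + 1)) x y + ∑ i ∈ range j, x ^ p ^ (i + 1) +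
      ∑ i ∈ range j, y ^ p ^ (i + 1) := by
    rw [mul_sum, ← sum_add_distrib, ← sum_add_distrib]
    refine sum_congr rfl fun i _ => ?_
    rw [← B3_pp p (i + 1) x y]
  refine ⟨W, hR _ _ ?_⟩
  linear_combination h5 + hW + h8 - h6 - h7 + h10 + p * h9

theorem B3_dom (p : ℕ) [hp : Fact p.Prime] (a b : MvPolynomial (Fin 2) ℤ)
    (h : (p : MvPolynomial (Fin 2) ℤ) * a = p * b) : a = b := by
  have h0 : (p : MvPolynomial (Fin 2) ℤ) ≠ 0 := by
    have := hp.out.ne_zero
    exact_mod_cast this
  exact mul_left_cancel₀ h0 h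

theorem B3_char (p : ℕ) [hp : Fact p.Prime] (j : ℕ) {A : Type} [CommRing A] [Algebra (ZMod p) A]
    (a b : A) :
    CC p p (∑ i ∈ range j, a ^ p ^ i) (∑ i ∈ range j, b ^ p ^ i) =
      ∑ i ∈ range j, CC p (p ^ (i + 1)) a b +
      ∑ N ∈ (range (p ^ j)).filter (fun N => (Nat.digits p N).sum = p),
        (B3_m p N : ZMod p) • CC p N a b := by
  have hpA : (p : A) = 0 := by
    rw [← map_natCast (algebraMap (ZMod p) A) p, ZMod.natCast_self, map_zero]
  obtain ⟨W, hW⟩ := B3_id p j (B3_dom p) (MvPolynomial.X 0) (MvPolynomial.X 1)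
  have h := congrArg (MvPolynomial.eval₂Hom (Int.castRingHom A) ![a, b]) hW
  simp only [B3_map, map_add, map_mul, map_sum, map_pow, map_natCast, MvPolynomial.coe_eval₂Hom,
    MvPolynomial.eval₂_X, Matrix.cons_val_zero, Matrix.cons_val_one, hpA, zero_mul, add_zero] at h
  rw [h]
  congr 1
  refine sum_congr rfl fun N _ => ?_
  rw [Algebra.smul_def, map_natCast]

theorem B3_m_eq (p : ℕ) [hp : Fact p.Prime] (j N : ℕ) (hN : N < p ^ j)
    (hs : (Nat.digits p N).sum = p) :
    (B3_m p N : ZMod p) = - ((((Nat.digits p N).map Nat.factorial).prod : ℕ) : ZMod p)⁻¹ := by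
  have h := congrArg (Nat.cast : ℕ → ZMod p) (B3_mul p j N hN hs).2
  rw [Nat.cast_mul, ZMod.wilsons_lemma] at h
  have h0 : ((((Nat.digits p N).map Nat.factorial).prod : ℕ) : ZMod p) ≠ 0 := by
    rw [Ne, ZMod.natCast_eq_zero_iff]
    exact B3_cop p N
  field_simp
  rw [h]

open Classical in
theorem B3_lam (p : ℕ) [hp : Fact p.Prime] (j n : ℕ) (hn : 1 ≤ n) (hn2 : n < p ^ (j + 1)) :
    lam p n (p ^ (j + 1) - 1) = if n + 1 ≤ p ^ j then
      (if IsPP p (n + 1) then -1 else if (Nat.digits p (n + 1)).sum = p then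
        ((((Nat.digits p (n + 1)).map Nat.factorial).prod : ℕ) : ZMod p)⁻¹ else 0) else 0 := by
  have hp1 := hp.out.one_lt
  have hm : ∀ k : ℕ, (p - 1) ∣ (p ^ k - 1) := fun k => by
    simpa using Nat.sub_dvd_pow_sub_pow p 1 k
  have hcmp : ∀ s : ℕ, n + s * (p - 1) + 1 = p ^ (j + 1) → (s ≤ n ↔ ¬ n + 1 ≤ p ^ j) := by
    intro s hs
    obtain ⟨q, rfl⟩ : ∃ q, p = q + 1 := ⟨p - 1, by omega⟩
    rw [Nat.add_sub_cancel, pow_succ] at hs
    set P := (q + 1) ^ j with hP
    constructor
    · intro h h2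
      nlinarith [Nat.mul_le_mul_right q h, Nat.mul_le_mul_right (q + 1) h2]
    · intro h
      by_contra h2
      push Not at h h2
      have h3 : P ≤ n := by omega
      nlinarith [Nat.mul_le_mul_right q h2, Nat.mul_le_mul_right (q + 1) h3]
  unfold lam
  by_cases hd : (p - 1) ∣ (p ^ (j + 1) - 1 - n)
  · rw [if_pos hd]
    obtain ⟨s, hs⟩ := hd
    have hs1 : n + s * (p - 1) + 1 = p ^ (j + 1) := by
      rw [mul_comm s]; omega
    have hs2 : (p ^ (j + 1) - 1 - n) / (p - 1) = s := by
      rw [hs, Nat.mul_div_cancel_left _ (by omega)]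
    rw [hs2]
    unfold mu
    have h3 := hcmp s hs1
    have h4 : IsPP p (n + s * (p - 1) + 1) := ⟨j + 1, hs1⟩
    by_cases hsn : s ≤ n
    · rw [if_pos hsn, if_neg (h3.mp hsn)]
    · have h5 : n + 1 ≤ p ^ j := by
        by_contra h; exact hsn (h3.mpr h)
      rw [if_neg hsn, if_pos h5, if_pos h4, if_neg (by omega)]
  · rw [if_neg hd]
    symm
    split_ifs with h1 h2 h3
    · exfalso
      apply hd
      obtain ⟨k, hk⟩ := h2
      have h4 := hm (j + 1)
      have h5 := hm k
      have h6 : p ^ (j + 1) - 1 - n = (p ^ (j + 1) - 1) - (p ^ k - 1) := by omega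
      rw [h6]
      exact Nat.dvd_sub h4 h5
    · exfalso
      apply hd
      have h4 := hm (j + 1)
      have h5 : (p - 1) ∣ n := by
        rcases Nat.lt_or_ge p 3 with hp3 | hp3
        · have : p = 2 := by omega
          subst this
          simp
        · have h6 := Nat.modEq_digits_sum (p - 1) p (by
            have : p % (p - 1) = (1 + (p - 1)) % (p - 1) := by congr 1; omega
            rw [this, Nat.add_mod_right]
            exact Nat.mod_eq_of_lt (by omega)) (n + 1)
          rw [h3] at h6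
          have h7 : n + 1 ≡ 1 [MOD (p - 1)] := h6.trans (by
            have : p = 1 + (p - 1) := by omega
            conv_lhs => rw [this]
            exact Nat.add_modEq_right)
          have h8 := (Nat.modEq_iff_dvd' (by omega)).mp h7.symm
          simpa using h8
      exact Nat.dvd_sub h4 h5
    · rfl
    · rfl

/-- `-C_p(P(a), P(b)) = ∑_n lam(n, p^{j+1} - 1) C_{n+1}(a, b)`, `P(z) = ∑_{i < j} z^{p^i}`, in
characteristic `p`. Over `ℤ`: `P(z)^p = P(z^p) + p S(z)`; `p C_p(P(a), P(b)) ≡ P(a+b)^p - P(a)^p - P(b)^p`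
mod `p²`, so `C_p(P(a), P(b)) = ∑_{i<j} C_{p^{i+1}}(a, b) + S(a+b) - S(a) - S(b)`. The coefficient of `z^N` in
`(∑_{i<j} z^{p^i})^k`, `k ≤ p`, `N` not `p` times a power of `p`, is `k! / ∏ α_i!` if `N = ∑ α_i p^i` has
digit sum `k` and `N < p^j`, and `0` otherwise (induction on `j`: `(z + P(z^p))^k`). -/
theorem rowB3 (p : ℕ) [Fact p.Prime] (j : ℕ) {A : Type} [CommRing A] [Algebra (ZMod p) A] (a b : A) :
    - CC p p (∑ i ∈ range j, a ^ p ^ i) (∑ i ∈ range j, b ^ p ^ i) =
      ∑ n ∈ Ico 1 (p ^ (j + 1)), lam p n (p ^ (j + 1) - 1) • CC p (n + 1) a b := by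
  classical
  have hp : p.Prime := Fact.out
  have hjj : p ^ j < p ^ (j + 1) := Nat.pow_lt_pow_right hp.one_lt (Nat.lt_succ_self j)
  have h1 : ∑ n ∈ Ico 1 (p ^ (j + 1)), lam p n (p ^ (j + 1) - 1) • CC p (n + 1) a b =
      ∑ N ∈ Ico 2 (p ^ (j + 1) + 1),
        ((if N ≤ p ^ j ∧ IsPP p N then -CC p N a b else 0) +
        (if N < p ^ j ∧ (Nat.digits p N).sum = p then
          ((((Nat.digits p N).map Nat.factorial).prod : ℕ) : ZMod p)⁻¹ • CC p N a b else 0)) := by
    rw [← sum_Ico_add' (fun N => ((if N ≤ p ^ j ∧ IsPP p N then -CC p N a b else 0) +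
        (if N < p ^ j ∧ (Nat.digits p N).sum = p then
          ((((Nat.digits p N).map Nat.factorial).prod : ℕ) : ZMod p)⁻¹ • CC p N a b else 0)))
      1 (p ^ (j + 1)) 1]
    refine sum_congr rfl fun n hn => ?_
    rw [mem_Ico] at hn
    rw [B3_lam p j n hn.1 hn.2]
    by_cases c1 : n + 1 ≤ p ^ j
    · rw [if_pos c1]
      by_cases c2 : IsPP p (n + 1)
      · rw [if_pos c2, if_pos ⟨c1, c2⟩, if_neg (fun h => B3_not_pp p (n + 1) h.2 c2), neg_one_smul,
          add_zero]
      · have c4 : ¬ (n + 1 ≤ p ^ j ∧ IsPP p (n + 1)) := fun h => c2 h.2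
        rw [if_neg c2, if_neg c4, zero_add]
        by_cases c3 : (Nat.digits p (n + 1)).sum = p
        · rw [if_pos c3, if_pos ⟨lt_of_le_of_ne c1 fun h => c2 ⟨j, h⟩, c3⟩]
        · rw [if_neg c3, if_neg (fun h => c3 h.2), zero_smul]
    · rw [if_neg c1, if_neg (fun h => c1 h.1), if_neg (fun h => c1 h.1.le), zero_smul, add_zero]
  have h2 : (Ico 2 (p ^ (j + 1) + 1)).filter (fun N => N ≤ p ^ j ∧ IsPP p N) =
      (range j).image (fun i => p ^ (i + 1)) := by
    ext N
    rw [mem_filter, mem_Ico, mem_image]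
    constructor
    · rintro ⟨⟨h3, -⟩, h4, k, rfl⟩
      rcases k with _ | k
      · rw [pow_zero] at h3; omega
      · exact ⟨k, mem_range.mpr ((Nat.pow_le_pow_iff_right hp.one_lt).mp h4), rfl⟩
    · rintro ⟨i, hi, rfl⟩
      rw [mem_range] at hi
      have h3 : p ^ (i + 1) ≤ p ^ j := Nat.pow_le_pow_right hp.pos hi
      have h4 : p ^ 1 ≤ p ^ (i + 1) := Nat.pow_le_pow_right hp.pos (by omega)
      rw [pow_one] at h4
      have := hp.two_le
      exact ⟨⟨by omega, by omega⟩, h3, i + 1, rfl⟩
  have h3 : (Ico 2 (p ^ (j + 1) + 1)).filter (fun N => N < p ^ j ∧ (Nat.digits p N).sum = p) =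
      (range (p ^ j)).filter (fun N => (Nat.digits p N).sum = p) := by
    ext N
    rw [mem_filter, mem_Ico, mem_filter, mem_range]
    constructor
    · rintro ⟨-, h⟩
      exact h
    · intro h
      exact ⟨⟨B3_pos p N h.2, by omega⟩, h⟩
  rw [h1, sum_add_distrib, ← sum_filter, ← sum_filter, h2, h3, sum_image (fun i _ l _ h => by
    simpa using Nat.pow_right_injective hp.two_le h), B3_char p j a b, neg_add, ← sum_neg_distrib,
    ← sum_neg_distrib]
  congr 1
  refine sum_congr rfl fun N hN => ?_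
  rw [mem_filter, mem_range] at hN
  rw [B3_m_eq p j N hN.1 hN.2, neg_smul, neg_neg]

end Pool.Agent.MUDL
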