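import Mathlib
import Pool.Agent.Lib.MP_eb0266_gt.PolyB1
import Pool.Agent.Lib.MP_eb0266_gt.PolyB2
import Pool.Agent.Lib.MP_eb0266_gt.PolyB3

/-!
Rows B. The polynomial identity over `F_p`.

For `u`, `v` in a commutative `F_p`-algebra, `m ≥ 1`:
`C_{m+1}(u, v) - [m+1 power of p] C_p(u, v) - (V_m(u + v) - V_m(u) - V_m(v))
  = ∑_{n=1}^{m} lam(n, m) C_{n+1}(u - u^p, v - v^p)`.
-/

set_option autoImplicit false

namespace Pool.Agent.MUDL

open Polynomial Finset

/-- homogeneity: `C_p(-u, -v) = -C_p(u, v)` in characteristic `p` -/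
theorem R2_neg (p : ℕ) [hp : Fact p.Prime] {A : Type} [CommRing A] (hA : (p : A) = 0) (u v : A) :
    CC p p (-u) (-v) = - CC p p u v := by
  have h2 : (-1 : A) ^ p = -1 := by
    rcases hp.out.eq_two_or_odd' with h | h
    · subst h
      have h3 : (1 : A) + 1 = 0 := by
        have h4 : ((2 : ℕ) : A) = 0 := hA
        rw [← h4]; norm_num
      rw [neg_one_sq]
      exact eq_neg_of_add_eq_zero_left h3
    · exact h.neg_one_pow
  unfold CC
  rw [← sum_neg_distrib]
  refine sum_congr rfl fun k hk => ?_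
  rw [mem_Ico] at hk
  have h3 : (-1 : A) ^ k * (-1) ^ (p - k) = -1 := by
    rw [← pow_add, Nat.add_sub_cancel' hk.2.le, h2]
  rw [neg_pow u, neg_pow v]
  linear_combination ((cpN p k (p - k) : A) * u ^ k * v ^ (p - k)) * h3

theorem R2_map {A B : Type} [CommRing A] [CommRing B] (f : A →+* B) (p N : ℕ) (u v : A) :
    f (CC p N u v) = CC p N (f u) (f v) := by
  unfold CC
  rw [map_sum]
  refine sum_congr rfl fun k _ => ?_
  rw [map_mul, map_mul, map_pow, map_pow, map_natCast]

theorem R2_char (p : ℕ) [hp : Fact p.Prime] {A : Type} [CommRing A] (hA : (p : A) = 0) (u v : A) (i : ℕ) :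
    (u - v) ^ p ^ i = u ^ p ^ i - v ^ p ^ i := by
  rcases subsingleton_or_nontrivial A with h | h
  · exact Subsingleton.elim _ _
  · obtain ⟨q, hq⟩ := CharP.exists A
    have h1 : q ∣ p := (CharP.cast_eq_zero_iff A q p).mp hA
    have h2 : q = p := by
      rcases (Nat.dvd_prime hp.out).mp h1 with h2 | h2
      · subst h2
        exact (CharP.false_of_nontrivial_of_char_one (R := A)).elim
      · exact h2
    subst h2
    exact sub_pow_char_pow u v i

theorem R2_tel (p : ℕ) [hp : Fact p.Prime] {A : Type} [CommRing A] (hA : (p : A) = 0) (u : A) (j : ℕ) :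
    ∑ i ∈ range j, (u - u ^ p) ^ p ^ i = -(u ^ p ^ j - u) := by
  induction j with
  | zero => simp
  | succ j ih =>
    rw [sum_range_succ, ih, R2_char p hA, ← pow_mul, ← pow_succ']
    ring

/-- Case `m + 1 = p^{j+1}`: from `CC_pow`, `Vp_pow`, `witt_id`, `rowB3` and
`u^q - u = -∑_{i<j} (u - u^p)^{p^i}`, `q = p^j`. -/
theorem rowB2 (p : ℕ) [Fact p.Prime] (j : ℕ)
    {A : Type} [CommRing A] [Algebra (ZMod p) A] (u v : A) :
    CC p (p ^ (j + 1)) u v - CC p p u v - (aeval (u + v) (Vp p (p ^ (j + 1) - 1)) -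
      aeval u (Vp p (p ^ (j + 1) - 1)) - aeval v (Vp p (p ^ (j + 1) - 1))) =
      ∑ n ∈ Ico 1 (p ^ (j + 1)),
        lam p n (p ^ (j + 1) - 1) • CC p (n + 1) (u - u ^ p) (v - v ^ p) := by
  have hA : (p : A) = 0 := by
    rw [← map_natCast (algebraMap (ZMod p) A) p, ZMod.natCast_self, map_zero]
  have hV : ∀ w : A, aeval w (Vp p (p ^ (j + 1) - 1)) = - CC p p (w ^ p ^ j) (-w) := by
    intro w
    rw [Vp_pow, map_neg]
    have h := R2_map (aeval w : (ZMod p)[X] →ₐ[ZMod p] A).toRingHom p p (X ^ p ^ j) (-X)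
    simp only [AlgHom.toRingHom_eq_coe, RingHom.coe_coe, map_pow, map_neg, aeval_X] at h
    rw [h]
  rw [← rowB3 p j, R2_tel p hA u j, R2_tel p hA v j, R2_neg p hA, neg_neg, ← witt_id p j hA, hV, hV, hV,
    CC_pow p j hA]
  ring

theorem B4_lam (p n m : ℕ) (h : m ≤ n) : lam p n m = 0 := by
  unfold lam
  rw [Nat.sub_eq_zero_of_le h, Nat.zero_div, if_pos (dvd_zero _)]
  unfold mu
  rw [if_pos (Nat.zero_le _)]

theorem B4_low (p : ℕ) [hp : Fact p.Prime] (k i : ℕ) (h : i < k) :
    ((X - X ^ p : (ZMod p)[X]) ^ k).coeff i = 0 := by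
  have h1 : (X - X ^ p : (ZMod p)[X]) = X * (1 - X ^ (p - 1)) := by
    rw [mul_sub, mul_one, ← pow_succ', Nat.sub_add_cancel hp.out.one_le]
  rw [h1, mul_pow, coeff_X_pow_mul', if_neg (by omega)]

theorem B4_bb (p : ℕ) [hp : Fact p.Prime] (n i j : ℕ) (h : i + j < n + 1) : bb p n i j = 0 := by
  unfold bb
  refine sum_eq_zero fun k hk => ?_
  rw [mem_Ico] at hk
  rcases lt_or_ge i k with h1 | h1
  · rw [B4_low p k i h1, mul_zero, zero_mul]
  · rw [B4_low p (n + 1 - k) j (by omega), mul_zero]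

theorem B4_cf {R : Type} [CommRing R] (f g : R[X]) (i j : ℕ) :
    ((C f * g.map C : R[X][X]).coeff j).coeff i = f.coeff i * g.coeff j := by
  rw [coeff_C_mul, coeff_map, coeff_mul_C]

theorem B4_CC (p N : ℕ) (f g : (ZMod p)[X]) (i j : ℕ) :
    ((CC p N (C f) (g.map C) : (ZMod p)[X][X]).coeff j).coeff i =
      ∑ k ∈ Ico 1 N, (cpN p k (N - k) : ZMod p) * (f ^ k).coeff i * (g ^ (N - k)).coeff j := by
  unfold CC
  rw [finsetSum_coeff, finsetSum_coeff]
  refine sum_congr rfl fun k _ => ?_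
  rw [mul_assoc, ← C_pow, ← Polynomial.map_pow, coeff_natCast_mul, coeff_natCast_mul, B4_cf, mul_assoc]

theorem B4_CC1 (p N : ℕ) (i j : ℕ) (hi : 1 ≤ i) (hj : 1 ≤ j) :
    ((CC p N (C X) X : (ZMod p)[X][X]).coeff j).coeff i =
      if N = i + j then (cpN p i j : ZMod p) else 0 := by
  have h := B4_CC p N X X i j
  rw [map_X] at h
  rw [h]
  split_ifs with hN
  · subst hN
    rw [sum_eq_single_of_mem i (mem_Ico.mpr ⟨hi, by omega⟩)]
    · rw [Nat.add_sub_cancel_left, coeff_X_pow_self, coeff_X_pow_self, mul_one, mul_one]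
    · intro k _ hk
      rw [coeff_X_pow, if_neg hk.symm, mul_zero, zero_mul]
  · refine sum_eq_zero fun k hk => ?_
    rw [mem_Ico] at hk
    by_cases h1 : i = k
    · rw [coeff_X_pow (N - k), if_neg (by omega), mul_zero]
    · rw [coeff_X_pow, if_neg h1, mul_zero, zero_mul]

theorem B4_add {R : Type} [CommRing R] (V : R[X]) (i j : ℕ) :
    ((aeval (C X + X : R[X][X]) V).coeff j).coeff i = ((i + j).choose i : R) * V.coeff (i + j) := by
  induction V using Polynomial.induction_on' with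
  | add f g hf hg => rw [map_add, coeff_add, coeff_add, hf, hg, coeff_add, mul_add]
  | monomial n a =>
    rw [aeval_monomial, add_comm (C X) X, ← Polynomial.C_mul_X_pow_eq_monomial]
    have h1 : (algebraMap R R[X][X]) a = C (C a) := rfl
    rw [h1, coeff_C_mul, coeff_C_mul, coeff_X_add_C_pow, ← C_eq_natCast, coeff_mul_C, coeff_X_pow,
      coeff_C_mul, coeff_X_pow]
    by_cases h : i + j = n
    · subst h
      rw [if_pos (by omega), if_pos rfl, Nat.choose_symm_add]
      ring
    · rw [if_neg h]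
      by_cases h2 : i = n - j
      · rw [if_pos h2, Nat.choose_eq_zero_of_lt (by omega), Nat.cast_zero]
        ring
      · rw [if_neg h2]
        ring

theorem B4_left {R : Type} [CommRing R] (V : R[X]) (i j : ℕ) (hj : 1 ≤ j) :
    ((aeval (C X : R[X][X]) V).coeff j).coeff i = 0 := by
  induction V using Polynomial.induction_on' with
  | add f g hf hg => rw [map_add, coeff_add, coeff_add, hf, hg, add_zero]
  | monomial n a =>
    rw [aeval_monomial]
    have h1 : (algebraMap R R[X][X]) a = C (C a) := rfl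
    rw [h1, ← C_pow, ← C_mul, coeff_C, if_neg (by omega), coeff_zero]

theorem B4_right {R : Type} [CommRing R] (V : R[X]) (i j : ℕ) (hi : 1 ≤ i) :
    ((aeval (X : R[X][X]) V).coeff j).coeff i = 0 := by
  induction V using Polynomial.induction_on' with
  | add f g hf hg => rw [map_add, coeff_add, coeff_add, hf, hg, add_zero]
  | monomial n a =>
    rw [aeval_monomial]
    have h1 : (algebraMap R R[X][X]) a = C (C a) := rfl
    rw [h1, coeff_C_mul, coeff_X_pow]
    split_ifs
    · rw [mul_one, coeff_C, if_neg (by omega)]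
    · rw [mul_zero, coeff_zero]

theorem B4_U (p : ℕ) [hp : Fact p.Prime] (m i j : ℕ) (hi : 1 ≤ i) (hj : 1 ≤ j) :
    ((i + j).choose i : ZMod p) * (Up p m).coeff (i + j) =
      ((i + j).choose i : ZMod p) * (Vp p m).coeff (i + j) := by
  unfold Up
  rw [coeff_add, mul_add, coeff_C_mul, coeff_sub, coeff_X_pow, coeff_X_of_ne_one (by omega)]
  split_ifs with h
  · rw [h]
    have h1 : ((p.choose i : ℕ) : ZMod p) = 0 := by
      rw [ZMod.natCast_eq_zero_iff]
      exact hp.out.dvd_choose_self (by omega) (by omega)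
    rw [h1, zero_mul, zero_mul, add_zero]
  · rw [sub_zero, mul_zero, mul_zero, add_zero]

theorem B4_sum (p : ℕ) [hp : Fact p.Prime] (m i j : ℕ) :
    ((∑ n ∈ Ico 1 (m + 1), lam p n m • CC p (n + 1) (C X - C X ^ p) (X - X ^ p) :
      (ZMod p)[X][X]).coeff j).coeff i = ∑ n ∈ Ico 1 (i + j), lam p n m * bb p n i j := by
  have h1 : ∀ n, ((lam p n m • CC p (n + 1) (C X - C X ^ p) (X - X ^ p) :
      (ZMod p)[X][X]).coeff j).coeff i = lam p n m * bb p n i j := by
    intro n
    rw [coeff_smul, coeff_smul, smul_eq_mul]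
    congr 1
    have h2 := B4_CC p (n + 1) (X - X ^ p) (X - X ^ p) i j
    rw [C_sub, C_pow, Polynomial.map_sub, Polynomial.map_pow, map_X] at h2
    exact h2
  rw [finsetSum_coeff, finsetSum_coeff, sum_congr rfl fun n _ => h1 n]
  rcases le_total (m + 1) (i + j) with h | h
  · refine sum_subset (Ico_subset_Ico le_rfl h) fun n hn hn2 => ?_
    rw [mem_Ico] at hn hn2
    rw [B4_lam p n m (by omega), zero_mul]
  · symm
    refine sum_subset (Ico_subset_Ico le_rfl h) fun n hn hn2 => ?_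
    rw [mem_Ico] at hn hn2
    rw [B4_bb p n i j (by omega), mul_zero]

open Classical in
/-- coefficient of `X^i Y^j` of `rowB1`, `rowB2` (in `F_p[X][Y]`) -/
theorem rowB (p : ℕ) [Fact p.Prime] (m i j : ℕ) (hm : 1 ≤ m) (hi : 1 ≤ i) (hj : 1 ≤ j) :
    (if m + 1 = i + j then (cpN p i j : ZMod p) else 0) -
      (if IsPP p (m + 1) ∧ i + j = p then (cpN p i j : ZMod p) else 0) -
      ((i + j).choose i : ZMod p) * (Up p m).coeff (i + j) =
      ∑ n ∈ Ico 1 (i + j), lam p n m * bb p n i j := by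
  rw [B4_U p m i j hi hj, ← B4_sum p m i j]
  by_cases hpp : IsPP p (m + 1)
  · obtain ⟨k, hk⟩ := hpp
    rcases k with _ | k
    · rw [pow_zero] at hk
      omega
    · obtain rfl : m = p ^ (k + 1) - 1 := by omega
      have h := congrArg (fun f : (ZMod p)[X][X] => (f.coeff j).coeff i) (rowB2 p k (C X) X)
      simp only [coeff_sub, B4_CC1 p _ i j hi hj, B4_add, B4_left _ i j hj, B4_right _ i j hi,
        sub_zero] at h
      rw [hk, ← h]
      congr 2
      by_cases h2 : i + j = p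
      · rw [if_pos ⟨⟨k + 1, rfl⟩, h2⟩, if_pos h2.symm]
      · rw [if_neg (fun h => h2 h.2), if_neg (fun h => h2 h.symm)]
  · have h := congrArg (fun f : (ZMod p)[X][X] => (f.coeff j).coeff i) (rowB1 p m hm hpp (C X) X)
    simp only [coeff_sub, B4_CC1 p _ i j hi hj, B4_add, B4_left _ i j hj, B4_right _ i j hi,
      sub_zero] at h
    have h3 : ¬ (IsPP p (m + 1) ∧ i + j = p) := fun h => hpp h.1
    rw [← h, if_neg h3, sub_zero]

end Pool.Agent.MUDL
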