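import Mathlib
import Pool.Agent.Lib.MP_eb0266_gt.Norm
import Pool.Agent.Lib.MP_eb0266_gt.PolyB

set_option autoImplicit false

namespace Pool.Agent.MUDL

open MvPowerSeries

theorem F_choose_ne (p : ℕ) [Fact p.Prime] (N : ℕ) (hN : 2 ≤ N) (hpp : ¬ IsPP p N) :
    ∃ i, 1 ≤ i ∧ i < N ∧ ((N.choose i : ℕ) : ZMod p) ≠ 0 := by
  have hp : p.Prime := Fact.out
  obtain ⟨a, m, hm, hNm⟩ := Nat.exists_eq_pow_mul_and_not_dvd (n := N) (by omega) p hp.ne_one
  have hm0 : m ≠ 0 := by
    rintro rfl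
    exact hm (dvd_zero p)
  have hm1 : m ≠ 1 := by
    rintro rfl
    exact hpp ⟨a, by rw [hNm, mul_one]⟩
  have hpa : 0 < p ^ a := pow_pos hp.pos a
  refine ⟨p ^ a, hpa, ?_, ?_⟩
  · rw [hNm]
    calc p ^ a = p ^ a * 1 := (mul_one _).symm
      _ < p ^ a * m := Nat.mul_lt_mul_of_pos_left (by omega) hpa
  · have h1 : ((1 + Polynomial.X : Polynomial (ZMod p)) ^ N) =
        Polynomial.expand (ZMod p) (p ^ a) ((1 + Polynomial.X) ^ m) := by
      rw [hNm, pow_mul, add_pow_char_pow, one_pow, map_pow, map_add, map_one, Polynomial.expand_X]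
    have h2 := congrArg (fun q => Polynomial.coeff q (p ^ a)) h1
    have e1 := Polynomial.coeff_expand_mul hpa ((1 + Polynomial.X : Polynomial (ZMod p)) ^ m) 1
    rw [one_mul] at e1
    simp only [e1, Polynomial.coeff_one_add_X_pow, Nat.choose_one_right] at h2
    rw [h2]
    intro h3
    exact hm ((ZMod.natCast_eq_zero_iff m p).1 h3)

/-- for every `N ≥ 2` some `c_{i,N-i}` is prime to `p` -/
theorem exists_cpN_ne (p : ℕ) [Fact p.Prime] (N : ℕ) (hN : 2 ≤ N) :
    ∃ i, 1 ≤ i ∧ i < N ∧ (cpN p i (N - i) : ZMod p) ≠ 0 := by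
  have hp : p.Prime := Fact.out
  by_cases hpp : IsPP p N
  · obtain ⟨k, rfl⟩ := hpp
    obtain ⟨k, rfl⟩ : ∃ k', k = k' + 1 := by
      cases k with
      | zero => simp at hN
      | succ k => exact ⟨k, rfl⟩
    have hlt : p ^ k < p ^ (k + 1) := Nat.pow_lt_pow_right hp.one_lt (by omega)
    have hpk : 0 < p ^ k := pow_pos hp.pos k
    refine ⟨p ^ k, hpk, hlt, ?_⟩
    have hsum : p ^ k + (p ^ (k + 1) - p ^ k) = p ^ (k + 1) := by omega
    have hfac := Nat.factorization_choose_prime_pow_add_factorization (n := k + 1) hp hlt.le hpk.ne'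
    have hfk : (p ^ k).factorization p = k := by
      rw [Nat.factorization_pow]; simp [hp.factorization_self]
    rw [hfk] at hfac
    have hf1 : ((p ^ (k + 1)).choose (p ^ k)).factorization p = 1 := by omega
    have hc0 : (p ^ (k + 1)).choose (p ^ k) ≠ 0 := (Nat.choose_pos hlt.le).ne'
    have hdvd : p ∣ (p ^ (k + 1)).choose (p ^ k) := by
      by_contra hnd
      rw [Nat.factorization_eq_zero_of_not_dvd hnd] at hf1
      omega
    unfold cpN
    rw [hsum, if_pos ⟨k + 1, rfl⟩]
    intro h0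
    have h1 := (ZMod.natCast_eq_zero_iff _ p).1 h0
    have h2 : p * p ∣ (p ^ (k + 1)).choose (p ^ k) := by
      obtain ⟨t, ht⟩ := h1
      refine ⟨t, ?_⟩
      rw [mul_assoc, ← ht, Nat.mul_div_cancel' hdvd]
    have h3 : p ^ 2 ∣ (p ^ (k + 1)).choose (p ^ k) := by rw [sq]; exact h2
    have h4 := (hp.pow_dvd_iff_le_factorization hc0).1 h3
    omega
  · obtain ⟨i, h1, h2, h3⟩ := F_choose_ne p N hN hpp
    refine ⟨i, h1, h2, ?_⟩
    unfold cpN
    rw [show i + (N - i) = N by omega, if_neg hpp, Nat.div_one]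
    exact h3

variable {L : Type} [CommRing L] {F : FormalGroup L} {p : ℕ} [Fact p.Prime] {K : Type} [CommRing K]
  {ev : PowerSeries L →+* K} {ε' : K} {x : ℕ → L}

/-- `[X^i] (X - X^p)^k` over `ℤ` -/
noncomputable def F_W (p k i : ℕ) : ℤ :=
  ((Polynomial.X - Polynomial.X ^ p : Polynomial ℤ) ^ k).coeff i

theorem F_W_eq (p : ℕ) [Fact p.Prime] (k i : ℕ) : F_W p k i =
    if k ≤ i then ((1 - Polynomial.X ^ (p - 1) : Polynomial ℤ) ^ k).coeff (i - k) else 0 := by
  have hp : p.Prime := Fact.out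
  unfold F_W
  have h : (Polynomial.X - Polynomial.X ^ p : Polynomial ℤ) =
      Polynomial.X * (1 - Polynomial.X ^ (p - 1)) := by
    rw [mul_sub, mul_one, ← pow_succ', Nat.sub_add_cancel hp.one_le]
  rw [h, mul_pow, Polynomial.coeff_X_pow_mul']

theorem F_W_lt (p : ℕ) [Fact p.Prime] (k i : ℕ) (h : i < k) : F_W p k i = 0 := by
  rw [F_W_eq, if_neg (by omega)]

theorem F_W_self (p : ℕ) [Fact p.Prime] (k : ℕ) : F_W p k k = 1 := by
  have hp : p.Prime := Fact.out
  rw [F_W_eq, if_pos le_rfl, Nat.sub_self, Polynomial.coeff_zero_eq_eval_zero]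
  simp [zero_pow (Nat.sub_ne_zero_of_lt hp.one_lt)]

theorem F_W_zmod (p k i : ℕ) :
    ((Polynomial.X - Polynomial.X ^ p : Polynomial (ZMod p)) ^ k).coeff i = (F_W p k i : ZMod p) := by
  unfold F_W
  have h : (Polynomial.X - Polynomial.X ^ p : Polynomial (ZMod p)) ^ k =
      ((Polynomial.X - Polynomial.X ^ p : Polynomial ℤ) ^ k).map (Int.castRingHom (ZMod p)) := by
    simp
  rw [h, Polynomial.coeff_map]
  simp

theorem F_W_K (p : ℕ) [Fact p.Prime] {K : Type} [CommRing K] (ε ε' : K) (hε : ε * ε' = 1) (k i : ℕ) :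
    PowerSeries.coeff i ((PowerSeries.X - PowerSeries.C (ε' ^ (p - 1)) * PowerSeries.X ^ p) ^ k) =
      ε ^ k * ε' ^ i * (F_W p k i : K) := by
  have hp : p.Prime := Fact.out
  have h1 : (PowerSeries.X - PowerSeries.C (ε' ^ (p - 1)) * PowerSeries.X ^ p : PowerSeries K) =
      PowerSeries.C ε * PowerSeries.rescale ε' (PowerSeries.X - PowerSeries.X ^ p) := by
    have h3 : PowerSeries.rescale ε' (PowerSeries.X ^ p : PowerSeries K) =
        PowerSeries.C (ε' ^ p) * PowerSeries.X ^ p := by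
      rw [map_pow, PowerSeries.rescale_X, mul_pow, ← map_pow]
    have h4 : ε * ε' ^ p = ε' ^ (p - 1) := by
      obtain ⟨q, rfl⟩ : ∃ q, p = q + 1 := ⟨p - 1, by have := hp.one_le; omega⟩
      rw [Nat.add_sub_cancel, pow_succ', ← mul_assoc, hε, one_mul]
    rw [map_sub, PowerSeries.rescale_X, h3, mul_sub, ← mul_assoc, ← mul_assoc, ← map_mul, ← map_mul,
      hε, map_one, one_mul, h4]
  have h2 : (PowerSeries.X - PowerSeries.X ^ p : PowerSeries K) ^ k =
      ((((Polynomial.X - Polynomial.X ^ p : Polynomial ℤ) ^ k).map (Int.castRingHom K) : Polynomial K) :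
        PowerSeries K) := by
    simp
  rw [h1, mul_pow, ← map_pow, ← map_pow, h2, PowerSeries.coeff_C_mul, PowerSeries.coeff_rescale,
    Polynomial.coeff_coe, Polynomial.coeff_map]
  unfold F_W
  rw [mul_assoc]
  rfl

/-- integral version of `bb` -/
noncomputable def F_B (p n i j : ℕ) : ℤ :=
  ∑ k ∈ Finset.Ico 1 (n + 1), (cpN p k (n + 1 - k) : ℤ) * F_W p k i * F_W p (n + 1 - k) j

theorem F_B_cast (p n i j : ℕ) : ((F_B p n i j : ℤ) : ZMod p) = bb p n i j := by
  unfold F_B bb
  rw [Int.cast_sum]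
  refine Finset.sum_congr rfl fun k _ => ?_
  rw [F_W_zmod, F_W_zmod]
  push_cast
  ring

theorem F_B_self (p : ℕ) [Fact p.Prime] (n i : ℕ) (hi : 1 ≤ i) (hin : i < n + 1) :
    F_B p n i (n + 1 - i) = cpN p i (n + 1 - i) := by
  unfold F_B
  rw [Finset.sum_eq_single i]
  · rw [F_W_self, F_W_self, mul_one, mul_one]
  · intro k hk hki
    rw [Finset.mem_Ico] at hk
    rcases lt_or_gt_of_ne hki with h | h
    · rw [F_W_lt p (n + 1 - k) (n + 1 - i) (by omega), mul_zero]
    · rw [F_W_lt p k i h, mul_zero, zero_mul]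
  · intro h
    exact absurd (Finset.mem_Ico.2 ⟨hi, hin⟩) h

theorem F_regroup (p : ℕ) [Fact p.Prime] {K : Type} [CommRing K] (y : ℕ → K) (i j : ℕ) :
    ∑ k ∈ Finset.Ico 1 (i + 1), ∑ l ∈ Finset.Ico 1 (j + 1),
      ((cpN p k l : K) * F_W p k i * F_W p l j) * y (k + l - 1) =
      ∑ n ∈ Finset.Ico 1 (i + j), (F_B p n i j : K) * y n := by
  have h1 : ∀ n ∈ Finset.Ico 1 (i + j), (F_B p n i j : K) * y n =
      ∑ k ∈ Finset.Ico 1 (n + 1), ((cpN p k (n + 1 - k) : K) * F_W p k i * F_W p (n + 1 - k) j) * y n := by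
    intro n _
    unfold F_B
    rw [Int.cast_sum, Finset.sum_mul]
    refine Finset.sum_congr rfl fun k _ => ?_
    push_cast
    ring
  rw [Finset.sum_congr rfl h1, ← Finset.sum_product', Finset.sum_sigma']
  refine Finset.sum_bij_ne_zero (fun a _ _ => ⟨a.1 + a.2 - 1, a.1⟩) ?_ ?_ ?_ ?_
  · rintro ⟨k, l⟩ h _
    simp only [Finset.mem_product, Finset.mem_Ico] at h
    simp only [Finset.mem_sigma, Finset.mem_Ico]
    omega
  · rintro ⟨k, l⟩ h _ ⟨k', l'⟩ h' _ he
    simp only [Finset.mem_product, Finset.mem_Ico] at h h'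
    simp only [Sigma.mk.injEq, heq_eq_eq] at he
    obtain ⟨h1, rfl⟩ := he
    congr 1
    omega
  · rintro ⟨n, k⟩ h hne
    simp only [Finset.mem_sigma, Finset.mem_Ico] at h
    have hki : k ≤ i := by
      by_contra hc
      apply hne
      simp only
      rw [F_W_lt p k i (by omega)]
      simp
    have hkj : n + 1 - k ≤ j := by
      by_contra hc
      apply hne
      simp only
      rw [F_W_lt p (n + 1 - k) j (by omega)]
      simp
    refine ⟨(k, n + 1 - k), ?_, ?_, ?_⟩
    · simp only [Finset.mem_product, Finset.mem_Ico]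
      omega
    · simp only
      rw [show k + (n + 1 - k) - 1 = n by omega]
      exact hne
    · simp only [Sigma.mk.injEq, heq_eq_eq, and_true]
      omega
  · rintro ⟨k, l⟩ h _
    simp only [Finset.mem_product, Finset.mem_Ico] at h
    simp only
    rw [show k + l - 1 + 1 - k = l by omega]

theorem F_Xi_neg (hE : EvData F p ev ε') (hx : IsGen F p x) (g : ℕ → ZMod p) :
    Xi x ev (-g) = - Xi x ev g := by
  have h := Xi_add hE hx (-g) g
  rw [neg_add_cancel, Xi_zero hE hx] at h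
  exact eq_neg_of_add_eq_zero_left h.symm

theorem F_Xi_sub (hE : EvData F p ev ε') (hx : IsGen F p x) (g h : ℕ → ZMod p) :
    Xi x ev (g - h) = Xi x ev g - Xi x ev h := by
  rw [sub_eq_add_neg, Xi_add hE hx, F_Xi_neg hE hx, sub_eq_add_neg]

theorem F_Xi_int (hE : EvData F p ev ε') (hx : IsGen F p x) (a : ℤ) (g : ℕ → ZMod p) :
    (a : K) * Xi x ev g = Xi x ev (fun m => (a : ZMod p) * g m) := by
  obtain ⟨n, rfl | rfl⟩ := Int.eq_nat_or_neg a
  · have h := Xi_nat_mul hE hx n g
    push_cast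
    exact h
  · have h := Xi_nat_mul hE hx n g
    have h2 := F_Xi_neg hE hx (fun m => (n : ZMod p) * g m)
    push_cast
    rw [neg_mul, h, ← h2]
    congr 1
    funext m
    simp

theorem F_Xi_sum (hE : EvData F p ev ε') (hx : IsGen F p x) {ι : Type} (s : Finset ι)
    (g : ι → ℕ → ZMod p) :
    Xi x ev (∑ n ∈ s, g n) = ∑ n ∈ s, Xi x ev (g n) := by
  classical
  induction s using Finset.induction_on with
  | empty => simp [Xi_zero hE hx]
  | insert a s ha ih => rw [Finset.sum_insert ha, Finset.sum_insert ha, Xi_add hE hx, ih]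

theorem F_pow {K : Type} [CommRing K] (ε ε' : K) (hε : ε * ε' = 1) (n : ℕ) :
    ε ^ n * ε' ^ n = 1 := by
  rw [← mul_pow, hε, one_pow]

theorem F_Xi_B (hE : EvData F p ev ε') (hx : IsGen F p x) (i j : ℕ) (h : ℕ → ZMod p)
    (hh : ∀ m, h m = ∑ n ∈ Finset.Ico 1 (i + j), lam p n m * bb p n i j) :
    Xi x ev h = ∑ n ∈ Finset.Ico 1 (i + j), (F_B p n i j : K) * Xi x ev (fun m => lam p n m) := by
  have h1 : h = ∑ n ∈ Finset.Ico 1 (i + j), (fun m => ((F_B p n i j : ℤ) : ZMod p) * lam p n m) := by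
    funext m
    rw [hh m, Finset.sum_apply]
    refine Finset.sum_congr rfl fun n _ => ?_
    rw [F_B_cast, mul_comm]
  rw [h1, F_Xi_sum hE hx]
  refine Finset.sum_congr rfl fun n _ => ?_
  rw [F_Xi_int hE hx]

open Classical in
theorem F_rhs_coeff (p : ℕ) [Fact p.Prime] (i j m : ℕ) (hi : 1 ≤ i) (hj : 1 ≤ j) :
    (if m + 1 = i + j then (cpN p i j : ZMod p) else 0) -
      (if (1 ≤ m ∧ IsPP p (m + 1)) ∧ i + j = p then (cpN p i j : ZMod p) else 0) -
      ((i + j).choose i : ZMod p) * (Up p m).coeff (i + j) =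
      ∑ n ∈ Finset.Ico 1 (i + j), lam p n m * bb p n i j := by
  rcases Nat.eq_zero_or_pos m with rfl | hm
  · have hpp : IsPP p (0 + 1) := ⟨0, by simp⟩
    have hU : Up p 0 = 0 := by
      have hpp' : IsPP p 1 := hpp
      unfold Up Vp vp Ep edp
      simp [hpp']
    rw [hU, if_neg (by omega), if_neg (fun h => absurd h.1.1 (by omega))]
    simp only [Polynomial.coeff_zero, mul_zero, sub_zero]
    symm
    refine Finset.sum_eq_zero fun n hn => ?_
    rw [Finset.mem_Ico] at hn
    unfold lam mu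
    simp
  · rw [← rowB p m i j hm hi hj]
    have hm' : (1 ≤ m ∧ IsPP p (m + 1)) ↔ IsPP p (m + 1) := and_iff_right hm
    simp only [hm']

theorem F_G_coeff (F : FormalGroup L) (φ : L →+* K) (k l : ℕ) :
    ((F.map φ).toPowerSeries - X 0 - X 1).coeff (Finsupp.single 0 k + Finsupp.single 1 l) =
      φ (cf F k l) - (if k = 1 ∧ l = 0 then 1 else 0) - (if k = 0 ∧ l = 1 then 1 else 0) := by
  have h0 : (MvPowerSeries.X (0 : Fin 2) : MvPowerSeries (Fin 2) K).coeff
      (Finsupp.single 0 k + Finsupp.single 1 l) = if k = 1 ∧ l = 0 then 1 else 0 := by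
    rw [MvPowerSeries.coeff_X]
    congr 1
    apply propext
    constructor
    · intro h
      have h1 := DFunLike.congr_fun h 0
      have h2 := DFunLike.congr_fun h 1
      simp at h1 h2
      exact ⟨h1, h2⟩
    · rintro ⟨rfl, rfl⟩
      simp
  have h1 : (MvPowerSeries.X (1 : Fin 2) : MvPowerSeries (Fin 2) K).coeff
      (Finsupp.single 0 k + Finsupp.single 1 l) = if k = 0 ∧ l = 1 then 1 else 0 := by
    rw [MvPowerSeries.coeff_X]
    congr 1
    apply propext
    constructor
    · intro h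
      have h1 := DFunLike.congr_fun h 0
      have h2 := DFunLike.congr_fun h 1
      simp at h1 h2
      exact ⟨h1, h2⟩
    · rintro ⟨rfl, rfl⟩
      simp
  rw [map_sub, map_sub, h0, h1, FormalGroup.map_toPowerSeries, MvPowerSeries.coeff_map]
  rfl

theorem F_G_zero_left (F : FormalGroup L) (φ : L →+* K) (l : ℕ) :
    ((F.map φ).toPowerSeries - X 0 - X 1).coeff (Finsupp.single 0 0 + Finsupp.single 1 l) = 0 := by
  rw [F_G_coeff, cf_zero_left]
  by_cases h : l = 1
  · simp [h]
  · simp [h]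

theorem F_G_zero_right (F : FormalGroup L) (φ : L →+* K) (k : ℕ) :
    ((F.map φ).toPowerSeries - X 0 - X 1).coeff (Finsupp.single 0 k + Finsupp.single 1 0) = 0 := by
  rw [F_G_coeff, cf_zero_right]
  by_cases h : k = 1
  · simp [h]
  · simp [h]

omit [Fact p.Prime] in
theorem F_G_pos (hx : IsGen F p x) (φ : L →+* K) (hI : ∀ y ∈ bigI F p ^ 2, φ y = 0) (k l : ℕ)
    (hk : 1 ≤ k) (hl : 1 ≤ l) :
    ((F.map φ).toPowerSeries - X 0 - X 1).coeff (Finsupp.single 0 k + Finsupp.single 1 l) =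
      (cpN p k l : K) * φ (x (k + l - 1)) := by
  have h := hI _ (hx.coef k l hk hl)
  rw [map_sub, sub_eq_zero] at h
  rw [F_G_coeff, h, if_neg (by omega), if_neg (by omega), sub_zero, sub_zero, map_nsmul, nsmul_eq_mul]

theorem F_lhs (hE : EvData F p ev ε') (hx : IsGen F p x) (φ : L →+* K)
    (hI : ∀ y ∈ bigI F p ^ 2, φ y = 0) (i j : ℕ) (hi : 1 ≤ i) (hj : 1 ≤ j) :
    ev PowerSeries.X ^ (i + j - 1) * (∑ k ∈ Finset.range (i + 1), ∑ l ∈ Finset.range (j + 1),
        ((F.map φ).toPowerSeries - X 0 - X 1).coeff (Finsupp.single 0 k + Finsupp.single 1 l) *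
          PowerSeries.coeff i ((PowerSeries.X - PowerSeries.C (ε' ^ (p - 1)) * PowerSeries.X ^ p) ^ k) *
          PowerSeries.coeff j ((PowerSeries.X - PowerSeries.C (ε' ^ (p - 1)) * PowerSeries.X ^ p) ^ l)) =
      ∑ n ∈ Finset.Ico 1 (i + j), (F_B p n i j : K) * (φ (x n) * ev PowerSeries.X ^ n) := by
  rw [← F_regroup p (fun n => φ (x n) * ev PowerSeries.X ^ n) i j, Finset.range_eq_Ico,
    Finset.sum_eq_sum_Ico_succ_bot (by omega), Finset.range_eq_Ico]
  have h0 : ∑ l ∈ Finset.Ico 0 (j + 1),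
        ((F.map φ).toPowerSeries - X 0 - X 1).coeff (Finsupp.single 0 0 + Finsupp.single 1 l) *
          PowerSeries.coeff i ((PowerSeries.X - PowerSeries.C (ε' ^ (p - 1)) * PowerSeries.X ^ p) ^ 0) *
          PowerSeries.coeff j ((PowerSeries.X - PowerSeries.C (ε' ^ (p - 1)) * PowerSeries.X ^ p) ^ l)
        = 0 :=
    Finset.sum_eq_zero fun l _ => by rw [F_G_zero_left, zero_mul, zero_mul]
  rw [h0, zero_add, zero_add, Finset.mul_sum]
  refine Finset.sum_congr rfl fun k hk => ?_
  rw [Finset.mem_Ico] at hk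
  rw [Finset.sum_eq_sum_Ico_succ_bot (by omega), F_G_zero_right, zero_mul, zero_mul, zero_add, zero_add,
    Finset.mul_sum]
  refine Finset.sum_congr rfl fun l hl => ?_
  rw [Finset.mem_Ico] at hl
  rw [F_G_pos hx φ hI k l hk.1 hl.1, F_W_K p _ _ hE.inv, F_W_K p _ _ hE.inv]
  have e1 : ev PowerSeries.X ^ (i + j - 1) * ev PowerSeries.X ^ k * ev PowerSeries.X ^ l * ε' ^ i * ε' ^ j
      = ev PowerSeries.X ^ (k + l - 1) := by
    have e2 := F_pow (K := K) _ _ hE.inv (i + j)
    have e3 : ev PowerSeries.X ^ k * ev PowerSeries.X ^ l =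
        ev PowerSeries.X ^ (k + l - 1) * ev PowerSeries.X := by
      rw [← pow_add, ← pow_succ]
      congr 1
      omega
    have e4 : ev PowerSeries.X ^ (i + j) = ev PowerSeries.X ^ (i + j - 1) * ev PowerSeries.X := by
      rw [← pow_succ]
      congr 1
      omega
    calc _ = (ev PowerSeries.X ^ k * ev PowerSeries.X ^ l) * (ev PowerSeries.X ^ (i + j - 1)) *
          (ε' ^ i * ε' ^ j) := by ring
      _ = ev PowerSeries.X ^ (k + l - 1) * (ev PowerSeries.X ^ (i + j) * ε' ^ (i + j)) := by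
          rw [e3, e4, pow_add ε']; ring
      _ = _ := by rw [e2, mul_one]
  rw [← e1]
  ring

theorem F_ev_cf (hE : EvData F p ev ε') (hx : IsGen F p x) (i j : ℕ) (hi : 1 ≤ i) (hj : 1 ≤ j) :
    ev PowerSeries.X ^ (i + j - 1) * ev (PowerSeries.C (cf F i j)) =
      Xi x ev (fun m => if m + 1 = i + j then (cpN p i j : ZMod p) else 0) := by
  have h1 : ev (PowerSeries.C (cf F i j - cpN p i j • x (i + j - 1))) = 0 := by
    apply hE.small
    intro k
    rw [PowerSeries.coeff_C]
    split_ifs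
    · exact hx.coef i j hi hj
    · exact Ideal.zero_mem _
  have h2 : ev (PowerSeries.C (cf F i j)) = (cpN p i j : K) * ev (PowerSeries.C (x (i + j - 1))) := by
    rw [map_sub, map_sub, sub_eq_zero] at h1
    rw [h1, map_nsmul, map_nsmul, nsmul_eq_mul]
  rw [h2, mul_left_comm, mul_comm (ev PowerSeries.X ^ (i + j - 1)), ev_single hE hx, Xi_nat_mul hE hx]
  congr 1
  funext m
  by_cases hm : m + 1 = i + j
  · rw [if_pos hm, show i + j - 1 = m by omega, Pi.single_eq_same, mul_one]
  · rw [if_neg hm, Pi.single_eq_of_ne (by omega), mul_zero]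

open Classical in
theorem F_rhs (hE : EvData F p ev ε') (hx : IsGen F p x) (Φ : PowerSeries K)
    (hΦ : ∀ k, PowerSeries.coeff k Φ = ev PowerSeries.X * (ε' ^ k * ((if k = 1 then 1 else 0) +
      (if k = p then (-1) ^ p else 0) - Xi x ev (fun m => (Up p m).coeff k))))
    (i j : ℕ) (hi : 1 ≤ i) (hj : 1 ≤ j) :
    ev PowerSeries.X ^ (i + j - 1) *
      (ev (PowerSeries.C (cf F i j)) + ((i + j).choose i : K) * PowerSeries.coeff (i + j) Φ) =
      ∑ n ∈ Finset.Ico 1 (i + j), (F_B p n i j : K) * Xi x ev (fun m => lam p n m) := by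
  have hp : p.Prime := Fact.out
  rw [← F_Xi_B hE hx i j _ (fun m => F_rhs_coeff p i j m hi hj), mul_add, F_ev_cf hE hx i j hi hj]
  have h1 : ev PowerSeries.X ^ (i + j - 1) * (((i + j).choose i : K) * PowerSeries.coeff (i + j) Φ) =
      ((i + j).choose i : K) * (if i + j = p then (-1) ^ p else 0) -
        Xi x ev (fun m => ((i + j).choose i : ZMod p) * (Up p m).coeff (i + j)) := by
    rw [hΦ, if_neg (by omega : i + j ≠ 1), zero_add, ← Xi_nat_mul hE hx]
    have e2 := F_pow (K := K) _ _ hE.inv (i + j)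
    have e4 : ev PowerSeries.X ^ (i + j) = ev PowerSeries.X ^ (i + j - 1) * ev PowerSeries.X := by
      rw [← pow_succ]
      congr 1
      omega
    rw [e4] at e2
    calc _ = (ev PowerSeries.X ^ (i + j - 1) * ev PowerSeries.X * ε' ^ (i + j)) *
          (((i + j).choose i : K) * ((if i + j = p then (-1) ^ p else 0) -
            Xi x ev (fun m => (Up p m).coeff (i + j)))) := by ring
      _ = _ := by rw [e2, one_mul, mul_sub]
  have h2 : ((i + j).choose i : K) * (if i + j = p then (-1) ^ p else 0) =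
      - Xi x ev (fun m => if (1 ≤ m ∧ IsPP p (m + 1)) ∧ i + j = p then (cpN p i j : ZMod p) else 0) := by
    by_cases hij : i + j = p
    · have hpp : IsPP p (i + j) := ⟨1, by rw [hij, pow_one]⟩
      have hdvd : p ∣ (i + j).choose i := by
        rw [hij]
        exact hp.dvd_choose_self (by omega) (by omega)
      have hc : ((i + j).choose i : K) = (cpN p i j : K) * p := by
        unfold cpN
        rw [if_pos hpp, ← Nat.cast_mul, Nat.div_mul_cancel hdvd]
      have hs : (p : K) * (-1) ^ p = - p := by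
        rcases hp.eq_two_or_odd' with h | h
        · have h4 : (p : K) * p = 0 := p_sq hE
          have h5 : (p : K) = 2 := by rw [h]; norm_num
          have h6 : (-1 : K) ^ p = 1 := by rw [h]; norm_num
          rw [h6, mul_one]
          exact eq_neg_of_add_eq_zero_left (by rw [← two_mul, ← h5]; exact h4)
        · rw [h.neg_one_pow, mul_neg, mul_one]
      rw [if_pos hij, hc, mul_assoc, hs, mul_neg, p_eq_Xi hE hx, Xi_nat_mul hE hx]
      congr 2
      funext m
      by_cases hm : 1 ≤ m ∧ IsPP p (m + 1)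
      · rw [if_pos hm, if_pos ⟨hm, hij⟩, mul_one]
      · rw [if_neg hm, if_neg (fun h => hm h.1), mul_zero]
    · rw [if_neg hij, mul_zero]
      have : (fun m => if (1 ≤ m ∧ IsPP p (m + 1)) ∧ i + j = p then (cpN p i j : ZMod p) else 0) =
          (0 : ℕ → ZMod p) := by
        funext m
        rw [if_neg (fun h => hij h.2)]
        rfl
      rw [this, Xi_zero hE hx, neg_zero]
  rw [h1, h2]
  have h3 := F_Xi_sub hE hx (fun m => (if m + 1 = i + j then (cpN p i j : ZMod p) else 0) -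
      (if (1 ≤ m ∧ IsPP p (m + 1)) ∧ i + j = p then (cpN p i j : ZMod p) else 0))
      (fun m => ((i + j).choose i : ZMod p) * (Up p m).coeff (i + j))
  have h4 := F_Xi_sub hE hx (fun m => (if m + 1 = i + j then (cpN p i j : ZMod p) else 0))
      (fun m => (if (1 ≤ m ∧ IsPP p (m + 1)) ∧ i + j = p then (cpN p i j : ZMod p) else 0))
  have h5 : (fun m => (if m + 1 = i + j then (cpN p i j : ZMod p) else 0)) -
      (fun m => (if (1 ≤ m ∧ IsPP p (m + 1)) ∧ i + j = p then (cpN p i j : ZMod p) else 0)) =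
      (fun m => (if m + 1 = i + j then (cpN p i j : ZMod p) else 0) -
      (if (1 ≤ m ∧ IsPP p (m + 1)) ∧ i + j = p then (cpN p i j : ZMod p) else 0)) := rfl
  rw [h5] at h4
  rw [h4] at h3
  have h6 : (fun m => (if m + 1 = i + j then (cpN p i j : ZMod p) else 0) -
      (if (1 ≤ m ∧ IsPP p (m + 1)) ∧ i + j = p then (cpN p i j : ZMod p) else 0)) -
      (fun m => ((i + j).choose i : ZMod p) * (Up p m).coeff (i + j)) =
      (fun m => (if m + 1 = i + j then (cpN p i j : ZMod p) else 0) -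
      (if (1 ≤ m ∧ IsPP p (m + 1)) ∧ i + j = p then (cpN p i j : ZMod p) else 0) -
      ((i + j).choose i : ZMod p) * (Up p m).coeff (i + j)) := rfl
  rw [h6] at h3
  rw [h3]
  ring

theorem rowF (hE : EvData F p ev ε') (hx : IsGen F p x) (Φ : PowerSeries K)
    (hΦ : ∀ k, PowerSeries.coeff k Φ = ev PowerSeries.X * (ε' ^ k * ((if k = 1 then 1 else 0) +
      (if k = p then (-1) ^ p else 0) - Xi x ev (fun m => (Up p m).coeff k))))
    (φ : L →+* K) (hI : ∀ y ∈ bigI F p ^ 2, φ y = 0)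
    (hstar : ∀ i j, 1 ≤ i → 1 ≤ j →
      ∑ k ∈ Finset.range (i + 1), ∑ l ∈ Finset.range (j + 1),
        ((F.map φ).toPowerSeries - X 0 - X 1).coeff (Finsupp.single 0 k + Finsupp.single 1 l) *
          PowerSeries.coeff i ((PowerSeries.X - PowerSeries.C (ε' ^ (p - 1)) * PowerSeries.X ^ p) ^ k) *
          PowerSeries.coeff j ((PowerSeries.X - PowerSeries.C (ε' ^ (p - 1)) * PowerSeries.X ^ p) ^ l) =
      ev (PowerSeries.C (cf F i j)) + ((i + j).choose i : K) * PowerSeries.coeff (i + j) Φ) :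
    ∀ n, 1 ≤ n → φ (x n) = ε' ^ n * Xi x ev (fun m => lam p n m) := by
  have hp : p.Prime := Fact.out
  have hsum : ∀ i j, 1 ≤ i → 1 ≤ j → ∑ n ∈ Finset.Ico 1 (i + j), (F_B p n i j : K) *
      (φ (x n) * ev PowerSeries.X ^ n - Xi x ev (fun m => lam p n m)) = 0 := by
    intro i j hi hj
    have h1 := F_lhs hE hx φ hI i j hi hj
    rw [hstar i j hi hj, F_rhs hE hx Φ hΦ i j hi hj] at h1
    simp_rw [mul_sub]
    rw [Finset.sum_sub_distrib, ← h1, sub_self]
  have hD : ∀ n, 1 ≤ n → φ (x n) * ev PowerSeries.X ^ n - Xi x ev (fun m => lam p n m) = 0 := by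
    intro n
    induction n using Nat.strong_induction_on with
    | _ n ih =>
      intro hn
      obtain ⟨i, hi1, hi2, hi3⟩ := exists_cpN_ne p (n + 1) (by omega)
      have h1 := hsum i (n + 1 - i) hi1 (by omega)
      rw [show i + (n + 1 - i) = n + 1 by omega, Finset.sum_Ico_succ_top hn, Finset.sum_eq_zero,
        zero_add, F_B_self p n i hi1 hi2] at h1
      · -- `p` and `cpN` kill the difference
        have hcop : Nat.Coprime (cpN p i (n + 1 - i)) p := by
          rw [Nat.coprime_comm, hp.coprime_iff_not_dvd]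
          intro hd
          exact hi3 ((ZMod.natCast_eq_zero_iff _ p).2 hd)
        have hpD : (p : K) * (φ (x n) * ev PowerSeries.X ^ n - Xi x ev (fun m => lam p n m)) = 0 := by
          have h2 : (p : K) * φ (x n) = 0 := by
            have h3 : φ ((p : L) * x n) = 0 := by
              apply hI
              rw [sq]
              exact Ideal.mul_mem_mul (Ideal.mem_sup_left (Ideal.subset_span rfl)) (hx.mem_bigI n)
            rwa [map_mul, map_natCast] at h3
          rw [mul_sub, ← mul_assoc, h2, zero_mul, p_mul_Xi hE hx, sub_zero]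
        have hb := Nat.gcd_eq_gcd_ab (cpN p i (n + 1 - i)) p
        rw [hcop.gcd_eq_one] at hb
        have hb' : (1 : K) = (cpN p i (n + 1 - i) : K) * ((cpN p i (n + 1 - i)).gcdA p : ℤ) +
            (p : K) * ((cpN p i (n + 1 - i)).gcdB p : ℤ) := by
          have := congrArg (fun z : ℤ => (z : K)) hb
          push_cast at this
          exact_mod_cast this
        rw [Int.cast_natCast] at h1
        calc _ = (1 : K) * (φ (x n) * ev PowerSeries.X ^ n - Xi x ev (fun m => lam p n m)) := (one_mul _).symm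
          _ = ((cpN p i (n + 1 - i)).gcdA p : K) * ((cpN p i (n + 1 - i) : K) *
                (φ (x n) * ev PowerSeries.X ^ n - Xi x ev (fun m => lam p n m))) +
              ((cpN p i (n + 1 - i)).gcdB p : K) * ((p : K) *
                (φ (x n) * ev PowerSeries.X ^ n - Xi x ev (fun m => lam p n m))) := by
              rw [hb']; ring
          _ = 0 := by rw [h1, hpD, mul_zero, mul_zero, add_zero]
      · intro k hk
        rw [Finset.mem_Ico] at hk
        rw [ih k hk.2 hk.1, mul_zero]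
  intro n hn
  have h1 := hD n hn
  rw [sub_eq_zero] at h1
  have e2 := F_pow (K := K) _ _ hE.inv n
  calc φ (x n) = (ev PowerSeries.X ^ n * ε' ^ n) * φ (x n) := by rw [e2, one_mul]
    _ = ε' ^ n * (φ (x n) * ev PowerSeries.X ^ n) := by ring
    _ = _ := by rw [h1]

end Pool.Agent.MUDL
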