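import Mathlib
import Pool.Agent.Lib.MP_eb0266_gt.FinF
import Pool.Agent.Lib.MP_eb0266_gt.AbsA

/-!
Row F. The value `φ(x_n) = ε^{-n} Xi(lam(n, ·))`.

`rowF`: multiply the identity `hstar` by `ε^{i+j-1}`. The left side is
`∑_{k,l} φ(cf k l) [X^i] w^k [Y^j] w^l`, where `cf k l` is `c_{kl} x_{k+l-1}` modulo `I²` for `k, l ≥ 1` and `0` for
`k = 0` or `l = 0` (`k + l ≥ 2`), and `[X^i] (X - δ X^p)^k = ε'^{i-k} [X^i] (X - X^p)^k`, `δ = ε'^{p-1}`. So
`∑_{n} φ(x_n) ε^n bb(n,i,j) = Xi(m ↦ [m + 1 = i + j] c_{ij} - [m+1 power of p, i+j = p] c_{ij} -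
binom(i+j, i) coeff_{i+j} Up_m)`, by `norm_coeff`, `ev_single` and `p_eq_Xi` (for `k = p`: `binom(p, i) (-1)^p = -p c_{ij}`
in `K` since `p² = 0`). By `rowB` the right side is `∑_n bb(n,i,j) Xi(lam(n, ·))`. Induction on `n`: for
`i + j = n + 1` the coefficient `bb(n,i,j)` is `c_{ij}`, and `c_{ij} ≢ 0` mod `p` for some `i + j = n + 1`.
-/

set_option autoImplicit false

namespace Pool.Agent.MUDL

open MvPowerSeries

variable {L : Type} [CommRing L] {F : FormalGroup L} {p : ℕ} [Fact p.Prime] {K : Type} [CommRing K]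
  {ev : PowerSeries L →+* K} {ε' : K} {x : ℕ → L}

theorem G_sum_eq (d : Fin 2 →₀ ℕ) : Finsupp.single 0 (d 0) + Finsupp.single 1 (d 1) = d := by
  ext i
  fin_cases i <;> simp

/-- coefficients of `G - X - Y` -/
theorem G_coeff_sub {R : Type} [CommRing R] (G : FormalGroup R) (d : Fin 2 →₀ ℕ) :
    (G.toPowerSeries - X 0 - X 1).coeff d = if 2 ≤ d 0 + d 1 then cf G (d 0) (d 1) else 0 := by
  classical
  have hd := G_sum_eq d
  have hX0 : coeff d (X 0 : MvPowerSeries (Fin 2) R) = if d = Finsupp.single 0 1 then 1 else 0 := by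
    rw [coeff_X]
  have hX1 : coeff d (X 1 : MvPowerSeries (Fin 2) R) = if d = Finsupp.single 1 1 then 1 else 0 := by
    rw [coeff_X]
  rw [map_sub, map_sub, hX0, hX1]
  by_cases h : 2 ≤ d 0 + d 1
  · rw [if_pos h]
    have h1 : d ≠ Finsupp.single 0 1 := by
      rintro rfl; simp at h
    have h2 : d ≠ Finsupp.single 1 1 := by
      rintro rfl; simp at h
    rw [if_neg h1, if_neg h2, cf, hd]
    ring
  · rw [if_neg h]
    have h0 : d 0 ≤ 1 := by omega
    have h1 : d 1 ≤ 1 := by omega
    interval_cases h00 : d 0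
    · interval_cases h11 : d 1
      · have hd0 : d = 0 := by
          ext i; fin_cases i <;> simp [h00, h11]
        subst hd0
        have hz : coeff 0 G.toPowerSeries = 0 := by
          rw [coeff_zero_eq_constantCoeff]; exact G.zero_constantCoeff
        have e0 : (0 : Fin 2 →₀ ℕ) ≠ Finsupp.single 0 1 := by
          intro h; have := DFunLike.congr_fun h 0; simp at this
        have e1 : (0 : Fin 2 →₀ ℕ) ≠ Finsupp.single 1 1 := by
          intro h; have := DFunLike.congr_fun h 1; simp at this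
        rw [hz, if_neg e0, if_neg e1]; ring
      · have hd0 : d = Finsupp.single 1 1 := by
          ext i; fin_cases i <;> simp [h00, h11]
        subst hd0
        have e0 : (Finsupp.single 1 1 : Fin 2 →₀ ℕ) ≠ Finsupp.single 0 1 := by
          intro h; have := DFunLike.congr_fun h 0; simp at this
        rw [if_neg e0, if_pos rfl, G.lin_coeff_Y]; ring
    · interval_cases h11 : d 1
      · have hd0 : d = Finsupp.single 0 1 := by
          ext i; fin_cases i <;> simp [h00, h11]
        subst hd0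
        have e1 : (Finsupp.single 0 1 : Fin 2 →₀ ℕ) ≠ Finsupp.single 1 1 := by
          intro h; have := DFunLike.congr_fun h 0; simp at this
        rw [if_neg e1, if_pos rfl, G.lin_coeff_X]; ring
      · omega

theorem G_cf_map {R S : Type} [CommRing R] [CommRing S] (G : FormalGroup R) (f : R →+* S) (i j : ℕ) :
    cf (G.map f) i j = f (cf G i j) := by
  simp [cf]

theorem G_lam_zero (m : ℕ) :
    lam p 0 m = (open Classical in if 1 ≤ m ∧ IsPP p (m + 1) then (1 : ZMod p) else 0) := by
  classical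
  have hp := (Fact.out : p.Prime)
  have hp1 : 1 ≤ p - 1 := by have := hp.two_le; omega
  unfold lam
  rw [Nat.sub_zero]
  by_cases hd : (p - 1) ∣ m
  · rw [if_pos hd]
    obtain ⟨s, rfl⟩ := hd
    rw [Nat.mul_div_cancel_left _ (by omega)]
    have h1 : IsPP p (0 + 1) := ⟨0, by simp⟩
    have e1 : 0 + s * (p - 1) + 1 = (p - 1) * s + 1 := by ring
    unfold mu
    rw [e1]
    by_cases hs : s ≤ 0
    · have : s = 0 := by omega
      subst this
      simp
    · rw [if_neg hs]
      have : 1 ≤ (p - 1) * s := Nat.one_le_iff_ne_zero.2 (Nat.mul_ne_zero (by omega) (by omega))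
      by_cases h2 : IsPP p ((p - 1) * s + 1)
      · rw [if_pos h2, if_pos rfl, if_pos ⟨this, h2⟩]
      · rw [if_neg h2, if_pos h1, if_neg (fun h => h2 h.2)]
  · rw [if_neg hd, if_neg]
    rintro ⟨h1, k, hk⟩
    apply hd
    have h2 : m = p ^ k - 1 := by omega
    rw [h2]
    have := Nat.sub_dvd_pow_sub_pow p 1 k
    rwa [one_pow] at this

theorem G_Up_zero (m : ℕ) : (Up p m).coeff 0 = 0 := by
  classical
  have hp := (Fact.out : p.Prime)
  have hp2 := hp.two_le
  unfold Up
  have h1 : (Polynomial.C (vp p m) * (Polynomial.X ^ p - Polynomial.X)).coeff 0 = 0 := by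
    rw [Polynomial.mul_coeff_zero, Polynomial.coeff_sub, Polynomial.coeff_X_pow, Polynomial.coeff_X_zero,
      if_neg (by omega)]
    simp
  rw [Polynomial.coeff_add, h1, add_zero, Vp, Polynomial.finsetSum_coeff]
  refine Finset.sum_eq_zero fun i hi => ?_
  rw [Polynomial.mul_coeff_zero]
  by_cases h0 : i = 0
  · subst h0
    have : (Ep p m 0).coeff 0 = 0 := by
      unfold Ep
      rw [Polynomial.coeff_add, Polynomial.finsetSum_coeff, Polynomial.coeff_C_zero]
      have : edp p 0 m = 0 := by
        unfold edp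
        split_ifs
        · rfl
        · simp
      rw [this, add_zero]
      refine Finset.sum_eq_zero fun k hk => ?_
      rw [Finset.mem_Ico] at hk
      rw [Polynomial.coeff_C_mul, Polynomial.coeff_X_pow, if_neg (by omega), mul_zero]
    rw [this, zero_mul]
  · have : (∏ k ∈ (Finset.range p).erase i, (Polynomial.X + Polynomial.C (k : ZMod p))).coeff 0 = 0 := by
      rw [Polynomial.coeff_zero_prod]
      refine Finset.prod_eq_zero (i := 0) ?_ ?_
      · rw [Finset.mem_erase, Finset.mem_range]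
        exact ⟨fun h => h0 h.symm, by omega⟩
      · simp
    rw [this, mul_zero]

/-- The main formula, in any `K`. `J` is the ideal generated by the values of series with coefficients
in `I`; `absA` is applied with `δ = ε'^{p-1}`. -/
theorem rowG (hE : EvData F p ev ε') (hx : IsGen F p x) (J : Ideal K)
    (hJ : ∀ a ∈ J, ∀ b ∈ J, a * b = 0)
    (hJe : ∀ f : PowerSeries L, (∀ k, PowerSeries.coeff k f ∈ bigI F p) → ev f ∈ J)
    (Φ : PowerSeries K)
    (hΦ : PowerSeries.C (∏ i ∈ Finset.Ico 1 p, ev (mulE F i)) * Φ =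
      ∏ i ∈ Finset.range p, PowerSeries.mk fun k =>
        ev (PowerSeries.mk fun j => (trans F i).coeff (Finsupp.single 0 k + Finsupp.single 1 j)))
    (φ : L →+* K)
    (h : (F.map φ).toPowerSeries.subst
      ![PowerSeries.subst (X 0 : MvPowerSeries (Fin 2) K) Φ,
        PowerSeries.subst (X 1 : MvPowerSeries (Fin 2) K) Φ] =
      PowerSeries.subst (F.map (ev.comp PowerSeries.C)).toPowerSeries Φ) :
    ∀ n, φ (x n) = ε' ^ n * Xi x ev (fun m => lam p n m) := by
  classical
  have hp := (Fact.out : p.Prime)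
  have hp2 := hp.two_le
  have hΦ' := norm_coeff hE hx Φ hΦ
  have hJC : ∀ y ∈ bigI F p, ev (PowerSeries.C y) ∈ J := by
    intro y hy
    apply hJe
    intro k
    rw [PowerSeries.coeff_C]
    split_ifs
    · exact hy
    · exact zero_mem _
  have hpI : (p : L) ∈ bigI F p := Ideal.mem_sup_left (Ideal.subset_span rfl)
  have hpJ : (p : K) ∈ J := by
    have := hJC _ hpI
    simpa using this
  have hXi : ∀ g : ℕ → ZMod p, Xi x ev g ∈ J := by
    intro g
    apply hJe
    intro k
    rw [PowerSeries.coeff_mk]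
    exact (bigI F p).nsmul_mem (hx.mem_bigI k) _ 
  have hmem2 : ∀ i j, 2 ≤ i + j → cf F i j ∈ augI F := fun i j hij =>
    Ideal.subset_span ⟨i, j, hij, rfl⟩
  have hinv := hE.inv
  -- coefficient 0
  have hΦ0 : PowerSeries.coeff 0 Φ = 0 := by
    rw [hΦ' 0]
    have h0 : Xi x ev (fun m => (Up p m).coeff 0) = 0 := by
      have : (fun m => (Up p m).coeff 0) = (0 : ℕ → ZMod p) := by
        funext m; exact G_Up_zero m
      rw [this]; exact Xi_zero hE hx
    rw [h0, if_neg (by omega), if_neg (by omega)]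
    ring
  have hΦ1 : ∀ k, PowerSeries.coeff k Φ -
      PowerSeries.coeff k (PowerSeries.X - PowerSeries.C (ε' ^ (p - 1)) * PowerSeries.X ^ p) ∈ J := by
    intro k
    rw [hΦ' k, map_sub, PowerSeries.coeff_C_mul, PowerSeries.coeff_X, PowerSeries.coeff_X_pow]
    have e1 : ev PowerSeries.X * (ε' ^ k * ((if k = 1 then (1 : K) else 0) +
        (if k = p then (-1) ^ p else 0) - Xi x ev (fun m => (Up p m).coeff k))) -
        ((if k = 1 then (1 : K) else 0) - ε' ^ (p - 1) * (if k = p then (1 : K) else 0)) =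
        (ev PowerSeries.X * ε' ^ k - 1) * (if k = 1 then (1 : K) else 0) +
        (ev PowerSeries.X * ε' ^ k * (-1) ^ p + ε' ^ (p - 1)) * (if k = p then (1 : K) else 0) -
        ev PowerSeries.X * ε' ^ k * Xi x ev (fun m => (Up p m).coeff k) := by
      split_ifs <;> ring
    rw [e1]
    refine J.sub_mem (J.add_mem ?_ ?_) (J.mul_mem_left _ (hXi _))
    · by_cases hk : k = 1
      · subst hk
        rw [pow_one, hinv, sub_self, zero_mul]
        exact zero_mem _
      · rw [if_neg hk, mul_zero]
        exact zero_mem _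
    · by_cases hk : k = p
      · subst hk
        rw [if_pos rfl, mul_one]
        have e2 : ev PowerSeries.X * ε' ^ k = ε' ^ (k - 1) := by
          conv_lhs => rw [show k = (k - 1) + 1 by omega, pow_succ]
          rw [mul_comm (ε' ^ (k - 1)) ε', ← mul_assoc, hinv, one_mul]
        rw [e2]
        rcases hp.eq_two_or_odd' with h2 | h2
        · subst h2
          have : ε' ^ (2 - 1) * (-1) ^ 2 + ε' ^ (2 - 1) = ε' ^ (2 - 1) * ((2 : ℕ) : K) := by
            push_cast; ring
          rw [this]
          exact J.mul_mem_left _ hpJ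
        · rw [h2.neg_one_pow]
          have : ε' ^ (k - 1) * -1 + ε' ^ (k - 1) = 0 := by ring
          rw [this]
          exact zero_mem _
      · rw [if_neg hk, mul_zero]
        exact zero_mem _
  have hι0 : constantCoeff (F.map (ev.comp PowerSeries.C)).toPowerSeries = 0 :=
    (F.map (ev.comp PowerSeries.C)).zero_constantCoeff
  have hι : ∀ d, coeff d ((F.map (ev.comp PowerSeries.C)).toPowerSeries - X 0 - X 1) ∈ J := by
    intro d
    rw [G_coeff_sub, G_cf_map]
    split_ifs with hd
    · exact hJC _ (augI_le F p (hmem2 _ _ hd))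
    · exact zero_mem _
  obtain ⟨hA, hB⟩ := absA p J hJ hpJ (ε' ^ (p - 1)) Φ hΦ0 hΦ1 _ _ hι0 hι h
  have hφcf : ∀ i j, 2 ≤ i + j → φ (cf F i j) ∈ J := by
    intro i j hij
    have := hA (Finsupp.single 0 i + Finsupp.single 1 j)
    rw [G_coeff_sub, G_cf_map] at this
    simpa [hij] using this
  have hφaug : augI F ≤ J.comap φ := by
    unfold augI
    rw [Ideal.span_le]
    rintro a ⟨i, j, hij, rfl⟩
    exact hφcf i j hij
  have hφI : bigI F p ≤ J.comap φ := by
    unfold bigI
    refine sup_le ?_ hφaug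
    rw [Ideal.span_le]
    rintro a ha
    rw [Set.mem_singleton_iff] at ha
    subst ha
    show φ (p : L) ∈ J
    rw [map_natCast]
    exact hpJ
  have hI : ∀ y ∈ bigI F p ^ 2, φ y = 0 := by
    intro y hy
    rw [pow_two] at hy
    refine Submodule.mul_induction_on hy ?_ ?_
    · intro a ha b hb
      rw [map_mul]
      exact hJ _ (hφI ha) _ (hφI hb)
    · intro a b ha hb
      rw [map_add, ha, hb, add_zero]
  intro n
  rcases Nat.eq_zero_or_pos n with rfl | hn
  · rw [hx.zero, map_natCast, pow_zero, one_mul, p_eq_Xi hE hx]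
    congr 1
    funext m
    rw [G_lam_zero]
  · refine rowF hE hx Φ hΦ' φ hI ?_ n hn
    intro i j hi hj
    rw [hB i j hi hj, G_coeff_sub, G_cf_map]
    have h0 : (Finsupp.single 0 i + Finsupp.single 1 j : Fin 2 →₀ ℕ) 0 = i := by simp
    have h1 : (Finsupp.single 0 i + Finsupp.single 1 j : Fin 2 →₀ ℕ) 1 = j := by simp
    rw [h0, h1, if_pos (by omega)]
    rfl

end Pool.Agent.MUDL
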