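import Mathlib
import Pool.Agent.Lib.MP_eb0266_gt.Comb

set_option autoImplicit false

namespace Pool.Agent.MUDL

open MvPowerSeries

noncomputable section

variable {L : Type} [CommRing L] (F : FormalGroup L) (p : ℕ)

/-- `mulN` is the multiple in the monoid `F.Point σ` of Mathlib. -/
theorem mulN_eq {σ : Type} (y : F.Point σ) (n : ℕ) :
    mulN F y.val n = (n • y).val := by
  induction n with
  | zero => rw [zero_nsmul]; rfl
  | succ n ih =>
    rw [succ_nsmul, FormalGroup.add_apply, ← ih]
    rfl

/-- `[m n](y) = [m]([n](y))` -/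
theorem mulN_mulN {σ : Type} (y : MvPowerSeries σ L) (hy : PowerSeries.HasSubst y) (m n : ℕ) :
    mulN F y (m * n) = mulN F (mulN F y n) m := by
  let z : F.Point σ := ⟨y, hy⟩
  have h1 : mulN F y (m * n) = ((m * n) • z).val := mulN_eq F z (m * n)
  have h2 : mulN F y n = (n • z).val := mulN_eq F z n
  have h3 : mulN F (n • z).val m = (m • (n • z)).val := mulN_eq F (n • z) m
  rw [← h2, ← mul_nsmul'] at h3
  exact h1.trans h3.symm

theorem mudlC1_eq_two (d : Fin 2 →₀ ℕ) : d = Finsupp.single 0 (d 0) + Finsupp.single 1 (d 1) := by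
  ext s; fin_cases s <;> simp

theorem mudlC1_dvd0 : (X 0 : MvPowerSeries (Fin 2) L) ∣ F.toPowerSeries - X 1 := by
  classical
  rw [X_dvd_iff]
  intro m hm
  have h := F.zeroX_eq_X
  have hs : HasSubst ![(0 : PowerSeries L), PowerSeries.X] := HasSubst.zero_X
  have h2 := congrArg (coeff (Finsupp.single () (m 1))) h
  rw [FormalGroup.zeroX, coeff_subst hs, finsum_eq_single _ m] at h2
  · have e1 : (m.prod fun s e => (![(0 : PowerSeries L), PowerSeries.X] s) ^ e) =
        (PowerSeries.X : PowerSeries L) ^ (m 1) := by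
      rw [Finsupp.prod_fintype _ _ (by simp)]
      simp only [Fin.prod_univ_two, Matrix.cons_val_zero, Matrix.cons_val_one]
      rw [hm, pow_zero, one_mul]
    rw [e1] at h2
    have e2 : coeff (Finsupp.single () (m 1)) ((PowerSeries.X : PowerSeries L) ^ (m 1)) = 1 := by
      change PowerSeries.coeff (m 1) _ = 1
      rw [PowerSeries.coeff_X_pow_self]
    rw [e2, smul_eq_mul, mul_one] at h2
    rw [map_sub, h2]
    change PowerSeries.coeff (m 1) (PowerSeries.X : PowerSeries L) - _ = 0
    rw [PowerSeries.coeff_X, coeff_X]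
    by_cases h3 : m 1 = 1
    · rw [if_pos h3, if_pos, sub_self]
      rw [mudlC1_eq_two m, hm, h3]
      simp
    · rw [if_neg h3, if_neg, sub_self]
      intro h4
      apply h3
      rw [h4]; simp
  · intro d hd
    rw [Finsupp.prod_fintype _ _ (by simp)]
    simp only [Fin.prod_univ_two, Matrix.cons_val_zero, Matrix.cons_val_one]
    by_cases h0 : d 0 = 0
    · rw [h0, pow_zero, one_mul]
      have : coeff (Finsupp.single () (m 1)) ((PowerSeries.X : PowerSeries L) ^ (d 1)) = 0 := by
        change PowerSeries.coeff (m 1) _ = 0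
        rw [PowerSeries.coeff_X_pow, if_neg]
        intro h5
        apply hd
        rw [mudlC1_eq_two d, mudlC1_eq_two m, h0, hm, h5]
      erw [this]
      rw [smul_zero]
    · rw [zero_pow h0, zero_mul, map_zero, smul_zero]

theorem mudlC1_dvd1 : (X 1 : MvPowerSeries (Fin 2) L) ∣ F.toPowerSeries - X 0 := by
  classical
  rw [X_dvd_iff]
  intro m hm
  have h := F.Xzero_eq_X
  have hs : HasSubst ![(PowerSeries.X : PowerSeries L), 0] := HasSubst.X_zero
  have h2 := congrArg (coeff (Finsupp.single () (m 0))) h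
  rw [FormalGroup.Xzero, coeff_subst hs, finsum_eq_single _ m] at h2
  · have e1 : (m.prod fun s e => (![(PowerSeries.X : PowerSeries L), 0] s) ^ e) =
        (PowerSeries.X : PowerSeries L) ^ (m 0) := by
      rw [Finsupp.prod_fintype _ _ (by simp)]
      simp only [Fin.prod_univ_two, Matrix.cons_val_zero, Matrix.cons_val_one]
      rw [hm, pow_zero, mul_one]
    rw [e1] at h2
    have e2 : coeff (Finsupp.single () (m 0)) ((PowerSeries.X : PowerSeries L) ^ (m 0)) = 1 := by
      change PowerSeries.coeff (m 0) _ = 1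
      rw [PowerSeries.coeff_X_pow_self]
    rw [e2, smul_eq_mul, mul_one] at h2
    rw [map_sub, h2]
    change PowerSeries.coeff (m 0) (PowerSeries.X : PowerSeries L) - _ = 0
    rw [PowerSeries.coeff_X, coeff_X]
    by_cases h3 : m 0 = 1
    · rw [if_pos h3, if_pos, sub_self]
      rw [mudlC1_eq_two m, hm, h3]
      simp
    · rw [if_neg h3, if_neg, sub_self]
      intro h4
      apply h3
      rw [h4]; simp
  · intro d hd
    rw [Finsupp.prod_fintype _ _ (by simp)]
    simp only [Fin.prod_univ_two, Matrix.cons_val_zero, Matrix.cons_val_one]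
    by_cases h0 : d 1 = 0
    · rw [h0, pow_zero, mul_one]
      have : coeff (Finsupp.single () (m 0)) ((PowerSeries.X : PowerSeries L) ^ (d 0)) = 0 := by
        change PowerSeries.coeff (m 0) _ = 0
        rw [PowerSeries.coeff_X_pow, if_neg]
        intro h5
        apply hd
        rw [mudlC1_eq_two d, mudlC1_eq_two m, h0, hm, h5]
      erw [this]
      rw [smul_zero]
    · rw [zero_pow h0, mul_zero, map_zero, smul_zero]

/-- `F(a, b) = b` modulo `a`, `F(a, b) = a` modulo `b`. -/
theorem subst_sub_mem {σ : Type} (a b : MvPowerSeries σ L) (ha : PowerSeries.HasSubst a)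
    (hb : PowerSeries.HasSubst b) :
    F.toPowerSeries.subst ![a, b] - b ∈ Ideal.span {a} ∧
    F.toPowerSeries.subst ![a, b] - a ∈ Ideal.span {b} := by
  have hs : HasSubst ![a, b] := by
    refine hasSubst_of_constantCoeff_nilpotent ?_
    intro s
    fin_cases s
    · exact ha
    · exact hb
  constructor
  · obtain ⟨G, hG⟩ := mudlC1_dvd0 F
    have h1 : F.toPowerSeries = X 1 + X 0 * G := by rw [← hG]; ring
    rw [h1, subst_add hs, subst_mul hs, subst_X hs, subst_X hs]
    simp only [Matrix.cons_val_zero, Matrix.cons_val_one, add_sub_cancel_left]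
    exact Ideal.mul_mem_right _ _ (Ideal.subset_span rfl)
  · obtain ⟨G, hG⟩ := mudlC1_dvd1 F
    have h1 : F.toPowerSeries = X 0 + X 1 * G := by rw [← hG]; ring
    rw [h1, subst_add hs, subst_mul hs, subst_X hs, subst_X hs]
    simp only [Matrix.cons_val_zero, Matrix.cons_val_one, add_sub_cancel_left]
    exact Ideal.mul_mem_right _ _ (Ideal.subset_span rfl)

theorem mudlC1_hasSubst {σ : Type} (y : MvPowerSeries σ L) (hy : PowerSeries.HasSubst y) (n : ℕ) :
    PowerSeries.HasSubst (mulN F y n) := by
  let z : F.Point σ := ⟨y, hy⟩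
  have h1 : mulN F y n = (n • z).val := mulN_eq F z n
  rw [h1]
  exact (n • z).2

theorem mudlC1_mulN_mem {σ : Type} (y : MvPowerSeries σ L) (hy : PowerSeries.HasSubst y) (n : ℕ) :
    mulN F y n ∈ Ideal.span {y} := by
  induction n with
  | zero => exact Ideal.zero_mem _
  | succ n ih =>
    have h := (subst_sub_mem F (mulN F y n) y (mudlC1_hasSubst F y hy n) hy).2
    have := Ideal.add_mem _ h ih
    rwa [sub_add_cancel] at this

theorem mudlC1_evE_X : IsUnit (evE F p (PowerSeries.X : PowerSeries L)) := by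
  refine IsUnit.map (Ideal.Quotient.mk _) ?_
  rw [HahnSeries.ofPowerSeries_X]
  refine IsUnit.of_mul_eq_one (HahnSeries.single (-1 : ℤ) (1 : L)) ?_
  rw [HahnSeries.single_mul_single]
  simp

/-- `[i](e)` is a unit in `L((e)) / ([p](e))` if `i` is prime to `p`: with `i j = 1 + p k`,
`e = [i j](e)` modulo `[p](e)`, and `[i j](e) = [j]([i](e))` is a multiple of `[i](e)`. -/
theorem isUnit_mulE [Fact p.Prime] (i : ℕ) (hi : ¬ p ∣ i) : IsUnit (evE F p (mulE F i)) := by
  have hp : p.Prime := Fact.out
  have hX : PowerSeries.HasSubst (PowerSeries.X : PowerSeries L) := PowerSeries.HasSubst.X'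
  have hcop : Nat.Coprime i p := ((Nat.Prime.coprime_iff_not_dvd hp).mpr hi).symm
  obtain ⟨j, k, hjk⟩ : ∃ j k : ℕ, j * i = k * p + 1 := by
    obtain ⟨m, hm⟩ := Nat.exists_mul_mod_eq_one_of_coprime hcop hp.one_lt
    refine ⟨m, (i * m) / p, ?_⟩
    have := Nat.div_add_mod (i * m) p
    rw [hm.2] at this
    rw [mul_comm m i, mul_comm _ p]
    exact this.symm
  have h1 : mulE F (j * i) ∈ Ideal.span {mulE F i} := by
    have e := mulN_mulN F _ hX j i
    change mulE F (j * i) = mulN F (mulE F i) j at e
    rw [e]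
    exact mudlC1_mulN_mem F _ (mudlC1_hasSubst F _ hX i) j
  have h2 : mulE F (k * p) ∈ Ideal.span {mulE F p} := by
    have e := mulN_mulN F _ hX k p
    change mulE F (k * p) = mulN F (mulE F p) k at e
    rw [e]
    exact mudlC1_mulN_mem F _ (mudlC1_hasSubst F _ hX p) k
  have h3 : mulE F (j * i) - PowerSeries.X ∈ Ideal.span {mulE F p} := by
    have h4 := (subst_sub_mem F (mulN F (PowerSeries.X : PowerSeries L) (k * p)) PowerSeries.X
      (mudlC1_hasSubst F _ hX (k * p)) hX).1
    have h5 : mulE F (j * i) - PowerSeries.X ∈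
        Ideal.span {mulN F (PowerSeries.X : PowerSeries L) (k * p)} := by
      rw [hjk]; exact h4
    refine (Ideal.span_le.mpr ?_) h5
    rw [Set.singleton_subset_iff]
    exact h2
  have h6 : evE F p (mulE F (j * i)) = evE F p PowerSeries.X := by
    rw [← sub_eq_zero, ← map_sub]
    rw [Ideal.mem_span_singleton] at h3
    obtain ⟨c, hc⟩ := h3
    rw [hc, map_mul]
    have : evE F p (mulE F p) = 0 := by
      rw [evE, RingHom.comp_apply, Ideal.Quotient.eq_zero_iff_mem]
      exact Ideal.subset_span rfl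
    rw [this, zero_mul]
  have h7 : evE F p (mulE F i) ∣ evE F p PowerSeries.X := by
    rw [← h6]
    exact map_dvd _ (Ideal.mem_span_singleton.mp h1)
  exact isUnit_of_dvd_unit h7 (mudlC1_evE_X F p)

theorem isUnit_eul [Fact p.Prime] : IsUnit (eul F p) := by
  rw [eul]
  refine Finset.prod_induction _ IsUnit (fun _ _ h h' => h.mul h') isUnit_one ?_
  intro i hi
  rw [Finset.mem_Ico] at hi
  refine isUnit_mulE F p i ?_
  intro h
  have := Nat.le_of_dvd (by omega) h
  omega

end

end Pool.Agent.MUDL
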