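import Mathlib
import Pool.Agent.Lib.MP_eb0266_gt.Frob1

set_option autoImplicit false

namespace Pool.Agent.MUDL

open MvPowerSeries

noncomputable section

section C2

variable {K : Type} [CommRing K]

theorem C2_hs2 {σ : Type} {a b : MvPowerSeries σ K} (ha : PowerSeries.HasSubst a)
    (hb : PowerSeries.HasSubst b) : HasSubst ![a, b] :=
  hasSubst_of_constantCoeff_nilpotent (by intro s; fin_cases s <;> simpa)

theorem C2_sub2 {σ τ : Type} (F : MvPowerSeries (Fin 2) K) {a b : MvPowerSeries σ K}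
    (ha : PowerSeries.HasSubst a) (hb : PowerSeries.HasSubst b) {c : σ → MvPowerSeries τ K}
    (hc : HasSubst c) :
    (F.subst ![a, b]).subst c = F.subst ![a.subst c, b.subst c] := by
  rw [subst_comp_subst_apply (C2_hs2 ha hb) hc]
  congr! 1
  funext s
  fin_cases s <;> rfl

theorem C2_sub1 {σ τ : Type} (Φ : PowerSeries K) {a : MvPowerSeries σ K}
    (ha : PowerSeries.HasSubst a) {c : σ → MvPowerSeries τ K}
    (hc : HasSubst c) :
    (PowerSeries.subst a Φ).subst c = PowerSeries.subst (a.subst c) Φ := by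
  rw [PowerSeries.subst, PowerSeries.subst, subst_comp_subst_apply ha.const hc]

theorem C2_hs_subst {σ τ : Type} {a : MvPowerSeries σ K} (ha : PowerSeries.HasSubst a)
    {c : σ → MvPowerSeries τ K} (hc : HasSubst c) : PowerSeries.HasSubst (a.subst c) :=
  IsNilpotent_subst hc ha

theorem C2_hs_psubst {τ : Type} {Φ : PowerSeries K} (h0 : PowerSeries.HasSubst Φ)
    {c : MvPowerSeries τ K} (hc : PowerSeries.HasSubst c) :
    PowerSeries.HasSubst (PowerSeries.subst c Φ) := by
  rw [PowerSeries.subst]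
  exact IsNilpotent_subst hc.const h0

theorem C2_coeff_X0 (F : MvPowerSeries (Fin 2) K) (n : ℕ) :
    PowerSeries.coeff n (F.subst ![(PowerSeries.X : PowerSeries K), 0]) =
      F.coeff (Finsupp.single 0 n) := by
  have hs : HasSubst ![(PowerSeries.X : PowerSeries K), 0] :=
    C2_hs2 PowerSeries.HasSubst.X' PowerSeries.HasSubst.zero'
  rw [PowerSeries.coeff, coeff_subst hs, finsum_eq_single _ (Finsupp.single 0 n)]
  · simp
  · intro d hd
    by_cases hd₁ : d 1 = 0
    · have hd0 : d 0 ≠ n := by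
        intro h
        apply hd
        ext s
        fin_cases s
        · simp [h]
        · simp [hd₁]
      have h : (coeff (Finsupp.single () n)) ((PowerSeries.X : PowerSeries K) ^ d 0) = 0 := by
        change PowerSeries.coeff n _ = 0
        rw [PowerSeries.coeff_X_pow, if_neg (Ne.symm hd0)]
      simp [Finsupp.prod_fintype, hd₁, h]
    · simp [Finsupp.prod_fintype, hd₁]

theorem C2_coeff_0X (F : MvPowerSeries (Fin 2) K) (n : ℕ) :
    PowerSeries.coeff n (F.subst ![0, (PowerSeries.X : PowerSeries K)]) =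
      F.coeff (Finsupp.single 1 n) := by
  have hs : HasSubst ![0, (PowerSeries.X : PowerSeries K)] :=
    C2_hs2 PowerSeries.HasSubst.zero' PowerSeries.HasSubst.X'
  rw [PowerSeries.coeff, coeff_subst hs, finsum_eq_single _ (Finsupp.single 1 n)]
  · simp
  · intro d hd
    by_cases hd₁ : d 0 = 0
    · have hd0 : d 1 ≠ n := by
        intro h
        apply hd
        ext s
        fin_cases s
        · simp [hd₁]
        · simp [h]
      have h : (coeff (Finsupp.single () n)) ((PowerSeries.X : PowerSeries K) ^ d 1) = 0 := by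
        change PowerSeries.coeff n _ = 0
        rw [PowerSeries.coeff_X_pow, if_neg (Ne.symm hd0)]
      simp [Finsupp.prod_fintype, hd₁, h]
    · simp [Finsupp.prod_fintype, hd₁]

theorem C2_key {σ : Type} (G : MvPowerSeries (Fin 2) K) (Φ Ψ : PowerSeries K)
    (hG : G.constantCoeff = 0)
    (hΨ : PowerSeries.HasSubst Ψ) {a b : MvPowerSeries σ K}
    (ha : PowerSeries.HasSubst a) (hb : PowerSeries.HasSubst b) :
    (PowerSeries.subst (G.subst ![PowerSeries.subst (X 0 : MvPowerSeries (Fin 2) K) Ψ,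
      PowerSeries.subst (X 1 : MvPowerSeries (Fin 2) K) Ψ]) Φ).subst ![a, b] =
    PowerSeries.subst (G.subst ![PowerSeries.subst a Ψ, PowerSeries.subst b Ψ]) Φ := by
  have hab : HasSubst ![a, b] := C2_hs2 ha hb
  have h0 : PowerSeries.HasSubst (PowerSeries.subst (X 0 : MvPowerSeries (Fin 2) K) Ψ) :=
    C2_hs_psubst hΨ (PowerSeries.HasSubst.X 0)
  have h1 : PowerSeries.HasSubst (PowerSeries.subst (X 1 : MvPowerSeries (Fin 2) K) Ψ) :=
    C2_hs_psubst hΨ (PowerSeries.HasSubst.X 1)
  have hg : PowerSeries.HasSubst (G.subst ![PowerSeries.subst (X 0 : MvPowerSeries (Fin 2) K) Ψ,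
      PowerSeries.subst (X 1 : MvPowerSeries (Fin 2) K) Ψ]) :=
    IsNilpotent_subst (C2_hs2 h0 h1) (hG ▸ IsNilpotent.zero)
  rw [C2_sub1 Φ hg hab, C2_sub2 G h0 h1 hab, C2_sub1 Ψ (PowerSeries.HasSubst.X 0) hab,
    C2_sub1 Ψ (PowerSeries.HasSubst.X 1) hab, subst_X hab, subst_X hab]
  rfl

/-- A series `Φ = t + ...` transports a commutative formal group law `G` to a unique commutative formal
group law `H` with `H(Φ(X), Φ(Y)) = Φ(G(X, Y))`: `H = Φ(G(Φ⁻¹(X), Φ⁻¹(Y)))` (`PowerSeries.substInv`). -/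
theorem transport {K : Type} [CommRing K] (G : FormalGroup K) (hG : G.IsComm) (Φ : PowerSeries K)
    (h0 : PowerSeries.coeff 0 Φ = 0) (h1 : PowerSeries.coeff 1 Φ = 1) :
    ∃ H : FormalGroup K, H.IsComm ∧ ∀ H' : FormalGroup K,
      H'.toPowerSeries.subst ![PowerSeries.subst (X 0 : MvPowerSeries (Fin 2) K) Φ,
        PowerSeries.subst (X 1 : MvPowerSeries (Fin 2) K) Φ] =
        PowerSeries.subst G.toPowerSeries Φ ↔ H' = H := by
  have h0' : Φ.constantCoeff = 0 := by simpa using h0
  have : Invertible (PowerSeries.coeff 1 Φ) := h1 ▸ invertibleOne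
  have hΦ : PowerSeries.HasSubst Φ := PowerSeries.HasSubst.of_constantCoeff_zero' h0'
  obtain ⟨Ψ, hΨ, hΦΨ, hΨΦ, hΨc⟩ : ∃ Ψ : PowerSeries K, PowerSeries.HasSubst Ψ ∧
      PowerSeries.subst Ψ Φ = PowerSeries.X ∧ PowerSeries.subst Φ Ψ = PowerSeries.X ∧
      Ψ.constantCoeff = 0 :=
    ⟨Φ.substInv, PowerSeries.HasSubst.substInv Φ, Φ.subst_substInv_right h0',
      Φ.subst_substInv_left h0', Φ.constantCoeff_substInv⟩
  -- composites
  have c1 : ∀ {σ : Type} (a : MvPowerSeries σ K), PowerSeries.HasSubst a →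
      PowerSeries.subst (PowerSeries.subst a Ψ) Φ = a := by
    intro σ a ha
    rw [← PowerSeries.subst_comp_subst_apply hΨ ha, hΦΨ, PowerSeries.subst_X ha]
  have c2 : ∀ {σ : Type} (a : MvPowerSeries σ K), PowerSeries.HasSubst a →
      PowerSeries.subst (PowerSeries.subst a Φ) Ψ = a := by
    intro σ a ha
    rw [← PowerSeries.subst_comp_subst_apply hΦ ha, hΨΦ, PowerSeries.subst_X ha]
  set Hs : MvPowerSeries (Fin 2) K :=
    PowerSeries.subst (G.toPowerSeries.subst ![PowerSeries.subst (X 0 : MvPowerSeries (Fin 2) K) Ψ,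
      PowerSeries.subst (X 1 : MvPowerSeries (Fin 2) K) Ψ]) Φ with hHs
  have key : ∀ {σ : Type} (a b : MvPowerSeries σ K), PowerSeries.HasSubst a →
      PowerSeries.HasSubst b → Hs.subst ![a, b] =
      PowerSeries.subst (G.toPowerSeries.subst ![PowerSeries.subst a Ψ, PowerSeries.subst b Ψ]) Φ := by
    intro σ a b ha hb
    exact C2_key G.toPowerSeries Φ Ψ G.zero_constantCoeff hΨ ha hb
  have hΨs : ∀ {σ : Type} (a : MvPowerSeries σ K), PowerSeries.HasSubst a →
      PowerSeries.HasSubst (PowerSeries.subst a Ψ) := fun a ha => C2_hs_psubst hΨ ha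
  have hGs : ∀ {σ : Type} (a b : MvPowerSeries σ K), PowerSeries.HasSubst a →
      PowerSeries.HasSubst b → PowerSeries.HasSubst (G.toPowerSeries.subst ![a, b]) := by
    intro σ a b ha hb
    exact IsNilpotent_subst (C2_hs2 ha hb) (G.zero_constantCoeff ▸ IsNilpotent.zero)
  have hHss : ∀ {σ : Type} (a b : MvPowerSeries σ K), PowerSeries.HasSubst a →
      PowerSeries.HasSubst b → PowerSeries.HasSubst (Hs.subst ![a, b]) := by
    intro σ a b ha hb
    rw [key a b ha hb]
    exact C2_hs_psubst hΦ (hGs _ _ (hΨs a ha) (hΨs b hb))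
  have hX : ∀ {n : ℕ} (i : Fin n), PowerSeries.HasSubst (X i : MvPowerSeries (Fin n) K) :=
    fun i => PowerSeries.HasSubst.X i
  let H : FormalGroup K :=
    { toPowerSeries := Hs
      zero_constantCoeff := by
        apply PowerSeries.constantCoeff_subst_eq_zero _ _ h0'
        apply constantCoeff_subst_eq_zero (C2_hs2 (hΨs _ (hX 0)) (hΨs _ (hX 1))) _
          G.zero_constantCoeff
        intro i
        fin_cases i
        · exact PowerSeries.constantCoeff_subst_eq_zero (by simp) _ hΨc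
        · exact PowerSeries.constantCoeff_subst_eq_zero (by simp) _ hΨc
      lin_coeff_X := by
        rw [← C2_coeff_X0, key _ _ PowerSeries.HasSubst.X' PowerSeries.HasSubst.zero']
        have : PowerSeries.subst (0 : PowerSeries K) Ψ = 0 :=
          PowerSeries.subst_zero_of_constantCoeff_zero hΨc
        rw [this, FormalGroup.add_zero G (hΨs _ PowerSeries.HasSubst.X'),
          c1 _ PowerSeries.HasSubst.X', PowerSeries.coeff_one_X]
      lin_coeff_Y := by
        rw [← C2_coeff_0X, key _ _ PowerSeries.HasSubst.zero' PowerSeries.HasSubst.X']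
        have : PowerSeries.subst (0 : PowerSeries K) Ψ = 0 :=
          PowerSeries.subst_zero_of_constantCoeff_zero hΨc
        rw [this, FormalGroup.zero_add G (hΨs _ PowerSeries.HasSubst.X'),
          c1 _ PowerSeries.HasSubst.X', PowerSeries.coeff_one_X]
      assoc := by
        rw [key _ _ (hHss _ _ (hX 0) (hX 1)) (hX 2), key _ _ (hX 0) (hHss _ _ (hX 1) (hX 2)),
          key _ _ (hX 0) (hX 1), key _ _ (hX 1) (hX 2), c2 _ (hGs _ _ (hΨs _ (hX 0)) (hΨs _ (hX 1))),
          c2 _ (hGs _ _ (hΨs _ (hX 1)) (hΨs _ (hX 2))),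
          G.assoc' (hΨs _ (hX 0)) (hΨs _ (hX 1)) (hΨs _ (hX 2))] }
  refine ⟨H, ⟨?_⟩, ?_⟩
  · change Hs = Hs.subst ![X 1, X 0]
    rw [key _ _ (hX 1) (hX 0), G.comm' (hΨs _ (hX 1)) (hΨs _ (hX 0))]
  · intro H'
    constructor
    · intro h
      apply FormalGroup.ext
      change H'.toPowerSeries = Hs
      have hc : HasSubst ![PowerSeries.subst (X 0 : MvPowerSeries (Fin 2) K) Ψ,
        PowerSeries.subst (X 1 : MvPowerSeries (Fin 2) K) Ψ] := C2_hs2 (hΨs _ (hX 0)) (hΨs _ (hX 1))
      have h2 := congrArg (fun z : MvPowerSeries (Fin 2) K =>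
        z.subst ![PowerSeries.subst (X 0 : MvPowerSeries (Fin 2) K) Ψ,
        PowerSeries.subst (X 1 : MvPowerSeries (Fin 2) K) Ψ]) h
      rw [C2_sub2 H'.toPowerSeries (C2_hs_psubst hΦ (hX 0)) (C2_hs_psubst hΦ (hX 1)) hc,
        C2_sub1 Φ (hX 0) hc, C2_sub1 Φ (hX 1) hc, subst_X hc, subst_X hc] at h2
      rw [C2_sub1 Φ (show PowerSeries.HasSubst G.toPowerSeries from
        (PowerSeries.HasSubst.of_constantCoeff_zero G.zero_constantCoeff)) hc] at h2
      rw [hHs, ← h2]
      change H'.toPowerSeries = H'.toPowerSeries.subst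
        ![PowerSeries.subst (PowerSeries.subst (X 0 : MvPowerSeries (Fin 2) K) Ψ) Φ,
          PowerSeries.subst (PowerSeries.subst (X 1 : MvPowerSeries (Fin 2) K) Ψ) Φ]
      rw [c1 _ (hX 0), c1 _ (hX 1)]
      have : (![X 0, X 1] : Fin 2 → MvPowerSeries (Fin 2) K) = X := by
        funext s; fin_cases s <;> rfl
      rw [this, subst_self]
      rfl
    · rintro rfl
      change Hs.subst ![PowerSeries.subst (X 0 : MvPowerSeries (Fin 2) K) Φ,
        PowerSeries.subst (X 1 : MvPowerSeries (Fin 2) K) Φ] = _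
      rw [key _ _ (C2_hs_psubst hΦ (hX 0)) (C2_hs_psubst hΦ (hX 1)), c2 _ (hX 0), c2 _ (hX 1)]
      have : (![X 0, X 1] : Fin 2 → MvPowerSeries (Fin 2) K) = X := by
        funext s; fin_cases s <;> rfl
      rw [this, subst_self]
      rfl

end C2

section C2b

variable {L : Type} [CommRing L] (F : FormalGroup L) (p : ℕ)

-- ROW C1: delete this placeholder when merging


theorem C2_fib_X : fib F p (X 0) = PowerSeries.X := by
  classical
  apply PowerSeries.ext
  intro k
  rw [fib, PowerSeries.coeff_mk, PowerSeries.coeff_X]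
  split_ifs with hk
  · subst hk
    have : (PowerSeries.mk fun j => (coeff (Finsupp.single (0 : Fin 2) 1 + Finsupp.single 1 j))
        (X 0 : MvPowerSeries (Fin 2) L)) = 1 := by
      apply PowerSeries.ext
      intro j
      rw [PowerSeries.coeff_mk, coeff_X, PowerSeries.coeff_one]
      congr 1
      apply propext
      constructor
      · intro h
        have := DFunLike.congr_fun h 1
        simpa using this
      · rintro rfl
        simp
    rw [this, map_one]
  · have : (PowerSeries.mk fun j => (coeff (Finsupp.single (0 : Fin 2) k + Finsupp.single 1 j))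
        (X 0 : MvPowerSeries (Fin 2) L)) = 0 := by
      apply PowerSeries.ext
      intro j
      rw [PowerSeries.coeff_mk, coeff_X, if_neg, map_zero]
      intro h
      have := DFunLike.congr_fun h 0
      simp at this
      exact hk this
    rw [this, map_zero]

theorem C2_trans_zero : trans F 0 = X 0 := by
  rw [trans, mulN]
  exact FormalGroup.add_zero F (PowerSeries.HasSubst.X 0)

theorem C2_hs_mulN {σ : Type} {y : MvPowerSeries σ L} (hy : PowerSeries.HasSubst y) (n : ℕ) :
    PowerSeries.HasSubst (mulN F y n) := by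
  induction n with
  | zero => exact PowerSeries.HasSubst.zero
  | succ n ih =>
    exact IsNilpotent_subst (C2_hs2 ih hy) (F.zero_constantCoeff ▸ IsNilpotent.zero)

theorem C2_mulN_subst {σ τ : Type} {y : MvPowerSeries σ L} (hy : PowerSeries.HasSubst y) (n : ℕ)
    {c : σ → MvPowerSeries τ L} (hc : HasSubst c) :
    (mulN F y n).subst c = mulN F (y.subst c) n := by
  induction n with
  | zero =>
    change (0 : MvPowerSeries σ L).subst c = 0
    rw [← coe_substAlgHom hc, map_zero]
  | succ n ih =>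
    change (F.toPowerSeries.subst ![mulN F y n, y]).subst c = _
    rw [C2_sub2 F.toPowerSeries (C2_hs_mulN F hy n) hy hc, ih]
    rfl

theorem C2_coeff_trans (i : ℕ) :
    PowerSeries.coeff 0 (fib F p (trans F i)) = evE F p (mulE F i) := by
  rw [fib, PowerSeries.coeff_mk]
  congr 1
  apply PowerSeries.ext
  intro j
  rw [PowerSeries.coeff_mk, Finsupp.single_zero, zero_add, ← C2_coeff_0X]
  congr 1
  have hc : HasSubst ![0, (PowerSeries.X : PowerSeries L)] :=
    C2_hs2 PowerSeries.HasSubst.zero' PowerSeries.HasSubst.X'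
  have h1 : PowerSeries.HasSubst (X 1 : MvPowerSeries (Fin 2) L) := PowerSeries.HasSubst.X 1
  rw [trans, C2_sub2 F.toPowerSeries (PowerSeries.HasSubst.X 0) (C2_hs_mulN F h1 i) hc,
    C2_mulN_subst F h1 i hc, subst_X hc, subst_X hc]
  exact FormalGroup.zero_add F (C2_hs_mulN F PowerSeries.HasSubst.X' i)

theorem C2_prod [hp : Fact p.Prime] : ∏ i ∈ Finset.range p, fib F p (trans F i) =
    PowerSeries.X * ∏ i ∈ Finset.Ico 1 p, fib F p (trans F i) := by
  rw [Finset.range_eq_Ico, Finset.prod_eq_prod_Ico_succ_bot hp.out.pos, C2_trans_zero, C2_fib_X]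

theorem Phi_zero [Fact p.Prime] : PowerSeries.coeff 0 (Phi F p) = 0 := by
  rw [Phi, C2_prod]
  simp

/-- the coefficient of `t` in `∏ (t +_F [i](e))` is `∏_{0 < i < p} [i](e)`, since the factor `i = 0` is `t`. -/
theorem Phi_one [Fact p.Prime] : PowerSeries.coeff 1 (Phi F p) = 1 := by
  rw [Phi, C2_prod, PowerSeries.coeff_C_mul,
    show (1 : ℕ) = 0 + 1 from rfl, PowerSeries.coeff_succ_X_mul,
    PowerSeries.coeff_zero_eq_constantCoeff_apply, map_prod]
  have : ∏ i ∈ Finset.Ico (0 + 1) p, PowerSeries.constantCoeff (fib F p (trans F i)) = eul F p := by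
    rw [eul]
    apply Finset.prod_congr rfl
    intro i _
    rw [← PowerSeries.coeff_zero_eq_constantCoeff_apply, C2_coeff_trans]
  rw [this, Ring.inverse_mul_cancel _ (isUnit_eul F p)]

theorem C2_map_isComm {K : Type} [CommRing K] (f : L →+* K) (hF : F.IsComm) :
    (F.map f).IsComm := by
  constructor
  change F.toPowerSeries.map f = (F.toPowerSeries.map f).subst ![X 1, X 0]
  have h := congrArg (fun z : MvPowerSeries (Fin 2) L => z.map f) hF.comm
  change F.toPowerSeries.map f = (F.toPowerSeries.subst ![X 1, X 0]).map f at h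
  have hs : HasSubst (![X 1, X 0] : Fin 2 → MvPowerSeries (Fin 2) L) := HasSubst.X_X
  rw [map_subst hs] at h
  have h2 : (fun i => ((![X 1, X 0] : Fin 2 → MvPowerSeries (Fin 2) L) i).map f) =
      (![X 1, X 0] : Fin 2 → MvPowerSeries (Fin 2) K) := by
    funext i
    fin_cases i <;> simp
  rw [h2] at h
  exact h

theorem exists_frob [Fact p.Prime] (hF : IsUniversal F) :
    ∃ φ : L →+* Tate F p, ∀ ψ : L →+* Tate F p, IsFrob F p ψ ↔ ψ = φ := by
  obtain ⟨H, hH, hH'⟩ := transport (F.map (cst F p)) (C2_map_isComm F _ hF.1) (Phi F p)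
    (Phi_zero F p) (Phi_one F p)
  obtain ⟨φ, hφ, hu⟩ := hF.2 (Tate F p) H hH
  refine ⟨φ, fun ψ => ?_⟩
  have h1 : IsFrob F p ψ ↔ F.map ψ = H := hH' (F.map ψ)
  rw [h1]
  constructor
  · intro h
    exact hu ψ h
  · rintro rfl
    exact hφ

end C2b

end

end Pool.Agent.MUDL
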