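import Mathlib
import Pool.Agent.Lib.MP_eb0266_gt.Sub

/-!
Row D1. Lazard's comparison lemma modulo `p`.
-/

set_option autoImplicit false

namespace Pool.Agent.MUDL

open MvPowerSeries

theorem D1_congr {p : ℕ} {M : Type} [AddCommGroup M] (hM : ∀ m : M, p • m = 0) {a b : ℕ}
    (h : a ≡ b [MOD p]) (m : M) : a • m = b • m := by
  let _ := AddCommGroup.zmodModule hM
  rw [← Nat.cast_smul_eq_nsmul (ZMod p) a m, ← Nat.cast_smul_eq_nsmul (ZMod p) b m,
    (ZMod.natCast_eq_natCast_iff a b p).2 h]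

theorem D1_cancel {p : ℕ} [Fact p.Prime] {M : Type} [AddCommGroup M] (hM : ∀ m : M, p • m = 0)
    {c : ℕ} (hc : ¬ p ∣ c) {m m' : M} (h : c • m = c • m') : m = m' := by
  let _ := AddCommGroup.zmodModule hM
  have hc0 : (c : ZMod p) ≠ 0 := fun h0 => hc ((ZMod.natCast_eq_zero_iff c p).1 h0)
  rw [← Nat.cast_smul_eq_nsmul (ZMod p) c m, ← Nat.cast_smul_eq_nsmul (ZMod p) c m'] at h
  rw [← inv_smul_smul₀ hc0 m, h, inv_smul_smul₀ hc0]

/-- the relation `i γ_i = binom(N - 1, i - 1) γ_1` -/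
theorem D1_rel {M : Type} [AddCommGroup M] (N : ℕ) (γ : ℕ → M)
    (hcoc : ∀ i j k, 1 ≤ i → 1 ≤ j → 1 ≤ k → i + j + k = N →
      (i + j).choose i • γ (i + j) = (j + k).choose j • γ i) (i : ℕ) (h1 : 1 ≤ i) (hi : i < N) :
    i • γ i = (N - 1).choose (i - 1) • γ 1 := by
  rcases Nat.eq_or_lt_of_le h1 with h | h
  · subst h
    simp
  · have := hcoc 1 (i - 1) (N - i) le_rfl (by omega) (by omega) (by omega)
    rwa [show 1 + (i - 1) = i by omega, show i - 1 + (N - i) = N - 1 by omega,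
      Nat.choose_one_right] at this

theorem D1_cpN (p i N : ℕ) (hi : i ≤ N) :
    cpN p i (N - i) = open Classical in N.choose i / (if IsPP p N then p else 1) := by
  unfold cpN
  rw [show i + (N - i) = N by omega]

theorem D1_cpN_pp (p i N : ℕ) (hi : i ≤ N) (h : IsPP p N) :
    cpN p i (N - i) = N.choose i / p := by
  rw [D1_cpN p i N hi, if_pos h]

theorem D1_cpN_npp (p i N : ℕ) (hi : i ≤ N) (h : ¬ IsPP p N) :
    cpN p i (N - i) = N.choose i := by
  rw [D1_cpN p i N hi, if_neg h, Nat.div_one]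

theorem D1_isPP_mul (p a : ℕ) [Fact p.Prime] : IsPP p (p * a) ↔ IsPP p a ∨ p * a = 1 := by
  have hp := (Fact.out : p.Prime)
  constructor
  · rintro ⟨k, hk⟩
    rcases k with _ | k
    · right
      simpa using hk
    · left
      refine ⟨k, ?_⟩
      rw [pow_succ, mul_comm] at hk
      exact Nat.eq_of_mul_eq_mul_right hp.pos hk
  · rintro (⟨k, hk⟩ | h)
    · exact ⟨k + 1, by rw [hk, pow_succ, mul_comm]⟩
    · exact ⟨0, by rw [h, pow_zero]⟩

theorem D1_isPP_mul' (p a : ℕ) [Fact p.Prime] (ha : 1 ≤ a) : IsPP p (p * a) ↔ IsPP p a := by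
  have hp := (Fact.out : p.Prime)
  rw [D1_isPP_mul]
  constructor
  · rintro (h | h)
    · exact h
    · exfalso
      have := hp.two_le
      nlinarith
  · exact Or.inl

theorem D1_id (N i : ℕ) (h1 : 1 ≤ i) (hi : i ≤ N) :
    i * N.choose i = N * (N - 1).choose (i - 1) := by
  obtain ⟨n, rfl⟩ : ∃ n, N = n + 1 := ⟨N - 1, by omega⟩
  obtain ⟨j, rfl⟩ : ∃ j, i = j + 1 := ⟨i - 1, by omega⟩
  have := Nat.add_one_mul_choose_eq n j
  simp only [Nat.add_sub_cancel]
  rw [this, mul_comm]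

/-- `p` does not divide `i`: `cpN p i (p a - i)` is divisible by `p`, `a ≥ 2` -/
theorem D1_cp_notdvd (p a i : ℕ) [Fact p.Prime] (ha : 2 ≤ a) (hi1 : 1 ≤ i) (hi : i < p * a)
    (hpi : ¬ p ∣ i) : cpN p i (p * a - i) ≡ 0 [MOD p] := by
  have hp := (Fact.out : p.Prime)
  rw [Nat.modEq_zero_iff_dvd]
  have hid := D1_id (p * a) i hi1 hi.le
  have hcop : Nat.Coprime p i := (hp.coprime_iff_not_dvd).2 hpi
  by_cases h : IsPP p (p * a)
  · rw [D1_cpN_pp p i _ hi.le h]
    have h' := (D1_isPP_mul' p a (by omega)).1 h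
    obtain ⟨k, hk⟩ := h'
    have hk0 : k ≠ 0 := by
      rintro rfl
      simp at hk
      omega
    have hpa : p ∣ a := by
      rw [hk]
      exact dvd_pow_self p hk0
    obtain ⟨b, rfl⟩ := hpa
    have h2 : p * p ∣ i * (p * (p * b)).choose i := by
      rw [hid]
      exact ⟨b * (p * (p * b) - 1).choose (i - 1), by ring⟩
    have h3 : p * p ∣ (p * (p * b)).choose i :=
      Nat.Coprime.dvd_of_dvd_mul_left (Nat.Coprime.mul_left hcop hcop) h2
    obtain ⟨c, hc⟩ := h3
    rw [hc, mul_assoc, Nat.mul_div_cancel_left _ hp.pos]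
    exact ⟨c, rfl⟩
  · rw [D1_cpN_npp p i _ hi.le h]
    have h2 : p ∣ i * (p * a).choose i := by
      rw [hid]
      exact ⟨a * (p * a - 1).choose (i - 1), by ring⟩
    exact Nat.Coprime.dvd_of_dvd_mul_left hcop h2

theorem D1_lucas (p a b : ℕ) [Fact p.Prime] : (p * a).choose (p * b) ≡ a.choose b [MOD p] := by
  have hp := (Fact.out : p.Prime)
  have := Choose.choose_modEq_choose_mod_mul_choose_div_nat (n := p * a) (k := p * b) (p := p)
  rwa [Nat.mul_mod_right, Nat.mul_mod_right, Nat.choose_self, one_mul,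
    Nat.mul_div_cancel_left _ hp.pos, Nat.mul_div_cancel_left _ hp.pos] at this

/-- `binom(p a, p b) ≡ binom(a, b)` modulo `p²` if `p ∣ a` -/
theorem D1_sq (p a b : ℕ) [Fact p.Prime] (ha : p ∣ a) :
    (p * a).choose (p * b) ≡ a.choose b [MOD p * p] := by
  have hp := (Fact.out : p.Prime)
  obtain ⟨c, rfl⟩ := ha
  have h1 : ((p : ℕ) : Polynomial ℤ) ∣ (1 + Polynomial.X) ^ p - (1 + Polynomial.X ^ p) := by
    obtain ⟨r, hr⟩ := exists_add_pow_prime_eq hp (1 : Polynomial ℤ) Polynomial.X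
    refine ⟨Polynomial.X * r, ?_⟩
    rw [hr]
    ring
  have h2 := dvd_sub_pow_of_dvd_sub h1 1
  have h3 : ((p : Polynomial ℤ) ^ (1 + 1)) ∣ ((1 + Polynomial.X) ^ (p * (p * c)) : Polynomial ℤ) -
      (Polynomial.expand ℤ p ((1 + Polynomial.X) ^ (p * c))) := by
    refine h2.trans ?_
    have := sub_dvd_pow_sub_pow (((1 + Polynomial.X) ^ p) ^ p ^ 1 : Polynomial ℤ)
      ((1 + Polynomial.X ^ p) ^ p ^ 1) c
    convert this using 2
    · rw [← pow_mul, ← pow_mul, pow_one]
    · rw [← pow_mul, pow_one]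
      simp
  have h4 : ((p : Polynomial ℤ) ^ (1 + 1)) = Polynomial.C ((p * p : ℕ) : ℤ) := by
    simp [pow_succ]
  rw [h4, Polynomial.C_dvd_iff_dvd_coeff] at h3
  have h5 := h3 (p * b)
  rw [Polynomial.coeff_sub, Polynomial.coeff_one_add_X_pow, mul_comm p b,
    Polynomial.coeff_expand_mul hp.pos, Polynomial.coeff_one_add_X_pow] at h5
  rw [mul_comm p b]
  exact ((Nat.modEq_iff_dvd).2 (by exact_mod_cast h5)).symm

/-- `cpN p (p i) (p a - p i) ≡ cpN p i (a - i)` modulo `p` -/
theorem D1_cp_mul (p a i : ℕ) [Fact p.Prime] (ha : 2 ≤ a) (hi1 : 1 ≤ i) (hi : i < a) :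
    cpN p (p * i) (p * a - p * i) ≡ cpN p i (a - i) [MOD p] := by
  have hp := (Fact.out : p.Prime)
  have hle : p * i ≤ p * a := Nat.mul_le_mul_left p hi.le
  by_cases h : IsPP p a
  · rw [D1_cpN_pp p (p * i) _ hle ((D1_isPP_mul' p a (by omega)).2 h), D1_cpN_pp p i _ hi.le h]
    obtain ⟨k, hk⟩ := h
    have hk0 : k ≠ 0 := by
      rintro rfl
      simp at hk
      omega
    have hpa : p ∣ a := by
      rw [hk]
      exact dvd_pow_self p hk0
    have hsq := D1_sq p a i hpa
    have hd1 : p ∣ a.choose i := by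
      rw [hk]
      exact hp.dvd_choose_pow (by omega) (by omega)
    have hd2 : p ∣ (p * a).choose (p * i) :=
      ((D1_lucas p a i).dvd_iff dvd_rfl).2 hd1
    obtain ⟨u, hu⟩ := hd1
    obtain ⟨v, hv⟩ := hd2
    rw [hu, hv] at hsq ⊢
    rw [Nat.mul_div_cancel_left _ hp.pos, Nat.mul_div_cancel_left _ hp.pos]
    exact Nat.ModEq.mul_left_cancel' hp.ne_zero hsq
  · rw [D1_cpN_npp p (p * i) _ hle (fun h' => h ((D1_isPP_mul' p a (by omega)).1 h')),
      D1_cpN_npp p i _ hi.le h]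
    exact D1_lucas p a i

theorem D1_choose_one (p a : ℕ) [Fact p.Prime] (ha : 1 ≤ a) :
    (p * a - 1).choose (p - 1) ≡ 1 [MOD p] := by
  have hp := (Fact.out : p.Prime)
  have h := Choose.choose_modEq_choose_mod_mul_choose_div_nat (n := p * a - 1) (k := p - 1) (p := p)
  obtain ⟨b, rfl⟩ : ∃ b, a = b + 1 := ⟨a - 1, by omega⟩
  have h2 := hp.two_le
  have e : p * (b + 1) - 1 = (p - 1) + p * b := by
    rw [mul_add, mul_one]
    omega
  rw [e] at h ⊢
  have e1 : ((p - 1) + p * b) % p = p - 1 := by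
    rw [Nat.add_mul_mod_self_left, Nat.mod_eq_of_lt (by omega)]
  have e2 : (p - 1) % p = p - 1 := Nat.mod_eq_of_lt (by omega)
  have e3 : (p - 1) / p = 0 := Nat.div_eq_of_lt (by omega)
  rwa [e1, e2, e3, Nat.choose_self, Nat.choose_zero_right] at h

theorem lazard_lemma (p : ℕ) [Fact p.Prime] {M : Type} [AddCommGroup M] (hM : ∀ m : M, p • m = 0)
    (S : AddSubgroup M) (N : ℕ) (hN : 2 ≤ N) (γ : ℕ → M) (hγS : ∀ i, 1 ≤ i → i < N → γ i ∈ S)
    (hsym : ∀ i, 1 ≤ i → i < N → γ (N - i) = γ i)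
    (hcoc : ∀ i j k, 1 ≤ i → 1 ≤ j → 1 ≤ k → i + j + k = N →
      (i + j).choose i • γ (i + j) = (j + k).choose j • γ i) :
    ∃ y ∈ S, ∀ i, 1 ≤ i → i < N → γ i = cpN p i (N - i) • y := by
  have hp := (Fact.out : p.Prime)
  have h2p := hp.two_le
  induction N using Nat.strong_induction_on generalizing γ with
  | _ N ih =>
  have hrel := D1_rel N γ hcoc
  have hγ1 : γ 1 ∈ S := hγS 1 le_rfl (by omega)
  by_cases hpN : p ∣ N
  · obtain ⟨a, rfl⟩ := hpN
    have ha1 : 1 ≤ a := by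
      rcases Nat.eq_zero_or_pos a with h | h
      · subst h; simp at hN
      · exact h
    rcases Nat.eq_or_lt_of_le ha1 with h | ha2
    · -- `N = p`
      subst h
      rw [mul_one] at *
      refine ⟨γ 1, hγ1, fun i h1 hi => ?_⟩
      have hpi : ¬ p ∣ i := Nat.not_dvd_of_pos_of_lt h1 hi
      refine D1_cancel hM hpi ?_
      rw [hrel i h1 hi, D1_cpN_pp p i p hi.le ⟨1, (pow_one p).symm⟩, smul_smul]
      have hid := D1_id p i h1 hi.le
      obtain ⟨c, hc⟩ := hp.dvd_choose_self (by omega) hi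
      rw [hc] at hid ⊢
      rw [Nat.mul_div_cancel_left _ hp.pos]
      congr 1
      have : p * (i * c) = p * (p - 1).choose (i - 1) := by
        rw [← hid]
        ring
      exact (Nat.eq_of_mul_eq_mul_left hp.pos this).symm
    · -- `N = p a`, `a ≥ 2`
      have hpN' : p < p * a := by nlinarith
      have hγ1z : γ 1 = 0 := by
        have h := hrel p (by omega) hpN'
        rw [hM, D1_congr hM (D1_choose_one p a ha1) (γ 1), one_smul] at h
        exact h.symm
      have hγz : ∀ i, 1 ≤ i → i < p * a → ¬ p ∣ i → γ i = 0 := by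
        intro i h1 hi hpi
        refine D1_cancel hM hpi ?_
        rw [hrel i h1 hi, hγ1z, smul_zero, smul_zero]
      have hlt : a < p * a := by nlinarith
      obtain ⟨y, hyS, hy⟩ := ih a hlt ha2 (fun i => γ (p * i))
        (fun i h1 hi => hγS (p * i) (by nlinarith) (Nat.mul_lt_mul_of_pos_left hi hp.pos))
        (fun i h1 hi => by
          have := hsym (p * i) (by nlinarith) (Nat.mul_lt_mul_of_pos_left hi hp.pos)
          rwa [← Nat.mul_sub] at this)
        (fun i j k hi hj hk hijk => by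
          have h := hcoc (p * i) (p * j) (p * k) (by nlinarith) (by nlinarith) (by nlinarith)
            (by rw [← hijk]; ring)
          rw [← mul_add, ← mul_add] at h
          rwa [D1_congr hM (D1_lucas p (i + j) i), D1_congr hM (D1_lucas p (j + k) j)] at h)
      refine ⟨y, hyS, fun i h1 hi => ?_⟩
      by_cases hpi : p ∣ i
      · obtain ⟨b, rfl⟩ := hpi
        have hb1 : 1 ≤ b := by
          rcases Nat.eq_zero_or_pos b with h | h
          · subst h; simp at h1
          · exact h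
        have hb : b < a := Nat.lt_of_mul_lt_mul_left hi
        rw [D1_congr hM (D1_cp_mul p a b ha2 hb1 hb)]
        exact hy b hb1 hb
      · rw [D1_congr hM (D1_cp_notdvd p a i ha2 h1 hi hpi), zero_smul]
        exact hγz i h1 hi hpi
  · -- `p ∤ N`
    have hnpp : ¬ IsPP p N := by
      rintro ⟨k, hk⟩
      rcases k with _ | k
      · simp at hk
        omega
      · exact hpN (by rw [hk]; exact dvd_pow_self p (by omega))
    have hcop : Nat.Coprime N p := ((hp.coprime_iff_not_dvd).2 hpN).symm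
    obtain ⟨c, -, hc⟩ := Nat.exists_mul_mod_eq_one_of_coprime hcop h2p
    have hc1 : N * c ≡ 1 [MOD p] := by
      unfold Nat.ModEq
      rw [hc, Nat.mod_eq_of_lt hp.one_lt]
    have key : ∀ i, 1 ≤ i → i < N → ¬ p ∣ i → γ i = N.choose i • (c • γ 1) := by
      intro i h1 hi hpi
      refine D1_cancel hM hpi (D1_cancel hM hpN ?_)
      rw [hrel i h1 hi, smul_smul, smul_smul, smul_smul, smul_smul]
      have hid := D1_id N i h1 hi.le
      rw [← hid]
      refine D1_congr hM ?_ (γ 1)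
      have h3 : i * N.choose i * (N * c) ≡ i * N.choose i * 1 [MOD p] := hc1.mul_left _
      rw [mul_one] at h3
      refine h3.symm.trans ?_
      rw [show i * N.choose i * (N * c) = N * i * N.choose i * c by ring]
    refine ⟨c • γ 1, S.nsmul_mem hγ1 c, fun i h1 hi => ?_⟩
    rw [D1_cpN_npp p i N hi.le hnpp]
    by_cases hpi : p ∣ i
    · have hpi' : ¬ p ∣ N - i := fun h => hpN (by
        have := dvd_add h hpi
        rwa [Nat.sub_add_cancel hi.le] at this)
      have h := key (N - i) (by omega) (by omega) hpi'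
      rw [hsym i h1 hi, Nat.choose_symm hi.le] at h
      exact h
    · exact key i h1 hi hpi

end Pool.Agent.MUDL
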