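import Mathlib
import Pool.Agent.Lib.MP_eb0266_gt.Sub
import Pool.Agent.Lib.MP_eb0266_gt.Laz1

set_option autoImplicit false

namespace Pool.Agent.MUDL

open MvPowerSeries

variable {L : Type} [CommRing L] (F : FormalGroup L) (p : ℕ)

theorem mudlD2_eq_two (d : Fin 2 →₀ ℕ) : d = Finsupp.single 0 (d 0) + Finsupp.single 1 (d 1) := by
  ext s; fin_cases s <;> simp

theorem mudlD2_mono_two {σ : Type} {R : Type} [CommRing R] (s t : σ) (a b : ℕ) :
    (X s ^ a * X t ^ b : MvPowerSeries σ R) =
      monomial (Finsupp.single s a + Finsupp.single t b) 1 := by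
  rw [X_pow_eq, X_pow_eq, monomial_mul_monomial, mul_one]

theorem mudlD2_mono_three {σ : Type} {R : Type} [CommRing R] (s t u : σ) (a b c : ℕ) :
    (X s ^ a * X t ^ b * X u ^ c : MvPowerSeries σ R) =
      monomial (Finsupp.single s a + Finsupp.single t b + Finsupp.single u c) 1 := by
  rw [mudlD2_mono_two, X_pow_eq, monomial_mul_monomial, mul_one]

theorem mudlD2_three_inj (a b c a' b' c' : ℕ) :
    (Finsupp.single (0 : Fin 3) a + Finsupp.single 1 b + Finsupp.single 2 c =
      Finsupp.single (0 : Fin 3) a' + Finsupp.single 1 b' + Finsupp.single 2 c') ↔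
      a = a' ∧ b = b' ∧ c = c' := by
  constructor
  · intro h
    refine ⟨?_, ?_, ?_⟩
    · have := DFunLike.congr_fun h 0
      simpa using this
    · have := DFunLike.congr_fun h 1
      simpa using this
    · have := DFunLike.congr_fun h 2
      simpa using this
  · rintro ⟨rfl, rfl, rfl⟩; rfl

theorem mudlD2_left {R : Type} [CommRing R] (m n i j k : ℕ) :
    coeff (Finsupp.single 0 i + Finsupp.single 1 j + Finsupp.single 2 k)
      ((X 0 + X 1) ^ m * X 2 ^ n : MvPowerSeries (Fin 3) R) =
    if m = i + j ∧ n = k then ((i + j).choose i : R) else 0 := by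
  classical
  have h : ∀ l ∈ Finset.range (m + 1),
      coeff (Finsupp.single 0 i + Finsupp.single 1 j + Finsupp.single 2 k)
      ((X 0 ^ l * X 1 ^ (m - l) * (m.choose l : MvPowerSeries (Fin 3) R)) * X 2 ^ n) =
      if i = l then (if m = i + j ∧ n = k then ((i + j).choose i : R) else 0) else 0 := by
    intro l hl
    have hl' := Finset.mem_range.mp hl
    have e1 : ((X 0 ^ l * X 1 ^ (m - l) * (m.choose l : MvPowerSeries (Fin 3) R)) * X 2 ^ n) =
        m.choose l • (X 0 ^ l * X 1 ^ (m - l) * X 2 ^ n : MvPowerSeries (Fin 3) R) := by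
      rw [nsmul_eq_mul]; ring
    rw [e1, mudlD2_mono_three, map_nsmul, coeff_monomial]
    simp only [mudlD2_three_inj]
    by_cases h1 : i = l
    · subst h1
      by_cases h2 : m = i + j ∧ n = k
      · obtain ⟨rfl, rfl⟩ := h2
        simp
      · rw [if_neg (by omega), if_pos rfl, if_neg h2, smul_zero]
    · rw [if_neg (by omega), if_neg h1, smul_zero]
  rw [add_pow, Finset.sum_mul, map_sum, Finset.sum_congr rfl h, Finset.sum_ite_eq]
  split_ifs with h1 h2 h3
  · rfl
  · rfl
  · exfalso; apply h1; rw [Finset.mem_range]; omega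
  · rfl

theorem mudlD2_right {R : Type} [CommRing R] (m n i j k : ℕ) :
    coeff (Finsupp.single 0 i + Finsupp.single 1 j + Finsupp.single 2 k)
      (X 0 ^ m * (X 1 + X 2) ^ n : MvPowerSeries (Fin 3) R) =
    if m = i ∧ n = j + k then ((j + k).choose j : R) else 0 := by
  classical
  have h : ∀ l ∈ Finset.range (n + 1),
      coeff (Finsupp.single 0 i + Finsupp.single 1 j + Finsupp.single 2 k)
      (X 0 ^ m * (X 1 ^ l * X 2 ^ (n - l) * (n.choose l : MvPowerSeries (Fin 3) R))) =
      if j = l then (if m = i ∧ n = j + k then ((j + k).choose j : R) else 0) else 0 := by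
    intro l hl
    have hl' := Finset.mem_range.mp hl
    have e1 : (X 0 ^ m * (X 1 ^ l * X 2 ^ (n - l) * (n.choose l : MvPowerSeries (Fin 3) R))) =
        n.choose l • (X 0 ^ m * X 1 ^ l * X 2 ^ (n - l) : MvPowerSeries (Fin 3) R) := by
      rw [nsmul_eq_mul]; ring
    rw [e1, mudlD2_mono_three, map_nsmul, coeff_monomial]
    simp only [mudlD2_three_inj]
    by_cases h1 : j = l
    · subst h1
      by_cases h2 : m = i ∧ n = j + k
      · obtain ⟨rfl, rfl⟩ := h2
        simp
      · rw [if_neg (by omega), if_pos rfl, if_neg h2, smul_zero]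
    · rw [if_neg (by omega), if_neg h1, smul_zero]
  rw [add_pow, Finset.mul_sum, map_sum, Finset.sum_congr rfl h, Finset.sum_ite_eq]
  split_ifs with h1 h2 h3
  · rfl
  · rfl
  · exfalso; apply h1; rw [Finset.mem_range]; omega
  · rfl

/-- `F - X - Y` has coefficients in `augI F` -/
theorem mudlD2_gam (d : Fin 2 →₀ ℕ) :
    (F.toPowerSeries - (X 0 + X 1)).coeff d ∈ augI F := by
  classical
  rw [mudlD2_eq_two d]
  generalize d 0 = a
  generalize d 1 = b
  have key : 2 ≤ a + b → cf F a b ∈ augI F := fun h => Ideal.subset_span ⟨a, b, h, rfl⟩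
  have hX0 : (X 0 : MvPowerSeries (Fin 2) L).coeff (Finsupp.single 0 a + Finsupp.single 1 b) =
      if a = 1 ∧ b = 0 then 1 else 0 := by
    rw [coeff_X]
    congr 1
    apply propext
    constructor
    · intro h
      have h0 := DFunLike.congr_fun h 0
      have h1 := DFunLike.congr_fun h 1
      simp at h0 h1
      exact ⟨h0, h1⟩
    · rintro ⟨rfl, rfl⟩; simp
  have hX1 : (X 1 : MvPowerSeries (Fin 2) L).coeff (Finsupp.single 0 a + Finsupp.single 1 b) =
      if a = 0 ∧ b = 1 then 1 else 0 := by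
    rw [coeff_X]
    congr 1
    apply propext
    constructor
    · intro h
      have h0 := DFunLike.congr_fun h 0
      have h1 := DFunLike.congr_fun h 1
      simp at h0 h1
      exact ⟨h0, h1⟩
    · rintro ⟨rfl, rfl⟩; simp
  rw [map_sub, map_add, hX0, hX1]
  by_cases hab : 2 ≤ a + b
  · rw [if_neg (by omega), if_neg (by omega), add_zero, sub_zero]
    exact key hab
  · have : (a = 0 ∧ b = 0) ∨ (a = 1 ∧ b = 0) ∨ (a = 0 ∧ b = 1) := by omega
    rcases this with ⟨rfl, rfl⟩ | ⟨rfl, rfl⟩ | ⟨rfl, rfl⟩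
    · have := F.zero_constantCoeff
      simp [this]
    · have := F.lin_coeff_X
      simp [this]
    · have := F.lin_coeff_Y
      simp [this]

/-- `f(X_s, X_t)` has no term with a variable `u ≠ s, t` -/
theorem mudlD2_two_vars {σ : Type} {R : Type} [CommRing R] (f : MvPowerSeries (Fin 2) R)
    (s t u : σ) (hs : u ≠ s) (ht : u ≠ t) (e : σ →₀ ℕ) (he : e u ≠ 0) :
    (f.subst ![(X s : MvPowerSeries σ R), X t]).coeff e = 0 := by
  classical
  rw [coeff_subst HasSubst.X_X]
  rw [finsum_eq_zero_of_forall_eq_zero]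
  intro d
  rw [Finsupp.prod_fintype _ _ (by simp)]
  simp only [Fin.prod_univ_two, Matrix.cons_val_zero, Matrix.cons_val_one]
  rw [mudlD2_mono_two, coeff_monomial, if_neg, smul_zero]
  intro h
  apply he
  rw [h]
  simp [hs.symm, ht.symm]

theorem mudlD2_coeff_left {R : Type} [CommRing R] (G : MvPowerSeries (Fin 2) R) (i j k : ℕ) :
    (G.subst ![(X 0 + X 1 : MvPowerSeries (Fin 3) R), X 2]).coeff
      (Finsupp.single 0 i + Finsupp.single 1 j + Finsupp.single 2 k) =
    ((i + j).choose i : R) * G.coeff (Finsupp.single 0 (i + j) + Finsupp.single 1 k) := by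
  classical
  have hs : HasSubst ![(X 0 + X 1 : MvPowerSeries (Fin 3) R), X 2] :=
    hasSubst_of_constantCoeff_zero (by intro s; fin_cases s <;> simp)
  rw [coeff_subst hs, finsum_eq_single _ (Finsupp.single 0 (i + j) + Finsupp.single 1 k)]
  · rw [Finsupp.prod_fintype _ _ (by simp)]
    simp only [Fin.prod_univ_two, Matrix.cons_val_zero, Matrix.cons_val_one]
    rw [mudlD2_left]
    simp [mul_comm]
  · intro d hd
    rw [Finsupp.prod_fintype _ _ (by simp)]
    simp only [Fin.prod_univ_two, Matrix.cons_val_zero, Matrix.cons_val_one]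
    rw [mudlD2_left, if_neg, smul_zero]
    rintro ⟨h1, h2⟩
    apply hd
    rw [mudlD2_eq_two d, h1, h2]

theorem mudlD2_coeff_right {R : Type} [CommRing R] (G : MvPowerSeries (Fin 2) R) (i j k : ℕ) :
    (G.subst ![(X 0 : MvPowerSeries (Fin 3) R), X 1 + X 2]).coeff
      (Finsupp.single 0 i + Finsupp.single 1 j + Finsupp.single 2 k) =
    ((j + k).choose j : R) * G.coeff (Finsupp.single 0 i + Finsupp.single 1 (j + k)) := by
  classical
  have hs : HasSubst ![(X 0 : MvPowerSeries (Fin 3) R), X 1 + X 2] :=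
    hasSubst_of_constantCoeff_zero (by intro s; fin_cases s <;> simp)
  rw [coeff_subst hs, finsum_eq_single _ (Finsupp.single 0 i + Finsupp.single 1 (j + k))]
  · rw [Finsupp.prod_fintype _ _ (by simp)]
    simp only [Fin.prod_univ_two, Matrix.cons_val_zero, Matrix.cons_val_one]
    rw [mudlD2_right]
    simp [mul_comm]
  · intro d hd
    rw [Finsupp.prod_fintype _ _ (by simp)]
    simp only [Fin.prod_univ_two, Matrix.cons_val_zero, Matrix.cons_val_one]
    rw [mudlD2_right, if_neg, smul_zero]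
    rintro ⟨h1, h2⟩
    apply hd
    rw [mudlD2_eq_two d, h1, h2]

/-- the cocycle relation, modulo `J²`, `J = augI F`: coefficient of `X^i Y^j Z^k` in
`F(F(X, Y), Z) = F(X, F(Y, Z))`, where `F = X + Y + Γ` and `Γ` has coefficients in `J` -/
theorem cocycle (i j k : ℕ) (hi : 1 ≤ i) (hj : 1 ≤ j) (hk : 1 ≤ k) :
    (i + j).choose i • cf F (i + j) k - (j + k).choose j • cf F i (j + k) ∈ augI F ^ 2 := by
  classical
  set Γ : MvPowerSeries (Fin 2) L := F.toPowerSeries - (X 0 + X 1) with hΓ
  have hF : F.toPowerSeries = (X 0 + X 1) + Γ := by rw [hΓ]; ring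
  have hΓc : ∀ a b : ℕ, 2 ≤ a + b →
      Γ.coeff (Finsupp.single 0 a + Finsupp.single 1 b) = cf F a b := by
    intro a b hab
    rw [hΓ, map_sub, map_add, coeff_X, coeff_X, if_neg, if_neg, add_zero, sub_zero]
    · rfl
    · intro h
      have h0 := DFunLike.congr_fun h 0
      have h1 := DFunLike.congr_fun h 1
      simp at h0 h1
      omega
    · intro h
      have h0 := DFunLike.congr_fun h 0
      have h1 := DFunLike.congr_fun h 1
      simp at h0 h1
      omega
  set e : Fin 3 →₀ ℕ := Finsupp.single 0 i + Finsupp.single 1 j + Finsupp.single 2 k with he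
  set A : MvPowerSeries (Fin 3) L := F.toPowerSeries.subst ![X 0, X 1] with hA
  set B : MvPowerSeries (Fin 3) L := F.toPowerSeries.subst ![X 1, X 2] with hB
  have hsA : HasSubst ![A, (X 2 : MvPowerSeries (Fin 3) L)] :=
    HasSubst.cons_subst_zero_left 0 1 2 F.zero_constantCoeff
  have hsB : HasSubst ![(X 0 : MvPowerSeries (Fin 3) L), B] :=
    HasSubst.cons_subst_zero_right 0 1 2 F.zero_constantCoeff
  have hs1 : HasSubst ![(X 0 + X 1 : MvPowerSeries (Fin 3) L), X 2] :=
    hasSubst_of_constantCoeff_zero (by intro s; fin_cases s <;> simp)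
  have hs2 : HasSubst ![(X 0 : MvPowerSeries (Fin 3) L), X 1 + X 2] :=
    hasSubst_of_constantCoeff_zero (by intro s; fin_cases s <;> simp)
  have hassoc : F.toPowerSeries.subst ![A, X 2] = F.toPowerSeries.subst ![X 0, B] := F.assoc
  have eA : F.toPowerSeries.subst ![A, X 2] = A + X 2 + Γ.subst ![A, X 2] := by
    rw [hF, subst_add hsA, subst_add hsA, subst_X hsA, subst_X hsA]
    rfl
  have eB : F.toPowerSeries.subst ![X 0, B] = X 0 + B + Γ.subst ![X 0, B] := by
    rw [hF, subst_add hsB, subst_add hsB, subst_X hsB, subst_X hsB]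
    rfl
  have eA' : A = X 0 + X 1 + Γ.subst ![X 0, X 1] := by
    rw [hA, hF, subst_add HasSubst.X_X, subst_add HasSubst.X_X, subst_X HasSubst.X_X,
      subst_X HasSubst.X_X]
    rfl
  have eB' : B = X 1 + X 2 + Γ.subst ![X 1, X 2] := by
    rw [hB, hF, subst_add HasSubst.X_X, subst_add HasSubst.X_X, subst_X HasSubst.X_X,
      subst_X HasSubst.X_X]
    rfl
  have cA : A.coeff e = 0 := mudlD2_two_vars _ 0 1 2 (by decide) (by decide) e (by simp [he]; omega)
  have cB : B.coeff e = 0 := mudlD2_two_vars _ 1 2 0 (by decide) (by decide) e (by simp [he]; omega)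
  have cX0 : (X 0 : MvPowerSeries (Fin 3) L).coeff e = 0 := by
    rw [coeff_X, if_neg]
    intro h
    have := DFunLike.congr_fun h 1
    simp [he] at this
    omega
  have cX2 : (X 2 : MvPowerSeries (Fin 3) L).coeff e = 0 := by
    rw [coeff_X, if_neg]
    intro h
    have := DFunLike.congr_fun h 1
    simp [he] at this
    omega
  have d1 : (Γ.subst ![A, X 2]).coeff e -
      (Γ.subst ![(X 0 + X 1 : MvPowerSeries (Fin 3) L), X 2]).coeff e ∈ augI F * augI F := by
    refine subst_congr (augI F) (augI F) Γ (mudlD2_gam F) _ _ hsA hs1 ?_ e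
    intro s e'
    fin_cases s
    · simp only [Fin.zero_eta, Matrix.cons_val_zero]
      rw [← map_sub, eA', add_sub_cancel_left]
      exact subst_mem (augI F) Γ (mudlD2_gam F) _ HasSubst.X_X e'
    · simp
  have d2 : (Γ.subst ![X 0, B]).coeff e -
      (Γ.subst ![(X 0 : MvPowerSeries (Fin 3) L), X 1 + X 2]).coeff e ∈ augI F * augI F := by
    refine subst_congr (augI F) (augI F) Γ (mudlD2_gam F) _ _ hsB hs2 ?_ e
    intro s e'
    fin_cases s
    · simp
    · simp only [Fin.mk_one, Matrix.cons_val_one, Matrix.cons_val_fin_one]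
      rw [← map_sub, eB', add_sub_cancel_left]
      exact subst_mem (augI F) Γ (mudlD2_gam F) _ HasSubst.X_X e'
  have h3 := congrArg (coeff e) hassoc
  rw [eA, eB, map_add, map_add, map_add, map_add, cA, cB, cX0, cX2, zero_add, zero_add, zero_add]
    at h3
  rw [he, mudlD2_coeff_left, ← he, hΓc _ _ (by omega), ← nsmul_eq_mul] at d1
  rw [he, mudlD2_coeff_right, ← he, hΓc _ _ (by omega), ← nsmul_eq_mul] at d2
  rw [pow_two]
  have := Ideal.sub_mem _ d2 d1
  rw [h3] at this
  convert this using 1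
  ring

theorem cf_symm (hF : F.IsComm) (i j : ℕ) : cf F i j = cf F j i := by
  classical
  have h := congrArg (coeff (Finsupp.single 0 i + Finsupp.single 1 j)) hF.comm
  change cf F i j = _ at h
  rw [h, coeff_subst HasSubst.X_X, finsum_eq_single _ (Finsupp.single 0 j + Finsupp.single 1 i)]
  · rw [Finsupp.prod_fintype _ _ (by simp)]
    simp only [Fin.prod_univ_two, Matrix.cons_val_zero, Matrix.cons_val_one]
    rw [mudlD2_mono_two, coeff_monomial, if_pos]
    · simp [cf]
    · ext s; fin_cases s <;> simp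
  · intro d hd
    rw [Finsupp.prod_fintype _ _ (by simp)]
    simp only [Fin.prod_univ_two, Matrix.cons_val_zero, Matrix.cons_val_one]
    rw [mudlD2_mono_two, coeff_monomial, if_neg, smul_zero]
    intro h'
    apply hd
    have h0 := DFunLike.congr_fun h' 0
    have h1 := DFunLike.congr_fun h' 1
    simp at h0 h1
    rw [mudlD2_eq_two d, h0, h1]

theorem mudlD2_exists [Fact p.Prime] (hF : F.IsComm) (n : ℕ) (hn : 1 ≤ n) :
    ∃ x ∈ augI F, ∀ i j, 1 ≤ i → 1 ≤ j → i + j = n + 1 →
      cf F i j - cpN p i j • x ∈ bigI F p ^ 2 := by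
  classical
  set I := bigI F p with hI
  have hJI : augI F ≤ I := augI_le F p
  have hmem : ∀ i j, 2 ≤ i + j → cf F i j ∈ augI F := fun i j h => Ideal.subset_span ⟨i, j, h, rfl⟩
  have hmem' : ∀ i, cf F i (n + 1 - i) ∈ I := fun i => hJI (hmem _ _ (by omega))
  let γ : ℕ → I.Cotangent := fun i => I.toCotangent ⟨cf F i (n + 1 - i), hmem' i⟩
  let S : AddSubgroup I.Cotangent :=
    { carrier := {z | ∃ a, ∃ h : a ∈ augI F, z = I.toCotangent ⟨a, hJI h⟩}
      add_mem' := by
        rintro _ _ ⟨a, ha, rfl⟩ ⟨b, hb, rfl⟩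
        exact ⟨a + b, Ideal.add_mem _ ha hb, by rw [← map_add]; rfl⟩
      zero_mem' := ⟨0, Ideal.zero_mem _, by rw [← map_zero I.toCotangent]; rfl⟩
      neg_mem' := by
        rintro _ ⟨a, ha, rfl⟩
        exact ⟨-a, (Ideal.neg_mem_iff _).mpr ha, by rw [← map_neg]; rfl⟩ }
  have hpM : ∀ m : I.Cotangent, p • m = 0 := by
    intro m
    obtain ⟨z, rfl⟩ := I.toCotangent_surjective m
    rw [← map_nsmul, Ideal.toCotangent_eq_zero]
    have : ((p • z : I) : L) = (p : L) * z := by
      rw [AddSubmonoidClass.coe_nsmul, nsmul_eq_mul]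
    rw [this, pow_two]
    exact Ideal.mul_mem_mul (Ideal.mem_sup_left (Ideal.subset_span rfl)) z.2
  obtain ⟨y, ⟨x, hx, rfl⟩, hy⟩ := lazard_lemma p hpM S (n + 1) (by omega) γ
    (fun i _ _ => ⟨_, hmem _ _ (by omega), rfl⟩)
    (by
      intro i hi hi'
      simp only [γ]
      congr 2
      rw [show n + 1 - (n + 1 - i) = i by omega]
      exact cf_symm F hF _ _)
    (by
      intro i j k hi hj hk hijk
      simp only [γ]
      rw [← map_nsmul, ← map_nsmul, ← sub_eq_zero, ← map_sub, Ideal.toCotangent_eq_zero]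
      have e1 : n + 1 - (i + j) = k := by omega
      have e2 : n + 1 - i = j + k := by omega
      have h := cocycle F i j k hi hj hk
      have h2 : augI F ^ 2 ≤ I ^ 2 := Ideal.pow_right_mono hJI 2
      have h3 : (i + j).choose i • cf F (i + j) (n + 1 - (i + j)) -
          (j + k).choose j • cf F i (n + 1 - i) ∈ I ^ 2 := by
        rw [e1, e2]; exact h2 h
      exact h3)
  refine ⟨x, hx, ?_⟩
  intro i j hi hj hij
  have h := hy i hi (by omega)
  have e1 : n + 1 - i = j := by omega
  simp only [γ] at h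
  rw [← map_nsmul, ← sub_eq_zero, ← map_sub, Ideal.toCotangent_eq_zero] at h
  have h2 : (cf F i (n + 1 - i) - cpN p i (n + 1 - i) • x) ∈ I ^ 2 := h
  rwa [e1] at h2

theorem exists_gen [Fact p.Prime] (hF : F.IsComm) : ∃ x, IsGen F p x := by
  classical
  have h := fun n : ℕ => fun hn : 1 ≤ n => mudlD2_exists F p hF n hn
  choose x hx1 hx2 using h
  refine ⟨fun n => if h : 1 ≤ n then x n h else p, ?_, ?_, ?_⟩
  · simp
  · intro n hn
    simp only [hn, dif_pos]
    exact hx1 n hn
  · intro i j hi hj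
    have hn : 1 ≤ i + j - 1 := by omega
    simp only [hn, dif_pos]
    exact hx2 _ hn i j hi hj (by omega)

end Pool.Agent.MUDL
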