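import Mathlib
import Pool.Agent.Lib.MP_eb0266_gt.Fin

/-!
Row T. The quotient `K` of `L((e)) / ([p]_F(e))` by the classes of Laurent series with coefficients in `I²`, and
the main formula for `φ`.
-/

set_option autoImplicit false

namespace Pool.Agent.MUDL

open MvPowerSeries

noncomputable section

/-- Laurent series with coefficients in an ideal. -/
def lIdeal {L : Type} [CommRing L] (𝔞 : Ideal L) : Ideal (LaurentSeries L) where
  carrier := {f | ∀ k, f.coeff k ∈ 𝔞}
  add_mem' := by
    intro a b ha hb k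
    rw [HahnSeries.coeff_add]
    exact 𝔞.add_mem (ha k) (hb k)
  zero_mem' := by
    intro k
    rw [HahnSeries.coeff_zero]
    exact zero_mem _
  smul_mem' := by
    intro c f hf k
    rw [smul_eq_mul, HahnSeries.coeff_mul]
    exact 𝔞.sum_mem fun ij _ => 𝔞.mul_mem_left _ (hf _)

theorem T_mem {L : Type} [CommRing L] (𝔞 : Ideal L) (f : LaurentSeries L) :
    f ∈ lIdeal 𝔞 ↔ ∀ k, f.coeff k ∈ 𝔞 := Iff.rfl

theorem T_mul_mem {L : Type} [CommRing L] (𝔞 𝔟 : Ideal L) (f g : LaurentSeries L)
    (hf : f ∈ lIdeal 𝔞) (hg : g ∈ lIdeal 𝔟) : f * g ∈ lIdeal (𝔞 * 𝔟) := by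
  intro k
  rw [HahnSeries.coeff_mul]
  exact (𝔞 * 𝔟).sum_mem fun ij _ => Ideal.mul_mem_mul (hf _) (hg _)

theorem T_ofPS {L : Type} [CommRing L] (𝔞 : Ideal L) (f : PowerSeries L)
    (hf : ∀ k, PowerSeries.coeff k f ∈ 𝔞) : HahnSeries.ofPowerSeries ℤ L f ∈ lIdeal 𝔞 := by
  intro k
  rw [PowerSeries.coeff_coe]
  split_ifs
  · exact zero_mem _
  · exact hf _

variable {L : Type} [CommRing L] (F : FormalGroup L) (p : ℕ)

/-- The ideal of the classes of Laurent series with coefficients in `I²`. -/
def sqI : Ideal (Tate F p) := (lIdeal (bigI F p ^ 2)).map (Ideal.Quotient.mk _)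

theorem cong_iff (z w : Tate F p) : Cong F p z w ↔ z - w ∈ sqI F p := by
  unfold sqI
  rw [Ideal.mem_map_iff_of_surjective _ Ideal.Quotient.mk_surjective]
  constructor
  · rintro ⟨g, hg, h⟩
    exact ⟨g, hg, h.symm⟩
  · rintro ⟨g, hg, h⟩
    exact ⟨g, hg, h.symm⟩

/-- The quotient `K`. -/
def KK : Type := Tate F p ⧸ sqI F p

instance : CommRing (KK F p) := inferInstanceAs (CommRing (Tate F p ⧸ sqI F p))

/-- the quotient map -/
def toKK : Tate F p →+* KK F p := Ideal.Quotient.mk (sqI F p)

/-- `L[[e]] → K` -/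
def evK : PowerSeries L →+* KK F p := (toKK F p).comp (evE F p)

theorem T_toKK_eq (z w : Tate F p) : toKK F p z = toKK F p w ↔ z - w ∈ sqI F p :=
  Ideal.Quotient.eq

theorem T_surj : Function.Surjective (toKK F p) := Ideal.Quotient.mk_surjective

theorem evK_data : ∃ ε', EvData F p (evK F p) ε' := by
  refine ⟨toKK F p (Ideal.Quotient.mk _ (HahnSeries.single (-1 : ℤ) (1 : L))), ?_, ?_, ?_⟩
  · intro f hf
    have h1 : evE F p f ∈ sqI F p := by
      unfold sqI evE
      exact Ideal.mem_map_of_mem _ (T_ofPS _ f hf)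
    have : toKK F p (evE F p f) = toKK F p 0 := by
      rw [T_toKK_eq, sub_zero]
      exact h1
    rw [map_zero] at this
    exact this
  · have : evE F p (mulE F p) = 0 := by
      unfold evE
      exact Ideal.Quotient.eq_zero_iff_mem.2 (Ideal.subset_span rfl)
    show toKK F p (evE F p (mulE F p)) = 0
    rw [this, map_zero]
  · show toKK F p (evE F p PowerSeries.X) * _ = 1
    rw [← map_mul]
    have : evE F p PowerSeries.X * Ideal.Quotient.mk _ (HahnSeries.single (-1 : ℤ) (1 : L)) = 1 := by
      unfold evE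
      rw [RingHom.comp_apply, ← map_mul, HahnSeries.ofPowerSeries_X, HahnSeries.single_mul_single]
      simp
    rw [this, map_one]

/-- the main formula -/
theorem frob_formula [Fact p.Prime] (hu : IsUnit (eul F p)) (φ : L →+* Tate F p) (hφ : IsFrob F p φ)
    (x : ℕ → L) (hx : IsGen F p x) (n : ℕ) :
    Cong F p (φ (x n)) (ser F p fun k => (lam p n (n + k)).val • x (n + k)) := by
  classical
  obtain ⟨ε', hE⟩ := evK_data F p
  set J : Ideal (KK F p) := (((lIdeal (bigI F p)).map (Ideal.Quotient.mk _) : Ideal (Tate F p))).map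
    (toKK F p) with hJdef
  have hJmem : ∀ a ∈ J, ∃ f : LaurentSeries L, f ∈ lIdeal (bigI F p) ∧
      toKK F p (Ideal.Quotient.mk _ f) = a := by
    intro a ha
    rw [hJdef, Ideal.mem_map_iff_of_surjective _ (T_surj F p)] at ha
    obtain ⟨b, hb, rfl⟩ := ha
    rw [Ideal.mem_map_iff_of_surjective _ Ideal.Quotient.mk_surjective] at hb
    obtain ⟨f, hf, rfl⟩ := hb
    exact ⟨f, hf, rfl⟩
  have hJ : ∀ a ∈ J, ∀ b ∈ J, a * b = 0 := by
    intro a ha b hb
    obtain ⟨f, hf, rfl⟩ := hJmem a ha
    obtain ⟨g, hg, rfl⟩ := hJmem b hb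
    rw [← map_mul, ← map_mul]
    have h1 := T_mul_mem _ _ f g hf hg
    rw [← pow_two] at h1
    have h2 : toKK F p (Ideal.Quotient.mk _ (f * g)) = toKK F p 0 := by
      rw [T_toKK_eq, sub_zero]
      exact Ideal.mem_map_of_mem _ h1
    rw [h2, map_zero]
  have hJe : ∀ f : PowerSeries L, (∀ k, PowerSeries.coeff k f ∈ bigI F p) → evK F p f ∈ J := by
    intro f hf
    rw [hJdef]
    exact Ideal.mem_map_of_mem _ (Ideal.mem_map_of_mem _ (T_ofPS _ f hf))
  have hΦe : PowerSeries.C (eul F p) * Phi F p = ∏ i ∈ Finset.range p, fib F p (trans F i) := by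
    unfold Phi
    rw [← mul_assoc, ← map_mul, Ring.mul_inverse_cancel _ hu, map_one, one_mul]
  have hΦ : PowerSeries.C (∏ i ∈ Finset.Ico 1 p, evK F p (mulE F i)) *
      PowerSeries.map (toKK F p) (Phi F p) =
      ∏ i ∈ Finset.range p, PowerSeries.mk fun k =>
        evK F p (PowerSeries.mk fun j =>
          (trans F i).coeff (Finsupp.single 0 k + Finsupp.single 1 j)) := by
    have h1 := congrArg (PowerSeries.map (toKK F p)) hΦe
    rw [map_mul, map_prod, PowerSeries.map_C] at h1
    have h2 : toKK F p (eul F p) = ∏ i ∈ Finset.Ico 1 p, evK F p (mulE F i) := by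
      unfold eul
      rw [map_prod]
      rfl
    rw [h2] at h1
    rw [h1]
    refine Finset.prod_congr rfl fun i _ => ?_
    ext k
    rw [PowerSeries.coeff_map, fib, PowerSeries.coeff_mk, PowerSeries.coeff_mk]
    rfl
  have hΦ0 : PowerSeries.constantCoeff (Phi F p) = 0 := by
    have h1 := congrArg PowerSeries.constantCoeff hΦe
    rw [map_mul, map_prod, PowerSeries.constantCoeff_C] at h1
    have h2 : ∏ i ∈ Finset.range p, PowerSeries.constantCoeff (fib F p (trans F i)) = 0 := by
      refine Finset.prod_eq_zero (i := 0) (Finset.mem_range.2 (Fact.out : p.Prime).pos) ?_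
      rw [← PowerSeries.coeff_zero_eq_constantCoeff_apply, fib, PowerSeries.coeff_mk]
      have h3 : (PowerSeries.mk fun j => (trans F 0).coeff
          (Finsupp.single 0 0 + Finsupp.single 1 j)) = 0 := by
        ext j
        rw [PowerSeries.coeff_mk, trans_coeff_zero]
        rfl
      rw [h3, map_zero]
    rw [h2] at h1
    exact (hu.mul_right_eq_zero).1 h1
  have hs : ∀ i : Fin 2, MvPowerSeries.constantCoeff
      (PowerSeries.subst (X i : MvPowerSeries (Fin 2) (Tate F p)) (Phi F p)) = 0 := by
    intro i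
    exact MvPowerSeries.constantCoeff_subst_eq_zero
      (PowerSeries.HasSubst.const (PowerSeries.HasSubst.of_constantCoeff_zero (by simp)))
      (fun _ => by simp) hΦ0
  have hcommute : ∀ (ψ : L →+* Tate F p), (F.map ((toKK F p).comp ψ)).toPowerSeries =
      (F.map ψ).toPowerSeries.map (toKK F p) := by
    intro ψ
    ext d
    simp
  have h : (F.map ((toKK F p).comp φ)).toPowerSeries.subst
      ![PowerSeries.subst (X 0 : MvPowerSeries (Fin 2) (KK F p))
          (PowerSeries.map (toKK F p) (Phi F p)),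
        PowerSeries.subst (X 1 : MvPowerSeries (Fin 2) (KK F p))
          (PowerSeries.map (toKK F p) (Phi F p))] =
      PowerSeries.subst (F.map ((evK F p).comp PowerSeries.C)).toPowerSeries
        (PowerSeries.map (toKK F p) (Phi F p)) := by
    have h1 := congrArg (MvPowerSeries.map (toKK F p)) hφ
    rw [MvPowerSeries.map_subst (hasSubst_of_constantCoeff_zero (by
      intro i
      fin_cases i
      · exact hs 0
      · exact hs 1)), PowerSeries.map_subst (PowerSeries.HasSubst.of_constantCoeff_zero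
        (F.map (cst F p)).zero_constantCoeff)] at h1
    rw [← hcommute, ← hcommute] at h1
    have h2 : ∀ i : Fin 2, MvPowerSeries.map (toKK F p)
        (PowerSeries.subst (X i : MvPowerSeries (Fin 2) (Tate F p)) (Phi F p)) =
        PowerSeries.subst (X i : MvPowerSeries (Fin 2) (KK F p))
          (PowerSeries.map (toKK F p) (Phi F p)) := by
      intro i
      rw [PowerSeries.map_subst (PowerSeries.HasSubst.of_constantCoeff_zero (by simp)),
        MvPowerSeries.map_X]
    have h3 : (fun i : Fin 2 => MvPowerSeries.map (toKK F p)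
        (![PowerSeries.subst (X 0 : MvPowerSeries (Fin 2) (Tate F p)) (Phi F p),
          PowerSeries.subst (X 1 : MvPowerSeries (Fin 2) (Tate F p)) (Phi F p)] i)) =
        ![PowerSeries.subst (X 0 : MvPowerSeries (Fin 2) (KK F p))
          (PowerSeries.map (toKK F p) (Phi F p)),
          PowerSeries.subst (X 1 : MvPowerSeries (Fin 2) (KK F p))
          (PowerSeries.map (toKK F p) (Phi F p))] := by
      funext i
      fin_cases i
      · exact h2 0
      · exact h2 1
    rw [h3] at h1
    exact h1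
  have hmain := rowG hE hx J hJ hJe _ hΦ _ h n
  have hlam : ∀ m, m < n → lam p n m = 0 := by
    intro m hm
    have : m - n = 0 := by omega
    unfold lam mu
    rw [this]
    simp
  have hsplit : Xi x (evK F p) (fun m => lam p n m) = evK F p PowerSeries.X ^ n *
      toKK F p (ser F p fun k => (lam p n (n + k)).val • x (n + k)) := by
    show evK F p _ = evK F p PowerSeries.X ^ n * evK F p _
    rw [← map_pow, ← map_mul]
    congr 1
    ext m
    rw [PowerSeries.coeff_mk, PowerSeries.coeff_X_pow_mul']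
    split_ifs with hm
    · rw [PowerSeries.coeff_mk, Nat.add_sub_cancel' hm]
    · show (lam p n m).val • x m = 0
      rw [hlam m (by omega), ZMod.val_zero, zero_smul]
  rw [hsplit, ← mul_assoc, ← mul_pow, mul_comm ε', hE.inv, one_pow, one_mul] at hmain
  rw [cong_iff]
  exact (T_toKK_eq F p _ _).1 hmain

end

end Pool.Agent.MUDL
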