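import Mathlib
import Pool.Agent.Lib.MP_eb0266_gt.TateM
import Pool.Agent.Lib.MP_eb0266_gt.BasisD4
import Pool.Agent.Lib.MP_eb0266_gt.Frob

/-!
Row NF. Normal forms: every `φ(y)`, `y ∈ I`, is congruent to `∑ c_k e^k` with `c_k ∈ augI`, and the `c_k` are
unique modulo `I²`.
-/

set_option autoImplicit false

namespace Pool.Agent.MUDL

open MvPowerSeries

variable {L : Type} [CommRing L] (F : FormalGroup L) (p : ℕ)

theorem NF_fin2 (d : Fin 2 →₀ ℕ) : d = Finsupp.single 0 (d 0) + Finsupp.single 1 (d 1) := by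
  ext k
  fin_cases k <;> simp

theorem NF_gamma (d : Fin 2 →₀ ℕ) :
    (F.toPowerSeries - X 0 - X 1).coeff d ∈ augI F := by
  classical
  rw [map_sub, map_sub, coeff_X, coeff_X]
  by_cases h : 2 ≤ d 0 + d 1
  · have h0 : d ≠ Finsupp.single 0 1 := by
      intro h'
      rw [h'] at h
      simp at h
    have h1 : d ≠ Finsupp.single 1 1 := by
      intro h'
      rw [h'] at h
      simp at h
    rw [if_neg h0, if_neg h1, sub_zero, sub_zero]
    refine Ideal.subset_span ⟨d 0, d 1, h, ?_⟩
    rw [cf, ← NF_fin2]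
  · have h3 : (d 0 = 0 ∧ d 1 = 0) ∨ (d 0 = 1 ∧ d 1 = 0) ∨ (d 0 = 0 ∧ d 1 = 1) := by omega
    have hd := NF_fin2 d
    rcases h3 with ⟨h0, h1⟩ | ⟨h0, h1⟩ | ⟨h0, h1⟩
    · rw [h0, h1, Finsupp.single_zero, Finsupp.single_zero, add_zero] at hd
      subst hd
      have h4 : F.toPowerSeries.coeff 0 = 0 := F.zero_constantCoeff
      rw [h4, if_neg, if_neg]
      · simp
      · intro h; have := DFunLike.congr_fun h 1; simp at this
      · intro h; have := DFunLike.congr_fun h 0; simp at this
    · rw [h0, h1, Finsupp.single_zero, add_zero] at hd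
      subst hd
      rw [F.lin_coeff_X, if_pos rfl, if_neg]
      · simp
      · intro h; have := DFunLike.congr_fun h 0; simp at this
    · rw [h0, h1, Finsupp.single_zero, zero_add] at hd
      subst hd
      rw [F.lin_coeff_Y, if_pos rfl, if_neg]
      · simp
      · intro h; have := DFunLike.congr_fun h 0; simp at this

theorem NF_hs {σ : Type} {a b : MvPowerSeries σ L} (ha : PowerSeries.HasSubst a)
    (hb : PowerSeries.HasSubst b) : HasSubst ![a, b] :=
  hasSubst_of_constantCoeff_nilpotent fun s => by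
    fin_cases s
    · simpa using ha
    · simpa using hb

theorem NF_subst {σ : Type} {a b : MvPowerSeries σ L} (ha : PowerSeries.HasSubst a)
    (hb : PowerSeries.HasSubst b) (e : σ →₀ ℕ) :
    (F.toPowerSeries.subst ![a, b]).coeff e - (a.coeff e + b.coeff e) ∈ augI F := by
  have h := NF_hs ha hb
  have h1 : F.toPowerSeries = (F.toPowerSeries - X 0 - X 1) + X 0 + X 1 := by ring
  have h2 := subst_mem (augI F) (F.toPowerSeries - X 0 - X 1) (NF_gamma F) ![a, b] h e
  have h3 : F.toPowerSeries.subst ![a, b] =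
      (F.toPowerSeries - X 0 - X 1).subst ![a, b] + a + b := by
    conv_lhs => rw [h1]
    rw [subst_add h, subst_add h, subst_X h, subst_X h]
    simp
  rw [h3, map_add, map_add]
  convert h2 using 1
  ring

theorem NF_mulN_hasSubst {σ : Type} {y : MvPowerSeries σ L} (hy : PowerSeries.HasSubst y) :
    ∀ n, PowerSeries.HasSubst (mulN F y n)
  | 0 => PowerSeries.HasSubst.zero
  | n + 1 => IsNilpotent_subst (NF_hs (NF_mulN_hasSubst hy n) hy)
      (F.zero_constantCoeff ▸ IsNilpotent.zero)

theorem NF_mulE (i k : ℕ) :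
    PowerSeries.coeff k (mulE F i) - (if k = 1 then (i : L) else 0) ∈ augI F := by
  induction i with
  | zero =>
    have : mulE F 0 = 0 := rfl
    rw [this]
    simp
  | succ i ih =>
    have hX : PowerSeries.HasSubst (PowerSeries.X : PowerSeries L) := PowerSeries.HasSubst.X'
    have h1 := NF_subst F (NF_mulN_hasSubst F hX i) hX (Finsupp.single () k)
    have h2 : mulE F (i + 1) = F.toPowerSeries.subst ![mulN F (PowerSeries.X : PowerSeries L) i,
      (PowerSeries.X : PowerSeries L)] := rfl
    have h3 : (PowerSeries.X : PowerSeries L).coeff k = if k = 1 then 1 else 0 :=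
      PowerSeries.coeff_X k
    have h4 : PowerSeries.coeff k (mulE F (i + 1)) - (if k = 1 then ((i + 1 : ℕ) : L) else 0) =
        ((F.toPowerSeries.subst ![mulN F (PowerSeries.X : PowerSeries L) i,
          (PowerSeries.X : PowerSeries L)]).coeff (Finsupp.single () k) -
          ((mulN F (PowerSeries.X : PowerSeries L) i).coeff (Finsupp.single () k) +
          MvPowerSeries.coeff (Finsupp.single () k) (PowerSeries.X : PowerSeries L))) +
        (PowerSeries.coeff k (mulE F i) - (if k = 1 then (i : L) else 0)) := by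
      have h5 : MvPowerSeries.coeff (Finsupp.single () k) (PowerSeries.X : PowerSeries L) =
        if k = 1 then 1 else 0 := h3
      rw [h5, h2]
      unfold mulE PowerSeries.coeff
      split_ifs
      · push_cast; ring
      · ring
    rw [h4]
    exact add_mem h1 ih

theorem NF_lIdeal_mul (𝔞 𝔟 : Ideal L) {f g : LaurentSeries L} (hf : ∀ k, f.coeff k ∈ 𝔞)
    (hg : ∀ k, g.coeff k ∈ 𝔟) (k : ℤ) : (f * g).coeff k ∈ 𝔞 * 𝔟 := by
  rw [HahnSeries.coeff_mul]
  exact Ideal.sum_mem _ fun ij _ => Ideal.mul_mem_mul (hf _) (hg _)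

theorem NF_coeff_ofPowerSeries (f : PowerSeries L) (k : ℤ) :
    (HahnSeries.ofPowerSeries ℤ L f).coeff k =
      if 0 ≤ k then PowerSeries.coeff k.toNat f else 0 := by
  split_ifs with h
  · obtain ⟨n, rfl⟩ := Int.eq_ofNat_of_zero_le h
    simp [HahnSeries.ofPowerSeries_apply_coeff]
  · rw [HahnSeries.ofPowerSeries_apply, HahnSeries.embDomain_of_notMem_range]
    rintro ⟨n, hn⟩
    simp at hn
    omega

theorem NF_ofPS_mem (𝔞 : Ideal L) {f : PowerSeries L} (hf : ∀ k, PowerSeries.coeff k f ∈ 𝔞)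
    (k : ℤ) : (HahnSeries.ofPowerSeries ℤ L f).coeff k ∈ 𝔞 := by
  rw [NF_coeff_ofPowerSeries]
  split_ifs
  · exact hf _
  · exact zero_mem _

theorem NF_mulE_bigI (k : ℕ) : PowerSeries.coeff k (mulE F p) ∈ bigI F p := by
  have h := augI_le F p (NF_mulE F p k)
  have h2 : (if k = 1 then (p : L) else 0) ∈ bigI F p := by
    split_ifs
    · exact Ideal.mem_sup_left (Ideal.subset_span rfl)
    · exact zero_mem _
  have := add_mem h h2
  rwa [sub_add_cancel] at this

theorem NF_sq_dvd (π : L →+* ℤ) (hπ : ∀ y ∈ augI F, π y = 0) {y : L} (hy : y ∈ bigI F p ^ 2) :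
    ((p : ℤ) ^ 2) ∣ π y := by
  have h1 : (bigI F p).map π ≤ Ideal.span {(p : ℤ)} := by
    rw [bigI, Ideal.map_sup, Ideal.map_span, Set.image_singleton, map_natCast]
    refine sup_le le_rfl ?_
    rw [Ideal.map_le_iff_le_comap]
    intro z hz
    rw [Ideal.mem_comap, hπ z hz]
    exact zero_mem _
  have h2 : (bigI F p ^ 2).map π ≤ Ideal.span {(p : ℤ) ^ 2} := by
    rw [Ideal.map_pow, ← Ideal.span_singleton_pow]
    exact Ideal.pow_right_mono h1 2
  exact Ideal.mem_span_singleton.1 (h2 (Ideal.mem_map_of_mem π hy))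

/-- If `∑ c_k e^k ≡ 0` and `c_k ∈ augI` then `c_k ∈ I²`. `c = f [p](e) + g`, `g` with coefficients in `I²`,
`[p](e) ≡ p e` modulo `augI`. Apply `L → ℤ`: `p f_{k-1} = 0` modulo `p²`, so the `f_k` are in `I`, and
`[p](e)` has coefficients in `I`. -/
theorem nf_unique [Fact p.Prime] (hF : IsUniversal F) (c : ℕ → L) (hc : ∀ k, c k ∈ augI F)
    (h : Cong F p (ser F p c) 0) : ∀ k, c k ∈ bigI F p ^ 2 := by
  have hp : p.Prime := Fact.out
  obtain ⟨g, hg, h1⟩ := h
  obtain ⟨π, hπ⟩ := exists_aug F hF
  rw [sub_zero, ser, evE, RingHom.comp_apply, Ideal.Quotient.eq, Ideal.mem_span_singleton'] at h1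
  obtain ⟨f, hf⟩ := h1
  set H : PowerSeries L := mulE F p - PowerSeries.C (p : L) * PowerSeries.X with hH
  have hHmem : ∀ k, PowerSeries.coeff k H ∈ augI F := by
    intro k
    have := NF_mulE F p k
    rw [hH, map_sub, PowerSeries.coeff_C_mul, PowerSeries.coeff_X]
    convert this using 2
    split_ifs <;> simp
  have hP : mulE F p = PowerSeries.C (p : L) * PowerSeries.X + H := by rw [hH]; ring
  have hcoef : ∀ k : ℤ, ∃ a ∈ augI F, f.coeff (k - 1) * (p : L) + a =
      (HahnSeries.ofPowerSeries ℤ L (PowerSeries.mk c)).coeff k - g.coeff k := by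
    intro k
    refine ⟨(f * HahnSeries.ofPowerSeries ℤ L H).coeff k, ?_, ?_⟩
    · have := NF_lIdeal_mul ⊤ (augI F) (f := f) (fun _ => trivial)
        (NF_ofPS_mem (augI F) hHmem) k
      rwa [Ideal.top_mul] at this
    · rw [← HahnSeries.coeff_sub, ← hf, hP, map_add, map_mul, HahnSeries.ofPowerSeries_C,
        HahnSeries.ofPowerSeries_X, mul_add, HahnSeries.coeff_add, HahnSeries.C_apply,
        HahnSeries.single_mul_single, zero_add, mul_one, HahnSeries.coeff_mul_single]
  have hcm : ∀ k : ℤ, (HahnSeries.ofPowerSeries ℤ L (PowerSeries.mk c)).coeff k ∈ augI F :=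
    NF_ofPS_mem (augI F) (fun k => by rw [PowerSeries.coeff_mk]; exact hc k)
  have hfI : ∀ k : ℤ, f.coeff k ∈ bigI F p := by
    intro k
    obtain ⟨a, ha, h2⟩ := hcoef (k + 1)
    rw [add_sub_cancel_right] at h2
    have h3 := congrArg π h2
    rw [map_add, map_mul, map_sub, hπ a ha, hπ _ (hcm _), map_natCast, add_zero, zero_sub] at h3
    have h4 : ((p : ℤ) ^ 2) ∣ π (f.coeff k) * p := by
      rw [h3]
      exact (NF_sq_dvd F p π hπ (hg _)).neg_right
    have h5 : (p : ℤ) ∣ π (f.coeff k) := by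
      rw [pow_two] at h4
      exact (Int.mul_dvd_mul_iff_right (by exact_mod_cast hp.ne_zero)).1 h4
    obtain ⟨n, hn⟩ := exists_int F hF (f.coeff k)
    have h6 : π (f.coeff k) = n := by
      have := hπ _ hn
      rw [map_sub, map_intCast, sub_eq_zero] at this
      simpa using this
    rw [h6] at h5
    obtain ⟨m, hm⟩ := h5
    have h7 : f.coeff k = (f.coeff k - (n : L)) + (m : L) * (p : L) := by
      rw [hm]; push_cast; ring
    rw [h7]
    exact add_mem (augI_le F p hn)
      (Ideal.mul_mem_left _ _ (Ideal.mem_sup_left (Ideal.subset_span rfl)))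
  intro k
  have h8 := congrArg (fun s : LaurentSeries L => s.coeff (k : ℤ)) hf
  simp only [HahnSeries.coeff_sub, HahnSeries.ofPowerSeries_apply_coeff,
    PowerSeries.coeff_mk] at h8
  have h9 : c k = (f * HahnSeries.ofPowerSeries ℤ L (mulE F p)).coeff (k : ℤ) +
      g.coeff (k : ℤ) := by
    rw [h8]; ring
  rw [h9, pow_two]
  refine add_mem (NF_lIdeal_mul _ _ hfI (NF_ofPS_mem _ (NF_mulE_bigI F p)) _) ?_
  rw [← pow_two]
  exact hg _


/-! ### `φ` modulo `I` -/

/-- the ideal of `K` of the classes of series with coefficients in `I` -/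
noncomputable def NF_J : Ideal (KK F p) :=
  (((lIdeal (bigI F p)).map (Ideal.Quotient.mk _ : LaurentSeries L →+* Tate F p))).map (toKK F p)

theorem NF_J_mul (a b : KK F p) (ha : a ∈ NF_J F p) (hb : b ∈ NF_J F p) : a * b = 0 := by
  have h1 : NF_J F p * NF_J F p ≤ ⊥ := by
    have h2 : lIdeal (bigI F p) * lIdeal (bigI F p) ≤ lIdeal (bigI F p ^ 2) := by
      rw [Ideal.mul_le]
      intro f hf g hg k
      rw [pow_two]
      exact NF_lIdeal_mul _ _ hf hg k
    rw [NF_J, ← Ideal.map_mul, ← Ideal.map_mul]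
    refine (Ideal.map_mono (Ideal.map_mono h2)).trans ?_
    change (sqI F p).map (toKK F p) ≤ ⊥
    rw [Ideal.map_le_iff_le_comap]
    intro z hz
    rw [Ideal.mem_comap, Ideal.mem_bot]
    exact Ideal.Quotient.eq_zero_iff_mem.2 hz
  exact h1 (Ideal.mul_mem_mul ha hb)

theorem NF_evK_mem (f : PowerSeries L) (hf : ∀ k, PowerSeries.coeff k f ∈ bigI F p) :
    evK F p f ∈ NF_J F p := by
  refine Ideal.mem_map_of_mem _ ?_
  refine Ideal.mem_map_of_mem _ ?_
  exact NF_ofPS_mem _ hf

theorem NF_Xi_mem {x : ℕ → L} (hx : IsGen F p x) (g : ℕ → ZMod p) :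
    Xi x (evK F p) g ∈ NF_J F p := by
  refine NF_evK_mem F p _ fun k => ?_
  rw [PowerSeries.coeff_mk]
  exact nsmul_mem (hx.mem_bigI k) _

theorem NF_evK_C_mem {a : L} (ha : a ∈ bigI F p) : evK F p (PowerSeries.C a) ∈ NF_J F p := by
  classical
  refine NF_evK_mem F p _ fun k => ?_
  rw [PowerSeries.coeff_C]
  split_ifs
  · exact ha
  · exact zero_mem _

theorem NF_hasSubst_pair {K : Type} [CommRing K] {Φ : PowerSeries K}
    (h0 : PowerSeries.constantCoeff Φ = 0) :
    HasSubst ![PowerSeries.subst (X 0 : MvPowerSeries (Fin 2) K) Φ,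
        PowerSeries.subst (X 1 : MvPowerSeries (Fin 2) K) Φ] := by
  refine hasSubst_of_constantCoeff_zero fun s => ?_
  fin_cases s
  · exact PowerSeries.constantCoeff_subst_eq_zero (by simp) _ h0
  · exact PowerSeries.constantCoeff_subst_eq_zero (by simp) _ h0

theorem NF_frob_map [Fact p.Prime] (φ : L →+* Tate F p) (hφ : IsFrob F p φ) :
    (F.map ((toKK F p).comp φ)).toPowerSeries.subst
      ![PowerSeries.subst (X 0 : MvPowerSeries (Fin 2) (KK F p)) ((Phi F p).map (toKK F p)),
        PowerSeries.subst (X 1 : MvPowerSeries (Fin 2) (KK F p)) ((Phi F p).map (toKK F p))] =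
      PowerSeries.subst (F.map ((evK F p).comp PowerSeries.C)).toPowerSeries
        ((Phi F p).map (toKK F p)) := by
  have h0 : PowerSeries.constantCoeff (Phi F p) = 0 := by
    rw [← PowerSeries.coeff_zero_eq_constantCoeff]
    exact Phi_zero F p
  have h1 := congrArg (MvPowerSeries.map (toKK F p)) hφ
  have hc : PowerSeries.HasSubst (F.map (cst F p)).toPowerSeries := by
    unfold PowerSeries.HasSubst
    rw [FormalGroup.zero_constantCoeff]
    exact IsNilpotent.zero
  rw [MvPowerSeries.map_subst (NF_hasSubst_pair h0), PowerSeries.map_subst hc] at h1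
  have h2 : (fun i => MvPowerSeries.map (toKK F p) (![PowerSeries.subst
      (X 0 : MvPowerSeries (Fin 2) (Tate F p)) (Phi F p),
        PowerSeries.subst (X 1 : MvPowerSeries (Fin 2) (Tate F p)) (Phi F p)] i)) =
      ![PowerSeries.subst (X 0 : MvPowerSeries (Fin 2) (KK F p)) ((Phi F p).map (toKK F p)),
        PowerSeries.subst (X 1 : MvPowerSeries (Fin 2) (KK F p)) ((Phi F p).map (toKK F p))] := by
    funext i
    fin_cases i
    · simp only [Fin.zero_eta, Matrix.cons_val_zero]
      rw [PowerSeries.map_subst (PowerSeries.HasSubst.X 0), MvPowerSeries.map_X]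
    · simp only [Fin.mk_one, Matrix.cons_val_one, Matrix.cons_val_fin_one]
      rw [PowerSeries.map_subst (PowerSeries.HasSubst.X 1), MvPowerSeries.map_X]
  rw [h2] at h1
  exact h1

theorem NF_Phi_coeff [Fact p.Prime] (hu : IsUnit (eul F p)) {x : ℕ → L} (hx : IsGen F p x)
    {ε' : KK F p} (hE : EvData F p (evK F p) ε') :
    ∀ k, PowerSeries.coeff k ((Phi F p).map (toKK F p)) =
      evK F p PowerSeries.X * (ε' ^ k * ((if k = 1 then 1 else 0) +
      (if k = p then (-1) ^ p else 0) - Xi x (evK F p) (fun m => (Up p m).coeff k))) := by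
  refine norm_coeff hE hx _ ?_
  have h1 : PowerSeries.C (∏ i ∈ Finset.Ico 1 p, evK F p (mulE F i)) =
      (PowerSeries.C (eul F p)).map (toKK F p) := by
    rw [PowerSeries.map_C, eul]
    refine congrArg _ ?_
    rw [map_prod]
    rfl
  rw [h1, ← map_mul, Phi, ← mul_assoc, ← map_mul, Ring.mul_inverse_cancel _ hu, map_one, one_mul,
    map_prod]
  refine Finset.prod_congr rfl fun i _ => ?_
  ext k
  rw [PowerSeries.coeff_map, fib, PowerSeries.coeff_mk, PowerSeries.coeff_mk]
  rfl

theorem NF_frob_mem [Fact p.Prime] (hu : IsUnit (eul F p)) (φ : L →+* Tate F p)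
    (hφ : IsFrob F p φ) {x : ℕ → L} (hx : IsGen F p x) (y : L) (hy : y ∈ bigI F p) :
    toKK F p (φ y) ∈ NF_J F p := by
  obtain ⟨ε', hE⟩ := evK_data F p
  have hp : p.Prime := Fact.out
  have hpJ : ((p : ℕ) : KK F p) ∈ NF_J F p := by
    have := NF_evK_C_mem F p (a := (p : L)) (Ideal.mem_sup_left (Ideal.subset_span rfl))
    rwa [map_natCast, map_natCast] at this
  have h0 : PowerSeries.constantCoeff (Phi F p) = 0 := by
    rw [← PowerSeries.coeff_zero_eq_constantCoeff]
    exact Phi_zero F p
  have hΦ : PowerSeries.coeff 0 ((Phi F p).map (toKK F p)) = 0 := by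
    rw [PowerSeries.coeff_map, PowerSeries.coeff_zero_eq_constantCoeff, h0, map_zero]
  have hc := NF_Phi_coeff F p hu hx hE
  have hΦ1 : ∀ k, PowerSeries.coeff k ((Phi F p).map (toKK F p)) -
      PowerSeries.coeff k (PowerSeries.X - PowerSeries.C (ε' ^ (p - 1)) * PowerSeries.X ^ p) ∈
        NF_J F p := by
    intro k
    have hX := NF_Xi_mem F p hx (fun m => (Up p m).coeff k)
    have hi := hE.inv
    rw [hc, map_sub, PowerSeries.coeff_X, PowerSeries.coeff_C_mul, PowerSeries.coeff_X_pow]
    by_cases h1 : k = 1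
    · subst h1
      have hp1 : (1 : ℕ) ≠ p := hp.one_lt.ne
      rw [if_pos rfl, if_neg hp1, if_neg hp1]
      have : evK F p PowerSeries.X * (ε' ^ 1 * (1 + 0 -
          Xi x (evK F p) (fun m => (Up p m).coeff 1))) - (1 - ε' ^ (p - 1) * 0) =
          - Xi x (evK F p) (fun m => (Up p m).coeff 1) := by
        linear_combination (1 - Xi x (evK F p) (fun m => (Up p m).coeff 1)) * hi
      rw [this]
      exact neg_mem hX
    · by_cases h2 : k = p
      · subst h2
        rw [if_neg h1, if_pos rfl, if_pos rfl]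
        have e1 : ε' ^ k = ε' ^ (k - 1) * ε' := by
          rw [← pow_succ]; congr 1; have := hp.one_lt; omega
        have : evK F k PowerSeries.X * (ε' ^ k * (0 + (-1) ^ k -
            Xi x (evK F k) (fun m => (Up k m).coeff k))) - (0 - ε' ^ (k - 1) * 1) =
            ε' ^ (k - 1) * ((-1) ^ k + 1) -
              ε' ^ (k - 1) * Xi x (evK F k) (fun m => (Up k m).coeff k) := by
          rw [e1]
          linear_combination (ε' ^ (k - 1) * ((-1) ^ k -
            Xi x (evK F k) (fun m => (Up k m).coeff k))) * hi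
        rw [this]
        refine sub_mem (Ideal.mul_mem_left _ _ ?_) (Ideal.mul_mem_left _ _ hX)
        rcases hp.eq_two_or_odd' with h | h
        · subst h
          convert hpJ using 1
          norm_num
        · rw [h.neg_one_pow]
          simp
      · rw [if_neg h1, if_neg h2, if_neg h2]
        have : evK F p PowerSeries.X * (ε' ^ k * (0 + 0 -
            Xi x (evK F p) (fun m => (Up p m).coeff k))) - (0 - ε' ^ (p - 1) * 0) =
            (- (evK F p PowerSeries.X * ε' ^ k)) * Xi x (evK F p) (fun m => (Up p m).coeff k) := by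
          ring
        rw [this]
        exact Ideal.mul_mem_left _ _ hX
  have hA := (absA p (NF_J F p) (fun a ha b hb => NF_J_mul F p a b ha hb) hpJ (ε' ^ (p - 1))
    ((Phi F p).map (toKK F p)) hΦ hΦ1 (F.map ((evK F p).comp PowerSeries.C)).toPowerSeries
    (F.map ((toKK F p).comp φ)).toPowerSeries (FormalGroup.zero_constantCoeff _) ?_
    (NF_frob_map F p φ hφ)).1
  · have hmap : ∀ d, (F.map ((toKK F p).comp φ)).toPowerSeries.coeff d =
        toKK F p (φ (F.toPowerSeries.coeff d)) := fun d => by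
      rw [FormalGroup.map_toPowerSeries, coeff_map]; rfl
    have hcf : ∀ i j, 2 ≤ i + j → toKK F p (φ (cf F i j)) ∈ NF_J F p := by
      intro i j hij
      classical
      have := hA (Finsupp.single 0 i + Finsupp.single 1 j)
      rw [map_sub, map_sub, hmap, coeff_X, coeff_X, if_neg, if_neg, sub_zero, sub_zero] at this
      · exact this
      · intro h
        have h1 := DFunLike.congr_fun h 0
        have h2 := DFunLike.congr_fun h 1
        simp at h1 h2
        omega
      · intro h
        have h1 := DFunLike.congr_fun h 0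
        have h2 := DFunLike.congr_fun h 1
        simp at h1 h2
        omega
    have hle : bigI F p ≤ (NF_J F p).comap ((toKK F p).comp φ) := by
      rw [bigI, augI]
      refine sup_le ?_ ?_
      · rw [Ideal.span_le, Set.singleton_subset_iff]
        change toKK F p (φ (p : L)) ∈ NF_J F p
        rwa [map_natCast, map_natCast]
      · rw [Ideal.span_le]
        rintro _ ⟨i, j, hij, rfl⟩
        exact hcf i j hij
    exact hle hy
  · intro d
    have : coeff d ((F.map ((evK F p).comp PowerSeries.C)).toPowerSeries - X 0 - X 1) =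
        evK F p (PowerSeries.C (coeff d (F.toPowerSeries - X 0 - X 1))) := by
      have e1 : (F.map ((evK F p).comp PowerSeries.C)).toPowerSeries - X 0 - X 1 =
          MvPowerSeries.map ((evK F p).comp PowerSeries.C) (F.toPowerSeries - X 0 - X 1) := by
        rw [map_sub, map_sub, MvPowerSeries.map_X, MvPowerSeries.map_X,
          FormalGroup.map_toPowerSeries]
      rw [e1, coeff_map]
      rfl
    rw [this]
    exact NF_evK_C_mem F p (augI_le F p (NF_gamma F d))

theorem NF_cong_sq [Fact p.Prime] (hu : IsUnit (eul F p)) (φ : L →+* Tate F p)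
    (hφ : IsFrob F p φ) {x : ℕ → L} (hx : IsGen F p x) (y : L) (hy : y ∈ bigI F p ^ 2) :
    φ y ∈ sqI F p := by
  have h1 : bigI F p ≤ (NF_J F p).comap ((toKK F p).comp φ) :=
    fun z hz => NF_frob_mem F p hu φ hφ hx z hz
  have h2 : bigI F p ^ 2 ≤ (⊥ : Ideal (KK F p)).comap ((toKK F p).comp φ) := by
    rw [pow_two, Ideal.mul_le]
    intro a ha b hb
    rw [Ideal.mem_comap, map_mul, Ideal.mem_bot]
    exact NF_J_mul F p _ _ (h1 ha) (h1 hb)
  exact Ideal.Quotient.eq_zero_iff_mem.1 (h2 hy)


/-! ### normal forms -/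

theorem NF_ser_add (c c' : ℕ → L) : ser F p (fun k => c k + c' k) = ser F p c + ser F p c' := by
  rw [ser, ser, ser, ← map_add]
  congr 1

theorem NF_ser_sub (c c' : ℕ → L) : ser F p (fun k => c k - c' k) = ser F p c - ser F p c' := by
  rw [ser, ser, ser, ← map_sub]
  congr 1

theorem NF_ser_zero : ser F p (fun _ => (0 : L)) = 0 := by
  rw [ser, ← map_zero (evE F p)]
  congr 1

theorem NF_ser_int (n : ℤ) (c : ℕ → L) : ser F p (fun k => (n : L) * c k) = n * ser F p c := by
  have h : (PowerSeries.mk fun k => (n : L) * c k) = PowerSeries.C (n : L) * PowerSeries.mk c := by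
    ext k
    rw [PowerSeries.coeff_C_mul, PowerSeries.coeff_mk, PowerSeries.coeff_mk]
  rw [ser, ser, h, map_mul, map_intCast, map_intCast]

theorem NF_lam_zero : lam p 0 0 = 0 := by
  unfold lam mu
  simp

theorem NF_lam_mem {x : ℕ → L} (hx : IsGen F p x) (n k : ℕ) :
    (lam p n (n + k)).val • x (n + k) ∈ augI F := by
  by_cases h : 1 ≤ n + k
  · exact nsmul_mem (hx.mem _ h) _
  · have hn : n = 0 := by omega
    have hk : k = 0 := by omega
    subst hn hk
    rw [add_zero, NF_lam_zero, ZMod.val_zero, zero_smul]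
    exact zero_mem _

theorem NF_smul (l : L) (m : (bigI F p).Cotangent) :
    (Ideal.Quotient.mk (bigI F p) l) • m = l • m :=
  algebraMap_smul (L ⧸ bigI F p) l m

/-- Existence: `I` is generated modulo `I²` by the `x_n` over the integers (`exists_int`), `φ` maps `I²` to
classes of series with coefficients in `I²` (`NF_cong_sq`), and `frob_formula`. -/
theorem nf_exists [Fact p.Prime] (hF : IsUniversal F) (φ : L →+* Tate F p) (hφ : IsFrob F p φ)
    (hu : IsUnit (eul F p)) (x : ℕ → L) (hx : IsGen F p x) (y : L) (hy : y ∈ bigI F p) :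
    ∃ c : ℕ → L, (∀ k, c k ∈ augI F) ∧ Cong F p (φ y) (ser F p c) := by
  have hsq := NF_cong_sq F p hu φ hφ hx
  have hspan : (bigI F p).toCotangent ⟨y, hy⟩ ∈ Submodule.span (L ⧸ bigI F p)
      (Set.range fun n => (bigI F p).toCotangent ⟨x n, hx.mem_bigI n⟩) := by
    rw [(gen_basis F p hF x hx).2]
    trivial
  have key : ∀ m ∈ Submodule.span (L ⧸ bigI F p)
      (Set.range fun n => (bigI F p).toCotangent ⟨x n, hx.mem_bigI n⟩),
      ∀ y : bigI F p, (bigI F p).toCotangent y = m →
        ∃ c : ℕ → L, (∀ k, c k ∈ augI F) ∧ φ y - ser F p c ∈ sqI F p := by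
    intro m hm
    induction hm using Submodule.span_induction with
    | mem m hm =>
      obtain ⟨n, rfl⟩ := hm
      intro y hy
      refine ⟨_, NF_lam_mem F p hx n, ?_⟩
      have h1 := (cong_iff F p _ _).1 (frob_formula F p hu φ hφ x hx n)
      have h2 := hsq _ ((bigI F p).toCotangent_eq.1 hy)
      have h3 := add_mem h2 h1
      rwa [map_sub, sub_add_sub_cancel] at h3
    | zero =>
      intro y hy
      refine ⟨fun _ => 0, fun _ => zero_mem _, ?_⟩
      rw [NF_ser_zero, sub_zero]
      exact hsq _ (((bigI F p).toCotangent_eq_zero y).1 hy)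
    | add m m' _ _ ih ih' =>
      intro y hy
      obtain ⟨y1, rfl⟩ := (bigI F p).toCotangent_surjective m
      obtain ⟨y2, rfl⟩ := (bigI F p).toCotangent_surjective m'
      obtain ⟨c1, h1, h1'⟩ := ih y1 rfl
      obtain ⟨c2, h2, h2'⟩ := ih' y2 rfl
      refine ⟨fun k => c1 k + c2 k, fun k => add_mem (h1 k) (h2 k), ?_⟩
      rw [← map_add, (bigI F p).toCotangent_eq] at hy
      have h3 := add_mem (hsq _ hy) (add_mem h1' h2')
      rw [NF_ser_add]
      convert h3 using 1
      rw [map_sub, Submodule.coe_add, map_add]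
      ring
    | smul r m _ ih =>
      intro y hy
      obtain ⟨l, rfl⟩ := Ideal.Quotient.mk_surjective r
      obtain ⟨y1, rfl⟩ := (bigI F p).toCotangent_surjective m
      obtain ⟨c1, h1, h1'⟩ := ih y1 rfl
      obtain ⟨n, hn⟩ := exists_int F hF l
      refine ⟨fun k => (n : L) * c1 k, fun k => Ideal.mul_mem_left _ _ (h1 k), ?_⟩
      rw [NF_smul, ← map_smul, (bigI F p).toCotangent_eq] at hy
      have h2 : (l - n) * (y1 : L) ∈ bigI F p ^ 2 := by
        rw [pow_two]
        exact Ideal.mul_mem_mul (augI_le F p hn) y1.2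
      have h3 := add_mem (hsq _ hy) (hsq _ h2)
      have h4 := add_mem h3 (Ideal.mul_mem_left _ (n : Tate F p) h1')
      rw [NF_ser_int]
      convert h4 using 1
      rw [map_sub, map_mul, map_sub, map_intCast, Submodule.coe_smul, smul_eq_mul, map_mul]
      ring
  obtain ⟨c, h1, h2⟩ := key _ hspan ⟨y, hy⟩ rfl
  exact ⟨c, h1, (cong_iff F p _ _).2 h2⟩

end Pool.Agent.MUDL
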