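import Mathlib
import Pool.Agent.Lib.MP_eb0266_gt.NF
import Pool.Agent.Lib.MP_eb0266_gt.Frob
import Pool.Agent.Lib.MP_eb0266_gt.Laz
import Pool.Agent.Lib.MP_eb0266_gt.Ext

/-! The main theorem for the operations `Q^s`, natural `s`. -/

set_option autoImplicit false

namespace Pool.Agent.MUDL

open MvPowerSeries

variable {L : Type} [CommRing L] (F : FormalGroup L) (p : ℕ)

/-- the operations `Q^s`, natural `s`, by themselves -/
structure IsDLN (φ : L →+* Tate F p) (Q : ℕ → DA F p →+ DA F p) : Prop where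
  one : ∀ s, Q s 1 = if s = 0 then 1 else 0
  cartan : ∀ s a b, Q s (a * b) = ∑ i ∈ Finset.range (s + 1), Q i a * Q (s - i) b
  gen : ∀ (y : L) (hy : y ∈ bigI F p) (c : ℕ → L) (hc : ∀ k, c k ∈ augI F),
    Cong F p (φ y) (ser F p c) → ∀ s : ℕ,
      Q s (sig F p y hy) = (-1) ^ s * sig F p (c (s * (p - 1))) (augI_le F p (hc _))

theorem NF_sig_nsmul (n : ℕ) (y : L) (hy : y ∈ bigI F p) (hy' : n • y ∈ bigI F p) :
    sig F p (n • y) hy' = n • sig F p y hy := by
  rw [sig, sig, ← map_nsmul, ← map_nsmul]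
  rfl

theorem NF_p_sig (y : L) (hy : y ∈ bigI F p) : p • sig F p y hy = 0 := by
  rw [sig, ← map_nsmul, ← map_nsmul]
  have : (bigI F p).toCotangent (p • ⟨y, hy⟩) = 0 := by
    rw [Ideal.toCotangent_eq_zero]
    have h : ((p • (⟨y, hy⟩ : bigI F p) : bigI F p) : L) = (p : L) * y := by
      rw [Submodule.coe_smul_of_tower, nsmul_eq_mul]
    rw [h, pow_two]
    exact Ideal.mul_mem_mul (Ideal.mem_sup_left (Ideal.subset_span rfl)) hy
  rw [this, map_zero]

theorem NF_final [Fact p.Prime] (w : DA F p) (hw : p • w = 0) (n s : ℕ) :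
    (-1) ^ s * ((mu p n s).val • w) = (dl p n s).val • w := by
  have h1 : ((p : ℤ)) ∣ ((dl p n s).val : ℤ) - (-1) ^ s * ((mu p n s).val : ℤ) := by
    rw [← ZMod.intCast_eq_intCast_iff_dvd_sub]
    push_cast
    rw [ZMod.natCast_zmod_val, ZMod.natCast_zmod_val]
    rfl
  obtain ⟨k, hk⟩ := h1
  have h2 : ((dl p n s).val : ℤ) = (-1) ^ s * ((mu p n s).val : ℤ) + p * k := by
    rw [← hk]; ring
  have h3 : (dl p n s).val • w = ((dl p n s).val : ℤ) • w := (natCast_zsmul _ _).symm
  have h4 : ((p : ℤ) * k) • w = 0 := by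
    rw [mul_comm, mul_smul, natCast_zsmul, hw, smul_zero]
  rw [h3, h2, add_smul, h4, add_zero, mul_smul, natCast_zsmul, zsmul_eq_mul]
  push_cast
  rfl

theorem mainN (p : ℕ) [Fact p.Prime] (L : Type) [CommRing L] (F : FormalGroup L)
    (hF : IsUniversal F) :
    ∃ φ : L →+* Tate F p, (∀ ψ : L →+* Tate F p, IsFrob F p ψ ↔ ψ = φ) ∧
    ∃ Q : ℕ → DA F p →+ DA F p, (∀ Q' : ℕ → DA F p →+ DA F p, IsDLN F p φ Q' ↔ Q' = Q) ∧
    (∃ x, IsGen F p x) ∧
    ∀ (x : ℕ → L) (hx : IsGen F p x),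
      (LinearIndependent (L ⧸ bigI F p)
          (fun n => (bigI F p).toCotangent ⟨x n, hx.mem_bigI n⟩) ∧
        Submodule.span (L ⧸ bigI F p)
          (Set.range fun n => (bigI F p).toCotangent ⟨x n, hx.mem_bigI n⟩) = ⊤) ∧
      ∀ n s : ℕ, Q s (sig F p (x n) (hx.mem_bigI n)) =
        (dl p n s).val • sig F p (x (n + s * (p - 1))) (hx.mem_bigI _) := by
  have hp : p.Prime := Fact.out
  obtain ⟨φ, hφ⟩ := exists_frob F p hF
  have hφ' : IsFrob F p φ := (hφ φ).2 rfl
  have hu := isUnit_eul F p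
  obtain ⟨x₀, hx₀⟩ := exists_gen F p hF.1
  have hsq := NF_cong_sq F p hu φ hφ' hx₀
  have hex : ∀ y : bigI F p, ∃ c : ℕ → L, (∀ k, c k ∈ augI F) ∧ Cong F p (φ y) (ser F p c) :=
    fun y => nf_exists F p hF φ hφ' hu x₀ hx₀ y.1 y.2
  choose c hc1 hc2 using hex
  choose r hr using (bigI F p).toCotangent_surjective
  -- the value on a class
  let val : (bigI F p).Cotangent → ℕ → (bigI F p).Cotangent := fun m s =>
    ((-1 : ℤ) ^ s) • (bigI F p).toCotangent ⟨c (r m) (s * (p - 1)), augI_le F p (hc1 _ _)⟩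
  have key : ∀ (y : bigI F p) (c' : ℕ → L) (hc' : ∀ k, c' k ∈ augI F),
      Cong F p (φ y) (ser F p c') → ∀ s, val ((bigI F p).toCotangent y) s =
        ((-1 : ℤ) ^ s) • (bigI F p).toCotangent ⟨c' (s * (p - 1)), augI_le F p (hc' _)⟩ := by
    intro y c' hc' h s
    change ((-1 : ℤ) ^ s) • (bigI F p).toCotangent
      ⟨c (r ((bigI F p).toCotangent y)) (s * (p - 1)), augI_le F p (hc1 _ _)⟩ = _
    refine congrArg (fun m => ((-1 : ℤ) ^ s) • m) ?_
    rw [(bigI F p).toCotangent_eq]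
    refine nf_unique F p hF (fun k => c (r ((bigI F p).toCotangent y)) k - c' k)
      (fun k => sub_mem (hc1 _ _) (hc' k)) ?_ _
    rw [cong_iff, sub_zero, NF_ser_sub]
    have h1 := (cong_iff F p _ _).1 (hc2 (r ((bigI F p).toCotangent y)))
    have h2 := (cong_iff F p _ _).1 h
    have h3 := hsq _ ((bigI F p).toCotangent_eq.1 (hr ((bigI F p).toCotangent y)))
    have h4 := add_mem (sub_mem h3 h1) h2
    convert h4 using 1
    rw [map_sub]
    ring
  let q : ℕ → (bigI F p).Cotangent →+ (bigI F p).Cotangent := fun s =>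
    { toFun := fun m => val m s
      map_zero' := by
        have h := key 0 (fun _ => 0) (fun _ => zero_mem _) (by
          rw [cong_iff, NF_ser_zero, sub_zero, ZeroMemClass.coe_zero, map_zero]
          exact zero_mem _) s
        rw [map_zero] at h
        rw [h]
        have : (⟨0, augI_le F p (zero_mem _)⟩ : bigI F p) = 0 := rfl
        rw [this, map_zero, smul_zero]
      map_add' := by
        intro m m'
        have h := key (r m + r m') (fun k => c (r m) k + c (r m') k)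
          (fun k => add_mem (hc1 _ _) (hc1 _ _)) (by
            rw [cong_iff, NF_ser_add, Submodule.coe_add, map_add]
            have h1 := (cong_iff F p _ _).1 (hc2 (r m))
            have h2 := (cong_iff F p _ _).1 (hc2 (r m'))
            convert add_mem h1 h2 using 1
            ring) s
        rw [map_add, hr, hr] at h
        rw [h, ← smul_add, ← map_add]
        rfl }
  have hq : ∀ (y : bigI F p) (c' : ℕ → L) (hc' : ∀ k, c' k ∈ augI F),
      Cong F p (φ y) (ser F p c') → ∀ s, ExteriorAlgebra.ι (L ⧸ bigI F p)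
        (q s ((bigI F p).toCotangent y)) =
          (-1) ^ s * sig F p (c' (s * (p - 1))) (augI_le F p (hc' _)) := by
    intro y c' hc' h s
    have h1 : q s ((bigI F p).toCotangent y) = _ := key y c' hc' h s
    rw [h1, map_zsmul, zsmul_eq_mul, sig]
    push_cast
    rfl
  obtain ⟨Q, ⟨hQ1, hQ2, hQ3⟩, hQu⟩ := ext_ops (R := L ⧸ bigI F p)
    (M := (bigI F p).Cotangent) (by
      intro t
      obtain ⟨l, rfl⟩ := Ideal.Quotient.mk_surjective t
      obtain ⟨k, hk⟩ := exists_int F hF l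
      refine ⟨k, ?_⟩
      rw [← map_intCast (Ideal.Quotient.mk (bigI F p)), Ideal.Quotient.eq]
      exact augI_le F p hk) q
  have hDL : IsDLN F p φ Q := by
    refine ⟨hQ1, hQ2, ?_⟩
    intro y hy c' hc' h s
    rw [sig, hQ3]
    exact hq ⟨y, hy⟩ c' hc' h s
  refine ⟨φ, hφ, Q, ?_, ⟨x₀, hx₀⟩, ?_⟩
  · intro Q'
    constructor
    · intro h
      refine hQu Q' ⟨h.one, h.cartan, ?_⟩
      intro s m
      have h1 := h.gen (r m) (r m).2 (c (r m)) (hc1 _) (hc2 _) s
      have h2 := hq (r m) (c (r m)) (hc1 _) (hc2 _) s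
      rw [sig, Subtype.coe_eta, hr] at h1
      rw [hr] at h2
      rw [h1, h2]
    · rintro rfl
      exact hDL
  · intro x hx
    refine ⟨gen_basis F p hF x hx, ?_⟩
    intro n s
    have h1 := hDL.gen (x n) (hx.mem_bigI n) (fun k => (lam p n (n + k)).val • x (n + k))
      (NF_lam_mem F p hx n) (frob_formula F p hu φ hφ' x hx n) s
    have h2 : lam p n (n + s * (p - 1)) = mu p n s := by
      unfold lam
      have h3 : n + s * (p - 1) - n = s * (p - 1) := by omega
      have h4 : 0 < p - 1 := by have := hp.one_lt; omega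
      rw [h3, if_pos (dvd_mul_left _ _), Nat.mul_div_cancel _ h4]
    rw [h1]
    simp only [h2]
    rw [NF_sig_nsmul F p _ _ (hx.mem_bigI _)]
    exact NF_final F p _ (NF_p_sig F p _ _) n s

end Pool.Agent.MUDL
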