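import Mathlib
import Pool.Agent.Lib.MP_eb0266_gt.MainN

/-! The main theorem for all the operations: `Q^s` and `β Q^s`, every integer `s`. -/

set_option autoImplicit false

namespace Pool.Agent.MUDL

noncomputable section

variable {L : Type} [CommRing L] (F : FormalGroup L) (p : ℕ)

variable {F p}

/-- a sum over `[0, s]` in `ℤ` is a sum over `range (s + 1)` -/
theorem all_sum {M : Type} [AddCommMonoid M] (s : ℕ) (f : ℤ → M) :
    ∑ i ∈ Finset.Icc (0 : ℤ) s, f i = ∑ i ∈ Finset.range (s + 1), f (i : ℤ) := by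
  symm
  refine Finset.sum_bij' (fun i _ => (i : ℤ)) (fun i _ => i.toNat) ?_ ?_ ?_ ?_ ?_
  · intro i hi
    simp only [Finset.mem_range, Finset.mem_Icc] at hi ⊢
    omega
  · intro i hi
    simp only [Finset.mem_range, Finset.mem_Icc] at hi ⊢
    omega
  · intro i hi
    simp
  · intro i hi
    simp only [Finset.mem_Icc] at hi
    simp [hi.1]
  · intro i hi
    rfl

theorem all_B_zero {φ : L →+* Tate F p} {Q B : ℤ → DA F p →+ DA F p} (hF : IsUniversal F)
    (h : IsDL F p φ Q B) : B = 0 := by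
  have key : ∀ a : DA F p, ∀ s, B s a = 0 := by
    intro a
    induction a using ExteriorAlgebra.induction with
    | algebraMap r =>
      intro s
      obtain ⟨y, rfl⟩ := Ideal.Quotient.mk_surjective r
      obtain ⟨k, hk⟩ := exists_int F hF y
      have h1 : (Ideal.Quotient.mk (bigI F p) y) = (k : L ⧸ bigI F p) := by
        rw [← sub_eq_zero, ← map_intCast (Ideal.Quotient.mk (bigI F p)) k, ← map_sub]
        exact Ideal.Quotient.eq_zero_iff_mem.2 (augI_le F p hk)
      rw [h1, map_intCast]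
      have h2 : ((k : ℤ) : DA F p) = k • (1 : DA F p) := by simp
      rw [h2, map_zsmul, h.bone, smul_zero]
    | ι m =>
      intro s
      obtain ⟨⟨y, hy⟩, rfl⟩ := Ideal.toCotangent_surjective (bigI F p) m
      exact h.bgen s y hy
    | mul a b ha hb =>
      intro s
      rw [h.bcartan]
      refine Finset.sum_eq_zero fun i _ => ?_
      rw [ha, hb, zero_mul, mul_zero, add_zero]
    | add a b ha hb =>
      intro s
      rw [map_add, ha, hb, add_zero]
  funext s
  ext a
  simpa using key a s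

/-- extension by zero to negative `s` -/
def extZ (Q : ℕ → DA F p →+ DA F p) (s : ℤ) : DA F p →+ DA F p :=
  if 0 ≤ s then Q s.toNat else 0

theorem extZ_nat (Q : ℕ → DA F p →+ DA F p) (s : ℕ) : extZ Q (s : ℤ) = Q s := by
  simp [extZ]

theorem extZ_neg (Q : ℕ → DA F p →+ DA F p) (s : ℤ) (hs : s < 0) : extZ Q s = 0 := by
  unfold extZ
  rw [if_neg (by omega)]

theorem all_iff {φ : L →+* Tate F p} (hF : IsUniversal F) (Q : ℕ → DA F p →+ DA F p)
    (hQ : ∀ Q' : ℕ → DA F p →+ DA F p, IsDLN F p φ Q' ↔ Q' = Q) (Q' B' : ℤ → DA F p →+ DA F p) :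
    IsDL F p φ Q' B' ↔ Q' = extZ Q ∧ B' = 0 := by
  constructor
  · intro h
    refine ⟨?_, all_B_zero hF h⟩
    have hB := all_B_zero hF h
    have h1 : IsDLN F p φ (fun s : ℕ => Q' (s : ℤ)) := by
      refine ⟨?_, ?_, ?_⟩
      · intro s
        have := h.one (s : ℤ)
        simpa using this
      · intro s a b
        have h2 := h.cartan (s : ℤ) a b
        have h0 : (if p = 2 then ∑ i ∈ Finset.Icc 0 ((s : ℤ) + 1), B' i a * B' ((s : ℤ) + 1 - i) b
            else 0) = 0 := by
          rw [hB]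
          simp
        rw [h0, add_zero, all_sum] at h2
        show Q' (s : ℤ) (a * b) = _
        rw [h2]
        refine Finset.sum_congr rfl fun i hi => ?_
        have h3 : i ≤ s := by
          have := Finset.mem_range.1 hi
          omega
        have h4 : (s : ℤ) - (i : ℤ) = ((s - i : ℕ) : ℤ) := by omega
        rw [h4]
      · exact h.gen
    have h5 := (hQ _).1 h1
    funext s
    rcases lt_or_ge s 0 with hs | hs
    · rw [extZ_neg Q s hs]
      exact h.neg s hs
    · obtain ⟨k, rfl⟩ := Int.eq_ofNat_of_zero_le hs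
      rw [extZ_nat]
      exact congrFun h5 k
  · rintro ⟨rfl, rfl⟩
    have h := (hQ Q).2 rfl
    refine ⟨?_, fun s _ => rfl, ?_, fun s => rfl, ?_, ?_, ?_, fun s y hy => rfl⟩
    · intro s hs
      exact extZ_neg Q s hs
    · intro s
      rcases lt_or_ge s 0 with hs | hs
      · rw [extZ_neg Q s hs, if_neg (by omega)]
        rfl
      · obtain ⟨k, rfl⟩ := Int.eq_ofNat_of_zero_le hs
        rw [extZ_nat, h.one]
        simp
    · intro s a b
      have h0 : (if p = 2 then ∑ i ∈ Finset.Icc 0 (s + 1), (0 : ℤ → DA F p →+ DA F p) i a *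
          (0 : ℤ → DA F p →+ DA F p) (s + 1 - i) b else 0) = 0 := by
        simp
      rw [h0, add_zero]
      rcases lt_or_ge s 0 with hs | hs
      · rw [extZ_neg Q s hs, Finset.Icc_eq_empty (by omega)]
        rfl
      · obtain ⟨k, rfl⟩ := Int.eq_ofNat_of_zero_le hs
        rw [extZ_nat, h.cartan, all_sum]
        refine Finset.sum_congr rfl fun i hi => ?_
        have h3 : i ≤ k := by
          have := Finset.mem_range.1 hi
          omega
        have h4 : (k : ℤ) - (i : ℤ) = ((k - i : ℕ) : ℤ) := by omega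
        rw [h4, extZ_nat, extZ_nat]
    · intro s a b
      simp
    · intro y hy c hc hcong s
      rw [extZ_nat]
      exact h.gen y hy c hc hcong s

end

theorem main (p : ℕ) [Fact p.Prime] (L : Type) [CommRing L] (F : FormalGroup L)
    (hF : IsUniversal F) :
    ∃ φ : L →+* Tate F p, (∀ ψ : L →+* Tate F p, IsFrob F p ψ ↔ ψ = φ) ∧
    ∃ Q : ℤ → DA F p →+ DA F p,
      (∀ Q' B' : ℤ → DA F p →+ DA F p, IsDL F p φ Q' B' ↔ Q' = Q ∧ B' = 0) ∧
    (∃ x, IsGen F p x) ∧
    ∀ (x : ℕ → L) (hx : IsGen F p x),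
      (LinearIndependent (L ⧸ bigI F p)
          (fun n => (bigI F p).toCotangent ⟨x n, hx.mem_bigI n⟩) ∧
        Submodule.span (L ⧸ bigI F p)
          (Set.range fun n => (bigI F p).toCotangent ⟨x n, hx.mem_bigI n⟩) = ⊤) ∧
      ∀ n s : ℕ, Q s (sig F p (x n) (hx.mem_bigI n)) =
        (dl p n s).val • sig F p (x (n + s * (p - 1))) (hx.mem_bigI _) := by
  obtain ⟨φ, h1, Q, h2, h3, h4⟩ := mainN p L F hF
  refine ⟨φ, h1, extZ Q, all_iff hF Q h2, h3, fun x hx => ⟨(h4 x hx).1, fun n s => ?_⟩⟩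
  rw [extZ_nat]
  exact (h4 x hx).2 n s

end Pool.Agent.MUDL
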