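import Mathlib
import Pool.Agent.Lib.MP_eb0266_gt.Main

/-!
# The Dyer-Lashof operations on the `MU`-dual Steenrod algebra: the definitions of the statement

`F` is a commutative formal group law over `L` (for `π_* MU`: the universal one, over the Lazard ring),
`e` is a formal variable, `TateR F p = L((e)) / ([p]_F(e))` is the ring `π_* MU^{tC_p}`.
-/

set_option autoImplicit false

namespace Pool.Agent.MUDL

open MvPowerSeries

noncomputable section

variable {L : Type} [CommRing L] (F : FormalGroup L) (p : ℕ)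

/-- The ring `L((e)) / ([p]_F(e))`. -/
def TateR : Type := LaurentSeries L ⧸ Ideal.span {HahnSeries.ofPowerSeries ℤ L (mulE F p)}

instance instTateR : CommRing (TateR F p) :=
  Ideal.Quotient.commRing (Ideal.span {HahnSeries.ofPowerSeries ℤ L (mulE F p)})

/-- The class in `L((e)) / ([p]_F(e))` of a Laurent series in `e`. -/
def clsT : LaurentSeries L →+* TateR F p :=
  Ideal.Quotient.mk (Ideal.span {HahnSeries.ofPowerSeries ℤ L (mulE F p)})

/-- The class in `L((e)) / ([p]_F(e))` of a power series in `e`. -/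
def evT (f : PowerSeries L) : TateR F p := clsT F p (HahnSeries.ofPowerSeries ℤ L f)

/-- The class of a constant. -/
def cstT : L →+* TateR F p :=
  (clsT F p).comp ((HahnSeries.ofPowerSeries ℤ L).comp PowerSeries.C)

/-- A series `G(t, e)` in `L[[t, e]]`, `t = X 0`, `e = X 1`, as a series in `t` over
`L((e)) / ([p]_F(e))`. -/
def fibT (G : MvPowerSeries (Fin 2) L) : PowerSeries (TateR F p) :=
  PowerSeries.mk fun k => evT F p
    (PowerSeries.mk fun j => G.coeff (Finsupp.single 0 k + Finsupp.single 1 j))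

/-- The product of the `[i]_F(e)`, `0 < i < p`; it is a unit. -/
def eulT : TateR F p := ∏ i ∈ Finset.Ico 1 p, evT F p (mulE F i)

/-- The coordinate `Φ(t) = ∏_{0 ≤ i < p} (t +_F [i]_F(e)) / ∏_{0 < i < p} [i]_F(e)` of the quotient of
`F` by the subgroup generated by `e`. -/
def PhiT : PowerSeries (TateR F p) :=
  PowerSeries.C (Ring.inverse (eulT F p)) * ∏ i ∈ Finset.range p, fibT F p (trans F i)

/-- For formal group laws `G`, `G'` over `K`: the series `f` is a homomorphism from `G'` to `G`, that is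
`G(f(X), f(Y)) = f(G'(X, Y))`. -/
def IsHomFG {K : Type} [CommRing K] (G G' : FormalGroup K) (f : PowerSeries K) : Prop :=
  G.toPowerSeries.subst (fun i => PowerSeries.subst (X i : MvPowerSeries (Fin 2) K) f) =
    PowerSeries.subst G'.toPowerSeries f

/-- `φ` is the Tate-valued Frobenius of `MU` on coefficients: it carries `F` to the quotient of `F` by
the subgroup generated by `e`, that is `(φ F)(Φ(X), Φ(Y)) = Φ(F(X, Y))`. -/
def IsFrobT (φ : L →+* TateR F p) : Prop :=
  IsHomFG (F.map φ) (F.map (cstT F p)) (PhiT F p)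

/-- `z ≡ w` modulo `I²`: the difference is the class of a Laurent series with coefficients in `I²`. -/
def CongT (z w : TateR F p) : Prop :=
  ∃ g : LaurentSeries L, (∀ k, g.coeff k ∈ bigI F p ^ 2) ∧ z - w = clsT F p g

/-- The field `L / I = F_p`. -/
def kF : Type := L ⧸ bigI F p

instance instkF : CommRing (kF F p) := Ideal.Quotient.commRing (bigI F p)

/-- The `F_p`-vector space `I / I²`. -/
def Cot : Type := (bigI F p).Cotangent

instance instCot : AddCommGroup (Cot F p) := Ideal.instAddCommGroupCotangent (bigI F p)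

instance instModCot : Module (kF F p) (Cot F p) := Ideal.instModuleQuotientCotangent (bigI F p)

/-- The class in `I / I²` of an element of `I`. -/
def cls (y : L) (hy : y ∈ bigI F p) : Cot F p := (bigI F p).toCotangent ⟨y, hy⟩

/-- The element `m` of the exterior algebra of `M`. -/
def iota (k : Type) {M : Type} [CommRing k] [AddCommGroup M] [Module k M] (m : M) :
    ExteriorAlgebra k M := ExteriorAlgebra.ι k m

/-- The grade involution `a ↦ (-1)^{|a|} a` of the exterior algebra. -/
def invol {k M : Type} [CommRing k] [AddCommGroup M] [Module k M] (a : ExteriorAlgebra k M) :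
    ExteriorAlgebra k M := CliffordAlgebra.involute a

/-- The exterior algebra of the `F_p`-vector space `I / I²`: the ring `π_* (HF_p ∧_{MU} HF_p)`. -/
def AR : Type := ExteriorAlgebra (kF F p) (Cot F p)

instance instAR : Ring (AR F p) := CliffordAlgebra.instRing 0

/-- The class `σ y` of an element `y` of `I`. -/
def sgm (y : L) (hy : y ∈ bigI F p) : AR F p := iota (kF F p) (cls F p y hy)

/-- The axioms, on a ring `A` with grade involution `inv`, for operations `Q s` (`Q^s`, or `Q^{2s}` if `p = 2`)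
and `B s` (`β Q^s`, or `Q^{2s-1}` if `p = 2`): they are additive and vanish for `s < 0`, `Q^0 1 = 1`, the other
values at `1` are `0`, and the Cartan formulas hold. -/
structure IsCartan (p : ℕ) {A : Type} [Ring A] (inv : A → A) (Q B : ℤ → A → A) : Prop where
  add : ∀ s a b, Q s (a + b) = Q s a + Q s b
  badd : ∀ s a b, B s (a + b) = B s a + B s b
  neg : ∀ s a, s < 0 → Q s a = 0
  bneg : ∀ s a, s < 0 → B s a = 0
  one : ∀ s, Q s 1 = if s = 0 then 1 else 0
  bone : ∀ s, B s 1 = 0
  cartan : ∀ s a b, Q s (a * b) = ∑ i ∈ Finset.Icc 0 s, Q i a * Q (s - i) b +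
    if p = 2 then ∑ i ∈ Finset.Icc 0 (s + 1), B i a * B (s + 1 - i) b else 0
  bcartan : ∀ s a b, B s (a * b) = ∑ i ∈ Finset.Icc 0 s,
    (B i a * Q (s - i) b + inv (Q i a) * B (s - i) b)

/-- All the operations on `A = π_* (HF_p ∧_{MU} HF_p)`: for every integer `s`, `Q s` is `Q^s` (`Q^{2s}` if
`p = 2`) and `B s` is `β Q^s` (`Q^{2s-1}` if `p = 2`). They are additive and vanish for `s < 0`, the Cartan
formulas hold, and, for `y` in `I`, `Q^s σ y = (-1)^s σ c_{s(p-1)}` and `β Q^s σ y = 0` if `φ(y) ≡ ∑ c_k e^k`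
modulo `I²`, where `c_k` is in the ideal generated by the coefficients of `F` other than those of `X` and `Y`.

Why the last two clauses hold in topology. `σ y` is the loop formed by the two null-homotopies of `y` in
`R = HF_p ∧_{MU} HF_p`, through the left and the right factor. The Tate-valued Frobenius of `R` is compatible
with `φ` and with the Frobenius of each factor. It sends the null-homotopy of `y` in `HF_p` to a null-homotopy of
`φ(y)` in `HF_p^{tC_p}`, which differs from the one given by those of the `c_k` (these are unique since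
`π_j HF_p = 0` for `j > 0`) by some `δ = a u e^{-n-1}`, `|y| = 2n`, `a` in `F_p`. So it sends `σ y` to
`∑ σ(c_k) e^k + a (u_R - u_L) e^{-n-1}`, and `u_R - u_L` is `σ(p)` plus terms divisible by `e`. The left side has
no term `σ(p) e^{-n-1}`, as `Q^t σ y = 0` for `2t < 2n + 1`. So `a = 0`, and `Q^s`, `β Q^s` are read off from the
coefficients, with the usual sign `(-1)^s`. -/
structure IsDyerLashof (φ : L →+* TateR F p) (Q B : ℤ → AR F p → AR F p) : Prop where
  cartan : IsCartan p (invol (k := kF F p) (M := Cot F p)) Q B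
  gen : ∀ (y : L) (hy : y ∈ bigI F p) (c : ℕ → L) (hc : ∀ k, c k ∈ augI F),
    CongT F p (φ y) (evT F p (PowerSeries.mk c)) → ∀ s : ℕ,
      Q s (sgm F p y hy) = (-1) ^ s * sgm F p (c (s * (p - 1))) (augI_le F p (hc _))
  bgen : ∀ (s : ℤ) (y : L) (hy : y ∈ bigI F p), B s (sgm F p y hy) = 0

/-- The `σ x_n` form a basis of `I / I²`, and `Q^s σ x_n = dl(n, s) σ x_{n + s(p-1)}`. -/
structure Values (Q : ℤ → AR F p → AR F p) (x : ℕ → L) (hx : IsGen F p x) : Prop where
  indep : LinearIndependent (kF F p) fun n => cls F p (x n) (hx.mem_bigI n)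
  span : Submodule.span (kF F p) (Set.range fun n => cls F p (x n) (hx.mem_bigI n)) = ⊤
  val : ∀ n s : ℕ, Q s (sgm F p (x n) (hx.mem_bigI n)) =
    (dl p n s).val • sgm F p (x (n + s * (p - 1))) (hx.mem_bigI _)

end

variable {L : Type} [CommRing L] (F : FormalGroup L) (p : ℕ)

set_option maxHeartbeats 400000 in
theorem isFrobT_iff (φ : L →+* TateR F p) : IsFrobT F p φ ↔ IsFrob F p φ := by
  have h : (fun i => PowerSeries.subst (X i : MvPowerSeries (Fin 2) (TateR F p)) (PhiT F p)) =
      ![PowerSeries.subst (X 0 : MvPowerSeries (Fin 2) (Tate F p)) (Phi F p),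
        PowerSeries.subst (X 1 : MvPowerSeries (Fin 2) (Tate F p)) (Phi F p)] := by
    funext i
    fin_cases i <;> rfl
  unfold IsFrobT IsFrob IsHomFG
  rw [h]
  rfl

set_option maxHeartbeats 400000 in
theorem isDyerLashof_of (φ : L →+* TateR F p) (Q B : ℤ → DA F p →+ DA F p)
    (h : IsDL F p φ Q B) : IsDyerLashof F p φ (fun s a => Q s a) (fun s a => B s a) :=
  ⟨⟨fun s a b => (Q s).map_add a b, fun s a b => (B s).map_add a b,
    fun s a hs => by have := h.neg s hs; exact DFunLike.congr_fun this a,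
    fun s a hs => by have := h.bneg s hs; exact DFunLike.congr_fun this a,
    h.one, h.bone, h.cartan, h.bcartan⟩, h.gen, h.bgen⟩

set_option maxHeartbeats 400000 in
theorem isDyerLashof_iff (φ : L →+* TateR F p) (Q B : ℤ → AR F p → AR F p)
    (h : IsDyerLashof F p φ Q B) : ∃ Q' B' : ℤ → DA F p →+ DA F p, IsDL F p φ Q' B' ∧
      Q = (fun s a => Q' s a) ∧ B = (fun s a => B' s a) := by
  refine ⟨fun s => AddMonoidHom.mk' (G := DA F p) (Q s) (h.cartan.add s),
    fun s => AddMonoidHom.mk' (G := DA F p) (B s) (h.cartan.badd s), ⟨?_, ?_, h.cartan.one, h.cartan.bone,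
      h.cartan.cartan, h.cartan.bcartan, h.gen, h.bgen⟩, rfl, rfl⟩
  · intro s hs
    ext a
    exact h.cartan.neg s a hs
  · intro s hs
    ext a
    exact h.cartan.bneg s a hs

set_option maxHeartbeats 400000 in
theorem mainT (p : ℕ) [Fact p.Prime] (L : Type) [CommRing L] (F : FormalGroup L)
    (hF : IsUniversal F) :
    ∃ φ : L →+* TateR F p, (∀ ψ : L →+* TateR F p, IsFrobT F p ψ ↔ ψ = φ) ∧
    ∃ Q : ℤ → AR F p → AR F p,
      (∀ Q' B' : ℤ → AR F p → AR F p, IsDyerLashof F p φ Q' B' ↔ Q' = Q ∧ B' = fun _ _ => 0) ∧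
      (∃ x, IsGen F p x) ∧ ∀ (x : ℕ → L) (hx : IsGen F p x), Values F p Q x hx := by
  obtain ⟨φ, h1, Q, h2, h3, h4⟩ := main p L F hF
  refine ⟨φ, fun ψ => (isFrobT_iff F p ψ).trans (h1 ψ), fun s a => Q s a,
    fun Q' B' => ⟨?_, ?_⟩, h3,
    fun x hx => ⟨(h4 x hx).1.1, (h4 x hx).1.2, (h4 x hx).2⟩⟩
  · intro h
    obtain ⟨Q1, B1, h5, rfl, rfl⟩ := isDyerLashof_iff F p φ Q' B' h
    obtain ⟨rfl, rfl⟩ := (h2 Q1 B1).1 h5
    exact ⟨rfl, rfl⟩
  · rintro ⟨rfl, rfl⟩
    exact isDyerLashof_of F p φ Q 0 ((h2 Q 0).2 ⟨rfl, rfl⟩)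

end Pool.Agent.MUDL
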